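import Pool.Agent.Helper53.OS.Base

/-! MP_195d30_co, piece DEV: development of the triangular lattice. -/

set_option autoImplicit false

namespace Pool.Agent.Helper53.OS

open Finset
open scoped Classical

/-! ### geometry of the triangular lattice -/

namespace Dev

theorem dir_cases (i : Fin 6) : (i = 0 ∧ dir i = (1, 0)) ∨ (i = 1 ∧ dir i = (0, 1)) ∨
    (i = 2 ∧ dir i = (-1, 1)) ∨ (i = 3 ∧ dir i = (-1, 0)) ∨ (i = 4 ∧ dir i = (0, -1)) ∨
    (i = 5 ∧ dir i = (1, -1)) := by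
  fin_cases i <;> simp [dir]

theorem dir_add_two (i : Fin 6) : dir i + dir (i + 2) = dir (i + 1) := by
  fin_cases i <;> decide

theorem dir_add_three (i : Fin 6) : dir i + dir (i + 3) = 0 := by
  fin_cases i <;> decide

end Dev

open Dev

theorem hn_pos (i : Fin 6) (a b : ℕ) : hn (pos i a b) = a + b := by
  have h1 := dir_cases i
  have h2 := dir_cases (i + 1)
  unfold hn pos
  fin_cases i <;> simp [dir] <;> omega

namespace Dev

theorem pos_cases (i : Fin 6) (a b : ℕ) :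
    (i = 0 ∧ pos i a b = ((a : ℤ), (b : ℤ))) ∨ (i = 1 ∧ pos i a b = (-(b : ℤ), (a : ℤ) + b)) ∨
    (i = 2 ∧ pos i a b = (-(a : ℤ) - b, (a : ℤ))) ∨ (i = 3 ∧ pos i a b = (-(a : ℤ), -(b : ℤ))) ∨
    (i = 4 ∧ pos i a b = ((b : ℤ), -(a : ℤ) - b)) ∨
    (i = 5 ∧ pos i a b = ((a : ℤ) + b, -(a : ℤ))) := by
  unfold pos
  fin_cases i <;> simp [dir] <;> omega

end Dev

open Dev

theorem exists_pos {x : ℤ × ℤ} (hx : x ≠ (0, 0)) : ∃ i a b, 1 ≤ a ∧ a + b = hn x ∧ x = pos i a b := by
  obtain ⟨p, q⟩ := x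
  suffices h : ∃ i a b, 1 ≤ a ∧ (p, q) = pos i a b by
    obtain ⟨i, a, b, ha, h⟩ := h
    exact ⟨i, a, b, ha, by rw [h, hn_pos], h⟩
  have hx' : p ≠ 0 ∨ q ≠ 0 := by
    by_contra hc
    push Not at hc
    exact hx (by rw [hc.1, hc.2])
  by_cases h0 : 1 ≤ p ∧ 0 ≤ q
  · refine ⟨0, p.toNat, q.toNat, by omega, ?_⟩
    rcases pos_cases 0 p.toNat q.toNat with h | h | h | h | h | h
    · rw [h.2]; ext <;> simp <;> omega
    all_goals exact absurd h.1 (by decide)
  by_cases h1 : 1 ≤ q + p ∧ p ≤ 0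
  · refine ⟨1, (q + p).toNat, (-p).toNat, by omega, ?_⟩
    rcases pos_cases 1 (q + p).toNat (-p).toNat with h | h | h | h | h | h
    · exact absurd h.1 (by decide)
    · rw [h.2]; ext <;> simp <;> omega
    all_goals exact absurd h.1 (by decide)
  by_cases h2 : 1 ≤ q ∧ q + p ≤ 0
  · refine ⟨2, q.toNat, (-p - q).toNat, by omega, ?_⟩
    rcases pos_cases 2 q.toNat (-p - q).toNat with h | h | h | h | h | h
    · exact absurd h.1 (by decide)
    · exact absurd h.1 (by decide)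
    · rw [h.2]; ext <;> simp <;> omega
    all_goals exact absurd h.1 (by decide)
  by_cases h3 : p ≤ -1 ∧ q ≤ 0
  · refine ⟨3, (-p).toNat, (-q).toNat, by omega, ?_⟩
    rcases pos_cases 3 (-p).toNat (-q).toNat with h | h | h | h | h | h
    · exact absurd h.1 (by decide)
    · exact absurd h.1 (by decide)
    · exact absurd h.1 (by decide)
    · rw [h.2]; ext <;> simp <;> omega
    all_goals exact absurd h.1 (by decide)
  by_cases h4 : q + p ≤ -1 ∧ 0 ≤ p
  · refine ⟨4, (-q - p).toNat, p.toNat, by omega, ?_⟩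
    rcases pos_cases 4 (-q - p).toNat p.toNat with h | h | h | h | h | h
    · exact absurd h.1 (by decide)
    · exact absurd h.1 (by decide)
    · exact absurd h.1 (by decide)
    · exact absurd h.1 (by decide)
    · rw [h.2]; ext <;> simp <;> omega
    · exact absurd h.1 (by decide)
  by_cases h5 : q ≤ -1 ∧ 0 ≤ p + q
  · refine ⟨5, (-q).toNat, (p + q).toNat, by omega, ?_⟩
    rcases pos_cases 5 (-q).toNat (p + q).toNat with h | h | h | h | h | h
    · exact absurd h.1 (by decide)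
    · exact absurd h.1 (by decide)
    · exact absurd h.1 (by decide)
    · exact absurd h.1 (by decide)
    · exact absurd h.1 (by decide)
    · rw [h.2]; ext <;> simp <;> omega
  omega

theorem pos_inj {i i' : Fin 6} {a b a' b' : ℕ} (ha : 1 ≤ a) (ha' : 1 ≤ a')
    (h : pos i a b = pos i' a' b') : i = i' ∧ a = a' ∧ b = b' := by
  rcases pos_cases i a b with h1 | h1 | h1 | h1 | h1 | h1 <;>
  rcases pos_cases i' a' b' with h2 | h2 | h2 | h2 | h2 | h2 <;>
  (rw [h1.2, h2.2, Prod.mk.injEq] at h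
   obtain ⟨e1, e2⟩ := h
   first
    | (exfalso; omega)
    | (refine ⟨h1.1.trans h2.1.symm, ?_, ?_⟩ <;> omega))

namespace Dev

theorem hn_le_iff {x : ℤ × ℤ} {r : ℕ} : hn x ≤ r ↔ (-(r : ℤ) ≤ x.1 ∧ x.1 ≤ r) ∧
    (-(r : ℤ) ≤ x.2 ∧ x.2 ≤ r) ∧ (-(r : ℤ) ≤ x.1 + x.2 ∧ x.1 + x.2 ≤ r) := by
  unfold hn
  rw [max_le_iff, max_le_iff]
  omega

/-- the norm changes by at most one along an edge -/
theorem hn_add_dir (x : ℤ × ℤ) (j : Fin 6) : hn (x + dir j) ≤ hn x + 1 := by
  have h := (hn_le_iff (x := x) (r := hn x)).1 le_rfl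
  rw [hn_le_iff]
  obtain ⟨p, q⟩ := x
  rcases dir_cases j with h' | h' | h' | h' | h' | h' <;> rw [h'.2] <;>
    simp only [Prod.mk_add_mk] at h ⊢ <;> omega

theorem hn_eq_zero {x : ℤ × ℤ} (h : hn x ≤ 0) : x = (0, 0) := by
  have h' := (hn_le_iff (x := x) (r := 0)).1 h
  obtain ⟨p, q⟩ := x
  ext <;> simp only at h' ⊢ <;> omega

/-- the parents of `pos i a b` -/
theorem pos_parent {i j : Fin 6} {a b : ℕ} (ha : 1 ≤ a)
    (h : hn (pos i a b - dir j) ≤ a + b - 1) : j = i ∨ j = i + 1 := by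
  rw [hn_le_iff] at h
  rcases pos_cases i a b with h1 | h1 | h1 | h1 | h1 | h1 <;>
  rcases dir_cases j with h2 | h2 | h2 | h2 | h2 | h2 <;>
  (rw [h1.2, h2.2] at h
   rw [h1.1, h2.1]
   first
    | (left; rfl)
    | (right; rfl)
    | (simp only [Prod.mk_sub_mk] at h
       exfalso; omega))

/-- two parents of a point differ by one in the direction -/
theorem hn_parents {y : ℤ × ℤ} {r : ℕ} (hy : hn y = r + 1) {j k : Fin 6}
    (hj : hn (y - dir j) ≤ r) (hk : hn (y - dir k) ≤ r) : k = j ∨ k = j + 1 ∨ j = k + 1 := by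
  have hy0 : y ≠ (0, 0) := by
    rintro rfl
    simp [hn] at hy
  obtain ⟨i, a, b, ha, hab, rfl⟩ := exists_pos hy0
  have e : r = a + b - 1 := by omega
  rw [e] at hj hk
  rcases pos_parent ha hj with rfl | rfl <;> rcases pos_parent ha hk with rfl | rfl <;> simp

/-- adjacent points of the same norm have a common parent -/
theorem hn_common {x : ℤ × ℤ} {r : ℕ} (hx : hn x = r + 1) {j : Fin 6}
    (hj : hn (x + dir j) = r + 1) :
    (∃ k, j = k + 2 ∧ hn (x - dir k) ≤ r) ∨ (∃ k, k = j + 2 ∧ hn (x - dir k) ≤ r) := by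
  have hx0 : x ≠ (0, 0) := by
    rintro rfl
    simp [hn] at hx
  obtain ⟨i, a, b, ha, hab, rfl⟩ := exists_pos hx0
  have hab' : a + b = r + 1 := by omega
  have h1 := (hn_le_iff (x := pos i a b + dir j) (r := r + 1)).1 hj.le
  have h2 := (not_congr (hn_le_iff (x := pos i a b + dir j) (r := r))).1 (by omega)
  have key : j = i + 2 ∨ (j = i + 5 ∧ 1 ≤ b) ∨ (j = i + 4 ∧ b = 0) := by
    rcases pos_cases i a b with h3 | h3 | h3 | h3 | h3 | h3 <;>
    rcases dir_cases j with h4 | h4 | h4 | h4 | h4 | h4 <;>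
    (rw [h3.2, h4.2] at h1 h2
     rw [h3.1, h4.1]
     simp only [Prod.mk_add_mk] at h1 h2
     first
      | (left; rfl)
      | (right; left; exact ⟨rfl, by omega⟩)
      | (right; right; exact ⟨rfl, by omega⟩)
      | (exfalso; omega))
  have hi : hn (pos i a b - dir i) ≤ r := by
    rw [hn_le_iff]
    rcases pos_cases i a b with h3 | h3 | h3 | h3 | h3 | h3 <;>
    (rw [h3.2, h3.1]
     simp only [dir, Prod.fst_sub, Prod.snd_sub]
     simp
     omega)
  have hi' : 1 ≤ b → hn (pos i a b - dir (i + 1)) ≤ r := by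
    intro hb
    rw [hn_le_iff]
    rcases pos_cases i a b with h3 | h3 | h3 | h3 | h3 | h3 <;>
    (rw [h3.2, h3.1]
     simp only [dir, Prod.fst_sub, Prod.snd_sub]
     simp
     omega)
  rcases key with rfl | ⟨rfl, hb⟩ | ⟨rfl, hb⟩
  · exact Or.inl ⟨i, rfl, hi⟩
  · exact Or.inr ⟨i + 1, by rw [add_assoc]; rfl, hi' hb⟩
  · exact Or.inr ⟨i, by rw [add_assoc, show (4 : Fin 6) + 2 = 0 from rfl, add_zero], hi⟩

/-! ### the group generated by the rotation and the reversal of darts -/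

section Dart

variable {V : Type*} {G : SimpleGraph V} {t : V → V → V}

/-- the darts of `G` -/
abbrev Dt (G : SimpleGraph V) : Type _ := {d : V × V // G.Adj d.1 d.2}

/-- the rotation of darts -/
def rh (ht : IsRot G t) : Equiv.Perm (Dt G) where
  toFun d := ⟨rot t d.1, (ht.face _ _ d.2).1⟩
  invFun d := ⟨rotI t d.1, (ht.face _ _ d.2.symm).2.1⟩
  left_inv d := by
    obtain ⟨⟨v, w⟩, h⟩ := d
    have := (ht.face v w h).2.2.2
    simp only [rot, rotI]
    exact Subtype.ext (Prod.ext rfl this)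
  right_inv d := by
    obtain ⟨⟨v, w⟩, h⟩ := d
    have := (ht.face w v h.symm).2.2.1
    simp only [rot, rotI]
    exact Subtype.ext (Prod.ext rfl this)

/-- the reversal of darts -/
def sg (G : SimpleGraph V) : Equiv.Perm (Dt G) where
  toFun d := ⟨d.1.swap, d.2.symm⟩
  invFun d := ⟨d.1.swap, d.2.symm⟩
  left_inv d := by simp
  right_inv d := by simp

theorem sg_mul_sg : sg G * sg G = 1 := by
  ext d <;> simp [sg]

theorem tri (ht : IsRot G t) : sg G * rh ht * (sg G * rh ht) * (sg G * rh ht) = 1 := by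
  apply Equiv.ext
  rintro ⟨⟨v, w⟩, h⟩
  have h1 := (ht.face v w h).2.2
  have h2 := (ht.face w v h.symm).2.2
  apply Subtype.ext
  simp only [Equiv.Perm.mul_apply, sg, rh, rot, Equiv.coe_fn_mk, Prod.swap, Equiv.Perm.coe_one, id]
  rw [h1.2, h1.1]

/-- the move in direction `i` -/
def M (ht : IsRot G t) (i : ℤ) : Equiv.Perm (Dt G) := rh ht ^ (3 - i) * sg G * rh ht ^ i

theorem rh_pow_val (ht : IsRot G t) (n : ℕ) (d : Dt G) :
    ((rh ht ^ n) d).1 = (rot t)^[n] d.1 := by
  induction n generalizing d with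
  | zero => rfl
  | succ n ih =>
    rw [pow_succ, Equiv.Perm.mul_apply, ih, Function.iterate_succ_apply]
    rfl

theorem rh_inv_pow_val (ht : IsRot G t) (n : ℕ) (d : Dt G) :
    (((rh ht)⁻¹ ^ n) d).1 = (rotI t)^[n] d.1 := by
  induction n generalizing d with
  | zero => rfl
  | succ n ih =>
    rw [pow_succ, Equiv.Perm.mul_apply, ih, Function.iterate_succ_apply]
    rfl

theorem M_val (ht : IsRot G t) (n : ℕ) (d : Dt G) : (M ht n d).1 = mv t n d.1 := by
  have e : (rh ht ^ ((3 : ℤ) - n)) = (rh ht)⁻¹ ^ n * rh ht ^ 3 := by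
    rw [sub_eq_add_neg, add_comm, zpow_add, zpow_neg, zpow_natCast, inv_pow]
    congr 1
  unfold M
  rw [e, zpow_natCast]
  simp only [Equiv.Perm.mul_apply]
  rw [rh_inv_pow_val]
  unfold mv
  congr 1
  rw [rh_pow_val, adv, ← rh_pow_val ht n d]
  rfl

theorem rh_zpow_fst (ht : IsRot G t) (n : ℤ) (d : Dt G) : ((rh ht ^ n) d).1.1 = d.1.1 := by
  induction n using Int.induction_on with
  | zero => rfl
  | succ n ih =>
    rw [add_comm, zpow_add, zpow_one, Equiv.Perm.mul_apply]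
    exact ih
  | pred n ih =>
    rw [sub_eq_add_neg, add_comm, zpow_add, zpow_neg_one, Equiv.Perm.mul_apply]
    exact ih

theorem M_fst (ht : IsRot G t) (i : ℤ) (d : Dt G) :
    (M ht i d).1.1 = ((rh ht ^ i) d).1.2 := by
  unfold M
  rw [Equiv.Perm.mul_apply, Equiv.Perm.mul_apply, rh_zpow_fst]
  rfl

/-- relation (R1) -/
theorem M_R1 (ht : IsRot G t) (i : ℤ) : M ht i * M ht (i + 2) = M ht (i + 1) := by
  have h1 := tri ht
  have h2 := sg_mul_sg (G := G)
  have h3 : sg G * rh ht * sg G = (rh ht)⁻¹ * sg G * (rh ht)⁻¹ := by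
    have h4 : sg G * rh ht * sg G * rh ht * sg G * rh ht = 1 := by
      simpa only [mul_assoc] using h1
    have h5 : sg G * rh ht * sg G = (rh ht * sg G * rh ht)⁻¹ := by
      rw [eq_inv_iff_mul_eq_one]
      simpa only [mul_assoc] using h4
    rw [h5]
    have h6 : (sg G)⁻¹ = sg G := inv_eq_of_mul_eq_one_left h2
    simp only [mul_inv_rev, h6, mul_assoc]
  unfold M
  calc rh ht ^ (3 - i) * sg G * rh ht ^ i * (rh ht ^ (3 - (i + 2)) * sg G * rh ht ^ (i + 2))
      = rh ht ^ (3 - i) * (sg G * (rh ht ^ i * rh ht ^ (3 - (i + 2))) * sg G) * rh ht ^ (i + 2) := by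
        simp only [mul_assoc]
    _ = rh ht ^ (3 - i) * (sg G * rh ht * sg G) * rh ht ^ (i + 2) := by
        rw [← zpow_add, show i + (3 - (i + 2)) = 1 by ring, zpow_one]
    _ = (rh ht ^ (3 - i) * (rh ht)⁻¹) * sg G * ((rh ht)⁻¹ * rh ht ^ (i + 2)) := by
        rw [h3]; simp only [mul_assoc]
    _ = rh ht ^ (3 - (i + 1)) * sg G * rh ht ^ (i + 1) := by
        rw [← zpow_neg_one, ← zpow_add, ← zpow_add, show 3 - i + -1 = 3 - (i + 1) by ring,
          show -1 + (i + 2) = i + 1 by ring]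

variable [Fintype V]

/-- regular dart -/
def Rg (d : Dt G) : Prop := dg G d.1.1 = 6

/-- equality of the vertices, and of the darts if the vertex is regular -/
def Eq6 (d e : Dt G) : Prop := d.1.1 = e.1.1 ∧ (Rg d → d = e)

theorem rh_six (ht : IsRot G t) {d : Dt G} (h : Rg d) : (rh ht ^ 6) d = d := by
  set N : Finset V := univ.filter (fun w => G.Adj d.1.1 w) with hN
  have hcard : #N = 6 := h
  have hmem : ∀ k : ℕ, ((rh ht ^ k) d).1.2 ∈ N := by
    intro k
    rw [hN, mem_filter]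
    refine ⟨mem_univ _, ?_⟩
    have h1 := ((rh ht ^ k) d).2
    have h2 := rh_zpow_fst ht k d
    rw [zpow_natCast] at h2
    rwa [h2] at h1
  have hext : ∀ k l : ℕ, ((rh ht ^ k) d).1.2 = ((rh ht ^ l) d).1.2 → (rh ht ^ k) d = (rh ht ^ l) d := by
    intro k l hkl
    have h1 := rh_zpow_fst ht k d
    have h2 := rh_zpow_fst ht l d
    rw [zpow_natCast] at h1 h2
    exact Subtype.ext (Prod.ext (h1.trans h2.symm) hkl)
  obtain ⟨a, ha, b, hb, hab, hf⟩ := Finset.exists_ne_map_eq_of_card_lt_of_maps_to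
    (s := range 7) (t := N) (f := fun k => ((rh ht ^ k) d).1.2) (by rw [hcard]; simp)
    (fun k _ => hmem k)
  have main : ∀ a b : ℕ, a < 7 → b < 7 → a < b → ((rh ht ^ a) d).1.2 = ((rh ht ^ b) d).1.2 →
      (rh ht ^ 6) d = d := by
    intro a b ha hb hab hf
    have h1 := hext a b hf
    set p := b - a with hp
    have h2 : (rh ht ^ p) d = d := by
      have h3 : (rh ht ^ a) ((rh ht ^ p) d) = (rh ht ^ a) d := by
        rw [← Equiv.Perm.mul_apply, ← pow_add, show a + p = b by omega, h1]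
      exact (rh ht ^ a).injective h3
    have h4 : ∀ k : ℕ, ((rh ht ^ p) ^ k) d = d := by
      intro k
      induction k with
      | zero => rfl
      | succ k ih => rw [pow_succ, Equiv.Perm.mul_apply, h2, ih]
    have h5 : N ⊆ (range p).image (fun k => ((rh ht ^ k) d).1.2) := by
      intro w hw
      rw [hN, mem_filter] at hw
      obtain ⟨k, hk⟩ := ht.cyc d.1.1 d.1.2 w d.2 hw.2
      have h6 : ((rh ht ^ k) d).1.2 = w := by
        rw [rh_pow_val, ← hk]
        have : ∀ k : ℕ, ∀ e : V × V, ((rot t)^[k] e).2 = (t e.1)^[k] e.2 := by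
          intro k
          induction k with
          | zero => intro e; rfl
          | succ k ih => intro e; rw [Function.iterate_succ_apply, ih, Function.iterate_succ_apply]; rfl
        exact this k d.1
      rw [mem_image]
      refine ⟨k % p, mem_range.2 (Nat.mod_lt _ (by omega)), ?_⟩
      rw [← h6]
      conv_rhs => rw [← Nat.mod_add_div k p, pow_add, pow_mul, Equiv.Perm.mul_apply, h4]
    have h7 := card_le_card h5
    have h8 := card_image_le (s := range p) (f := fun k => ((rh ht ^ k) d).1.2)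
    rw [card_range] at h8
    have h9 : p = 6 := by omega
    rw [← h9]
    exact h2
  rcases lt_or_gt_of_ne hab with h1 | h1
  · exact main a b (by simpa using ha) (by simpa using hb) h1 hf
  · exact main b a (by simpa using hb) (by simpa using ha) h1 hf.symm

theorem rh_six_zpow (ht : IsRot G t) {d : Dt G} (h : Rg d) (k : ℤ) :
    (rh ht ^ (6 * k)) d = d := by
  have h1 : ∀ n : ℕ, ((rh ht ^ 6) ^ n) d = d := by
    intro n
    induction n with
    | zero => rfl
    | succ n ih => rw [pow_succ, Equiv.Perm.mul_apply, rh_six ht h, ih]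
  rw [zpow_mul]
  have e : rh ht ^ (6 : ℤ) = rh ht ^ 6 := by
    rw [← zpow_natCast]; rfl
  rw [e]
  rcases Int.eq_nat_or_neg k with ⟨n, rfl | rfl⟩
  · rw [zpow_natCast, h1]
  · rw [zpow_neg, zpow_natCast, Equiv.Perm.inv_eq_iff_eq, h1]

theorem Eq6.refl (d : Dt G) : Eq6 d d := ⟨rfl, fun _ => rfl⟩

theorem Eq6.trans {d e f : Dt G} (h : Eq6 d e) (h' : Eq6 e f) : Eq6 d f := by
  refine ⟨h.1.trans h'.1, fun hd => ?_⟩
  have h1 := h.2 hd
  rw [h1]
  exact h'.2 (h1 ▸ hd)

theorem Eq6.symm {d e : Dt G} (h : Eq6 d e) : Eq6 e d := by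
  refine ⟨h.1.symm, fun he => (h.2 ?_).symm⟩
  unfold Rg at he ⊢
  rw [h.1]
  exact he

/-- the index of the move matters modulo 6 only -/
theorem M_congr (ht : IsRot G t) {d : Dt G} (h : Rg d) {i j : ℤ} (hij : (6 : ℤ) ∣ i - j) :
    Eq6 (M ht i d) (M ht j d) := by
  obtain ⟨k, hk⟩ := hij
  have hi : i = j + 6 * k := by linarith
  have h1 : M ht i d = (rh ht ^ (6 * (-k))) (M ht j d) := by
    unfold M
    simp only [Equiv.Perm.mul_apply]
    rw [hi, zpow_add (rh ht) j (6 * k), Equiv.Perm.mul_apply, rh_six_zpow ht h,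
      show 3 - (j + 6 * k) = 6 * (-k) + (3 - j) by ring, zpow_add, Equiv.Perm.mul_apply]
  have h2 : Eq6 ((rh ht ^ (6 * (-k))) (M ht j d)) (M ht j d) := by
    refine ⟨rh_zpow_fst ht _ _, fun hr => ?_⟩
    have hr' : Rg (M ht j d) := by
      unfold Rg at hr ⊢
      rw [rh_zpow_fst] at hr
      exact hr
    exact rh_six_zpow ht hr' _
  rw [h1]
  exact h2

theorem Rg_aux (ht : IsRot G t) (i : ℤ) {d : Dt G} (h : Rg (M ht i d)) :
    Rg (sg G ((rh ht ^ i) d)) := by
  unfold Rg at h ⊢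
  unfold M at h
  rwa [Equiv.Perm.mul_apply, Equiv.Perm.mul_apply, rh_zpow_fst] at h

/-- relation (R3) -/
theorem M_R3 (ht : IsRot G t) (i : ℤ) {d : Dt G} (h : Rg (M ht i d)) :
    M ht (i + 3) (M ht i d) = d := by
  have h1 := rh_six_zpow ht (Rg_aux ht i h) 1
  have e : M ht (i + 3) (M ht i d) =
      (rh ht ^ (-i)) (sg G ((rh ht ^ ((6 : ℤ) * 1)) (sg G ((rh ht ^ i) d)))) := by
    unfold M
    simp only [Equiv.Perm.mul_apply]
    rw [show 3 - (i + 3) = -i by ring, show (6 : ℤ) * 1 = (i + 3) + (3 - i) by ring,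
      zpow_add (rh ht) (i + 3) (3 - i), Equiv.Perm.mul_apply]
  rw [e, h1, ← Equiv.Perm.mul_apply (sg G) (sg G), sg_mul_sg, Equiv.Perm.one_apply,
    ← Equiv.Perm.mul_apply, ← zpow_add, neg_add_cancel, zpow_zero, Equiv.Perm.one_apply]

/-- relation (R2) -/
theorem M_R2 (ht : IsRot G t) (i : ℤ) {d : Dt G} (h : Rg (M ht i d)) :
    M ht (i + 2) (M ht i d) = M ht (i + 1) d := by
  have h1 := rh_six_zpow ht (Rg_aux ht i h) 1
  have h2 : (rh ht ^ (5 : ℤ)) (sg G ((rh ht ^ i) d)) = (rh ht)⁻¹ (sg G ((rh ht ^ i) d)) := by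
    rw [Equiv.Perm.eq_inv_iff_eq, ← Equiv.Perm.mul_apply, ← zpow_one_add]
    exact h1
  have h3 : sg G * (rh ht)⁻¹ * sg G = rh ht * sg G * rh ht := by
    have h4 : sg G * rh ht * sg G * rh ht * sg G * rh ht = 1 := by
      simpa only [mul_assoc] using tri ht
    have h5 : (rh ht * sg G * rh ht)⁻¹ = sg G * rh ht * sg G := by
      rw [inv_eq_iff_mul_eq_one]
      have h7 : sg G * (sg G * rh ht * sg G * rh ht * sg G * rh ht) * sg G = 1 := by
        rw [h4, mul_one, sg_mul_sg]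
      have h8 : sg G * (sg G * rh ht * sg G * rh ht * sg G * rh ht) * sg G =
          (sg G * sg G) * (rh ht * sg G * rh ht * (sg G * rh ht * sg G)) := by
        simp only [mul_assoc]
      rw [h8, sg_mul_sg, one_mul] at h7
      exact h7
    have h6 : (sg G)⁻¹ = sg G := inv_eq_of_mul_eq_one_left sg_mul_sg
    rw [inv_eq_iff_eq_inv] at h5
    rw [h5]
    simp only [mul_inv_rev, h6, mul_assoc]
  have e : M ht (i + 2) (M ht i d) =
      (rh ht ^ (1 - i)) (sg G ((rh ht ^ (5 : ℤ)) (sg G ((rh ht ^ i) d)))) := by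
    unfold M
    simp only [Equiv.Perm.mul_apply]
    rw [show 3 - (i + 2) = 1 - i by ring, show (5 : ℤ) = (i + 2) + (3 - i) by ring,
      zpow_add (rh ht) (i + 2) (3 - i), Equiv.Perm.mul_apply]
  rw [e, h2]
  have h9 : sg G ((rh ht)⁻¹ (sg G ((rh ht ^ i) d))) = (rh ht * sg G * rh ht) ((rh ht ^ i) d) := by
    rw [← h3]; rfl
  rw [h9]
  unfold M
  simp only [Equiv.Perm.mul_apply]
  rw [← Equiv.Perm.mul_apply (rh ht ^ (1 - i)), ← zpow_add_one,
    ← Equiv.Perm.mul_apply (rh ht) (rh ht ^ i), ← zpow_one_add, show 1 - i + 1 = 3 - (i + 1) by ring,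
    add_comm 1 i]

/-! the relations with directions modulo 6 -/

theorem M_E1 (ht : IsRot G t) (j : Fin 6) {d : Dt G} (h : Rg d)
    (h' : Rg (M ht ((j + 2).val : ℤ) d)) :
    Eq6 (M ht (j.val : ℤ) (M ht ((j + 2).val : ℤ) d)) (M ht ((j + 1).val : ℤ) d) := by
  have e1 := (M_congr ht h (i := ((j + 2).val : ℤ)) (j := (j.val : ℤ) + 2)
    (by fin_cases j <;> simp)).2 h'
  have e2 := M_congr ht h (i := (j.val : ℤ) + 1) (j := ((j + 1).val : ℤ))
    (by fin_cases j <;> simp)
  rw [e1, ← Equiv.Perm.mul_apply (M ht (j.val : ℤ)), M_R1]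
  exact e2

theorem M_E2 (ht : IsRot G t) (j : Fin 6) {d : Dt G} (h : Rg d)
    (h' : Rg (M ht (j.val : ℤ) d)) :
    Eq6 (M ht ((j + 2).val : ℤ) (M ht (j.val : ℤ) d)) (M ht ((j + 1).val : ℤ) d) := by
  have e1 := M_congr ht h' (i := ((j + 2).val : ℤ)) (j := (j.val : ℤ) + 2)
    (by fin_cases j <;> simp)
  have e2 := M_congr ht h (i := (j.val : ℤ) + 1) (j := ((j + 1).val : ℤ))
    (by fin_cases j <;> simp)
  rw [M_R2 ht _ h'] at e1
  exact e1.trans e2

theorem M_E3 (ht : IsRot G t) (j : Fin 6) {d : Dt G} (h : Rg d)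
    (h' : Rg (M ht (j.val : ℤ) d)) :
    M ht ((j + 3).val : ℤ) (M ht (j.val : ℤ) d) = d := by
  have e1 := M_congr ht h' (i := ((j + 3).val : ℤ)) (j := (j.val : ℤ) + 3)
    (by fin_cases j <;> simp)
  rw [M_R3 ht _ h'] at e1
  exact (e1.symm.2 h).symm

/-- every neighbour is reached by a move -/
theorem exists_M (ht : IsRot G t) {d : Dt G} (h : Rg d) {u : V} (hu : G.Adj d.1.1 u) :
    ∃ j : Fin 6, (M ht (j.val : ℤ) d).1.1 = u := by
  obtain ⟨k, hk⟩ := ht.cyc d.1.1 d.1.2 u d.2 hu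
  refine ⟨⟨k % 6, Nat.mod_lt _ (by norm_num)⟩, ?_⟩
  have e1 := M_congr ht h (i := ((k % 6 : ℕ) : ℤ)) (j := (k : ℤ)) (by omega)
  rw [e1.1, M_fst, zpow_natCast, rh_pow_val, ← hk]
  have : ∀ k : ℕ, ∀ e : V × V, ((rot t)^[k] e).2 = (t e.1)^[k] e.2 := by
    intro k
    induction k with
    | zero => intro e; rfl
    | succ k ih => intro e; rw [Function.iterate_succ_apply, ih, Function.iterate_succ_apply]; rfl
  exact this k d.1

end Dart

/-! ### development -/

section Develop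

variable {V : Type*} [Fintype V] {G : SimpleGraph V} {t : V → V → V}

/-- the value at `x + dir j` is compatible with the value at `x` -/
def Rl (ht : IsRot G t) (Δ : ℤ × ℤ → Dt G) (x : ℤ × ℤ) (j : Fin 6) : Prop :=
  Rg (Δ x) → Eq6 (Δ (x + dir j)) (M ht (j.val : ℤ) (Δ x))

theorem dev_ext (ht : IsRot G t) (r : ℕ) (Δ : ℤ × ℤ → Dt G)
    (hrel : ∀ x j, hn x ≤ r → hn (x + dir j) ≤ r → Rl ht Δ x j) :
    ∃ Δ' : ℤ × ℤ → Dt G, (∀ x, hn x ≤ r → Δ' x = Δ x) ∧ ∀ x j, hn x ≤ r → Rl ht Δ' x j := by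
  let P : ℤ × ℤ → Prop := fun y => ∃ j : Fin 6, hn (y - dir j) ≤ r ∧ Rg (Δ (y - dir j))
  let Δ' : ℤ × ℤ → Dt G := fun y => if hn y ≤ r then Δ y else
    if h : P y then M ht ((Classical.choose h).val : ℤ) (Δ (y - dir (Classical.choose h)))
    else Δ (0, 0)
  have hin : ∀ x, hn x ≤ r → Δ' x = Δ x := fun x hx => if_pos hx
  refine ⟨Δ', hin, ?_⟩
  intro x j hx hreg
  by_cases hy : hn (x + dir j) ≤ r
  · rw [hin _ hy, hin _ hx]
    rw [hin _ hx] at hreg
    exact hrel x j hx hy hreg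
  · rw [hin _ hx] at hreg ⊢
    set y := x + dir j with hydef
    have hxy : y - dir j = x := by rw [hydef]; abel
    have hP : P y := ⟨j, by rw [hxy]; exact hx, by rw [hxy]; exact hreg⟩
    have hyr : hn y = r + 1 := by
      have := hn_add_dir x j
      rw [← hydef] at this
      omega
    obtain ⟨h1, h2⟩ := Classical.choose_spec hP
    set k := Classical.choose hP with hk
    have hval : Δ' y = M ht (k.val : ℤ) (Δ (y - dir k)) := by
      show (if hn y ≤ r then Δ y else _) = _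
      rw [if_neg hy, dif_pos hP]
    rw [hval]
    have hj : hn (y - dir j) ≤ r := by rw [hxy]; exact hx
    rcases hn_parents hyr hj h1 with e | e | e
    · rw [e, hxy]
      exact Eq6.refl _
    · -- k = j + 1 : x = x' + dir (j+2)
      have hx' : x = (y - dir k) + dir (j + 2) := by
        have := dir_add_two j
        rw [e, ← this, hydef]; abel
      have h3 := hrel (y - dir k) (j + 2) h1 (by rw [← hx']; exact hx) h2
      rw [← hx'] at h3
      have h4 := h3.2 hreg
      have h5 := M_E1 ht j (d := Δ (y - dir k)) h2 (by rw [← h4]; exact hreg)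
      rw [h4, e]
      rw [e] at h5
      exact h5.symm
    · -- j = k + 1 : x' = x + dir (k + 2)
      have hx' : y - dir k = x + dir (k + 2) := by
        have := dir_add_two k
        rw [hydef, e, ← this]; abel
      have h3 := hrel x (k + 2) hx (by rw [← hx']; exact h1) hreg
      rw [← hx'] at h3
      have h4 := h3.2 h2
      have h5 := M_E1 ht k (d := Δ x) hreg (by rw [← h4]; exact h2)
      rw [← h4] at h5
      rw [e]
      exact h5

theorem dev_back (ht : IsRot G t) (r : ℕ) (Δ : ℤ × ℤ → Dt G) (hreg : ∀ x, hn x ≤ r → Rg (Δ x))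
    (hrel : ∀ x j, hn x ≤ r → Rl ht Δ x j) :
    ∀ x j, hn x ≤ r + 1 → hn (x + dir j) ≤ r + 1 → Rl ht Δ x j := by
  intro x j hx hy
  by_cases hx1 : hn x ≤ r
  · exact hrel x j hx1
  have hxr : hn x = r + 1 := by omega
  intro hregx
  by_cases hy1 : hn (x + dir j) ≤ r
  · -- z = x + dir j is a parent of x
    have hz := hreg _ hy1
    have e : x = (x + dir j) + dir (j + 3) := by
      rw [add_assoc, dir_add_three, add_zero]
    have h1 := hrel (x + dir j) (j + 3) hy1 hz
    rw [← e] at h1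
    have h2 := h1.2 hregx
    have h3 := M_E3 ht (j + 3) hz (by rw [← h2]; exact hregx)
    rw [← h2] at h3
    have e2 : j + 3 + 3 = j := by
      rw [add_assoc, show (3 : Fin 6) + 3 = 0 from rfl, add_zero]
    rw [e2] at h3
    rw [h3]
    exact Eq6.refl _
  · have hyr : hn (x + dir j) = r + 1 := by omega
    rcases hn_common hxr hyr with ⟨k, hk, hz⟩ | ⟨k, hk, hz⟩
    · -- j = k + 2, x = z + dir k, x + dir j = z + dir (k + 1)
      have hzr := hreg _ hz
      have e1 : (x - dir k) + dir k = x := by abel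
      have e2 : x + dir j = (x - dir k) + dir (k + 1) := by
        rw [hk, ← dir_add_two k]; abel
      have h1 := hrel (x - dir k) k hz hzr
      rw [e1] at h1
      have h2 := h1.2 hregx
      have h3 := hrel (x - dir k) (k + 1) hz hzr
      rw [← e2] at h3
      have h4 := M_E2 ht k hzr (by rw [← h2]; exact hregx)
      rw [← h2, ← hk] at h4
      exact h3.trans h4.symm
    · -- k = j + 2, x = z + dir k, x + dir j = z + dir (k - 1) = z + dir (j + 1)
      have hzr := hreg _ hz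
      have e1 : (x - dir k) + dir k = x := by abel
      have e2 : x + dir j = (x - dir k) + dir (j + 1) := by
        rw [hk, ← dir_add_two j]; abel
      have h1 := hrel (x - dir k) k hz hzr
      rw [e1] at h1
      have h2 := h1.2 hregx
      have h3 := hrel (x - dir k) (j + 1) hz hzr
      rw [← e2] at h3
      have h4 := M_E1 ht j hzr (by rw [← hk, ← h2]; exact hregx)
      rw [← hk, ← h2] at h4
      exact h3.trans h4.symm

theorem pos_succ (i : Fin 6) (a b : ℕ) : pos i (a + 1) b = pos i a b + dir i := by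
  unfold pos
  rw [succ_nsmul]; abel

theorem pos_zero_succ (i : Fin 6) (b : ℕ) : pos i 0 (b + 1) = pos i 0 b + dir (i + 1) := by
  unfold pos
  rw [succ_nsmul]; abel

theorem dev_wlk (ht : IsRot G t) (r : ℕ) (Δ : ℤ × ℤ → Dt G) (hreg : ∀ x, hn x < r → Rg (Δ x))
    (hrel : ∀ x j, hn x < r → Rl ht Δ x j) (i : Fin 6) (a b : ℕ) :
    (a + b ≤ r → (Δ (pos i a b)).1.1 = (wlk t i a b (Δ (0, 0)).1).1) ∧
    (a + b < r → (Δ (pos i a b)).1 = wlk t i a b (Δ (0, 0)).1) := by
  -- one step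
  have step : ∀ (x : ℤ × ℤ) (j : Fin 6) (n : ℕ) (w : V × V), hn x = n → (n < r → (Δ x).1 = w) →
      (n + 1 ≤ r → (Δ (x + dir j)).1.1 = (mv t j.val w).1) ∧
      (n + 1 < r → hn (x + dir j) = n + 1 → (Δ (x + dir j)).1 = mv t j.val w) := by
    intro x j n w hx hw
    constructor
    · intro h
      have h1 := hrel x j (by omega) (hreg x (by omega))
      rw [h1.1, M_val, hw (by omega)]
    · intro h h'
      have h1 := hrel x j (by omega) (hreg x (by omega))
      rw [h1.2 (hreg _ (by omega)), M_val, hw (by omega)]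
  have zero : ∀ b : ℕ, (0 + b ≤ r → (Δ (pos i 0 b)).1.1 = (wlk t i 0 b (Δ (0, 0)).1).1) ∧
      (0 + b < r → (Δ (pos i 0 b)).1 = wlk t i 0 b (Δ (0, 0)).1) := by
    intro b
    induction b with
    | zero =>
      have : pos i 0 0 = (0, 0) := by
        unfold pos
        rw [zero_nsmul, zero_nsmul, add_zero]
        rfl
      rw [this]
      exact ⟨fun _ => rfl, fun _ => rfl⟩
    | succ b ih =>
      have h1 := step (pos i 0 b) (i + 1) (0 + b) (wlk t i 0 b (Δ (0, 0)).1) (hn_pos _ _ _) ih.2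
      have h2 : wlk t i 0 (b + 1) (Δ (0, 0)).1 = mv t (i + 1).val (wlk t i 0 b (Δ (0, 0)).1) := by
        unfold wlk
        rw [Function.iterate_succ_apply']
        rfl
      rw [pos_zero_succ, h2]
      refine ⟨fun h => h1.1 (by omega), fun h => h1.2 (by omega) ?_⟩
      rw [← pos_zero_succ, hn_pos]; ring
  induction a with
  | zero => exact zero b
  | succ a ih =>
    have h1 := step (pos i a b) i (a + b) (wlk t i a b (Δ (0, 0)).1) (hn_pos _ _ _) ih.2
    have h2 : wlk t i (a + 1) b (Δ (0, 0)).1 = mv t i.val (wlk t i a b (Δ (0, 0)).1) := by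
      unfold wlk
      rw [Function.iterate_succ_apply']
    rw [pos_succ, h2]
    refine ⟨fun h => h1.1 (by omega), fun h => h1.2 (by omega) ?_⟩
    rw [← pos_succ, hn_pos]; ring

theorem dev_main (ht : IsRot G t) (d : Dt G) (r : ℕ) (hd : Good G t r d.1) :
    ∃ Δ : ℤ × ℤ → Dt G, Δ (0, 0) = d ∧
      (∀ x j, hn x ≤ r → hn (x + dir j) ≤ r → Rl ht Δ x j) ∧ (∀ x, hn x < r → Rg (Δ x)) := by
  induction r with
  | zero =>
    refine ⟨fun _ => d, rfl, ?_, fun x hx => absurd hx (Nat.not_lt_zero _)⟩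
    intro x j hx hy
    exfalso
    have h1 := hn_eq_zero hx
    have h2 := hn_eq_zero hy
    rw [h1] at h2
    revert h2
    fin_cases j <;> simp [dir]
  | succ r ih =>
    have hd' : Good G t r d.1 := by
      obtain ⟨h1, h2, h3⟩ := hd
      exact ⟨h1, fun _ => h2 (by omega), fun i a b ha hab => h3 i a b ha (by omega)⟩
    obtain ⟨Δ, h0, hrel, hreg⟩ := ih hd'
    have hwlk := dev_wlk ht r Δ hreg (fun x j hx => hrel x j hx.le (by
      have := hn_add_dir x j
      omega))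
    have hreg' : ∀ x, hn x ≤ r → Rg (Δ x) := by
      intro x hx
      by_cases hx0 : x = (0, 0)
      · rw [hx0, h0]
        exact hd.2.1 (by omega)
      · obtain ⟨i, a, b, ha, hab, rfl⟩ := exists_pos hx0
        unfold Rg
        rw [hn_pos] at hx
        rw [(hwlk i a b).1 hx, h0]
        exact hd.2.2 i a b ha (by omega)
    obtain ⟨Δ', hΔ', hrel'⟩ := dev_ext ht r Δ hrel
    have hreg'' : ∀ x, hn x ≤ r → Rg (Δ' x) := by
      intro x hx
      rw [hΔ' x hx]
      exact hreg' x hx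
    refine ⟨Δ', ?_, dev_back ht r Δ' hreg'' hrel', fun x hx => hreg'' x (by omega)⟩
    rw [hΔ' (0, 0) (by simp [hn]), h0]

end Develop

end Dev

open Dev

theorem dev {V : Type*} [Fintype V] (G : SimpleGraph V) (t : V → V → V) (ht : IsRot G t) {r : ℕ}
    (_hr : 1 ≤ r) {d : V × V} (hd : Good G t r d) :
    ∃ φ : ℤ × ℤ → V, φ (0, 0) = d.1 ∧
      (∀ i a b, 1 ≤ a → a + b ≤ r → φ (pos i a b) = (wlk t i a b d).1) ∧
      (∀ x, hn x < r → dg G (φ x) = 6) ∧
      (∀ x, hn x ≤ r → dg G (φ x) = 6 → ∀ u, G.Adj (φ x) u → ∃ y, T.Adj x y ∧ φ y = u) := by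
  obtain ⟨Δ, h0, hrel, hreg⟩ := dev_main ht ⟨d, hd.1⟩ r hd
  obtain ⟨Δ', hΔ', hrel'⟩ := dev_ext ht r Δ hrel
  have h0' : Δ' (0, 0) = ⟨d, hd.1⟩ := by rw [hΔ' (0, 0) (by simp [hn]), h0]
  have hreg' : ∀ x, hn x < r → Rg (Δ' x) := by
    intro x hx
    rw [hΔ' x hx.le]
    exact hreg x hx
  refine ⟨fun x => (Δ' x).1.1, by simp only [h0'], ?_, fun x hx => hreg' x hx, ?_⟩
  · intro i a b _ hab
    have := (dev_wlk ht r Δ' hreg' (fun x j hx => hrel' x j hx.le) i a b).1 hab
    rw [h0'] at this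
    exact this
  · intro x hx hx6 u hu
    obtain ⟨j, hj⟩ := exists_M ht (d := Δ' x) hx6 hu
    refine ⟨x + dir j, ⟨j, rfl⟩, ?_⟩
    have := hrel' x j hx hx6
    exact this.1.trans hj

end Pool.Agent.Helper53.OS
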