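import Pool.Agent.Helper53.OS.Base

/-! The exploration coupling for MP_195d30_co. -/

set_option autoImplicit false

namespace Pool.Agent.Helper53.OS

open Finset
open scoped Classical

/-- the end of the exploration -/
theorem dom_aux_end {V W : Type*} [Fintype V] [DecidableEq V] [DecidableEq W] (G : SimpleGraph V)
  (H : SimpleGraph W) (S B : Finset W) (o : W) (φ : W → V)
  (hφ : ∀ x ∈ S, ∀ u, G.Adj (φ x) u → ∃ y ∈ B, H.Adj x y ∧ φ y = u)
  {q : ℝ} (h0 : 0 ≤ q) (h1 : q ≤ 1) (g : ℕ → ℝ) (hg : Antitone g) (hg0 : ∀ n, 0 ≤ g n)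
  (O K : Finset W) (U X : Finset V) (hoO : o ∈ O)
  (hcon : ∀ x ∈ O, Con H O o x) (hU : φ o ∈ U) (hUO : U ⊆ O.image φ)
  (hUX : U ∪ X = (O ∪ K).image φ)
  (hend : ∀ x ∈ B \ (O ∪ K), ∀ z ∈ O, z ∈ S → ¬ H.Adj z x) :
    bern (B \ (O ∪ K)) q (fun A => ind (o ∈ A ∪ O ∧ clus H (A ∪ O) o ⊆ S) *
      g #(clus H (A ∪ O) o)) ≤
    bern (univ \ (U ∪ X)) q (fun A => ind (φ o ∈ A ∪ U ∧
      ∀ x ∈ clus G (A ∪ U) (φ o), ∃ y ∈ S, φ y = x) * g #(clus G (A ∪ U) (φ o))) := by
  have hsub : ∀ A : Finset W, O ⊆ clus H (A ∪ O) o := by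
    intro A x hx
    exact mem_clus.2 ((hcon x hx).mono subset_union_right)
  by_cases hOS : O ⊆ S
  · have hL : bern (B \ (O ∪ K)) q (fun A => ind (o ∈ A ∪ O ∧ clus H (A ∪ O) o ⊆ S) *
        g #(clus H (A ∪ O) o)) = g #O := by
      rw [← bern_const (B \ (O ∪ K)) q (g #O)]
      refine bern_congr fun A hA => ?_
      have hcl : clus H (A ∪ O) o = O := by
        apply Subset.antisymm _ (hsub A)
        intro w hw
        refine (mem_clus.1 hw).closed (P := fun x => x ∈ O) hoO ?_
        intro x y hx _ hy hxy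
        rcases mem_union.1 hy with h | h
        · exact absurd hxy (hend y (hA h) x hx (hOS hx))
        · exact h
      rw [hcl, ind_true ⟨mem_union_right _ hoO, hOS⟩, one_mul]
    rw [hL, ← bern_const (univ \ (U ∪ X)) q (g #O)]
    refine bern_mono h0 h1 fun A hA => ?_
    have hcl : clus G (A ∪ U) (φ o) ⊆ U := by
      intro w hw
      refine (mem_clus.1 hw).closed (P := fun x => x ∈ U) hU ?_
      intro x y hx _ hy hxy
      obtain ⟨x', hx'O, rfl⟩ := mem_image.1 (hUO hx)
      obtain ⟨y', hy'B, hxy', rfl⟩ := hφ x' (hOS hx'O) y hxy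
      have h2 : y' ∈ O ∪ K := by
        by_contra hne
        exact hend y' (mem_sdiff.2 ⟨hy'B, hne⟩) x' hx'O (hOS hx'O) hxy'
      have h3 : φ y' ∈ U ∪ X := by
        rw [hUX]
        exact mem_image_of_mem _ h2
      rcases mem_union.1 hy with h | h
      · exact absurd h3 (mem_sdiff.1 (hA h)).2
      · exact h
    rw [ind_true, one_mul]
    · apply hg
      exact (card_le_card hcl).trans ((card_le_card hUO).trans card_image_le)
    · refine ⟨mem_union_right _ hU, ?_⟩
      intro x hx
      obtain ⟨y, hy, rfl⟩ := mem_image.1 (hUO (hcl hx))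
      exact ⟨y, hOS hy, rfl⟩
  · have hL : bern (B \ (O ∪ K)) q (fun A => ind (o ∈ A ∪ O ∧ clus H (A ∪ O) o ⊆ S) *
        g #(clus H (A ∪ O) o)) = 0 := by
      rw [← bern_const (B \ (O ∪ K)) q 0]
      refine bern_congr fun A hA => ?_
      rw [ind_false, zero_mul]
      rintro ⟨_, h⟩
      exact hOS ((hsub A).trans h)
    rw [hL]
    exact bern_nonneg h0 h1 fun A _ => mul_nonneg (ind_nonneg _) (hg0 _)


/-- the general step of the coupling: `O` and `K` are the explored open and closed vertices of `W`,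
`U` and `X` the explored open and closed vertices of `V` -/
theorem dom_aux {V W : Type*} [Fintype V] [DecidableEq V] [DecidableEq W] (G : SimpleGraph V)
    (H : SimpleGraph W) (S B : Finset W) (o : W) (φ : W → V)
    (hφ : ∀ x ∈ S, ∀ u, G.Adj (φ x) u → ∃ y ∈ B, H.Adj x y ∧ φ y = u)
    {q : ℝ} (h0 : 0 ≤ q) (h1 : q ≤ 1) (g : ℕ → ℝ) (hg : Antitone g) (hg0 : ∀ n, 0 ≤ g n) (n : ℕ) :
    ∀ (O K : Finset W) (U X : Finset V), #(B \ (O ∪ K)) = n → o ∈ O →
      (∀ x ∈ O, Con H O o x) → φ o ∈ U → U ⊆ O.image φ → U ∪ X = (O ∪ K).image φ →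
      bern (B \ (O ∪ K)) q (fun A => ind (o ∈ A ∪ O ∧ clus H (A ∪ O) o ⊆ S) *
        g #(clus H (A ∪ O) o)) ≤
      bern (univ \ (U ∪ X)) q (fun A => ind (φ o ∈ A ∪ U ∧
        ∀ x ∈ clus G (A ∪ U) (φ o), ∃ y ∈ S, φ y = x) * g #(clus G (A ∪ U) (φ o))) := by
  induction n with
  | zero =>
    intro O K U X hn hoO hcon hU hUO hUX
    refine dom_aux_end G H S B o φ hφ h0 h1 g hg hg0 O K U X hoO hcon hU hUO hUX ?_
    intro x hx
    rw [card_eq_zero] at hn
    rw [hn] at hx
    exact absurd hx (notMem_empty _)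
  | succ n ih =>
    intro O K U X hn hoO hcon hU hUO hUX
    by_cases hex : ∃ x ∈ B \ (O ∪ K), ∃ z ∈ O, z ∈ S ∧ H.Adj z x
    · obtain ⟨x, hx, z, hzO, hzS, hzx⟩ := hex
      have hxn : x ∉ O ∪ K := (mem_sdiff.1 hx).2
      have e1 : (B \ (O ∪ K)).erase x = B \ (insert x O ∪ K) := by
        ext y
        simp only [mem_erase, mem_sdiff, mem_union, mem_insert]
        tauto
      have e2 : (B \ (O ∪ K)).erase x = B \ (O ∪ insert x K) := by
        ext y
        simp only [mem_erase, mem_sdiff, mem_union, mem_insert]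
        tauto
      have c1 : #(B \ (insert x O ∪ K)) = n := by
        rw [← e1, card_erase_of_mem hx, hn]; rfl
      have c2 : #(B \ (O ∪ insert x K)) = n := by
        rw [← e2, card_erase_of_mem hx, hn]; rfl
      have hcon' : ∀ y ∈ insert x O, Con H (insert x O) o y := by
        intro y hy
        rcases mem_insert.1 hy with rfl | hy
        · exact ((hcon z hzO).mono (subset_insert _ _)).trans
            (Con.of_adj (mem_insert_of_mem hzO) (mem_insert_self _ _) hzx)
        · exact (hcon y hy).mono (subset_insert _ _)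
      rw [bern_split hx]
      have f1 : ∀ A : Finset W, insert x A ∪ O = A ∪ insert x O := by
        intro A
        ext y
        simp only [mem_union, mem_insert]
        tauto
      simp only [f1]
      by_cases hφx : φ x ∈ U ∪ X
      · have i1 := ih (insert x O) K U X c1 (mem_insert_of_mem hoO) hcon' hU
          (hUO.trans (image_subset_image (subset_insert _ _))) (by
            rw [insert_union, image_insert, ← hUX, insert_eq_of_mem hφx])
        have i2 := ih O (insert x K) U X c2 hoO hcon hU hUO (by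
            rw [union_insert, image_insert, ← hUX, insert_eq_of_mem hφx])
        rw [← e1] at i1
        rw [← e2] at i2
        have := add_le_add (mul_le_mul_of_nonneg_left i1 h0)
          (mul_le_mul_of_nonneg_left i2 (sub_nonneg.2 h1))
        refine this.trans (le_of_eq ?_)
        ring
      · have hmem : φ x ∈ univ \ (U ∪ X) := mem_sdiff.2 ⟨mem_univ _, hφx⟩
        have e3 : (univ \ (U ∪ X)).erase (φ x) = univ \ (insert (φ x) U ∪ X) := by
          ext y
          simp only [mem_erase, mem_sdiff, mem_union, mem_insert, mem_univ, true_and]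
          tauto
        have e4 : (univ \ (U ∪ X)).erase (φ x) = univ \ (U ∪ insert (φ x) X) := by
          ext y
          simp only [mem_erase, mem_sdiff, mem_union, mem_insert, mem_univ, true_and]
          tauto
        have f2 : ∀ A : Finset V, insert (φ x) A ∪ U = A ∪ insert (φ x) U := by
          intro A
          ext y
          simp only [mem_union, mem_insert]
          tauto
        rw [bern_split hmem]
        simp only [f2]
        have i1 := ih (insert x O) K (insert (φ x) U) X c1 (mem_insert_of_mem hoO) hcon'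
          (mem_insert_of_mem hU) (by
            rw [image_insert]
            exact insert_subset_insert _ hUO) (by
            rw [insert_union, insert_union, image_insert, ← hUX])
        have i2 := ih O (insert x K) U (insert (φ x) X) c2 hoO hcon hU hUO (by
            rw [union_insert, union_insert, image_insert, ← hUX])
        rw [← e1, ← e3] at i1
        rw [← e2, ← e4] at i2
        exact add_le_add (mul_le_mul_of_nonneg_left i1 h0)
          (mul_le_mul_of_nonneg_left i2 (sub_nonneg.2 h1))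
    · refine dom_aux_end G H S B o φ hφ h0 h1 g hg hg0 O K U X hoO hcon hU hUO hUX ?_
      intro x hx z hz hzS hzx
      exact hex ⟨x, hx, z, hz, hzS, hzx⟩
theorem dom {V W : Type*} [Fintype V] [DecidableEq V] [DecidableEq W] (G : SimpleGraph V)
    (H : SimpleGraph W) (S B : Finset W) (o : W) (φ : W → V) (hSB : S ⊆ B) (ho : o ∈ S)
    (hB : ∀ x ∈ S, ∀ y, H.Adj x y → y ∈ B)
    (hφ : ∀ x ∈ S, ∀ u, G.Adj (φ x) u → ∃ y ∈ B, H.Adj x y ∧ φ y = u)
    {q : ℝ} (h0 : 0 ≤ q) (h1 : q ≤ 1) (g : ℕ → ℝ) (hg : Antitone g) (hg0 : ∀ n, 0 ≤ g n) :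
    bern B q (fun A => ind (o ∈ A ∧ clus H A o ⊆ S) * g #(clus H A o)) ≤
    bern univ q (fun A => ind (φ o ∈ A ∧ ∀ x ∈ clus G A (φ o), ∃ y ∈ S, φ y = x) *
      g #(clus G A (φ o))) := by
  rw [bern_split (hSB ho), bern_split (mem_univ (φ o))]
  have key := dom_aux G H S B o φ hφ h0 h1 g hg hg0 _ {o} ∅ {φ o} ∅ rfl (mem_singleton_self _)
    (by
      intro x hx
      rw [mem_singleton] at hx
      subst hx
      exact Con.refl (mem_singleton_self _)) (mem_singleton_self _) (by simp) (by simp)
  have e1 : B \ ({o} ∪ ∅) = B.erase o := by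
    rw [union_empty, sdiff_singleton_eq_erase]
  have e2 : (univ : Finset V) \ ({φ o} ∪ ∅) = univ.erase (φ o) := by
    rw [union_empty, sdiff_singleton_eq_erase]
  have f1 : ∀ A : Finset W, A ∪ {o} = insert o A := by
    intro A
    rw [union_comm]; rfl
  have f2 : ∀ A : Finset V, A ∪ {φ o} = insert (φ o) A := by
    intro A
    rw [union_comm]; rfl
  rw [e1, e2] at key
  simp only [f1, f2] at key
  have hz : bern (B.erase o) q (fun A => ind (o ∈ A ∧ clus H A o ⊆ S) * g #(clus H A o)) = 0 := by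
    rw [← bern_const (B.erase o) q 0]
    refine bern_congr fun A hA => ?_
    rw [ind_false, zero_mul]
    rintro ⟨h, _⟩
    exact notMem_erase o B (hA h)
  rw [hz, mul_zero, add_zero]
  have hp : 0 ≤ bern (univ.erase (φ o)) q (fun A => ind (φ o ∈ A ∧
      ∀ x ∈ clus G A (φ o), ∃ y ∈ S, φ y = x) * g #(clus G A (φ o))) :=
    bern_nonneg h0 h1 fun A _ => mul_nonneg (ind_nonneg _) (hg0 _)
  have := mul_le_mul_of_nonneg_left key h0
  have h3 := mul_nonneg (sub_nonneg.2 h1) hp
  linarith

end Pool.Agent.Helper53.OS
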