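import Pool.Agent.Helper53.OS.Dom2Aux
import Pool.Agent.Helper53.OS.Dom

/-! MP_195d30_co, piece DOM2: the exploration coupling for the triangular lattice, in terms of
animals. -/

set_option autoImplicit false
namespace Pool.Agent.Helper53.OS
open Finset
open scoped Classical
/-- the coupling in terms of animals -/
theorem dom_animals {V : Type*} [Fintype V] [DecidableEq V] (G : SimpleGraph V)
    (S : Finset (ℤ × ℤ)) (φ : ℤ × ℤ → V) (h0S : (0, 0) ∈ S)
    (hφ : ∀ x ∈ S, ∀ u, G.Adj (φ x) u → ∃ y, T.Adj x y ∧ φ y = u)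
    (R : V → Prop) (hR : ∀ x ∈ S, R (φ x)) (K : ℕ) {q : ℝ} (h0 : 0 ≤ q) (h1 : q ≤ 1) :
    ∑ C ∈ (An K).filter (fun C => C ⊆ S), wt q C / #C ≤
    bern univ q (fun A => ind (φ (0, 0) ∈ A ∧ ∀ x ∈ clus G A (φ (0, 0)), R x) *
      (1 / (#(clus G A (φ (0, 0))) : ℝ))) := by
  have hB : ∀ x ∈ S, ∀ y, T.Adj x y → y ∈ S ∪ bd S := by
    intro x hx y hxy
    by_cases h : y ∈ S
    · exact mem_union_left _ h
    · exact mem_union_right _ (mem_bd.2 ⟨h, x, hx, hxy⟩)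
  refine dom_animals_of G S φ R hR K h0 h1 ?_
  refine dom G T S (S ∪ bd S) (0, 0) φ subset_union_left h0S hB ?_ h0 h1 gInv gInv_antitone
    gInv_nonneg
  intro x hx u hu
  obtain ⟨y, hy, rfl⟩ := hφ x hx u hu
  exact ⟨y, hB x hx y hy, hy, rfl⟩
end Pool.Agent.Helper53.OS
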