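import Pool.Agent.Helper53.OS.Base

/-! MP_195d30_co, piece WCNT: straight walks of darts, injectivity and counting. -/

set_option autoImplicit false

namespace Pool.Agent.Helper53.OS

open Finset
open scoped Classical

section darts

variable {V : Type*} {G : SimpleGraph V} {t : V → V → V}

/-- the set of darts -/
def Darts (G : SimpleGraph V) : Set (V × V) := {d | G.Adj d.1 d.2}

theorem mem_Darts {d : V × V} : d ∈ Darts G ↔ G.Adj d.1 d.2 := Iff.rfl

theorem t_mapsTo (ht : IsRot G t) (v : V) : Set.MapsTo (t v) (G.neighborSet v) (G.neighborSet v) := by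
  intro w hw
  exact (ht.face v w hw).1

theorem t_injOn (ht : IsRot G t) (v : V) : Set.InjOn (t v) (G.neighborSet v) := by
  intro w hw w' hw' h
  have h1 := (ht.face v w hw).2.2.2
  have h2 := (ht.face v w' hw').2.2.2
  rw [← h1, ← h2, h]

theorem rot_mapsTo (ht : IsRot G t) : Set.MapsTo (rot t) (Darts G) (Darts G) := by
  intro d hd
  exact (ht.face _ _ hd).1

theorem rot_injOn (ht : IsRot G t) : Set.InjOn (rot t) (Darts G) := by
  rintro ⟨v, w⟩ hd ⟨v', w'⟩ hd' h
  simp only [rot, Prod.mk.injEq] at h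
  obtain ⟨rfl, h⟩ := h
  have : w = w' := t_injOn ht v hd hd' h
  rw [this]

theorem rotI_mapsTo (ht : IsRot G t) : Set.MapsTo (rotI t) (Darts G) (Darts G) := by
  intro d hd
  exact (ht.face _ _ (G.symm.symm _ _ hd)).2.1

theorem rotI_injOn (ht : IsRot G t) : Set.InjOn (rotI t) (Darts G) := by
  rintro ⟨v, w⟩ hd ⟨v', w'⟩ hd' h
  simp only [rotI, Prod.mk.injEq] at h
  obtain ⟨rfl, h⟩ := h
  have h1 := (ht.face w v (G.symm.symm _ _ hd)).2.2.1
  have h2 := (ht.face w' v (G.symm.symm _ _ hd')).2.2.1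
  have : w = w' := by rw [← h1, ← h2, h]
  rw [this]

theorem adv_mapsTo (ht : IsRot G t) : Set.MapsTo (adv t) (Darts G) (Darts G) := by
  intro d hd
  exact (t_mapsTo ht d.2).iterate 3 (G.symm.symm _ _ hd)

theorem adv_injOn (ht : IsRot G t) : Set.InjOn (adv t) (Darts G) := by
  rintro ⟨v, w⟩ hd ⟨v', w'⟩ hd' h
  simp only [adv, Prod.mk.injEq] at h
  obtain ⟨rfl, h⟩ := h
  have : v = v' :=
    ((t_injOn ht w).iterate (t_mapsTo ht w) 3) (G.symm.symm _ _ hd) (G.symm.symm _ _ hd') h
  rw [this]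

theorem mv_mapsTo (ht : IsRot G t) (i : ℕ) : Set.MapsTo (mv t i) (Darts G) (Darts G) := by
  intro d hd
  exact (rotI_mapsTo ht).iterate i (adv_mapsTo ht ((rot_mapsTo ht).iterate i hd))

theorem mv_injOn (ht : IsRot G t) (i : ℕ) : Set.InjOn (mv t i) (Darts G) := by
  intro d hd d' hd' h
  have e1 := (rot_mapsTo ht).iterate i hd
  have e2 := (rot_mapsTo ht).iterate i hd'
  have h1 := ((rotI_injOn ht).iterate (rotI_mapsTo ht) i) (adv_mapsTo ht e1) (adv_mapsTo ht e2) h
  have h2 := adv_injOn ht e1 e2 h1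
  exact ((rot_injOn ht).iterate (rot_mapsTo ht) i) hd hd' h2

theorem wlk_mapsTo (ht : IsRot G t) (i : Fin 6) (a b : ℕ) :
    Set.MapsTo (wlk t i a b) (Darts G) (Darts G) := by
  intro d hd
  exact (mv_mapsTo ht _).iterate a ((mv_mapsTo ht _).iterate b hd)

theorem wlk_injOn (ht : IsRot G t) (i : Fin 6) (a b : ℕ) :
    Set.InjOn (wlk t i a b) (Darts G) := by
  intro d hd d' hd' h
  have e1 := (mv_mapsTo ht (i + 1).val).iterate b hd
  have e2 := (mv_mapsTo ht (i + 1).val).iterate b hd'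
  have h1 := ((mv_injOn ht i.val).iterate (mv_mapsTo ht i.val) a) e1 e2 h
  exact ((mv_injOn ht (i + 1).val).iterate (mv_mapsTo ht (i + 1).val) b) hd hd' h1

theorem rotI_iterate_fst (t : V → V → V) (i : ℕ) (d : V × V) : ((rotI t)^[i] d).1 = d.1 := by
  induction i generalizing d with
  | zero => rfl
  | succ i ih => rw [Function.iterate_succ_apply, ih]; rfl

theorem rot_iterate_fst (t : V → V → V) (i : ℕ) (d : V × V) : ((rot t)^[i] d).1 = d.1 := by
  induction i generalizing d with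
  | zero => rfl
  | succ i ih => rw [Function.iterate_succ_apply, ih]; rfl

theorem mv_fst (t : V → V → V) (i : ℕ) (d : V × V) : (mv t i d).1 = ((rot t)^[i] d).2 := by
  unfold mv
  rw [rotI_iterate_fst]
  rfl

end darts

/-- counting: a vertex is the end of at most `dg G w` straight walks of a given shape -/
theorem wlk_count {V : Type*} [Fintype V] (G : SimpleGraph V) (t : V → V → V) (ht : IsRot G t)
    (i : Fin 6) (a b : ℕ) (ha : 1 ≤ a) (w : V) :
    #(univ.filter (fun d : V × V => G.Adj d.1 d.2 ∧ (wlk t i a b d).1 = w)) ≤ dg G w := by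
  obtain ⟨a, rfl⟩ : ∃ a', a = a' + 1 := ⟨a - 1, by omega⟩
  have key : ∀ d : V × V, (wlk t i (a + 1) b d).1 = ((rot t)^[i.val] (wlk t i a b d)).2 := by
    intro d
    unfold wlk
    rw [Function.iterate_succ_apply', mv_fst]
  unfold dg
  refine card_le_card_of_injOn (fun d => (wlk t i a b d).1) ?_ ?_
  · intro d hd
    simp only [coe_filter, mem_univ, true_and, Set.mem_ofPred_eq] at hd ⊢
    obtain ⟨h1, h2⟩ := hd
    rw [key] at h2
    have h3 : (rot t)^[i.val] (wlk t i a b d) ∈ Darts G :=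
      (rot_mapsTo ht).iterate i.val (wlk_mapsTo ht i a b h1)
    rw [mem_Darts, h2, rot_iterate_fst] at h3
    exact G.symm.symm _ _ h3
  · intro d hd d' hd' h
    simp only [coe_filter, mem_univ, true_and, Set.mem_ofPred_eq] at hd hd'
    obtain ⟨h1, h2⟩ := hd
    obtain ⟨h1', h2'⟩ := hd'
    rw [key] at h2 h2'
    apply wlk_injOn ht i a b h1 h1'
    apply ((rot_injOn ht).iterate (rot_mapsTo ht) i.val) (wlk_mapsTo ht i a b h1)
      (wlk_mapsTo ht i a b h1')
    apply Prod.ext
    · rw [rot_iterate_fst, rot_iterate_fst]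
      exact h
    · rw [h2, h2']

end Pool.Agent.Helper53.OS
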