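import Pool.Agent.Helper53.OS.Ccs
import Pool.Agent.Helper53.OS.Dom2
import Pool.Agent.Helper53.OS.Dev
import Pool.Agent.Helper53.OS.Wcnt

/-! MP_195d30_co, piece ACC: the accounting inequality. -/

set_option autoImplicit false

namespace Pool.Agent.Helper53.OS

open Finset
open scoped Classical

/-! ### the index set of the straight walks -/

/-- index set of the straight walks -/
def Ix (K : ℕ) : Finset (Fin 6 × ℕ × ℕ) :=
  (univ ×ˢ (Finset.Icc 1 K ×ˢ range (K + 1))).filter (fun p => p.2.1 + p.2.2 ≤ K)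

theorem mem_Ix {K : ℕ} {p : Fin 6 × ℕ × ℕ} : p ∈ Ix K ↔ 1 ≤ p.2.1 ∧ p.2.1 + p.2.2 ≤ K := by
  unfold Ix
  simp only [mem_filter, mem_product, mem_univ, true_and, Finset.mem_Icc, mem_range]
  omega

theorem sum_ind {ι : Type*} (s : Finset ι) (P : ι → Prop) [DecidablePred P] :
    ∑ i ∈ s, ind (P i) = #(s.filter P) := by
  rw [card_filter]
  push_cast
  refine sum_congr rfl fun i _ => ?_
  by_cases h : P i
  · rw [ind_true h, if_pos h]
  · rw [ind_false h, if_neg h]

theorem sum_pos_le {K : ℕ} {C : Finset (ℤ × ℤ)} (h0 : (0, 0) ∈ C) :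
    ∑ p ∈ Ix K, ind (pos p.1 p.2.1 p.2.2 ∈ C) ≤ (#C : ℝ) - 1 := by
  rw [sum_ind]
  have h1 : #((Ix K).filter fun p => pos p.1 p.2.1 p.2.2 ∈ C) ≤ #(C.erase (0, 0)) := by
    refine card_le_card_of_injOn (fun p => pos p.1 p.2.1 p.2.2) ?_ ?_
    · intro p hp
      simp only [coe_filter, Set.mem_ofPred_eq] at hp
      obtain ⟨hp1, hp2⟩ := hp
      rw [mem_Ix] at hp1
      refine mem_coe.2 (mem_erase.2 ⟨?_, hp2⟩)
      intro h
      have := hn_pos p.1 p.2.1 p.2.2
      simp only at h
      rw [h] at this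
      have e : hn (0, 0) = 0 := by decide
      omega
    · intro p hp p' hp' h
      simp only [coe_filter, Set.mem_ofPred_eq, mem_Ix] at hp hp'
      obtain ⟨e1, e2, e3⟩ := pos_inj hp.1.1 hp'.1.1 h
      exact Prod.ext e1 (Prod.ext e2 e3)
  rw [card_erase_of_mem h0] at h1
  have h2 : 1 ≤ #C := card_pos.2 ⟨_, h0⟩
  have h3 : ((#C - 1 : ℕ) : ℝ) = (#C : ℝ) - 1 := by push_cast [h2]; ring
  rw [← h3]
  exact_mod_cast h1

theorem sum_rad_le (K m : ℕ) :
    ∑ p ∈ Ix K, ind (p.2.1 + p.2.2 < m) ≤ 3 * m * ((m : ℝ) - 1) := by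
  rw [sum_ind]
  have h1 : #((Ix K).filter fun p => p.2.1 + p.2.2 < m) ≤
      #((univ : Finset (Fin 6)) ×ˢ ((range m).sigma fun r => range r)) := by
    refine card_le_card_of_injOn (fun p => (p.1, ⟨p.2.1 + p.2.2, p.2.2⟩)) ?_ ?_
    · intro p hp
      simp only [coe_filter, Set.mem_ofPred_eq, mem_Ix] at hp
      simp only [coe_product, Set.mem_prod, coe_univ, Set.mem_univ, true_and, mem_coe, mem_sigma,
        mem_range]
      omega
    · intro p hp p' hp' h
      simp only [Prod.mk.injEq, Sigma.mk.injEq] at h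
      obtain ⟨e1, e2, e3⟩ := h
      have e3' : p.2.2 = p'.2.2 := eq_of_heq e3
      have e2' : p.2.1 = p'.2.1 := by omega
      exact Prod.ext e1 (Prod.ext e2' e3')
  rw [card_product, card_univ, Fintype.card_fin, card_sigma] at h1
  simp only [card_range] at h1
  have h2 := Finset.sum_range_id_mul_two m
  rcases Nat.eq_zero_or_pos m with rfl | hm
  · simp
  have h3 : ((m - 1 : ℕ) : ℝ) = (m : ℝ) - 1 := by push_cast [hm]; ring
  have h4 : (#((Ix K).filter fun p => p.2.1 + p.2.2 < m) : ℝ) ≤ 6 * ((∑ i ∈ range m, i : ℕ) : ℝ) := by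
    exact_mod_cast h1
  have h5 : ((∑ i ∈ range m, i : ℕ) : ℝ) * 2 = m * ((m : ℝ) - 1) := by
    rw [← h3]
    exact_mod_cast h2
  linarith

/-! ### the loss at a dart -/

/-- weights of the losses -/
noncomputable def lossw (K : ℕ) (q : ℝ) (p : Fin 6 × ℕ × ℕ) : ℝ :=
  ∑ C ∈ An K, wt q C / #C * (ind (pos p.1 p.2.1 p.2.2 ∈ C) + ind (p.2.1 + p.2.2 < rad C))

theorem lossw_nonneg {q : ℝ} (h0 : 0 ≤ q) (h1 : q ≤ 1) (K : ℕ) (p : Fin 6 × ℕ × ℕ) :
    0 ≤ lossw K q p :=
  sum_nonneg fun C _ => mul_nonneg (div_nonneg (wt_nonneg h0 h1 C) (Nat.cast_nonneg _))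
    (add_nonneg (ind_nonneg _) (ind_nonneg _))

theorem zero_mem_An {K : ℕ} {C : Finset (ℤ × ℤ)} (h : C ∈ An K) : (0, 0) ∈ C := by
  unfold An at h
  exact (mem_filter.1 h).2.1

theorem sum_lossw_le {q : ℝ} (h0 : 0 ≤ q) (h1 : q ≤ 1) (K : ℕ) :
    ∑ p ∈ Ix K, lossw K q p ≤ 6 * Lam K q := by
  unfold lossw Lam
  rw [sum_comm, mul_div_cancel₀ _ (by norm_num : (6 : ℝ) ≠ 0)]
  refine sum_le_sum fun C hC => ?_
  rw [← mul_sum, sum_add_distrib]
  refine mul_le_mul_of_nonneg_left ?_ (div_nonneg (wt_nonneg h0 h1 C) (Nat.cast_nonneg _))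
  exact add_le_add (sum_pos_le (zero_mem_An hC)) (sum_rad_le K (rad C))

section graph

variable {V : Type*} [Fintype V]

/-- the expectation of `1/|clus v|` when the cluster has regular vertices only -/
noncomputable def reg [DecidableEq V] (G : SimpleGraph V) (q : ℝ) (v : V) : ℝ :=
  bern univ q (fun A => ind (v ∈ A ∧ ∀ x ∈ clus G A v, dg G x = 6) *
    (1 / (#(clus G A v) : ℝ)))

/-- the loss at a dart -/
noncomputable def loss (G : SimpleGraph V) (t : V → V → V) (K : ℕ) (q : ℝ) (d : V × V) : ℝ :=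
  ∑ p ∈ Ix K, ind (dg G (wlk t p.1 p.2.1 p.2.2 d).1 ≠ 6) * lossw K q p

theorem loss_nonneg (G : SimpleGraph V) (t : V → V → V) (K : ℕ) {q : ℝ} (h0 : 0 ≤ q) (h1 : q ≤ 1)
    (d : V × V) : 0 ≤ loss G t K q d :=
  sum_nonneg fun p _ => mul_nonneg (ind_nonneg _) (lossw_nonneg h0 h1 K p)

theorem dart_bound [DecidableEq V] (G : SimpleGraph V) (t : V → V → V) (ht : IsRot G t) (K : ℕ) {q : ℝ}
    (h0 : 0 ≤ q) (h1 : q ≤ 1) {d : V × V} (hd : G.Adj d.1 d.2) (h6 : dg G d.1 = 6) :
    kapK K q - loss G t K q d ≤ reg G q d.1 := by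
  set r := Nat.findGreatest (fun r => Good G t r d) (K + 1) with hr
  have hg1 : Good G t 1 d := ⟨hd, fun _ => h6, fun i a b ha hab => by omega⟩
  have hr1 : 1 ≤ r := Nat.le_findGreatest (by omega) hg1
  have hgr : Good G t r d := Nat.findGreatest_spec (P := fun r => Good G t r d) (by omega) hg1
  have hrK : r ≤ K + 1 := Nat.findGreatest_le _
  have hmax : ∀ k, r < k → k ≤ K + 1 → ¬ Good G t k d := fun k hk hk' =>
    Nat.findGreatest_is_greatest hk hk'
  clear_value r
  obtain ⟨φ, hφ0, hφ1, hφ2, hφ3⟩ := dev G t ht hr1 hgr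
  set S : Finset (ℤ × ℤ) := (ball r).filter (fun x => dg G (φ x) = 6) with hS
  have hball : ∀ m x, x ∈ ball m ↔ hn x ≤ m := by
    intro m x
    unfold ball hn
    simp only [mem_filter, mem_product, Finset.mem_Icc]
    constructor
    · exact fun h => h.2
    · intro h
      refine ⟨?_, h⟩
      omega
  have h0S : (0, 0) ∈ S := by
    rw [hS, mem_filter, hball, hφ0]
    exact ⟨by have : hn (0, 0) = 0 := by decide
              omega, h6⟩
  have hdom := dom_animals G S φ h0S (by
    intro x hx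
    rw [hS, mem_filter, hball] at hx
    exact hφ3 x hx.1 hx.2) (fun u => dg G u = 6) (by
    intro x hx
    rw [hS, mem_filter] at hx
    exact hx.2) K h0 h1
  rw [hφ0] at hdom
  refine le_trans ?_ hdom
  rw [sub_le_iff_le_add]
  unfold kapK
  rw [← sum_filter_add_sum_filter_not (An K) (fun C => C ⊆ S)]
  refine add_le_add le_rfl ?_
  -- the clusters that are not inside `S`
  have hexch : loss G t K q d = ∑ C ∈ An K, wt q C / #C *
      ∑ p ∈ Ix K, ind (dg G (wlk t p.1 p.2.1 p.2.2 d).1 ≠ 6) *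
        (ind (pos p.1 p.2.1 p.2.2 ∈ C) + ind (p.2.1 + p.2.2 < rad C)) := by
    unfold loss lossw
    simp only [mul_sum]
    rw [sum_comm]
    exact sum_congr rfl fun C _ => sum_congr rfl fun p _ => by ring
  have hnn : ∀ C, 0 ≤ wt q C / (#C : ℝ) := fun C =>
    div_nonneg (wt_nonneg h0 h1 C) (Nat.cast_nonneg _)
  have hnn2 : ∀ C : Finset (ℤ × ℤ), ∀ p ∈ Ix K,
      0 ≤ ind (dg G (wlk t p.1 p.2.1 p.2.2 d).1 ≠ 6) *
        (ind (pos p.1 p.2.1 p.2.2 ∈ C) + ind (p.2.1 + p.2.2 < rad C)) := fun C p _ =>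
    mul_nonneg (ind_nonneg _) (add_nonneg (ind_nonneg _) (ind_nonneg _))
  rw [hexch]
  calc ∑ C ∈ (An K).filter (fun C => ¬ C ⊆ S), wt q C / (#C : ℝ)
      ≤ ∑ C ∈ (An K).filter (fun C => ¬ C ⊆ S), wt q C / (#C : ℝ) *
        ∑ p ∈ Ix K, ind (dg G (wlk t p.1 p.2.1 p.2.2 d).1 ≠ 6) *
        (ind (pos p.1 p.2.1 p.2.2 ∈ C) + ind (p.2.1 + p.2.2 < rad C)) := by
        refine sum_le_sum fun C hC => ?_
        rw [mem_filter] at hC
        obtain ⟨hCA, hCS⟩ := hC
        refine le_mul_of_one_le_right (hnn C) ?_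
        have key : ∃ p ∈ Ix K, dg G (wlk t p.1 p.2.1 p.2.2 d).1 ≠ 6 ∧
            (pos p.1 p.2.1 p.2.2 ∈ C ∨ p.2.1 + p.2.2 < rad C) := by
          have hCb : ∀ x ∈ C, hn x ≤ K := by
            intro x hx
            unfold An at hCA
            rw [mem_filter, mem_powerset] at hCA
            exact (hball K x).1 (hCA.1 hx)
          have hrK' : r ≤ K := by
            by_contra hne
            apply hCS
            intro x hx
            have := hCb x hx
            rw [hS, mem_filter, hball]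
            exact ⟨by omega, hφ2 x (by omega)⟩
          obtain ⟨x, hxC, hxS⟩ := not_subset.1 hCS
          by_cases hxr : hn x ≤ r
          · have hne : dg G (φ x) ≠ 6 := by
              intro h
              apply hxS
              rw [hS, mem_filter, hball]
              exact ⟨hxr, h⟩
            have hxr' : hn x = r := by
              by_contra h
              exact hne (hφ2 x (by omega))
            have hx0 : x ≠ (0, 0) := by
              rintro rfl
              exact hne (by rw [hφ0]; exact h6)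
            obtain ⟨i, a, b, ha, hab, rfl⟩ := exists_pos hx0
            refine ⟨(i, a, b), mem_Ix.2 ⟨ha, by simp only; omega⟩, ?_, Or.inl hxC⟩
            rw [hφ1 i a b ha (by omega)] at hne
            exact hne
          · have hnot := hmax (r + 1) (by omega) (by omega)
            have : ∃ i a b, 1 ≤ a ∧ a + b < r + 1 ∧ dg G (wlk t i a b d).1 ≠ 6 := by
              by_contra hcon
              apply hnot
              refine ⟨hd, fun _ => h6, ?_⟩
              intro i a b ha hab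
              by_contra h
              exact hcon ⟨i, a, b, ha, hab, h⟩
            obtain ⟨i, a, b, ha, hab, h⟩ := this
            refine ⟨(i, a, b), mem_Ix.2 ⟨ha, by simp only; omega⟩, h, Or.inr ?_⟩
            have : hn x ≤ rad C := le_sup (f := hn) hxC
            simp only
            omega
        obtain ⟨p, hp, hp1, hp2⟩ := key
        refine le_trans ?_ (single_le_sum (hnn2 C) hp)
        rw [ind_true hp1, one_mul]
        rcases hp2 with h | h
        · rw [ind_true h]
          have := ind_nonneg (p.2.1 + p.2.2 < rad C)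
          linarith
        · rw [ind_true h]
          have := ind_nonneg (pos p.1 p.2.1 p.2.2 ∈ C)
          linarith
    _ ≤ _ := sum_le_sum_of_subset_of_nonneg (filter_subset _ _) fun C _ _ =>
        mul_nonneg (hnn C) (sum_nonneg (hnn2 C))

theorem sum_loss_le (G : SimpleGraph V) (t : V → V → V) (ht : IsRot G t) (K : ℕ) {q : ℝ}
    (h0 : 0 ≤ q) (h1 : q ≤ 1) :
    ∑ d ∈ univ.filter (fun d : V × V => G.Adj d.1 d.2), loss G t K q d ≤
      (∑ w ∈ univ.filter (fun w => dg G w ≠ 6), (dg G w : ℝ)) * (6 * Lam K q) := by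
  unfold loss
  rw [sum_comm]
  have h2 : ∀ p ∈ Ix K, ∑ d ∈ univ.filter (fun d : V × V => G.Adj d.1 d.2),
      ind (dg G (wlk t p.1 p.2.1 p.2.2 d).1 ≠ 6) * lossw K q p ≤
      (∑ w ∈ univ.filter (fun w => dg G w ≠ 6), (dg G w : ℝ)) * lossw K q p := by
    intro p hp
    rw [← sum_mul, sum_ind]
    refine mul_le_mul_of_nonneg_right ?_ (lossw_nonneg h0 h1 K p)
    rw [mem_Ix] at hp
    have h3 : (univ.filter (fun d : V × V => G.Adj d.1 d.2)).filter
        (fun d => dg G (wlk t p.1 p.2.1 p.2.2 d).1 ≠ 6) ⊆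
        (univ.filter (fun w => dg G w ≠ 6)).biUnion (fun w =>
          univ.filter (fun d : V × V => G.Adj d.1 d.2 ∧ (wlk t p.1 p.2.1 p.2.2 d).1 = w)) := by
      intro d hd
      simp only [mem_filter, mem_univ, true_and] at hd
      simp only [mem_biUnion, mem_filter, mem_univ, true_and]
      exact ⟨_, hd.2, hd.1, rfl⟩
    have h4 := (card_le_card h3).trans card_biUnion_le
    have h5 : ∑ w ∈ univ.filter (fun w => dg G w ≠ 6),
        #(univ.filter (fun d : V × V => G.Adj d.1 d.2 ∧ (wlk t p.1 p.2.1 p.2.2 d).1 = w)) ≤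
        ∑ w ∈ univ.filter (fun w => dg G w ≠ 6), dg G w :=
      sum_le_sum fun w _ => by
        have := wlk_count G t ht p.1 p.2.1 p.2.2 hp.1 w
        convert this
    exact_mod_cast h4.trans h5
  refine (sum_le_sum h2).trans ?_
  rw [← mul_sum]
  exact mul_le_mul_of_nonneg_left (sum_lossw_le h0 h1 K) (sum_nonneg fun w _ => Nat.cast_nonneg _)

theorem sum_reg_ge [DecidableEq V] (G : SimpleGraph V) (t : V → V → V) (ht : IsRot G t) (K : ℕ) {q : ℝ}
    (h0 : 0 ≤ q) (h1 : q ≤ 1) :
    ∑ _v ∈ univ.filter (fun v => dg G v = 6), kapK K q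
      - ∑ v ∈ univ.filter (fun v => dg G v ≠ 6), dg G v * Lam K q
    ≤ ∑ v ∈ univ.filter (fun v => dg G v = 6), reg G q v := by
  have h2 : ∀ v ∈ univ.filter (fun v => dg G v = 6),
      6 * kapK K q - ∑ w ∈ univ.filter (fun w => G.Adj v w), loss G t K q (v, w) ≤
        6 * reg G q v := by
    intro v hv
    rw [mem_filter] at hv
    have h3 : ∑ w ∈ univ.filter (fun w => G.Adj v w), (kapK K q - loss G t K q (v, w)) ≤
        ∑ w ∈ univ.filter (fun w => G.Adj v w), reg G q v :=
      sum_le_sum fun w hw => dart_bound G t ht K h0 h1 (d := (v, w)) (mem_filter.1 hw).2 hv.2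
    have h4 : #(univ.filter (fun w => G.Adj v w)) = 6 := hv.2
    rw [sum_sub_distrib, sum_const, sum_const, h4] at h3
    simpa [nsmul_eq_mul] using h3
  have h3 := sum_le_sum h2
  rw [sum_sub_distrib, ← mul_sum, ← mul_sum] at h3
  have h4 : ∑ v ∈ univ.filter (fun v => dg G v = 6), ∑ w ∈ univ.filter (fun w => G.Adj v w),
      loss G t K q (v, w) ≤ ∑ d ∈ univ.filter (fun d : V × V => G.Adj d.1 d.2), loss G t K q d := by
    have h5 : ∑ d ∈ univ.filter (fun d : V × V => G.Adj d.1 d.2), loss G t K q d =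
        ∑ v : V, ∑ w ∈ univ.filter (fun w => G.Adj v w), loss G t K q (v, w) := by
      rw [sum_filter, ← univ_product_univ, sum_product]
      refine sum_congr rfl fun v _ => ?_
      rw [sum_filter]
    rw [h5]
    exact sum_le_sum_of_subset_of_nonneg (filter_subset _ _) fun v _ _ =>
      sum_nonneg fun w _ => loss_nonneg G t K h0 h1 _
  have h5 := sum_loss_le G t ht K h0 h1
  have h6 : ∑ v ∈ univ.filter (fun v => dg G v ≠ 6), (dg G v : ℝ) * Lam K q =
      (∑ w ∈ univ.filter (fun w => dg G w ≠ 6), (dg G w : ℝ)) * Lam K q := by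
    rw [sum_mul]
  rw [h6]
  linarith

theorem isolated_ge [DecidableEq V] (G : SimpleGraph V) {q : ℝ} (h0 : 0 ≤ q) (h1 : q ≤ 1) (v : V) :
    q * (1 - q) ^ dg G v ≤
      bern univ q (fun A => ind (v ∈ A) * (1 / (#(clus G A v) : ℝ))) := by
  have h2 : Disjoint ({v} : Finset V) (univ.filter (fun w => G.Adj v w)) := by
    rw [disjoint_singleton_left, mem_filter]
    rintro ⟨_, h⟩
    exact G.loopless.irrefl v h
  have h3 := bern_event (subset_univ ({v} : Finset V))
    (subset_univ (univ.filter (fun w => G.Adj v w))) h2 q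
  rw [card_singleton, pow_one] at h3
  unfold dg
  rw [← h3]
  refine bern_mono h0 h1 fun A _ => ?_
  by_cases h4 : ({v} : Finset V) ⊆ A ∧ Disjoint (univ.filter (fun w => G.Adj v w)) A
  · rw [ind_true h4]
    have hv : v ∈ A := h4.1 (mem_singleton_self v)
    have h5 : clus G A v = {v} := by
      apply Subset.antisymm
      · intro w hw
        refine (mem_clus.1 hw).closed (P := fun x => x ∈ ({v} : Finset V)) (mem_singleton_self v) ?_
        intro x y hx _ hy hxy
        rw [mem_singleton] at hx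
        subst hx
        exact absurd hy (disjoint_left.1 h4.2 (mem_filter.2 ⟨mem_univ _, hxy⟩))
      · rw [singleton_subset_iff]
        exact self_mem_clus hv
    rw [h5, ind_true hv]
    simp
  · rw [ind_false h4]
    exact mul_nonneg (ind_nonneg _) (by positivity)

theorem acc {V : Type*} [Fintype V] [DecidableEq V] (G : SimpleGraph V) (t : V → V → V)
    (ht : IsRot G t) (K : ℕ) {q : ℝ} (h0 : 0 ≤ q) (h1 : q ≤ 1) :
    ∑ v ∈ univ.filter (fun v => dg G v ≠ 6), q * (1 - q) ^ dg G v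
      + ∑ _v ∈ univ.filter (fun v => dg G v = 6), kapK K q
      - ∑ v ∈ univ.filter (fun v => dg G v ≠ 6), dg G v * Lam K q
    ≤ bern univ q (fun A => (cc G A : ℝ)) := by
  have h2 : bern univ q (fun A => (cc G A : ℝ)) =
      ∑ v : V, bern univ q (fun A => ind (v ∈ A) * (1 / (#(clus G A v) : ℝ))) := by
    rw [← bern_sum]
    refine bern_congr fun A _ => ?_
    rw [cc_eq_sum]
    rw [← sum_filter_add_sum_filter_not univ (fun v => v ∈ A)]
    have e1 : ∑ x ∈ univ.filter (fun v => ¬ v ∈ A), ind (x ∈ A) * (1 / (#(clus G A x) : ℝ)) = 0 := by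
      refine sum_eq_zero fun x hx => ?_
      rw [ind_false (mem_filter.1 hx).2, zero_mul]
    rw [e1, add_zero]
    have e2 : univ.filter (fun v => v ∈ A) = A := by ext; simp
    rw [e2]
    refine sum_congr rfl fun x hx => ?_
    rw [ind_true hx, one_mul]
  rw [h2, ← sum_filter_add_sum_filter_not univ (fun v => dg G v = 6)]
  have h3 : ∑ v ∈ univ.filter (fun v => dg G v = 6), reg G q v ≤
      ∑ v ∈ univ.filter (fun v => dg G v = 6),
        bern univ q (fun A => ind (v ∈ A) * (1 / (#(clus G A v) : ℝ))) := by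
    refine sum_le_sum fun v _ => ?_
    unfold reg
    refine bern_mono h0 h1 fun A _ => ?_
    exact mul_le_mul_of_nonneg_right (ind_mono fun h => h.1) (by positivity)
  have h4 : ∑ v ∈ univ.filter (fun v => dg G v ≠ 6), q * (1 - q) ^ dg G v ≤
      ∑ v ∈ univ.filter (fun v => ¬ dg G v = 6),
        bern univ q (fun A => ind (v ∈ A) * (1 / (#(clus G A v) : ℝ))) :=
    sum_le_sum fun v _ => isolated_ge G h0 h1 v
  have h5 := sum_reg_ge G t ht K h0 h1
  linarith

end graph

end Pool.Agent.Helper53.OS
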