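import Pool.Agent.Helper53.OS.Kap

/-! Piece ACC2 of MP_195d30_co: Euler's formula and convexity; the inequality of piece ACC is a
hypothesis here. -/

set_option autoImplicit false

namespace Pool.Agent.Helper53.OS

open Finset
open scoped Classical

theorem sum_dg {V : Type*} [Fintype V] (G : SimpleGraph V) (hG : IsTri G) :
    ∑ v, ((dg G v : ℝ) - 6) = -12 := by
  have h1 : ∑ v, dg G v = 2 * Nat.card G.edgeSet := by
    have h := G.sum_degrees_eq_twice_card_edges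
    have h' : Nat.card G.edgeSet = #G.edgeFinset := by
      rw [Nat.card_eq_fintype_card, ← SimpleGraph.edgeFinset_card]
    rw [h', ← h]
    refine sum_congr rfl fun v _ => ?_
    unfold dg
    rw [← SimpleGraph.card_neighborFinset_eq_degree]
    congr 1
    ext w
    simp
  have h2 := hG.edges
  have h3 : ∑ v, ((dg G v : ℝ) - 6) = ((∑ v, dg G v : ℕ) : ℝ) - 6 * Fintype.card V := by
    rw [sum_sub_distrib, sum_const, card_univ, nsmul_eq_mul]
    push_cast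
    ring
  rw [h3, h1]
  have h4 : ((Nat.card G.edgeSet : ℕ) : ℝ) + 6 = 3 * Fintype.card V := by exact_mod_cast h2
  push_cast
  linarith

theorem nat_mul_pred_nonneg (r : ℕ) : 0 ≤ (r : ℝ) * ((r : ℝ) - 1) := by
  rcases Nat.eq_zero_or_pos r with h | h
  · rw [h]; simp
  · have : (1 : ℝ) ≤ r := by exact_mod_cast h
    exact mul_nonneg (by linarith) (by linarith)

theorem Lam_nonneg {K : ℕ} {q : ℝ} (h0 : 0 ≤ q) (h1 : q ≤ 1) : 0 ≤ Lam K q := by
  unfold Lam
  refine div_nonneg (sum_nonneg fun C hC => ?_) (by norm_num)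
  refine mul_nonneg (term_nonneg h0 h1 C) ?_
  have h2 : 1 ≤ #C := card_pos.2 ⟨_, (mem_An.1 hC).1⟩
  have h3 : (1 : ℝ) ≤ #C := by exact_mod_cast h2
  have := nat_mul_pred_nonneg (rad C)
  nlinarith

theorem Lam_eq {K : ℕ} (q : ℝ) :
    12 * Lam K q + 2 * ∑ C ∈ (An K).filter (fun C => 2 ≤ #C), wt q C / #C =
      ∑ C ∈ (An K).filter (fun C => 2 ≤ #C),
        wt q C * (2 + 6 * rad C * ((rad C : ℝ) - 1) / #C) := by
  unfold Lam
  have h1 : ∑ C ∈ An K, wt q C / #C * (((#C : ℝ) - 1) + 3 * rad C * ((rad C : ℝ) - 1)) =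
      ∑ C ∈ (An K).filter (fun C => 2 ≤ #C),
        wt q C / #C * (((#C : ℝ) - 1) + 3 * rad C * ((rad C : ℝ) - 1)) := by
    rw [← sum_filter_add_sum_filter_not (An K) (fun C => 2 ≤ #C)]
    rw [add_eq_left]
    refine sum_eq_zero fun C hC => ?_
    rw [mem_filter, mem_An] at hC
    obtain ⟨⟨h0, _, _⟩, h2⟩ := hC
    have h3 : #C ≤ 1 := by omega
    have h4 : C = {(0, 0)} := (subset_antisymm (singleton_subset_iff.2 h0) (fun x hx =>
        mem_singleton.2 (card_le_one.1 h3 x hx _ h0))).symm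
    have h5 : rad C = 0 := by
      rw [h4]; simp [rad, hn]
    have h6 : #C = 1 := by rw [h4]; simp
    rw [h5, h6]
    simp
  rw [h1]
  rw [show ∀ x : ℝ, 12 * (x / 6) = 2 * x from fun x => by ring]
  rw [mul_sum, mul_sum, ← sum_add_distrib]
  refine sum_congr rfl fun C hC => ?_
  rw [mem_filter] at hC
  have h2 : (#C : ℝ) ≠ 0 := by
    have : 0 < #C := by omega
    positivity
  field_simp
  ring

/-- the convexity argument -/
theorem convex_ineq {p A B : ℝ} (hp0 : 0 < p) (hp1 : p < 1) (hA : 0 ≤ A) (hB : 0 ≤ B)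
    (h : 2 * A + 12 * B ≤ (1 - p) ^ 3 * p ^ 5) {d : ℕ} (hd : d ≠ 6) :
    0 ≤ (1 - p) * (p ^ d - p ^ 6) + ((1 - p) * (p ^ 5 - p ^ 6) - A - 5 * B) * ((d : ℝ) - 6)
      - A - d * B := by
  have hq : 0 ≤ 1 - p := by linarith
  rcases Nat.lt_or_gt_of_ne hd with hd | hd
  · have e : ∀ j ≤ 5, p ^ 5 ≤ p ^ j := fun j hj => pow_le_pow_of_le_one hp0.le hp1.le hj
    have e0 := e 0 (by norm_num)
    have e1 := e 1 (by norm_num)
    have e2 := e 2 (by norm_num)
    have e3 := e 3 (by norm_num)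
    have e4 := e 4 (by norm_num)
    have hs : ∀ S : ℝ, 0 ≤ S → 0 ≤ (1 - p) ^ 2 * S := fun S hS => mul_nonneg (sq_nonneg _) hS
    interval_cases d
    · have := hs (p ^ 0 + p ^ 1 + p ^ 2 + p ^ 3 + p ^ 4 - 5 * p ^ 5) (by linarith)
      push_cast
      nlinarith [this]
    · have := hs (p ^ 1 + p ^ 2 + p ^ 3 + p ^ 4 - 4 * p ^ 5) (by linarith)
      push_cast
      nlinarith [this]
    · have := hs (p ^ 2 + p ^ 3 + p ^ 4 - 3 * p ^ 5) (by linarith)
      push_cast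
      nlinarith [this]
    · have := hs (p ^ 3 + p ^ 4 - 2 * p ^ 5) (by linarith)
      push_cast
      nlinarith [this]
    · have := hs (p ^ 4 - p ^ 5) (by linarith)
      push_cast
      nlinarith [this]
    · push_cast
      nlinarith [hs 0 le_rfl]
  · obtain ⟨k, rfl⟩ : ∃ k, d = 7 + k := ⟨d - 7, by omega⟩
    have hb : 1 - (k : ℝ) * (1 - p) ≤ p ^ k := by
      have := one_add_mul_le_pow (a := p - 1) (by linarith) k
      have h2 : 1 + (p - 1) = p := by ring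
      rw [h2] at this
      linarith
    have hp5 : 0 < p ^ 5 := pow_pos hp0 5
    have h7 : 0 ≤ (1 - p) * p ^ 7 := mul_nonneg hq (pow_pos hp0 7).le
    have h8 : (1 - p) * p ^ 7 * (1 - (k : ℝ) * (1 - p)) ≤ (1 - p) * p ^ 7 * p ^ k :=
      mul_le_mul_of_nonneg_left hb h7
    have h9 : 0 ≤ (k : ℝ) := Nat.cast_nonneg _
    have h10 : 0 ≤ (1 - p) ^ 2 * p ^ 5 - A - 6 * B - (1 - p) ^ 2 * p ^ 7 := by
      have h11 : (1 - p) ^ 3 * p ^ 5 ≤ 2 * ((1 - p) ^ 2 * p ^ 5 - (1 - p) ^ 2 * p ^ 7) := by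
        have : 2 * ((1 - p) ^ 2 * p ^ 5 - (1 - p) ^ 2 * p ^ 7) - (1 - p) ^ 3 * p ^ 5 =
            (1 - p) ^ 3 * p ^ 5 * (1 + 2 * p) := by ring
        have h12 : 0 ≤ (1 - p) ^ 3 * p ^ 5 * (1 + 2 * p) :=
          mul_nonneg (mul_nonneg (pow_nonneg hq 3) hp5.le) (by linarith)
        linarith
      linarith
    have h11 := mul_nonneg h9 h10
    have h12 : p ^ (7 + k) = p ^ 7 * p ^ k := pow_add _ _ _
    rw [h12]
    push_cast
    nlinarith [h8, h11, h]

theorem acc2_of {V : Type*} [Fintype V] [DecidableEq V] (G : SimpleGraph V) (hG : IsTri G) {K : ℕ}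
    (hK : 1 ≤ K) {q : ℝ} (h0 : 0 < q) (h1 : q < 1)
    (hN1 : ∑ C ∈ (An K).filter (fun C => 2 ≤ #C),
      wt q C * (2 + 6 * rad C * ((rad C : ℝ) - 1) / #C) ≤ q ^ 3 * (1 - q) ^ 5)
    (hacc : ∑ v ∈ univ.filter (fun v => dg G v ≠ 6), q * (1 - q) ^ dg G v
      + ∑ _v ∈ univ.filter (fun v => dg G v = 6), kapK K q
      - ∑ v ∈ univ.filter (fun v => dg G v ≠ 6), dg G v * Lam K q
    ≤ bern univ q (fun A => (cc G A : ℝ))) :
    (Fintype.card V : ℝ) * kapK K q ≤ bern univ q (fun A => (cc G A : ℝ)) := by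
  refine le_trans ?_ hacc
  have hsplit := kapK_succ_split hK q
  obtain ⟨A, hA⟩ : ∃ A, A = ∑ C ∈ (An K).filter (fun C => 2 ≤ #C), wt q C / #C := ⟨_, rfl⟩
  obtain ⟨B, hB⟩ : ∃ B, B = Lam K q := ⟨_, rfl⟩
  have hA0 : 0 ≤ A := hA ▸ sum_nonneg fun C _ => term_nonneg h0.le h1.le C
  have hB0 : 0 ≤ B := hB ▸ Lam_nonneg h0.le h1.le
  have hN : 2 * A + 12 * B ≤ q ^ 3 * (1 - q) ^ 5 := by
    have := Lam_eq (K := K) q
    rw [← hA, ← hB] at this
    linarith
  rw [← hA] at hsplit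
  rw [← hB]
  have hN' : 2 * A + 12 * B ≤ (1 - (1 - q)) ^ 3 * (1 - q) ^ 5 := by
    rwa [sub_sub_cancel]
  have hu : ∀ v ∈ univ.filter (fun v => dg G v ≠ 6),
      0 ≤ q * ((1 - q) ^ dg G v - (1 - q) ^ 6)
        + (q * ((1 - q) ^ 5 - (1 - q) ^ 6) - A - 5 * B) * ((dg G v : ℝ) - 6)
        - A - dg G v * B := by
    intro v hv
    have := convex_ineq (p := 1 - q) (by linarith) (by linarith) hA0 hB0 hN'
      (mem_filter.1 hv).2
    rwa [sub_sub_cancel] at this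
  have hsum := sum_nonneg hu
  have hdeg : ∑ v ∈ univ.filter (fun v => dg G v ≠ 6), ((dg G v : ℝ) - 6) = -12 := by
    rw [← sum_dg G hG, ← sum_filter_add_sum_filter_not univ (fun v => dg G v ≠ 6)]
    symm
    rw [add_eq_left]
    refine sum_eq_zero fun v hv => ?_
    have : dg G v = 6 := not_not.1 (mem_filter.1 hv).2
    rw [this]
    norm_num
  have hc : 0 ≤ q * ((1 - q) ^ 5 - (1 - q) ^ 6) - A - 5 * B := by
    have h2 : q * ((1 - q) ^ 5 - (1 - q) ^ 6) - q ^ 3 * (1 - q) ^ 5 =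
        q ^ 2 * (1 - q) ^ 5 * (1 - q) := by ring
    have h3 : 0 ≤ q ^ 2 * (1 - q) ^ 5 * (1 - q) :=
      mul_nonneg (mul_nonneg (sq_nonneg _) (pow_nonneg (by linarith) _)) (by linarith)
    linarith
  have hcard : (Fintype.card V : ℝ) = (#(univ.filter (fun v => dg G v ≠ 6)) : ℝ) +
      (#(univ.filter (fun v => dg G v = 6)) : ℝ) := by
    rw [← card_univ, ← card_filter_add_card_filter_not (s := (univ : Finset V))
      (fun v => dg G v ≠ 6)]
    push_cast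
    congr 3
    ext v
    simp
  have hexp : ∑ v ∈ univ.filter (fun v => dg G v ≠ 6),
      (q * ((1 - q) ^ dg G v - (1 - q) ^ 6)
        + (q * ((1 - q) ^ 5 - (1 - q) ^ 6) - A - 5 * B) * ((dg G v : ℝ) - 6)
        - A - dg G v * B) =
      ∑ v ∈ univ.filter (fun v => dg G v ≠ 6), q * (1 - q) ^ dg G v
        - ∑ v ∈ univ.filter (fun v => dg G v ≠ 6), dg G v * B
        + (q * ((1 - q) ^ 5 - (1 - q) ^ 6) - A - 5 * B) *
          ∑ v ∈ univ.filter (fun v => dg G v ≠ 6), ((dg G v : ℝ) - 6)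
        - #(univ.filter (fun v => dg G v ≠ 6)) * (q * (1 - q) ^ 6 + A) := by
    rw [mul_sum, ← sum_sub_distrib, ← sum_add_distrib, ← nsmul_eq_mul, ← sum_const,
      ← sum_sub_distrib]
    exact sum_congr rfl fun v _ => by ring
  rw [hexp, hdeg, ← hsplit] at hsum
  rw [hcard, sum_const, nsmul_eq_mul]
  linarith

end Pool.Agent.Helper53.OS
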