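import Pool.Agent.Helper53.OS.Acc
import Pool.Agent.Helper53.OS.Acc2Aux
/-! MP_195d30_co: `acc2` from `acc` and `acc2_of`. -/
set_option autoImplicit false
namespace Pool.Agent.Helper53.OS
open Finset
open scoped Classical

theorem acc2 {V : Type*} [Fintype V] [DecidableEq V] (G : SimpleGraph V) (hG : IsTri G) {K : ℕ}
    (hK : 1 ≤ K) {q : ℝ} (h0 : 0 < q) (h1 : q < 1)
    (hN1 : ∑ C ∈ (An K).filter (fun C => 2 ≤ #C),
      wt q C * (2 + 6 * rad C * ((rad C : ℝ) - 1) / #C) ≤ q ^ 3 * (1 - q) ^ 5) :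
    (Fintype.card V : ℝ) * kapK K q ≤ bern univ q (fun A => (cc G A : ℝ)) := by
  obtain ⟨t, ht⟩ := hG.rot
  exact acc2_of G hG hK h0 h1 hN1 (acc G t ht K h0.le h1.le)

end Pool.Agent.Helper53.OS
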