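import Pool.Agent.Helper53.OS.Defs

/-! Basic lemmas for MP_195d30_co. -/

set_option autoImplicit false

namespace Pool.Agent.Helper53.OS

open Finset
open scoped Classical

/-! ### walks inside a set -/

section conn
variable {V : Type*} {G : SimpleGraph V}

theorem Con.refl {A : Finset V} {v : V} (h : v ∈ A) : Con G A v v :=
  ⟨SimpleGraph.Walk.nil, by simpa using h⟩

theorem Con.symm {A : Finset V} {v w : V} (h : Con G A v w) : Con G A w v := by
  obtain ⟨p, hp⟩ := h
  exact ⟨p.reverse, by intro x hx; rw [SimpleGraph.Walk.support_reverse] at hx; exact hp x (List.mem_reverse.1 hx)⟩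

theorem Con.trans {A : Finset V} {u v w : V} (h : Con G A u v) (h' : Con G A v w) : Con G A u w := by
  obtain ⟨p, hp⟩ := h
  obtain ⟨q, hq⟩ := h'
  refine ⟨p.append q, ?_⟩
  intro x hx
  rcases (SimpleGraph.Walk.mem_support_append_iff p q).1 hx with h | h
  · exact hp x h
  · exact hq x h

theorem Con.mono {A B : Finset V} {v w : V} (h : Con G A v w) (hAB : A ⊆ B) : Con G B v w := by
  obtain ⟨p, hp⟩ := h
  exact ⟨p, fun x hx => hAB (hp x hx)⟩

theorem Con.left_mem {A : Finset V} {v w : V} (h : Con G A v w) : v ∈ A := by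
  obtain ⟨p, hp⟩ := h
  exact hp v p.start_mem_support

theorem Con.right_mem {A : Finset V} {v w : V} (h : Con G A v w) : w ∈ A := by
  obtain ⟨p, hp⟩ := h
  exact hp w p.end_mem_support

theorem Con.of_adj {A : Finset V} {v w : V} (hv : v ∈ A) (hw : w ∈ A) (h : G.Adj v w) : Con G A v w :=
  ⟨SimpleGraph.Walk.cons h SimpleGraph.Walk.nil, by
    intro x hx
    simp only [SimpleGraph.Walk.support_cons, SimpleGraph.Walk.support_nil, List.mem_cons,
      List.not_mem_nil, or_false] at hx
    rcases hx with rfl | rfl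
    · exact hv
    · exact hw⟩

/-- induction principle: a set closed under adjacency inside `A` contains everything connected -/
theorem Con.closed {A : Finset V} {v w : V} (h : Con G A v w) {P : V → Prop} (hv : P v)
    (hP : ∀ x y, P x → x ∈ A → y ∈ A → G.Adj x y → P y) : P w := by
  obtain ⟨p, hp⟩ := h
  induction p with
  | nil => exact hv
  | cons hadj q ih =>
    apply ih
    · apply hP _ _ hv _ _ hadj
      · exact hp _ (by simp)
      · exact hp _ (by simp)
    · intro x hx
      exact hp x (by simp [hx])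

theorem mem_clus {A : Finset V} {v w : V} : w ∈ clus G A v ↔ Con G A v w := by
  unfold clus
  simp only [mem_filter]
  exact ⟨fun h => h.2, fun h => ⟨h.right_mem, h⟩⟩

theorem self_mem_clus {A : Finset V} {v : V} (h : v ∈ A) : v ∈ clus G A v :=
  mem_clus.2 (Con.refl h)

theorem clus_subset {A : Finset V} {v : V} : clus G A v ⊆ A := fun _ h => (mem_clus.1 h).right_mem

theorem clus_eq {A : Finset V} {v w : V} (h : w ∈ clus G A v) : clus G A w = clus G A v := by
  ext x
  rw [mem_clus, mem_clus]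
  have := mem_clus.1 h
  exact ⟨fun h' => this.trans h', fun h' => this.symm.trans h'⟩

theorem clus_adj {A : Finset V} {v x y : V} (hx : x ∈ clus G A v) (hy : y ∈ A) (h : G.Adj x y) :
    y ∈ clus G A v :=
  mem_clus.2 ((mem_clus.1 hx).trans (Con.of_adj (clus_subset hx) hy h))

theorem Con.inside_clus {A : Finset V} {v w : V} (h : Con G A v w) : Con G (clus G A v) v w := by
  refine h.closed (P := fun x => Con G (clus G A v) v x) (Con.refl (self_mem_clus h.left_mem)) ?_
  intro x y hx hxA hyA hadj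
  have hx' : x ∈ clus G A v := hx.right_mem
  have hy' : y ∈ clus G A v := clus_adj hx' hyA hadj
  exact hx.trans (Con.of_adj hx' hy' hadj)

theorem Cn_clus {A : Finset V} {v : V} (h : v ∈ A) : Cn G (clus G A v) := by
  refine ⟨⟨v, self_mem_clus h⟩, ?_⟩
  intro x hx y hy
  exact ((mem_clus.1 hx).inside_clus.symm).trans (mem_clus.1 hy).inside_clus

/-- characterisation of the cluster -/
theorem clus_eq_iff {A C : Finset V} {v : V} (hC : Cn G C) (hv : v ∈ C) :
    clus G A v = C ↔ C ⊆ A ∧ ∀ x ∈ C, ∀ y, G.Adj x y → y ∈ A → y ∈ C := by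
  constructor
  · rintro rfl
    refine ⟨clus_subset, ?_⟩
    intro x hx y hxy hy
    exact clus_adj hx hy hxy
  · rintro ⟨h1, h2⟩
    ext x
    rw [mem_clus]
    constructor
    · intro h
      exact h.closed (P := fun x => x ∈ C) hv (fun x y hx _ hy hxy => h2 x hx y hxy hy)
    · intro h
      exact (hC.2 v hv x h).mono h1

end conn

/-! ### Bernoulli expectations -/

section bern
variable {V : Type*} [DecidableEq V]

theorem bern_empty (p : ℝ) (F : Finset V → ℝ) : bern ∅ p F = F ∅ := by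
  simp [bern]

theorem bern_insert {S : Finset V} {x : V} (hx : x ∉ S) (p : ℝ) (F : Finset V → ℝ) :
    bern (insert x S) p F = p * bern S p (fun A => F (insert x A)) + (1 - p) * bern S p F := by
  unfold bern
  rw [Finset.sum_powerset_insert hx, mul_sum, mul_sum, add_comm]
  congr 1
  · refine sum_congr rfl fun A hA => ?_
    have hxA : x ∉ A := fun h => hx (mem_powerset.1 hA h)
    have h1 : #(insert x A) = #A + 1 := card_insert_of_notMem hxA
    have h2 : insert x S \ insert x A = S \ A := by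
      ext y
      simp only [mem_sdiff, mem_insert]
      constructor
      · rintro ⟨h | h, h'⟩
        · exact absurd (Or.inl h) h'
        · exact ⟨h, fun h'' => h' (Or.inr h'')⟩
      · rintro ⟨h, h'⟩
        refine ⟨Or.inr h, ?_⟩
        rintro (rfl | h'')
        · exact hx h
        · exact h' h''
    rw [h1, h2, pow_succ]
    ring
  · refine sum_congr rfl fun A hA => ?_
    have hxA : x ∉ A := fun h => hx (mem_powerset.1 hA h)
    have h2 : insert x S \ A = insert x (S \ A) := by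
      ext y
      simp only [mem_sdiff, mem_insert]
      constructor
      · rintro ⟨h | h, h'⟩
        · exact Or.inl h
        · exact Or.inr ⟨h, h'⟩
      · rintro (rfl | ⟨h, h'⟩)
        · exact ⟨Or.inl rfl, hxA⟩
        · exact ⟨Or.inr h, h'⟩
    have h3 : #(insert x (S \ A)) = #(S \ A) + 1 :=
      card_insert_of_notMem (fun h => hx (mem_sdiff.1 h).1)
    rw [h2, h3, pow_succ]
    ring

theorem bern_split {S : Finset V} {x : V} (hx : x ∈ S) (p : ℝ) (F : Finset V → ℝ) :
    bern S p F = p * bern (S.erase x) p (fun A => F (insert x A)) + (1 - p) * bern (S.erase x) p F := by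
  conv_lhs => rw [← insert_erase hx]
  exact bern_insert (notMem_erase x S) p F

theorem bern_const (S : Finset V) (p c : ℝ) : bern S p (fun _ => c) = c := by
  induction S using Finset.induction_on with
  | empty => exact bern_empty _ _
  | insert x S hx ih => rw [bern_insert hx, ih]; ring

theorem bern_add (S : Finset V) (p : ℝ) (F F' : Finset V → ℝ) :
    bern S p (fun A => F A + F' A) = bern S p F + bern S p F' := by
  unfold bern
  rw [← sum_add_distrib]
  exact sum_congr rfl fun A _ => by ring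

theorem bern_smul (S : Finset V) (p c : ℝ) (F : Finset V → ℝ) :
    bern S p (fun A => c * F A) = c * bern S p F := by
  unfold bern
  rw [mul_sum]
  exact sum_congr rfl fun A _ => by ring

theorem bern_sum {ι : Type*} (S : Finset V) (p : ℝ) (I : Finset ι) (F : ι → Finset V → ℝ) :
    bern S p (fun A => ∑ i ∈ I, F i A) = ∑ i ∈ I, bern S p (F i) := by
  unfold bern
  rw [sum_comm]
  exact sum_congr rfl fun A _ => by rw [mul_sum]

theorem bern_mono {S : Finset V} {p : ℝ} (h0 : 0 ≤ p) (h1 : p ≤ 1) {F F' : Finset V → ℝ}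
    (h : ∀ A ⊆ S, F A ≤ F' A) : bern S p F ≤ bern S p F' := by
  unfold bern
  refine sum_le_sum fun A hA => ?_
  exact mul_le_mul_of_nonneg_left (h A (mem_powerset.1 hA))
    (mul_nonneg (pow_nonneg h0 _) (pow_nonneg (by linarith) _))

theorem bern_congr {S : Finset V} {p : ℝ} {F F' : Finset V → ℝ}
    (h : ∀ A ⊆ S, F A = F' A) : bern S p F = bern S p F' := by
  unfold bern
  exact sum_congr rfl fun A hA => by rw [h A (mem_powerset.1 hA)]

theorem bern_nonneg {S : Finset V} {p : ℝ} (h0 : 0 ≤ p) (h1 : p ≤ 1) {F : Finset V → ℝ}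
    (h : ∀ A ⊆ S, 0 ≤ F A) : 0 ≤ bern S p F := by
  have := bern_mono (F := fun _ => 0) h0 h1 h
  rwa [bern_const] at this

theorem ind_true {P : Prop} (h : P) : ind P = 1 := if_pos h
theorem ind_false {P : Prop} (h : ¬ P) : ind P = 0 := if_neg h
theorem ind_nonneg (P : Prop) : 0 ≤ ind P := by unfold ind; split_ifs <;> norm_num
theorem ind_le_one (P : Prop) : ind P ≤ 1 := by unfold ind; split_ifs <;> norm_num
theorem ind_mono {P Q : Prop} (h : P → Q) : ind P ≤ ind Q := by
  by_cases hP : P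
  · rw [ind_true hP, ind_true (h hP)]
  · rw [ind_false hP]; exact ind_nonneg _
theorem ind_congr {P Q : Prop} (h : P ↔ Q) : ind P = ind Q := by
  rw [propext h]

/-- a function that depends on `A ∩ B` only -/
theorem bern_restrict {S B : Finset V} (hB : B ⊆ S) (p : ℝ) (F : Finset V → ℝ) :
    bern S p (fun A => F (A ∩ B)) = bern B p F := by
  obtain ⟨R, hR⟩ : ∃ R, R = S \ B := ⟨_, rfl⟩
  have hS : S = B ∪ R := by rw [hR, union_sdiff_of_subset hB]
  have hd : Disjoint B R := by rw [hR]; exact disjoint_sdiff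
  rw [hS]
  clear hS hR hB
  induction R using Finset.induction_on with
  | empty =>
    rw [union_empty]
    refine bern_congr fun A hA => ?_
    rw [inter_eq_left.2 hA]
  | insert x R hx ih =>
    rw [disjoint_insert_right] at hd
    have hx' : x ∉ B ∪ R := by
      rw [mem_union]
      rintro (h | h)
      · exact hd.1 h
      · exact hx h
    rw [union_insert, bern_insert hx', ih hd.2]
    have : (fun A => F (insert x A ∩ B)) = fun A => F (A ∩ B) := by
      funext A
      congr 1
      rw [insert_inter_of_notMem hd.1]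
    rw [this, ih hd.2]
    ring

/-- probability that `I` is occupied and `J` is vacant -/
theorem bern_event {S I J : Finset V} (hI : I ⊆ S) (hJ : J ⊆ S) (hIJ : Disjoint I J) (p : ℝ) :
    bern S p (fun A => ind (I ⊆ A ∧ Disjoint J A)) = p ^ #I * (1 - p) ^ #J := by
  have h1 : bern S p (fun A => ind (I ⊆ A ∧ Disjoint J A))
      = bern (I ∪ J) p (fun A => ind (I ⊆ A ∧ Disjoint J A)) := by
    rw [← bern_restrict (union_subset hI hJ)]
    refine bern_congr fun A hA => ?_
    apply ind_congr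
    constructor
    · rintro ⟨h1, h2⟩
      refine ⟨subset_inter h1 subset_union_left, ?_⟩
      exact h2.mono_right inter_subset_left
    · rintro ⟨h1, h2⟩
      refine ⟨h1.trans inter_subset_left, ?_⟩
      rw [disjoint_left] at h2 ⊢
      intro x hx hxA
      exact h2 hx (mem_inter.2 ⟨hxA, mem_union_right _ hx⟩)
  rw [h1]
  unfold bern
  rw [sum_eq_single I]
  · have h2 : (I ∪ J) \ I = J := by
      rw [union_sdiff_left]
      exact sdiff_eq_self_of_disjoint hIJ.symm
    rw [h2]
    simp only []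
    rw [ind_true ⟨subset_rfl, hIJ.symm⟩, mul_one]
  · intro A hA hne
    rw [mem_powerset] at hA
    have : ¬ (I ⊆ A ∧ Disjoint J A) := ?_
    · simp only []
      rw [ind_false this, mul_zero]
    rintro ⟨h2, h3⟩
    apply hne
    apply Subset.antisymm _ h2
    intro x hx
    rcases mem_union.1 (hA hx) with h | h
    · exact h
    · exact absurd hx (disjoint_left.1 h3 h)
  · intro h
    exact absurd (mem_powerset.2 subset_union_left) h

end bern

/-! ### the triangular lattice -/

theorem mem_nb {x y : ℤ × ℤ} : y ∈ nb x ↔ T.Adj x y := by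
  unfold nb T
  simp only [mem_image, mem_univ, true_and]
  exact ⟨fun ⟨i, h⟩ => ⟨i, h.symm⟩, fun ⟨i, h⟩ => ⟨i, h.symm⟩⟩

theorem adj_iff {x y : ℤ × ℤ} : T.Adj x y ↔ ∃ i, y = x + dir i := Iff.rfl

theorem mem_bd {C : Finset (ℤ × ℤ)} {y : ℤ × ℤ} : y ∈ bd C ↔ y ∉ C ∧ ∃ x ∈ C, T.Adj x y := by
  unfold bd
  rw [mem_sdiff, mem_biUnion]
  constructor
  · rintro ⟨⟨x, hx, h⟩, h'⟩
    exact ⟨h', x, hx, mem_nb.1 h⟩
  · rintro ⟨h', x, hx, h⟩
    exact ⟨⟨x, hx, mem_nb.2 h⟩, h'⟩

theorem disjoint_bd (C : Finset (ℤ × ℤ)) : Disjoint C (bd C) := by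
  unfold bd
  exact disjoint_sdiff

/-- `C` is the cluster of `v` in `A` iff `C ⊆ A` and the boundary of `C` is vacant -/
theorem clus_T_iff {A C : Finset (ℤ × ℤ)} {v : ℤ × ℤ} (hC : Cn T C) (hv : v ∈ C) :
    clus T A v = C ↔ C ⊆ A ∧ Disjoint (bd C) A := by
  rw [clus_eq_iff hC hv]
  refine and_congr_right fun _ => ?_
  rw [disjoint_left]
  constructor
  · intro h y hy hyA
    obtain ⟨h1, x, hx, hxy⟩ := mem_bd.1 hy
    exact h1 (h x hx y hxy hyA)
  · intro h x hx y hxy hyA
    by_contra hyC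
    exact h (mem_bd.2 ⟨hyC, x, hx, hxy⟩) hyA

/-- `wt p C` is the probability that `C` is the cluster of its element `v` -/
theorem bern_clus {S C : Finset (ℤ × ℤ)} {v : ℤ × ℤ} (hC : Cn T C) (hv : v ∈ C) (h1 : C ⊆ S)
    (h2 : bd C ⊆ S) (p : ℝ) :
    bern S p (fun A => ind (clus T A v = C)) = wt p C := by
  unfold wt
  rw [← bern_event h1 h2 (disjoint_bd C) p]
  exact bern_congr fun A _ => ind_congr (clus_T_iff hC hv)

/-- disjointness of the events that `C` is the cluster of the origin -/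
theorem sum_wt_le_event {S : Finset (ℤ × ℤ)} {q : ℝ} (h0 : 0 ≤ q) (h1 : q ≤ 1) {v : ℤ × ℤ}
    (F : Finset (Finset (ℤ × ℤ))) (hF : ∀ C ∈ F, v ∈ C ∧ Cn T C ∧ C ⊆ S ∧ bd C ⊆ S)
    (E : Finset (ℤ × ℤ) → Prop)
    (hE : ∀ C ∈ F, ∀ A ⊆ S, C ⊆ A → Disjoint (bd C) A → E A) :
    ∑ C ∈ F, wt q C ≤ bern S q (fun A => ind (E A)) := by
  have h2 : ∑ C ∈ F, wt q C = bern S q (fun A => ∑ C ∈ F, ind (clus T A v = C)) := by
    rw [bern_sum]
    refine sum_congr rfl fun C hC => ?_
    obtain ⟨ha, hb, hc, hd⟩ := hF C hC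
    rw [bern_clus hb ha hc hd]
  rw [h2]
  refine bern_mono h0 h1 fun A hA => ?_
  by_cases h3 : clus T A v ∈ F
  · obtain ⟨ha, hb, hc, hd⟩ := hF _ h3
    have := (clus_T_iff hb ha).1 rfl
    rw [sum_eq_single (clus T A v), ind_true rfl, ind_true (hE _ h3 A hA this.1 this.2)]
    · intro C _ hne
      exact ind_false (fun h => hne h.symm)
    · intro h
      exact absurd h3 h
  · rw [sum_eq_zero]
    · exact ind_nonneg _
    · intro C hC
      exact ind_false (fun h => h3 (h ▸ hC))

theorem wt_nonneg {q : ℝ} (h0 : 0 ≤ q) (h1 : q ≤ 1) (C : Finset (ℤ × ℤ)) : 0 ≤ wt q C :=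
  mul_nonneg (pow_nonneg h0 _) (pow_nonneg (by linarith) _)

/-- the union bound used for circuits: `Γ ⊆ bd C` -/
theorem sum_wt_le {q : ℝ} (h0 : 0 ≤ q) (h1 : q ≤ 1) {v : ℤ × ℤ} (F : Finset (Finset (ℤ × ℤ)))
    (Γ : Finset (ℤ × ℤ)) (hF : ∀ C ∈ F, v ∈ C ∧ Cn T C ∧ Γ ⊆ bd C) :
    ∑ C ∈ F, wt q C ≤ q * (1 - q) ^ #Γ := by
  rcases F.eq_empty_or_nonempty with rfl | ⟨C₀, hC₀⟩
  · simp only [sum_empty]
    exact mul_nonneg h0 (pow_nonneg (by linarith) _)
  obtain ⟨S, hS⟩ : ∃ S, S = F.biUnion (fun C => C ∪ bd C) := ⟨_, rfl⟩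
  have hsub : ∀ C ∈ F, C ∪ bd C ⊆ S := by
    intro C hC
    rw [hS]
    exact subset_biUnion_of_mem (fun C => C ∪ bd C) hC
  have hvS : ({v} : Finset (ℤ × ℤ)) ⊆ S := by
    rw [singleton_subset_iff]
    exact hsub C₀ hC₀ (mem_union_left _ (hF C₀ hC₀).1)
  have hΓ : Γ ⊆ S := fun x hx => hsub C₀ hC₀ (mem_union_right _ ((hF C₀ hC₀).2.2 hx))
  have hvΓ : Disjoint ({v} : Finset (ℤ × ℤ)) Γ := by
    rw [disjoint_singleton_left]
    intro h
    exact (mem_bd.1 ((hF C₀ hC₀).2.2 h)).1 (hF C₀ hC₀).1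
  have := sum_wt_le_event h0 h1 (S := S) (v := v) F
    (fun C hC => ⟨(hF C hC).1, (hF C hC).2.1, subset_union_left.trans (hsub C hC),
      subset_union_right.trans (hsub C hC)⟩)
    (fun A => ({v} : Finset (ℤ × ℤ)) ⊆ A ∧ Disjoint Γ A)
    (fun C hC A _ hCA hdis => ⟨singleton_subset_iff.2 (hCA (hF C hC).1),
      hdis.mono_left (hF C hC).2.2⟩)
  refine this.trans_eq ?_
  rw [bern_event hvS hΓ hvΓ]
  simp

end Pool.Agent.Helper53.OS
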