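import Pool.Agent.Helper53.OS.Base

/-! MP_195d30_co, piece CCS: components and clusters. -/

set_option autoImplicit false

namespace Pool.Agent.Helper53.OS

open Finset
open scoped Classical

/-- reachability in the induced graph is connection inside `A` -/
theorem reach_iff_con {V : Type*} (G : SimpleGraph V) (A : Finset V) (v w : (A : Set V)) :
    (G.induce (A : Set V)).Reachable v w ↔ Con G A v.1 w.1 := by
  constructor
  · rintro ⟨p⟩
    induction p with
    | nil => exact Con.refl (by simp)
    | cons hadj q ih =>
      refine (Con.of_adj ?_ ?_ ?_).trans ih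
      · simp
      · simp
      · exact hadj
  · intro h
    have := h.closed (P := fun x => ∃ hx : x ∈ (A : Set V),
      (G.induce (A : Set V)).Reachable v ⟨x, hx⟩) ⟨v.2, SimpleGraph.Reachable.refl _⟩ (by
        rintro x y ⟨hx, h1⟩ _ hy hadj
        refine ⟨hy, h1.trans (SimpleGraph.Adj.reachable ?_)⟩
        exact hadj)
    obtain ⟨_, h1⟩ := this
    exact h1

/-- the set of clusters of `A` -/
noncomputable def comps {V : Type*} (G : SimpleGraph V) (A : Finset V) : Finset (Finset V) :=
  A.image (fun v => clus G A v)

theorem clus_eq_iff_con {V : Type*} (G : SimpleGraph V) {A : Finset V} {v w : V} (hw : w ∈ A) :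
    clus G A v = clus G A w ↔ Con G A v w := by
  constructor
  · intro h
    have : w ∈ clus G A v := h ▸ self_mem_clus hw
    exact mem_clus.1 this
  · intro h
    exact (clus_eq (mem_clus.2 h)).symm

theorem cc_eq_card_comps {V : Type*} (G : SimpleGraph V) (A : Finset V) : cc G A = #(comps G A) := by
  unfold cc
  have hmem : ∀ v : (A : Set V), clus G A v.1 ∈ comps G A := fun v => mem_image_of_mem _ v.2
  have hsound : ∀ v w : (A : Set V), (G.induce (A : Set V)).Reachable v w →
      (⟨clus G A v.1, hmem v⟩ : comps G A) = ⟨clus G A w.1, hmem w⟩ := by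
    intro v w p
    apply Subtype.ext
    exact (clus_eq_iff_con G w.2).2 ((reach_iff_con G A v w).1 p)
  let f : (G.induce (A : Set V)).ConnectedComponent → comps G A :=
    fun c => Quot.liftOn c (fun v => ⟨clus G A v.1, hmem v⟩) hsound
  have hf : Function.Bijective f := by
    constructor
    · intro c d
      refine SimpleGraph.ConnectedComponent.ind₂ ?_ c d
      intro v w h
      have h1 : clus G A v.1 = clus G A w.1 := congrArg Subtype.val h
      exact SimpleGraph.ConnectedComponent.sound
        ((reach_iff_con G A v w).2 ((clus_eq_iff_con G w.2).1 h1))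
    · rintro ⟨C, hC⟩
      obtain ⟨v, hv, rfl⟩ := mem_image.1 hC
      exact ⟨(G.induce (A : Set V)).connectedComponentMk ⟨v, hv⟩, rfl⟩
  rw [Nat.card_eq_of_bijective f hf, Nat.card_eq_fintype_card, Fintype.card_coe]

/-- each component has exactly `#(clus G A v)` vertices -/
theorem cc_eq_sum {V : Type*} (G : SimpleGraph V) (A : Finset V) :
    (cc G A : ℝ) = ∑ v ∈ A, 1 / (#(clus G A v) : ℝ) := by
  rw [cc_eq_card_comps, ← sum_fiberwise_of_maps_to (s := A) (t := comps G A)
    (g := fun v => clus G A v) (fun v hv => mem_image_of_mem _ hv)]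
  have h : ∀ C ∈ comps G A, ∑ v ∈ A.filter (fun v => clus G A v = C), 1 / (#(clus G A v) : ℝ) = 1 := by
    intro C hC
    obtain ⟨w, hw, rfl⟩ := mem_image.1 hC
    have h1 : A.filter (fun v => clus G A v = clus G A w) = clus G A w := by
      ext v
      simp only [mem_filter]
      constructor
      · rintro ⟨hv, h2⟩
        rw [← h2]
        exact self_mem_clus hv
      · intro hv
        exact ⟨clus_subset hv, clus_eq hv⟩
    have h2 : (#(clus G A w) : ℝ) ≠ 0 := by
      have : 0 < #(clus G A w) := card_pos.2 ⟨w, self_mem_clus hw⟩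
      exact_mod_cast this.ne'
    rw [sum_congr rfl (g := fun _ => 1 / (#(clus G A w) : ℝ))
      (fun v hv => by rw [(mem_filter.1 hv).2]), h1, sum_const, nsmul_eq_mul]
    field_simp
  rw [sum_congr rfl h]
  simp

theorem cc_le_card {V : Type*} (G : SimpleGraph V) (A : Finset V) : cc G A ≤ #A := by
  rw [cc_eq_card_comps]
  exact card_image_le

/-- any two sets, not necessarily disjoint -/
theorem cc_union_le {V : Type*} (G : SimpleGraph V) (A B : Finset V) :
    cc G (A ∪ B) ≤ cc G A + cc G B := by
  rw [cc_eq_card_comps, cc_eq_card_comps, cc_eq_card_comps]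
  have key : ∀ D : Finset V, D ⊆ A ∪ B →
      ∀ v ∈ D, clus G (A ∪ B) v ∈ (comps G D).image
        (fun C => if h : C.Nonempty then clus G (A ∪ B) h.choose else ∅) := by
    intro D hD v hv
    refine mem_image.2 ⟨clus G D v, mem_image_of_mem _ hv, ?_⟩
    have hne : (clus G D v).Nonempty := ⟨v, self_mem_clus hv⟩
    simp only [dif_pos hne]
    have h1 : hne.choose ∈ clus G D v := hne.choose_spec
    exact clus_eq (mem_clus.2 ((mem_clus.1 h1).mono hD))
  have hsub : comps G (A ∪ B) ⊆
      ((comps G A).image (fun C => if h : C.Nonempty then clus G (A ∪ B) h.choose else ∅)) ∪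
      ((comps G B).image (fun C => if h : C.Nonempty then clus G (A ∪ B) h.choose else ∅)) := by
    intro C hC
    obtain ⟨v, hv, rfl⟩ := mem_image.1 hC
    rcases mem_union.1 hv with h | h
    · exact mem_union_left _ (key A subset_union_left v h)
    · exact mem_union_right _ (key B subset_union_right v h)
  exact (card_le_card hsub).trans ((card_union_le _ _).trans
    (Nat.add_le_add card_image_le card_image_le))

/-- invariance under isomorphism of the induced graphs -/
theorem cc_image {V W : Type*} (G : SimpleGraph V) (H : SimpleGraph W) (f : W → V) (A : Finset W)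
    (hf : Set.InjOn f A) (hadj : ∀ x ∈ A, ∀ y ∈ A, G.Adj (f x) (f y) ↔ H.Adj x y) :
    cc G (A.image f) = cc H A := by
  unfold cc
  rw [coe_image]
  let e : (A : Set W) ≃ (f '' (A : Set W)) := Equiv.Set.imageOfInjOn f A hf
  have he : ∀ x : (A : Set W), (e x).1 = f x.1 := fun x => rfl
  let φ : H.induce (A : Set W) ≃g G.induce (f '' (A : Set W)) :=
    { toEquiv := e
      map_rel_iff' := by
        intro x y
        change G.Adj (e x).1 (e y).1 ↔ H.Adj x.1 y.1
        rw [he, he]
        exact hadj x.1 x.2 y.1 y.2 }
  exact (Nat.card_congr φ.connectedComponentEquiv).symm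

end Pool.Agent.Helper53.OS
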