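import Pool.Agent.Helper53.OS.Base

/-! Piece KAP of MP_195d30_co: the cluster density. -/

set_option autoImplicit false

namespace Pool.Agent.Helper53.OS

open Finset
open scoped Classical

theorem hn_add_dir (x : ℤ × ℤ) (i : Fin 6) : hn (x + dir i) ≤ hn x + 1 := by
  obtain ⟨a, b⟩ := x
  fin_cases i <;> simp [hn, dir] <;> omega

theorem hn_lt_card {C : Finset (ℤ × ℤ)} (h0 : (0, 0) ∈ C) (hC : Cn T C) {x : ℤ × ℤ} (hx : x ∈ C) :
    hn x < #C := by
  have key : ∀ j ≤ hn x, ∃ y ∈ C, hn y = j := by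
    refine (hC.2 (0, 0) h0 x hx).closed (P := fun x => ∀ j ≤ hn x, ∃ y ∈ C, hn y = j) ?_ ?_
    · intro j hj
      refine ⟨(0, 0), h0, ?_⟩
      have : hn (0, 0) = 0 := by simp [hn]
      omega
    · intro x y hx _ hy hxy j hj
      obtain ⟨i, rfl⟩ := adj_iff.1 hxy
      have := hn_add_dir x i
      rcases Nat.lt_or_ge (hn x) j with h | h
      · exact ⟨x + dir i, hy, by omega⟩
      · exact hx j h
  have hsub : range (hn x + 1) ⊆ C.image hn := by
    intro j hj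
    obtain ⟨y, hy, h⟩ := key j (Nat.lt_succ_iff.1 (mem_range.1 hj))
    exact mem_image.2 ⟨y, hy, h⟩
  have := (card_le_card hsub).trans card_image_le
  rwa [card_range] at this

theorem mem_An {K : ℕ} {C : Finset (ℤ × ℤ)} : C ∈ An K ↔ (0, 0) ∈ C ∧ Cn T C ∧ #C ≤ K := by
  unfold An
  rw [mem_filter, mem_powerset]
  refine ⟨fun h => h.2, fun h => ⟨?_, h⟩⟩
  obtain ⟨h0, hC, hK⟩ := h
  intro x hx
  have h1 := hn_lt_card h0 hC hx
  unfold ball
  rw [mem_filter, mem_product, mem_Icc, mem_Icc]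
  have h2 : hn x ≤ K := by omega
  refine ⟨?_, h2⟩
  unfold hn at h2
  omega

theorem term_nonneg {p : ℝ} (h0 : 0 ≤ p) (h1 : p ≤ 1) (C : Finset (ℤ × ℤ)) :
    0 ≤ wt p C / (#C : ℝ) := div_nonneg (wt_nonneg h0 h1 C) (Nat.cast_nonneg _)

theorem kapK_nonneg {p : ℝ} (h0 : 0 ≤ p) (h1 : p ≤ 1) (K : ℕ) : 0 ≤ kapK K p :=
  sum_nonneg fun C _ => term_nonneg h0 h1 C

/-- finite sums of large clusters are small -/
theorem sum_large_le {p : ℝ} (h0 : 0 ≤ p) (h1 : p ≤ 1) (K : ℕ)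
    (F : Finset {C : Finset (ℤ × ℤ) // (0, 0) ∈ C ∧ Cn T C}) (hF : ∀ C ∈ F, K < #C.1) :
    ∑ C ∈ F, wt p C.1 / (#C.1 : ℝ) ≤ 1 / (K + 1) := by
  have h2 : ∑ C ∈ F, wt p C.1 ≤ p := by
    have := sum_wt_le h0 h1 (v := (0, 0)) (F.map (Function.Embedding.subtype _)) ∅ (by
      intro C hC
      obtain ⟨C', _, rfl⟩ := mem_map.1 hC
      exact ⟨C'.2.1, C'.2.2, empty_subset _⟩)
    simpa using this
  have h3 : (0 : ℝ) < K + 1 := by positivity
  have h4 : ∑ C ∈ F, wt p C.1 / (#C.1 : ℝ) ≤ ∑ C ∈ F, wt p C.1 * (1 / (K + 1)) := by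
    refine sum_le_sum fun C hC => ?_
    rw [div_eq_mul_one_div]
    refine mul_le_mul_of_nonneg_left ?_ (wt_nonneg h0 h1 _)
    have : ((K + 1 : ℕ) : ℝ) ≤ (#C.1 : ℝ) := Nat.cast_le.2 (hF C hC)
    push_cast at this
    exact one_div_le_one_div_of_le h3 this
  refine h4.trans ?_
  rw [← sum_mul]
  calc (∑ C ∈ F, wt p C.1) * (1 / (K + 1)) ≤ 1 * (1 / (K + 1)) :=
        mul_le_mul_of_nonneg_right (h2.trans h1) (by positivity)
    _ = 1 / (K + 1) := one_mul _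

theorem sum_F_le {p : ℝ} (h0 : 0 ≤ p) (h1 : p ≤ 1) (K : ℕ)
    (F : Finset {C : Finset (ℤ × ℤ) // (0, 0) ∈ C ∧ Cn T C}) :
    ∑ C ∈ F, wt p C.1 / (#C.1 : ℝ) ≤ kapK K p + 1 / (K + 1) := by
  rw [← sum_filter_add_sum_filter_not F (fun C => #C.1 ≤ K)]
  refine add_le_add ?_ ?_
  · unfold kapK
    have : ∑ C ∈ F.filter (fun C => #C.1 ≤ K), wt p C.1 / (#C.1 : ℝ) =
        ∑ C ∈ (F.filter (fun C => #C.1 ≤ K)).map (Function.Embedding.subtype _),
          wt p C / (#C : ℝ) := by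
      rw [sum_map]
      rfl
    rw [this]
    refine sum_le_sum_of_subset_of_nonneg ?_ fun C _ _ => term_nonneg h0 h1 C
    intro C hC
    obtain ⟨C', hC', rfl⟩ := mem_map.1 hC
    exact mem_An.2 ⟨C'.2.1, C'.2.2, (mem_filter.1 hC').2⟩
  · refine sum_large_le h0 h1 K _ ?_
    intro C hC
    exact not_le.1 (mem_filter.1 hC).2

theorem kap_summable {p : ℝ} (h0 : 0 ≤ p) (h1 : p ≤ 1) :
    Summable (fun C : {C : Finset (ℤ × ℤ) // (0, 0) ∈ C ∧ Cn T C} => wt p C.1 / (#C.1 : ℝ)) :=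
  summable_of_sum_le (fun C => term_nonneg h0 h1 C.1) (fun F => sum_F_le h0 h1 0 F)

theorem kapK_le_kap {p : ℝ} (h0 : 0 ≤ p) (h1 : p ≤ 1) (K : ℕ) : kapK K p ≤ kap p := by
  unfold kapK kap
  rw [← sum_subtype_of_mem (p := fun C : Finset (ℤ × ℤ) => (0, 0) ∈ C ∧ Cn T C)
    (fun C => wt p C / (#C : ℝ)) (fun C hC => ⟨(mem_An.1 hC).1, (mem_An.1 hC).2.1⟩)]
  exact (kap_summable h0 h1).sum_le_tsum _ (fun C _ => term_nonneg h0 h1 C.1)

theorem kap_le {p : ℝ} (h0 : 0 ≤ p) (h1 : p ≤ 1) (K : ℕ) : kap p ≤ kapK K p + 1 / (K + 1) :=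
  (kap_summable h0 h1).tsum_le_of_sum_le (fun F => sum_F_le h0 h1 K F)

theorem kapK_zero (p : ℝ) : kapK 0 p = 0 := by
  unfold kapK
  refine sum_eq_zero fun C hC => ?_
  have := mem_An.1 hC
  have h : #C = 0 := by omega
  rw [card_eq_zero] at h
  rw [h] at this
  exact absurd this.1 (notMem_empty _)

theorem kap_le_one {p : ℝ} (h0 : 0 ≤ p) (h1 : p ≤ 1) : kap p ≤ 1 := by
  have := kap_le h0 h1 0
  rw [kapK_zero] at this
  simpa using this

theorem card_bd_zero : #(bd {((0 : ℤ), (0 : ℤ))}) = 6 := by decide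

theorem Cn_singleton (x : ℤ × ℤ) : Cn T {x} := by
  refine ⟨singleton_nonempty _, ?_⟩
  intro y hy z hz
  rw [mem_singleton] at hy hz
  subst hy
  subst hz
  exact Con.refl (mem_singleton_self _)

theorem kapK_succ_split {K : ℕ} (hK : 1 ≤ K) (q : ℝ) : kapK K q =
    q * (1 - q) ^ 6 + ∑ C ∈ (An K).filter (fun C => 2 ≤ #C), wt q C / #C := by
  unfold kapK
  rw [← sum_filter_add_sum_filter_not (An K) (fun C => 2 ≤ #C), add_comm]
  congr 1
  have : (An K).filter (fun C => ¬ 2 ≤ #C) = {{(0, 0)}} := by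
    ext C
    rw [mem_filter, mem_singleton, mem_An]
    constructor
    · rintro ⟨⟨h0, _, _⟩, h2⟩
      have h3 : #C ≤ 1 := by omega
      exact (subset_antisymm (singleton_subset_iff.2 h0) (fun x hx =>
        mem_singleton.2 (card_le_one.1 h3 x hx _ h0))).symm
    · rintro rfl
      refine ⟨⟨mem_singleton_self _, Cn_singleton _, ?_⟩, ?_⟩
      · rw [card_singleton]; exact hK
      · rw [card_singleton]; norm_num
  rw [this, sum_singleton, wt, card_bd_zero, card_singleton]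
  simp

end Pool.Agent.Helper53.OS
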