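import Pool.Agent.Helper53.OS.Base
import Pool.Agent.Helper53.OS.Ccs
import Pool.Agent.Helper53.OS.Kap

/-! Piece BOX of MP_195d30_co: expected number of components of a box. -/

set_option autoImplicit false

namespace Pool.Agent.Helper53.OS

open Finset
open scoped Classical

namespace BoxPf

/-! ### translations -/

/-- translate of a set -/
noncomputable def sh (v : ℤ × ℤ) (C : Finset (ℤ × ℤ)) : Finset (ℤ × ℤ) := C.image (fun x => x + v)

theorem mem_sh {v y : ℤ × ℤ} {C : Finset (ℤ × ℤ)} : y ∈ sh v C ↔ y - v ∈ C := by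
  unfold sh
  rw [mem_image]
  constructor
  · rintro ⟨x, hx, rfl⟩
    rwa [add_sub_cancel_right]
  · intro h
    exact ⟨y - v, h, sub_add_cancel _ _⟩

theorem adj_sub {x y v : ℤ × ℤ} : T.Adj (x - v) (y - v) ↔ T.Adj x y := by
  rw [adj_iff, adj_iff]
  refine exists_congr fun i => ?_
  constructor
  · intro h
    have : y = (y - v) + v := (sub_add_cancel _ _).symm
    rw [this, h]
    abel
  · rintro rfl
    abel

theorem card_sh (v : ℤ × ℤ) (C : Finset (ℤ × ℤ)) : #(sh v C) = #C :=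
  card_image_of_injective _ (add_left_injective v)

theorem bd_sh (v : ℤ × ℤ) (C : Finset (ℤ × ℤ)) : bd (sh v C) = sh v (bd C) := by
  ext y
  rw [mem_sh, mem_bd, mem_bd, mem_sh]
  refine and_congr_right fun _ => ?_
  constructor
  · rintro ⟨x, hx, hxy⟩
    exact ⟨x - v, mem_sh.1 hx, adj_sub.2 hxy⟩
  · rintro ⟨x, hx, hxy⟩
    refine ⟨x + v, mem_sh.2 (by rwa [add_sub_cancel_right]), ?_⟩
    rw [← adj_sub (v := v), add_sub_cancel_right]
    exact hxy

theorem wt_sh (p : ℝ) (v : ℤ × ℤ) (C : Finset (ℤ × ℤ)) : wt p (sh v C) = wt p C := by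
  unfold wt
  rw [bd_sh, card_sh, card_sh]

theorem Cn_sh (v : ℤ × ℤ) {C : Finset (ℤ × ℤ)} (hC : Cn T C) : Cn T (sh v C) := by
  obtain ⟨⟨x₀, hx₀⟩, h⟩ := hC
  refine ⟨⟨x₀ + v, mem_sh.2 (by rwa [add_sub_cancel_right])⟩, ?_⟩
  intro x hx y hy
  have h1 := h _ (mem_sh.1 hx) _ (mem_sh.1 hy)
  have h2 := h1.closed (P := fun z => Con T (sh v C) x (z + v)) (by
      rw [sub_add_cancel]
      exact Con.refl hx) (by
      intro z w hz hzC hwC hadj
      refine hz.trans (Con.of_adj ?_ ?_ ?_)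
      · exact mem_sh.2 (by rwa [add_sub_cancel_right])
      · exact mem_sh.2 (by rwa [add_sub_cancel_right])
      · rw [← adj_sub (v := v), add_sub_cancel_right, add_sub_cancel_right]
        exact hadj)
  rwa [sub_add_cancel] at h2

theorem sh_sh_neg (v : ℤ × ℤ) (C : Finset (ℤ × ℤ)) : sh v (sh (-v) C) = C := by
  ext y
  rw [mem_sh, mem_sh]
  have : y - v - -v = y := by abel
  rw [this]

/-! ### one vertex far from the complement of the region -/

theorem hn_le_of_mem_bd {K : ℕ} {C : Finset (ℤ × ℤ)} (hC : C ∈ An K) {y : ℤ × ℤ}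
    (hy : y ∈ C ∪ bd C) : hn y ≤ K := by
  obtain ⟨h0, hC, hK⟩ := mem_An.1 hC
  rcases mem_union.1 hy with h | h
  · have := hn_lt_card h0 hC h
    omega
  · obtain ⟨_, x, hx, hxy⟩ := mem_bd.1 h
    obtain ⟨i, rfl⟩ := adj_iff.1 hxy
    have h1 := hn_lt_card h0 hC hx
    have h2 := hn_add_dir x i
    omega

/-- the contribution of small clusters at a vertex `v` far from the complement of `S` -/
theorem bern_small_le {S : Finset (ℤ × ℤ)} {v : ℤ × ℤ} {K : ℕ} {p : ℝ} (h0 : 0 ≤ p) (h1 : p ≤ 1)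
    (hS : ∀ y, hn (y - v) ≤ K → y ∈ S) :
    bern S p (fun A => ind (v ∈ A ∧ #(clus T A v) ≤ K) * (1 / (#(clus T A v) : ℝ))) ≤ kapK K p := by
  have h2 : ∀ C ∈ An K, wt p C / (#C : ℝ) =
      bern S p (fun A => (1 / (#C : ℝ)) * ind (clus T A v = sh v C)) := by
    intro C hC
    obtain ⟨hC0, hCn, _⟩ := mem_An.1 hC
    have hsub : ∀ y ∈ C ∪ bd C, y + v ∈ S := by
      intro y hy
      apply hS
      rw [add_sub_cancel_right]
      exact hn_le_of_mem_bd hC hy
    rw [bern_smul, bern_clus (Cn_sh v hCn), wt_sh]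
    · ring
    · rw [mem_sh, sub_self]
      exact hC0
    · intro y hy
      have := hsub _ (mem_union_left _ (mem_sh.1 hy))
      rwa [sub_add_cancel] at this
    · intro y hy
      rw [bd_sh] at hy
      have := hsub _ (mem_union_right _ (mem_sh.1 hy))
      rwa [sub_add_cancel] at this
  unfold kapK
  rw [sum_congr rfl h2, ← bern_sum]
  refine bern_mono h0 h1 fun A hA => ?_
  have hnn : ∀ C ∈ An K, 0 ≤ (1 / (#C : ℝ)) * ind (clus T A v = sh v C) := fun C _ =>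
    mul_nonneg (by positivity) (ind_nonneg _)
  by_cases h3 : v ∈ A ∧ #(clus T A v) ≤ K
  · have hC' : sh (-v) (clus T A v) ∈ An K := by
      rw [mem_An]
      refine ⟨?_, Cn_sh _ (Cn_clus h3.1), ?_⟩
      · rw [mem_sh]
        have : ((0, 0) : ℤ × ℤ) - -v = v := by
          have h : ((0, 0) : ℤ × ℤ) = 0 := rfl
          rw [h]
          abel
        rw [this]
        exact self_mem_clus h3.1
      · rw [card_sh]
        exact h3.2
    have h4 := single_le_sum hnn hC'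
    refine le_trans (le_of_eq ?_) h4
    rw [sh_sh_neg, ind_true rfl, ind_true h3, card_sh]
    ring
  · rw [ind_false h3, zero_mul]
    exact sum_nonneg hnn

/-- the contribution of one vertex -/
theorem bern_vertex_le {S : Finset (ℤ × ℤ)} {v : ℤ × ℤ} {K : ℕ} {p : ℝ} (h0 : 0 ≤ p) (h1 : p ≤ 1)
    (hS : ∀ y, hn (y - v) ≤ K → y ∈ S) :
    bern S p (fun A => ind (v ∈ A) * (1 / (#(clus T A v) : ℝ))) ≤ kapK K p + 1 / (K + 1) := by
  have h2 : bern S p (fun A => ind (v ∈ A) * (1 / (#(clus T A v) : ℝ))) ≤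
      bern S p (fun A => ind (v ∈ A ∧ #(clus T A v) ≤ K) * (1 / (#(clus T A v) : ℝ))
        + 1 / ((K : ℝ) + 1)) := by
    refine bern_mono h0 h1 fun A _ => ?_
    have hpos : (0 : ℝ) ≤ 1 / ((K : ℝ) + 1) := by positivity
    by_cases h3 : v ∈ A
    · by_cases h4 : #(clus T A v) ≤ K
      · rw [ind_true h3, ind_true ⟨h3, h4⟩]
        linarith
      · rw [ind_true h3, ind_false (fun h => h4 h.2), zero_mul, zero_add, one_mul]
        have h5 : ((K + 1 : ℕ) : ℝ) ≤ (#(clus T A v) : ℝ) := Nat.cast_le.2 (by omega)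
        push_cast at h5
        exact one_div_le_one_div_of_le (by positivity) h5
    · rw [ind_false h3, ind_false (fun h => h3 h.1)]
      simpa using hpos
  refine h2.trans ?_
  rw [bern_add, bern_const]
  have := bern_small_le h0 h1 hS
  linarith

theorem bern_vertex_le_one {S : Finset (ℤ × ℤ)} {v : ℤ × ℤ} {p : ℝ} (h0 : 0 ≤ p) (h1 : p ≤ 1) :
    bern S p (fun A => ind (v ∈ A) * (1 / (#(clus T A v) : ℝ))) ≤ 1 := by
  have h2 : bern S p (fun A => ind (v ∈ A) * (1 / (#(clus T A v) : ℝ))) ≤ bern S p (fun _ => 1) := by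
    refine bern_mono h0 h1 fun A _ => ?_
    by_cases h3 : v ∈ A
    · rw [ind_true h3, one_mul]
      have h5 : ((1 : ℕ) : ℝ) ≤ (#(clus T A v) : ℝ) :=
        Nat.cast_le.2 (card_pos.2 ⟨v, self_mem_clus h3⟩)
      push_cast at h5
      rw [div_le_one (by linarith)]
      exact h5
    · rw [ind_false h3, zero_mul]
      norm_num
  rwa [bern_const] at h2

theorem card_box (L : ℕ) : (#(box L) : ℝ) = (L : ℝ) ^ 2 := by
  unfold box
  rw [card_product, Int.card_Ico, sub_zero, Int.toNat_natCast]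
  push_cast
  ring

theorem bern_cc_eq (S : Finset (ℤ × ℤ)) (p : ℝ) : bern S p (fun A => (cc T A : ℝ)) =
    ∑ v ∈ S, bern S p (fun A => ind (v ∈ A) * (1 / (#(clus T A v) : ℝ))) := by
  rw [← bern_sum]
  refine bern_congr fun A hA => ?_
  rw [cc_eq_sum]
  have : ∀ v ∈ S, ind (v ∈ A) * (1 / (#(clus T A v) : ℝ)) =
      if v ∈ A then 1 / (#(clus T A v) : ℝ) else 0 := by
    intro v _
    by_cases h : v ∈ A
    · rw [ind_true h, if_pos h, one_mul]
    · rw [ind_false h, if_neg h, zero_mul]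
  rw [sum_congr rfl this, ← sum_filter]
  refine sum_congr ?_ fun _ _ => rfl
  ext v
  rw [mem_filter]
  exact ⟨fun h => ⟨hA h, h⟩, fun h => h.2⟩

theorem box_upper_K (K L : ℕ) (hL : 2 * K ≤ L) {p : ℝ} (h0 : 0 ≤ p) (h1 : p ≤ 1) :
    bern (box L) p (fun A => (cc T A : ℝ)) ≤
      (L : ℝ) ^ 2 * (kapK K p + 1 / (K + 1)) + 4 * K * L := by
  obtain ⟨I, hI⟩ : ∃ I : Finset (ℤ × ℤ), I = (Finset.Ico (K : ℤ) (L - K)) ×ˢ (Finset.Ico (K : ℤ) (L - K)) :=
    ⟨_, rfl⟩
  have hIbox : I ⊆ box L := by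
    intro x hx
    rw [hI, mem_product, mem_Ico, mem_Ico] at hx
    unfold box
    rw [mem_product, mem_Ico, mem_Ico]
    omega
  have hIcard : (#I : ℝ) = ((L : ℝ) - 2 * K) ^ 2 := by
    rw [hI, card_product, Int.card_Ico]
    have h2 : ((L : ℤ) - K - K).toNat = L - 2 * K := by omega
    rw [h2]
    push_cast [Nat.cast_sub hL]
    ring
  have hcard : (#(box L \ I) : ℝ) ≤ 4 * K * L := by
    have h3 := card_sdiff_add_card_eq_card hIbox
    have h4 : (#(box L \ I) : ℝ) + #I = #(box L) := by exact_mod_cast h3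
    rw [card_box, hIcard] at h4
    nlinarith [sq_nonneg (K : ℝ)]
  have hk := kapK_nonneg h0 h1 K
  have hpos : (0 : ℝ) ≤ 1 / ((K : ℝ) + 1) := by positivity
  rw [bern_cc_eq, ← sum_sdiff hIbox]
  have h5 : ∑ v ∈ box L \ I, bern (box L) p (fun A => ind (v ∈ A) * (1 / (#(clus T A v) : ℝ))) ≤
      ∑ v ∈ box L \ I, (1 : ℝ) := sum_le_sum fun v _ => bern_vertex_le_one h0 h1
  have h6 : ∑ v ∈ I, bern (box L) p (fun A => ind (v ∈ A) * (1 / (#(clus T A v) : ℝ))) ≤
      ∑ v ∈ I, (kapK K p + 1 / (K + 1)) := by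
    refine sum_le_sum fun v hv => bern_vertex_le h0 h1 ?_
    intro y hy
    rw [hI, mem_product, mem_Ico, mem_Ico] at hv
    unfold hn at hy
    unfold box
    rw [mem_product, mem_Ico, mem_Ico]
    have e1 : (y - v).1 = y.1 - v.1 := rfl
    have e2 : (y - v).2 = y.2 - v.2 := rfl
    rw [e1, e2] at hy
    omega
  rw [sum_const, nsmul_eq_mul, mul_one] at h5
  rw [sum_const, nsmul_eq_mul] at h6
  have h7 : (#I : ℝ) ≤ (L : ℝ) ^ 2 := by
    rw [← card_box]
    exact_mod_cast card_le_card hIbox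
  have h8 : (#I : ℝ) * (kapK K p + 1 / (K + 1)) ≤ (L : ℝ) ^ 2 * (kapK K p + 1 / (K + 1)) :=
    mul_le_mul_of_nonneg_right h7 (by linarith)
  linarith

end BoxPf

open BoxPf in
theorem box_upper {η : ℝ} (hη : 0 < η) : ∃ L₀ : ℕ, ∀ L ≥ L₀, ∀ p : ℝ, 0 ≤ p → p ≤ 1 →
    bern (box L) p (fun A => (cc T A : ℝ)) ≤ L ^ 2 * (kap p + η) := by
  obtain ⟨K, hK⟩ := exists_nat_gt (2 / η)
  obtain ⟨L₁, hL₁⟩ := exists_nat_gt (8 * K / η)
  refine ⟨max (2 * K) (L₁ + 1), fun L hL p h0 h1 => ?_⟩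
  have hL2 : 2 * K ≤ L := (le_max_left _ _).trans hL
  have hL3 : L₁ + 1 ≤ L := (le_max_right _ _).trans hL
  have hL4 : (L₁ : ℝ) + 1 ≤ L := by exact_mod_cast hL3
  have h2 := box_upper_K K L hL2 h0 h1
  have h3 := kapK_le_kap h0 h1 K
  have h4 : 1 / ((K : ℝ) + 1) ≤ η / 2 := by
    rw [div_le_div_iff₀ (by positivity) (by norm_num)]
    rw [div_lt_iff₀ hη] at hK
    nlinarith
  have hLpos : (0 : ℝ) ≤ L := Nat.cast_nonneg _
  have h5 : 4 * (K : ℝ) * L ≤ (L : ℝ) ^ 2 * (η / 2) := by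
    rw [div_lt_iff₀ hη] at hL₁
    have : 4 * (K : ℝ) ≤ L * (η / 2) := by nlinarith
    nlinarith
  have h6 : (L : ℝ) ^ 2 * (kapK K p + 1 / (K + 1)) ≤ (L : ℝ) ^ 2 * (kap p + η / 2) :=
    mul_le_mul_of_nonneg_left (by linarith) (by positivity)
  nlinarith

end Pool.Agent.Helper53.OS
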