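import Pool.Agent.Helper53.OS.Ccs

/-! Components and disjoint boxes (used for MP_195d30_co, pieces KDUAL and UPPER). -/

set_option autoImplicit false

namespace Pool.Agent.Helper53.OS

open Finset
open scoped Classical

/-- transport of a Bernoulli expectation along an injection -/
theorem bern_image {V W : Type*} [DecidableEq V] [DecidableEq W] (S : Finset W) (f : W → V)
    (hf : Set.InjOn f S) (p : ℝ) (F : Finset V → ℝ) :
    bern (S.image f) p F = bern S p (fun A => F (A.image f)) := by
  induction S using Finset.induction_on generalizing F with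
  | empty => rw [image_empty, bern_empty, bern_empty, image_empty]
  | insert x S hx ih =>
    have hf' : Set.InjOn f S := hf.mono (by simp)
    have hx' : f x ∉ S.image f := by
      intro h
      obtain ⟨y, hy, hxy⟩ := mem_image.1 h
      have := hf (by simp [hy]) (by simp) hxy
      exact hx (this ▸ hy)
    rw [image_insert, bern_insert hx', bern_insert hx, ih hf', ih hf']
    congr 2
    exact bern_congr fun A _ => by rw [image_insert]

theorem card_box (L : ℕ) : #(box L) = L ^ 2 := by
  unfold box
  rw [card_product, Int.card_Ico]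
  simp [sq]

theorem cc_empty {V : Type*} (G : SimpleGraph V) : cc G ∅ = 0 :=
  Nat.le_zero.1 (cc_le_card G ∅)

theorem cc_biUnion_le {V ι : Type*} (G : SimpleGraph V) (s : Finset ι)
    (f : ι → Finset V) : cc G (s.biUnion f) ≤ ∑ k ∈ s, cc G (f k) := by
  induction s using Finset.induction_on with
  | empty => simp [cc_empty]
  | insert k s hk ih =>
    rw [biUnion_insert, sum_insert hk]
    exact (cc_union_le G _ _).trans (Nat.add_le_add_left ih _)

/-- the number of components is at most the sum of the numbers of components in disjoint boxes, plus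
the number of other vertices -/
theorem cc_le_boxes {V : Type*} [Fintype V] [D : DecidableEq V] (G : SimpleGraph V) {N L : ℕ}
    (B : Fin N → ℤ × ℤ → V) (hinj : ∀ k, Set.InjOn (B k) (box L))
    (hdis : ∀ k k', k ≠ k' → Disjoint ((box L).image (B k)) ((box L).image (B k')))
    (A : Finset V) :
    (cc G A : ℝ) ≤ ∑ k, (cc G (A ∩ (box L).image (B k)) : ℝ)
      + ((Fintype.card V : ℝ) - N * L ^ 2) := by
  obtain rfl : D = fun a b => Classical.propDecidable (a = b) := Subsingleton.elim _ _
  obtain ⟨U, hU⟩ : ∃ U : Finset V, U = univ.biUnion (fun k => (box L).image (B k)) := ⟨_, rfl⟩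
  have hcU : #U = N * L ^ 2 := by
    rw [hU, card_biUnion (fun k _ k' _ h => hdis k k' h)]
    rw [sum_congr rfl (fun k _ => card_image_of_injOn (hinj k)), sum_const, card_box, card_univ,
      Fintype.card_fin, smul_eq_mul]
  have hA : A = (univ.biUnion (fun k => A ∩ (box L).image (B k))) ∪ (A \ U) := by
    ext x
    simp only [mem_union, mem_biUnion, mem_univ, true_and, mem_inter, mem_sdiff, hU]
    constructor
    · intro hx
      by_cases h : ∃ k, x ∈ (box L).image (B k)
      · obtain ⟨k, hk⟩ := h
        exact Or.inl ⟨k, hx, hk⟩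
      · exact Or.inr ⟨hx, h⟩
    · rintro (⟨k, hx, _⟩ | ⟨hx, _⟩)
      · exact hx
      · exact hx
  have h1 : cc G A ≤ (∑ k, cc G (A ∩ (box L).image (B k))) + #(A \ U) := by
    conv_lhs => rw [hA]
    exact (cc_union_le G _ _).trans (Nat.add_le_add (cc_biUnion_le G univ _) (cc_le_card G _))
  have h2 : #(A \ U) + N * L ^ 2 ≤ Fintype.card V := by
    rw [← hcU, ← card_union_of_disjoint sdiff_disjoint]
    exact card_le_univ _
  have h1' : (cc G A : ℝ) ≤ (∑ k, (cc G (A ∩ (box L).image (B k)) : ℝ)) + #(A \ U) := by
    exact_mod_cast h1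
  have h2' : (#(A \ U) : ℝ) + N * L ^ 2 ≤ Fintype.card V := by exact_mod_cast h2
  linarith

/-- expectation of the number of components in one box -/
theorem bern_cc_box {V : Type*} [Fintype V] [D : DecidableEq V] (G : SimpleGraph V) {L : ℕ}
    (B : ℤ × ℤ → V) (hinj : Set.InjOn B (box L))
    (hadj : ∀ x ∈ box L, ∀ y ∈ box L, G.Adj (B x) (B y) ↔ T.Adj x y) (p : ℝ) :
    bern univ p (fun A => (cc G (A ∩ (box L).image B) : ℝ)) =
      bern (box L) p (fun A => (cc T A : ℝ)) := by
  obtain rfl : D = fun a b => Classical.propDecidable (a = b) := Subsingleton.elim _ _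
  rw [bern_restrict (subset_univ _) p (fun A => (cc G A : ℝ)), bern_image _ _ hinj]
  refine bern_congr fun A hA => ?_
  rw [cc_image G T B A (hinj.mono (by exact_mod_cast hA))
    (fun x hx y hy => hadj x (hA hx) y (hA hy))]

end Pool.Agent.Helper53.OS
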