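import Pool.Agent.Helper53.OS.Base

/-! Chernoff bound for disjoint boxes (piece CHER of MP_195d30_co). -/

set_option autoImplicit false

namespace Pool.Agent.Helper53.OS

open Finset
open scoped Classical

/-- independence of two disjoint sets -/
theorem bern_mul_aux {V : Type*} [DecidableEq V] (B R : Finset V) (hd : Disjoint B R) (p : ℝ)
    (F F' : Finset V → ℝ) :
    bern (B ∪ R) p (fun A => F (A ∩ B) * F' (A ∩ R)) = bern B p F * bern R p F' := by
  induction B using Finset.induction_on generalizing F with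
  | empty =>
    rw [empty_union, bern_empty, ← bern_smul]
    refine bern_congr fun A hA => ?_
    rw [inter_empty, inter_eq_left.2 hA]
  | insert x B hx ih =>
    rw [disjoint_insert_left] at hd
    have hx' : x ∉ B ∪ R := by
      rw [mem_union]
      rintro (h | h)
      · exact hx h
      · exact hd.1 h
    rw [insert_union, bern_insert hx', bern_insert hx, add_mul, mul_assoc, mul_assoc,
      ← ih hd.2 (fun A => F (insert x A)), ← ih hd.2 F]
    congr 1
    · congr 1
      refine bern_congr fun A hA => ?_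
      have h1 : insert x A ∩ insert x B = insert x (A ∩ B) := by
        rw [insert_inter_distrib]
      have h2 : insert x A ∩ R = A ∩ R := insert_inter_of_notMem hd.1
      rw [h1, h2]
    · congr 1
      refine bern_congr fun A hA => ?_
      have h1 : A ∩ insert x B = A ∩ B := inter_insert_of_notMem (fun h => hx' (hA h))
      rw [h1]

theorem bern_mul {V : Type*} [DecidableEq V] {S B R : Finset V} (hB : B ⊆ S) (hR : R ⊆ S)
    (hd : Disjoint B R) (p : ℝ) (F F' : Finset V → ℝ) :
    bern S p (fun A => F (A ∩ B) * F' (A ∩ R)) = bern B p F * bern R p F' := by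
  rw [← bern_mul_aux B R hd, ← bern_restrict (union_subset hB hR)]
  refine bern_congr fun A _ => ?_
  rw [inter_assoc, inter_assoc, inter_eq_right.2 (subset_union_left (s₁ := B) (s₂ := R)),
    inter_eq_right.2 (subset_union_right (s₁ := B) (s₂ := R))]

/-- independence of disjoint boxes -/
theorem bern_prod {V : Type*} [DecidableEq V] {N : ℕ} {S : Finset V} {B : Fin N → Finset V}
    (hBS : ∀ k, B k ⊆ S) (hdis : ∀ k k', k ≠ k' → Disjoint (B k) (B k')) (p : ℝ)
    (f : Fin N → Finset V → ℝ) (s : Finset (Fin N)) :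
    bern S p (fun A => ∏ k ∈ s, f k (A ∩ B k)) = ∏ k ∈ s, bern (B k) p (f k) := by
  induction s using Finset.induction_on with
  | empty => simp only [prod_empty]; exact bern_const S p 1
  | insert k s hk ih =>
    rw [prod_insert hk, ← ih]
    have hR : s.biUnion B ⊆ S := by
      intro x hx
      rw [mem_biUnion] at hx
      obtain ⟨k', _, hx⟩ := hx
      exact hBS k' hx
    have hd : Disjoint (B k) (s.biUnion B) := by
      rw [disjoint_biUnion_right]
      intro k' hk'
      exact hdis k k' (fun h => hk (h ▸ hk'))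
    have h1 : bern S p (fun A => ∏ k' ∈ s, f k' (A ∩ B k'))
        = bern (s.biUnion B) p (fun A => ∏ k' ∈ s, f k' (A ∩ B k')) := by
      rw [← bern_restrict hR]
      refine bern_congr fun A _ => ?_
      refine prod_congr rfl fun k' hk' => ?_
      rw [inter_assoc, inter_eq_right.2 (subset_biUnion_of_mem B hk')]
    rw [h1, ← bern_mul (hBS k) hR hd]
    refine bern_congr fun A _ => ?_
    rw [prod_insert hk]
    congr 1
    refine prod_congr rfl fun k' hk' => ?_
    rw [inter_assoc, inter_eq_right.2 (subset_biUnion_of_mem B hk')]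

theorem exp_le_quad {x : ℝ} (h0 : 0 ≤ x) (h1 : x ≤ 1) : Real.exp x ≤ 1 + x + x ^ 2 := by
  have h := Real.abs_exp_sub_one_sub_id_le (x := x) (by rwa [abs_of_nonneg h0])
  have := (abs_le.1 h).2
  linarith

theorem chernoff {V : Type*} [DecidableEq V] (N : ℕ) (S : Finset V) (B : Fin N → Finset V)
    (hBS : ∀ k, B k ⊆ S) (hdis : ∀ k k', k ≠ k' → Disjoint (B k) (B k'))
    (X : Fin N → Finset V → ℝ) {c μ ε p : ℝ} (hc : 0 < c) (hX : ∀ k A, 0 ≤ X k A ∧ X k A ≤ c)
    (h0 : 0 ≤ p) (h1 : p ≤ 1) (hμ : ∀ k, bern (B k) p (X k) ≤ μ) (hε : 0 < ε) (hεc : ε ≤ c) :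
    bern S p (fun A => ind ((N : ℝ) * (μ + ε) ≤ ∑ k, X k (A ∩ B k))) ≤
      Real.exp (-(N * ε ^ 2 / (4 * c ^ 2))) := by
  obtain ⟨θ, hθ⟩ : ∃ θ : ℝ, θ = ε / (2 * c ^ 2) := ⟨_, rfl⟩
  have hθ0 : 0 < θ := by rw [hθ]; positivity
  have hθc : θ * c ≤ 1 := by
    rw [hθ, div_mul_eq_mul_div, div_le_one (by positivity)]
    nlinarith
  -- one box
  have hbox : ∀ k, bern (B k) p (fun A => Real.exp (θ * X k A)) ≤ Real.exp (θ * μ + θ ^ 2 * c ^ 2) := by
    intro k
    have h2 : bern (B k) p (fun A => Real.exp (θ * X k A)) ≤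
        bern (B k) p (fun A => (1 + θ ^ 2 * c ^ 2) + θ * X k A) := by
      refine bern_mono h0 h1 fun A _ => ?_
      obtain ⟨ha, hb⟩ := hX k A
      have h3 : θ * X k A ≤ 1 := (mul_le_mul_of_nonneg_left hb hθ0.le).trans hθc
      have h4 := exp_le_quad (mul_nonneg hθ0.le ha) h3
      have h5 : (θ * X k A) ^ 2 ≤ θ ^ 2 * c ^ 2 := by
        rw [← mul_pow]
        exact pow_le_pow_left₀ (mul_nonneg hθ0.le ha) (mul_le_mul_of_nonneg_left hb hθ0.le) 2
      linarith
    rw [bern_add (B k) p (fun _ => 1 + θ ^ 2 * c ^ 2) (fun A => θ * X k A), bern_const,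
      bern_smul] at h2
    have h6 : θ * bern (B k) p (X k) ≤ θ * μ := mul_le_mul_of_nonneg_left (hμ k) hθ0.le
    have h7 := Real.add_one_le_exp (θ * μ + θ ^ 2 * c ^ 2)
    have h8 : bern (B k) p (fun A => X k A) = bern (B k) p (X k) := rfl
    linarith
  have hmain : bern S p (fun A => ind ((N : ℝ) * (μ + ε) ≤ ∑ k, X k (A ∩ B k))) ≤
      bern S p (fun A => Real.exp (-(θ * (N * (μ + ε)))) * ∏ k, Real.exp (θ * X k (A ∩ B k))) := by
    refine bern_mono h0 h1 fun A _ => ?_
    rw [← Real.exp_sum, ← Real.exp_add, ← mul_sum]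
    by_cases h : (N : ℝ) * (μ + ε) ≤ ∑ k, X k (A ∩ B k)
    · rw [ind_true h]
      rw [← Real.exp_zero]
      apply Real.exp_le_exp.2
      have := mul_le_mul_of_nonneg_left h hθ0.le
      linarith
    · rw [ind_false h]
      exact (Real.exp_pos _).le
  refine hmain.trans ?_
  rw [bern_smul, bern_prod hBS hdis p (fun k A => Real.exp (θ * X k A)) univ]
  have hprod : ∏ k, bern (B k) p (fun A => Real.exp (θ * X k A)) ≤
      ∏ _k : Fin N, Real.exp (θ * μ + θ ^ 2 * c ^ 2) := by
    refine prod_le_prod (fun k _ => ?_) (fun k _ => hbox k)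
    exact bern_nonneg h0 h1 fun A _ => (Real.exp_pos _).le
  refine (mul_le_mul_of_nonneg_left hprod (Real.exp_pos _).le).trans ?_
  rw [prod_const, card_univ, Fintype.card_fin, ← Real.exp_nat_mul, ← Real.exp_add]
  apply Real.exp_le_exp.2
  have hc' : c ^ 2 ≠ 0 := by positivity
  have h9 : θ ^ 2 * c ^ 2 = ε ^ 2 / (4 * c ^ 2) := by
    rw [hθ]; field_simp; norm_num
  have h10 : θ * ε = 2 * (ε ^ 2 / (4 * c ^ 2)) := by
    rw [hθ]; field_simp; norm_num
  have h11 : -(θ * (N * (μ + ε))) + N * (θ * μ + θ ^ 2 * c ^ 2)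
      = N * (θ ^ 2 * c ^ 2 - θ * ε) := by ring
  rw [h11, h9, h10]
  apply le_of_eq
  ring

end Pool.Agent.Helper53.OS
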