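import Mathlib

/-! Definitions for MP_195d30_co (optimal stopping for connected components on planar
triangulations): the exact value of the liminf is the maximum over `p` of the cluster density
`kap p` of site percolation on the triangular lattice. -/

set_option autoImplicit false

namespace Pool.Agent.Helper53.OS

open Finset
open scoped Classical

/-- the number of connected components of the subgraph of `G` induced on `A` -/
noncomputable def cc {V : Type*} (G : SimpleGraph V) (A : Finset V) : ℕ :=
  Nat.card (G.induce (A : Set V)).ConnectedComponent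

/-- `t` is a rotation system of `G` all of whose faces are triangles: for adjacent `v, w` the vertex
`t v w` is the neighbour of `v` that follows `w` in the cyclic order around `v`; the face to the
left of `v → w` is the triangle `v, w, t v w`; the rotation at `v` is a single cycle. -/
structure IsRot {V : Type*} (G : SimpleGraph V) (t : V → V → V) : Prop where
  face : ∀ v w, G.Adj v w →
    G.Adj v (t v w) ∧ G.Adj w (t v w) ∧ t w (t v w) = v ∧ t (t v w) v = w
  cyc : ∀ v w w', G.Adj v w → G.Adj v w' → ∃ k : ℕ, (t v)^[k] w = w'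

/-- `G` is a triangulated planar graph (a maximal planar simple graph with at least 3 vertices), in
combinatorial form: `G` is connected and has a rotation system all of whose faces are triangles,
and Euler's formula `#V - #E + #F = 2` of the sphere holds, that is `#E = 3 #V - 6`. -/
structure IsTri {V : Type*} [Fintype V] (G : SimpleGraph V) : Prop where
  three_le : 3 ≤ Fintype.card V
  connected : G.Connected
  edges : Nat.card G.edgeSet + 6 = 3 * Fintype.card V
  rot : ∃ t : V → V → V, IsRot G t

/-- the set of the first `s` vertices in the order `σ` -/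
noncomputable def pre {V : Type*} [Fintype V] (σ : Fin (Fintype.card V) ≃ V) (s : ℕ) : Finset V :=
  (univ.filter (fun i : Fin (Fintype.card V) => i.val < s)).image σ

/-- a stopping algorithm: it stops at a time between `1` and `#V`, and the decision to stop at time
`s` depends on the first `s` vertices (in their order) only -/
structure IsStop {V : Type*} [Fintype V] (𝒜 : (Fin (Fintype.card V) ≃ V) → ℕ) : Prop where
  one_le : ∀ σ, 1 ≤ 𝒜 σ
  le_card : ∀ σ, 𝒜 σ ≤ Fintype.card V
  pref : ∀ σ τ, (∀ i : Fin (Fintype.card V), i.val < 𝒜 σ → σ i = τ i) → 𝒜 τ = 𝒜 σ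

/-- the expected number of components at the stopping time -/
noncomputable def score {V : Type*} [Fintype V] (G : SimpleGraph V)
    (𝒜 : (Fin (Fintype.card V) ≃ V) → ℕ) : ℝ :=
  (∑ σ : Fin (Fintype.card V) ≃ V, (cc G (pre σ (𝒜 σ)) : ℝ)) / (Fintype.card V).factorial

/-- the best score -/
noncomputable def maxScore {V : Type*} [Fintype V] (G : SimpleGraph V) : ℝ :=
  ⨆ 𝒜 : {𝒜 : (Fin (Fintype.card V) ≃ V) → ℕ // IsStop 𝒜}, score G 𝒜.1

/-- the norm of the triangular lattice in the coordinates `(a, b) ↦ a + b ω`, `ω = exp(π i / 3)`: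
`hn x` is the graph distance from `0` to `x` -/
def hn (x : ℤ × ℤ) : ℕ := max (max x.1.natAbs x.2.natAbs) (x.1 + x.2).natAbs

/-- the six unit vectors, in counterclockwise order -/
def dir (i : Fin 6) : ℤ × ℤ := ![(1, 0), (0, 1), (-1, 1), (-1, 0), (0, -1), (1, -1)] i

/-- the triangular lattice: `x` and `y` are adjacent iff their difference is a unit vector -/
def T : SimpleGraph (ℤ × ℤ) where
  Adj x y := ∃ i, y = x + dir i
  symm := ⟨by
    rintro x y ⟨i, rfl⟩
    refine ⟨i + 3, ?_⟩
    have : dir i + dir (i + 3) = 0 := by fin_cases i <;> decide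
    rw [add_assoc, this, add_zero]⟩
  loopless := ⟨by
    rintro x ⟨i, h⟩
    have : dir i = 0 := by simpa using h
    revert this
    fin_cases i <;> decide⟩

/-- the neighbours of `x` in the triangular lattice -/
def nb (x : ℤ × ℤ) : Finset (ℤ × ℤ) := univ.image (fun i => x + dir i)

/-- the (outer) vertex boundary of a finite set of the triangular lattice -/
def bd (C : Finset (ℤ × ℤ)) : Finset (ℤ × ℤ) := (C.biUnion nb) \ C

/-- `v` and `w` are joined by a walk of `G` inside `A` -/
def Con {V : Type*} (G : SimpleGraph V) (A : Finset V) (v w : V) : Prop :=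
  ∃ p : G.Walk v w, ∀ x ∈ p.support, x ∈ A

/-- `C` is a nonempty connected set of vertices of `G` -/
def Cn {V : Type*} (G : SimpleGraph V) (C : Finset V) : Prop :=
  C.Nonempty ∧ ∀ x ∈ C, ∀ y ∈ C, Con G C x y

/-- the probability that `C` is a cluster of site percolation with density `p` on the triangular
lattice -/
noncomputable def wt (p : ℝ) (C : Finset (ℤ × ℤ)) : ℝ := p ^ #C * (1 - p) ^ #(bd C)

/-- `kap p`, the number of finite clusters per vertex of site percolation with density `p` on the
triangular lattice: the expectation of `1/|C|` where `C` is the cluster of the origin -/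
noncomputable def kap (p : ℝ) : ℝ :=
  ∑' C : {C : Finset (ℤ × ℤ) // (0, 0) ∈ C ∧ Cn T C}, wt p C.1 / #C.1

/-! ### auxiliary definitions -/

/-- the indicator (0 or 1) of a proposition -/
noncomputable def ind (P : Prop) : ℝ := if P then 1 else 0

/-- the cluster of `v` in `A` -/
noncomputable def clus {V : Type*} (G : SimpleGraph V) (A : Finset V) (v : V) : Finset V :=
  A.filter (fun w => Con G A v w)

/-- expectation of `F` under site percolation with density `p` on the finite set `S` -/
noncomputable def bern {V : Type*} [DecidableEq V] (S : Finset V) (p : ℝ) (F : Finset V → ℝ) : ℝ :=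
  ∑ A ∈ S.powerset, p ^ #A * (1 - p) ^ #(S \ A) * F A

/-- the ball of radius `r` of the triangular lattice -/
noncomputable def ball (r : ℕ) : Finset (ℤ × ℤ) :=
  ((Finset.Icc (-(r : ℤ)) r) ×ˢ (Finset.Icc (-(r : ℤ)) r)).filter (fun x => hn x ≤ r)

/-- the connected sets of at most `K` vertices containing the origin -/
noncomputable def An (K : ℕ) : Finset (Finset (ℤ × ℤ)) :=
  (ball K).powerset.filter (fun C => (0, 0) ∈ C ∧ Cn T C ∧ #C ≤ K)

/-- those whose rightmost vertex in the top row is the origin -/
noncomputable def Tp (K : ℕ) : Finset (Finset (ℤ × ℤ)) :=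
  (An K).filter (fun C => ∀ x ∈ C, x.2 < 0 ∨ (x.2 = 0 ∧ x.1 ≤ 0))

/-- truncated cluster density -/
noncomputable def kapK (K : ℕ) (p : ℝ) : ℝ := ∑ C ∈ An K, wt p C / #C

/-- radius seen from the origin -/
def rad (C : Finset (ℤ × ℤ)) : ℕ := C.sup hn

/-- diameter -/
def dm (C : Finset (ℤ × ℤ)) : ℕ := C.sup (fun x => C.sup (fun y => hn (x - y)))

/-- the polynomial `p - 3 p^2 + 2 p^3` -/
noncomputable def ff (p : ℝ) : ℝ := p * (1 - p) * (1 - 2 * p)

/-- the constant: the maximal cluster density -/
noncomputable def XX : ℝ := ⨆ p : Set.Icc (0 : ℝ) 1, kap p.1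

/-- the square box `{0, …, L-1}²` of the triangular lattice -/
noncomputable def box (L : ℕ) : Finset (ℤ × ℤ) := (Finset.Ico (0 : ℤ) L) ×ˢ (Finset.Ico (0 : ℤ) L)

/-! ### darts (a dart is a pair `(v, w)` of adjacent vertices) -/

/-- the next dart around the same vertex, counterclockwise -/
def rot {V : Type*} (t : V → V → V) (d : V × V) : V × V := (d.1, t d.1 d.2)

/-- the previous dart around the same vertex -/
def rotI {V : Type*} (t : V → V → V) (d : V × V) : V × V := (d.1, t d.2 d.1)

/-- straight advance (at a vertex of degree 6): go along the dart, keep the direction -/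
def adv {V : Type*} (t : V → V → V) (d : V × V) : V × V := (d.2, (t d.2)^[3] d.1)

/-- `d` is the reference dart (direction `0`); move one step in direction `i` and carry the
reference direction along -/
def mv {V : Type*} (t : V → V → V) (i : ℕ) (d : V × V) : V × V :=
  (rotI t)^[i] (adv t ((rot t)^[i] d))

/-- first `b` steps in direction `i + 1`, then `a` steps in direction `i` -/
def wlk {V : Type*} (t : V → V → V) (i : Fin 6) (a b : ℕ) (d : V × V) : V × V :=
  (mv t i.val)^[a] ((mv t (i + 1).val)^[b] d)

/-- the corresponding point of the triangular lattice; every point `≠ 0` is `pos i a b` for exactly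
one `i`, `a ≥ 1`, `b ≥ 0`, and `hn (pos i a b) = a + b` -/
def pos (i : Fin 6) (a b : ℕ) : ℤ × ℤ := a • dir i + b • dir (i + 1)

/-- degree -/
noncomputable def dg {V : Type*} [Fintype V] (G : SimpleGraph V) (v : V) : ℕ :=
  #(univ.filter (fun w => G.Adj v w))

/-- all vertices met at distance `< r` from the dart `d` have degree 6 -/
def Good {V : Type*} [Fintype V] (G : SimpleGraph V) (t : V → V → V) (r : ℕ) (d : V × V) : Prop :=
  G.Adj d.1 d.2 ∧ (1 ≤ r → dg G d.1 = 6) ∧
    ∀ i a b, 1 ≤ a → a + b < r → dg G (wlk t i a b d).1 = 6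

/-- the loss constant -/
noncomputable def Lam (K : ℕ) (q : ℝ) : ℝ :=
  (∑ C ∈ An K, wt q C / #C * (((#C : ℝ) - 1) + 3 * rad C * ((rad C : ℝ) - 1))) / 6

/-! ### counting turning-restricted closed walks -/

/-- the number of ways to continue a walk at `x` with last direction `d` by `n` steps, turning by at
most 60° at each step and staying in the half-plane `b ≤ 0`, so that it ends at `0` with last
direction `2` -/
def cw : ℕ → ℤ × ℤ → Fin 6 → ℕ
  | 0, x, d => if x = (0, 0) ∧ d = 2 then 1 else 0
  | n + 1, x, d =>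
    (if (x + dir (d - 1)).2 ≤ 0 then cw n (x + dir (d - 1)) (d - 1) else 0) +
    (if (x + dir d).2 ≤ 0 then cw n (x + dir d) d else 0) +
    (if (x + dir (d + 1)).2 ≤ 0 then cw n (x + dir (d + 1)) (d + 1) else 0)

/-- the number of closed walks of length `m` from `0` with first direction `3` and last direction
`2`, turning by at most 60°, in the half-plane `b ≤ 0` -/
def hb (m : ℕ) : ℕ := cw (m - 1) (-1, 0) 3

/-- weight of a circuit of length `m` -/
noncomputable def wm (m : ℕ) : ℝ :=
  2 * (((m - 6) / 2 + 1 : ℕ) : ℝ) ^ 2 + 6 * (((m - 6) / 2 : ℕ) : ℝ) * ((((m - 6) / 2 : ℕ) : ℝ) - 1)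

/-- upper bound for the clusters of diameter at most 2 (weighted) -/
noncomputable def P1 (p q : ℝ) : ℝ :=
  12 * q^2*p^8 + 48 * q^2*p^10 + 48 * q^2*p^11 + 12 * q^3*p^9 + 162 * q^3*p^10 + 216 * q^3*p^12
  + 36 * q^3*p^13 + 36 * q^3*p^15 + 60 * q^4*p^10 + 240 * q^4*p^11 + 160 * q^4*p^12
  + 180 * q^4*p^13 + 120 * q^4*p^14 + 132 * q^5*p^11 + 198 * q^5*p^12 + 264 * q^5*p^13
  + 192 * q^6*p^12 + 24 * q^6*p^13 + 26 * q^7*p^12

/-- upper bound for the clusters of diameter 1 or 2 (unweighted) -/
noncomputable def P0 (p q : ℝ) : ℝ :=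
  3 * q^2*p^8 + 3 * q^2*p^10 + 3 * q^2*p^11 + 2 * q^3*p^9 + 9 * q^3*p^10 + 12 * q^3*p^12
  + 2 * q^3*p^13 + 2 * q^3*p^15 + 3 * q^4*p^10 + 12 * q^4*p^11 + 8 * q^4*p^12
  + 9 * q^4*p^13 + 6 * q^4*p^14 + 6 * q^5*p^11 + 9 * q^5*p^12 + 12 * q^5*p^13
  + 8 * q^6*p^12 + q^6*p^13 + q^7*p^12

end Pool.Agent.Helper53.OS
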