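import Pool.Agent.Helper53.OS.Base

/-! MP_195d30_co, piece DOM2 (auxiliary part, without DOM): the exploration coupling for the triangular lattice. -/

set_option autoImplicit false

namespace Pool.Agent.Helper53.OS

open Finset
open scoped Classical

/-- `n ↦ 1/n` with value `1` at `0` -/
noncomputable def gInv (n : ℕ) : ℝ := if n = 0 then 1 else 1 / (n : ℝ)

theorem gInv_of_pos {n : ℕ} (h : 0 < n) : gInv n = 1 / (n : ℝ) := if_neg h.ne'

theorem gInv_nonneg (n : ℕ) : 0 ≤ gInv n := by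
  unfold gInv
  split_ifs
  · norm_num
  · positivity

theorem gInv_antitone : Antitone gInv := by
  intro n m h
  unfold gInv
  by_cases hn : n = 0
  · rw [if_pos hn]
    split_ifs with hm
    · exact le_refl _
    · have : (1 : ℝ) ≤ m := by exact_mod_cast Nat.one_le_iff_ne_zero.2 hm
      rw [div_le_one (by linarith)]
      exact this
  · have hm : m ≠ 0 := by omega
    rw [if_neg hn, if_neg hm]
    have h1 : (0 : ℝ) < n := by exact_mod_cast Nat.pos_of_ne_zero hn
    have h2 : (n : ℝ) ≤ m := by exact_mod_cast h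
    exact one_div_le_one_div_of_le h1 h2

/-- the sum over animals is an expectation -/
theorem sum_animals_le {S : Finset (ℤ × ℤ)} (K : ℕ) {q : ℝ}
    (h0 : 0 ≤ q) (h1 : q ≤ 1) :
    ∑ C ∈ (An K).filter (fun C => C ⊆ S), wt q C / #C ≤
      bern (S ∪ bd S) q (fun A => ind ((0, 0) ∈ A ∧ clus T A (0, 0) ⊆ S) *
        gInv #(clus T A (0, 0))) := by
  have hF : ∀ C ∈ (An K).filter (fun C => C ⊆ S), (0, 0) ∈ C ∧ Cn T C ∧ C ⊆ S := by
    intro C hC
    rw [mem_filter] at hC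
    unfold An at hC
    rw [mem_filter] at hC
    exact ⟨hC.1.2.1, hC.1.2.2.1, hC.2⟩
  have hbd : ∀ C ⊆ S, bd C ⊆ S ∪ bd S := by
    intro C hC y hy
    obtain ⟨_, x, hx, hxy⟩ := mem_bd.1 hy
    by_cases h : y ∈ S
    · exact mem_union_left _ h
    · exact mem_union_right _ (mem_bd.2 ⟨h, x, hC hx, hxy⟩)
  have h2 : ∑ C ∈ (An K).filter (fun C => C ⊆ S), wt q C / #C =
      bern (S ∪ bd S) q (fun A => ∑ C ∈ (An K).filter (fun C => C ⊆ S),
        (1 / (#C : ℝ)) * ind (clus T A (0, 0) = C)) := by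
    rw [bern_sum]
    refine sum_congr rfl fun C hC => ?_
    obtain ⟨ha, hb, hc⟩ := hF C hC
    rw [bern_smul, bern_clus hb ha (hc.trans subset_union_left) (hbd C hc)]
    ring
  rw [h2]
  refine bern_mono h0 h1 fun A hA => ?_
  by_cases h3 : clus T A (0, 0) ∈ (An K).filter (fun C => C ⊆ S)
  · obtain ⟨ha, hb, hc⟩ := hF _ h3
    rw [sum_eq_single (clus T A (0, 0)), ind_true rfl,
      ind_true ⟨clus_subset ha, hc⟩, mul_one, one_mul,
      gInv_of_pos (card_pos.2 ⟨_, ha⟩)]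
    · intro C _ hne
      rw [ind_false (fun h => hne h.symm), mul_zero]
    · intro h
      exact absurd h3 h
  · rw [sum_eq_zero]
    · exact mul_nonneg (ind_nonneg _) (gInv_nonneg _)
    · intro C hC
      rw [ind_false (P := clus T A (0, 0) = C) (fun h => h3 (by rw [h]; exact hC)), mul_zero]

/-- `dom_animals` from the coupling -/
theorem dom_animals_of {V : Type*} [Fintype V] [DecidableEq V] (G : SimpleGraph V)
    (S : Finset (ℤ × ℤ)) (φ : ℤ × ℤ → V)
    (R : V → Prop) (hR : ∀ x ∈ S, R (φ x)) (K : ℕ) {q : ℝ} (h0 : 0 ≤ q) (h1 : q ≤ 1)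
    (hD : bern (S ∪ bd S) q (fun A => ind ((0, 0) ∈ A ∧ clus T A (0, 0) ⊆ S) *
        gInv #(clus T A (0, 0))) ≤
      bern univ q (fun A => ind (φ (0, 0) ∈ A ∧ ∀ x ∈ clus G A (φ (0, 0)), ∃ y ∈ S, φ y = x) *
        gInv #(clus G A (φ (0, 0))))) :
    ∑ C ∈ (An K).filter (fun C => C ⊆ S), wt q C / #C ≤
    bern univ q (fun A => ind (φ (0, 0) ∈ A ∧ ∀ x ∈ clus G A (φ (0, 0)), R x) *
      (1 / (#(clus G A (φ (0, 0))) : ℝ))) := by
  refine (sum_animals_le K h0 h1).trans (hD.trans (bern_mono h0 h1 fun A _ => ?_))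
  by_cases hA : φ (0, 0) ∈ A
  · rw [gInv_of_pos (card_pos.2 ⟨_, self_mem_clus hA⟩)]
    refine mul_le_mul_of_nonneg_right (ind_mono ?_) (by positivity)
    rintro ⟨h2, h3⟩
    refine ⟨h2, fun x hx => ?_⟩
    obtain ⟨y, hy, rfl⟩ := h3 x hx
    exact hR y hy
  · rw [ind_false (fun h => hA h.1), ind_false (fun h => hA h.1), zero_mul, zero_mul]

end Pool.Agent.Helper53.OS
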