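import Pool.Agent.Helper53.OS.Base

/-! Alexander duality (deterministic form) for MP_195d30_co. -/

set_option autoImplicit false
set_option linter.unusedSectionVars false

namespace Pool.Agent.Helper53.OS

open Finset
open scoped Classical

namespace DualA

variable {V : Type*} [Fintype V] {G : SimpleGraph V} {t : V → V → V}

/-- next dart around the face to the left -/
def nx (t : V → V → V) (d : V × V) : V × V := (d.2, t d.1 d.2)

theorem nx_adj (ht : IsRot G t) {d : V × V} (h : G.Adj d.1 d.2) :
    G.Adj (nx t d).1 (nx t d).2 := (ht.face _ _ h).2.1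

theorem nx2 (ht : IsRot G t) {d : V × V} (h : G.Adj d.1 d.2) :
    nx t (nx t d) = (t d.1 d.2, d.1) := by
  unfold nx
  simp only
  rw [(ht.face _ _ h).2.2.1]

theorem nx3 (ht : IsRot G t) {d : V × V} (h : G.Adj d.1 d.2) :
    nx t (nx t (nx t d)) = d := by
  rw [nx2 ht h]
  unfold nx
  simp only
  rw [(ht.face _ _ h).2.2.2]

/-- the three darts of the face to the left -/
noncomputable def orb (t : V → V → V) (d : V × V) : Finset (V × V) :=
  {d, nx t d, nx t (nx t d)}

theorem self_mem_orb (d : V × V) : d ∈ orb t d := by simp [orb]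

theorem orb_nx (ht : IsRot G t) {d : V × V} (h : G.Adj d.1 d.2) : orb t (nx t d) = orb t d := by
  unfold orb
  rw [nx3 ht h]
  ext x
  simp only [mem_insert, mem_singleton]
  tauto

theorem orb_eq_of_mem (ht : IsRot G t) {d d' : V × V} (h : G.Adj d.1 d.2) (h' : d' ∈ orb t d) :
    orb t d' = orb t d := by
  have h2 := h'
  unfold orb at h2
  simp only [mem_insert, mem_singleton] at h2
  rcases h2 with rfl | rfl | rfl
  · rfl
  · exact orb_nx ht h
  · rw [orb_nx ht (nx_adj ht h), orb_nx ht h]

theorem orb_adj (ht : IsRot G t) {d d' : V × V} (h : G.Adj d.1 d.2) (h' : d' ∈ orb t d) :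
    G.Adj d'.1 d'.2 := by
  unfold orb at h'
  simp only [mem_insert, mem_singleton] at h'
  rcases h' with rfl | rfl | rfl
  · exact h
  · exact nx_adj ht h
  · exact nx_adj ht (nx_adj ht h)

theorem card_orb (ht : IsRot G t) {d : V × V} (h : G.Adj d.1 d.2) : #(orb t d) = 3 := by
  have hf := ht.face _ _ h
  have h1 : d ≠ nx t d := by
    intro e
    have := congrArg Prod.fst e
    simp only [nx] at this
    exact h.ne this
  have h2 : d ≠ nx t (nx t d) := by
    rw [nx2 ht h]
    intro e
    have := congrArg Prod.fst e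
    simp only at this
    exact hf.1.ne this
  have h3 : nx t d ≠ nx t (nx t d) := by
    rw [nx2 ht h]
    intro e
    have := congrArg Prod.fst e
    simp only [nx] at this
    exact hf.2.1.ne this
  unfold orb
  rw [card_insert_of_notMem, card_insert_of_notMem, card_singleton]
  · simpa using h3
  · simp only [mem_insert, mem_singleton, not_or]
    exact ⟨h1, h2⟩

/-- darts in `A` -/
noncomputable def DA (G : SimpleGraph V) (A : Finset V) : Finset (V × V) :=
  (A ×ˢ A).filter (fun d => G.Adj d.1 d.2)

/-- darts in `A` whose left face is in `A` -/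
noncomputable def TA (G : SimpleGraph V) (t : V → V → V) (A : Finset V) : Finset (V × V) :=
  (A ×ˢ A).filter (fun d => G.Adj d.1 d.2 ∧ t d.1 d.2 ∈ A)

theorem mem_DA {A : Finset V} {d : V × V} : d ∈ DA G A ↔ d.1 ∈ A ∧ d.2 ∈ A ∧ G.Adj d.1 d.2 := by
  unfold DA
  rw [mem_filter, mem_product]
  tauto

theorem mem_TA {A : Finset V} {d : V × V} :
    d ∈ TA G t A ↔ d.1 ∈ A ∧ d.2 ∈ A ∧ G.Adj d.1 d.2 ∧ t d.1 d.2 ∈ A := by
  unfold TA
  rw [mem_filter, mem_product]
  tauto

theorem nx_mem_TA (ht : IsRot G t) {A : Finset V} {d : V × V} (h : d ∈ TA G t A) :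
    nx t d ∈ TA G t A := by
  rw [mem_TA] at h ⊢
  obtain ⟨h1, h2, h3, h4⟩ := h
  refine ⟨h2, h4, nx_adj ht h3, ?_⟩
  have := (ht.face _ _ h3).2.2.1
  unfold nx
  simp only
  rw [this]
  exact h1

theorem orb_sub_TA (ht : IsRot G t) {A : Finset V} {d d' : V × V} (h : d ∈ TA G t A)
    (h' : d' ∈ orb t d) : d' ∈ TA G t A := by
  unfold orb at h'
  simp only [mem_insert, mem_singleton] at h'
  rcases h' with rfl | rfl | rfl
  · exact h
  · exact nx_mem_TA ht h
  · exact nx_mem_TA ht (nx_mem_TA ht h)

/-- faces in `A` -/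
noncomputable def FA (G : SimpleGraph V) (t : V → V → V) (A : Finset V) :
    Finset (Finset (V × V)) := (TA G t A).image (orb t)

theorem card_TA (ht : IsRot G t) (A : Finset V) : #(TA G t A) = 3 * #(FA G t A) := by
  unfold FA
  rw [card_eq_sum_card_image (orb t) (TA G t A), mul_comm, ← smul_eq_mul, ← sum_const]
  refine sum_congr rfl fun o ho => ?_
  rw [mem_image] at ho
  obtain ⟨d, hd, rfl⟩ := ho
  have had : G.Adj d.1 d.2 := (mem_TA.1 hd).2.2.1
  rw [← card_orb ht had]
  congr 1
  ext x
  rw [mem_filter]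
  constructor
  · rintro ⟨_, h⟩
    rw [← h]
    exact self_mem_orb x
  · intro h
    exact ⟨orb_sub_TA ht hd h, orb_eq_of_mem ht had h⟩

/-- the third vertex of the face to the left of the dart `w → v` is the predecessor of `w` -/
theorem sum_swap (ht : IsRot G t) {M : Type*} [AddCommMonoid M] (v : V) (φ : V × V → M)
    (hφ : ∀ d : V × V, G.Adj d.1 d.2 → φ (nx t d) = φ d) :
    ∑ w ∈ univ.filter (fun w => G.Adj v w), φ (w, v) =
      ∑ w ∈ univ.filter (fun w => G.Adj v w), φ (v, w) := by
  refine sum_bij' (fun w _ => t w v) (fun w _ => t v w) ?_ ?_ ?_ ?_ ?_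
  · intro w hw
    have h : G.Adj w v := (mem_filter.1 hw).2.symm
    exact mem_filter.2 ⟨mem_univ _, (ht.face _ _ h).2.1⟩
  · intro w hw
    have h : G.Adj v w := (mem_filter.1 hw).2
    exact mem_filter.2 ⟨mem_univ _, (ht.face _ _ h).1⟩
  · intro w hw
    have h : G.Adj w v := (mem_filter.1 hw).2.symm
    exact (ht.face _ _ h).2.2.1
  · intro w hw
    have h : G.Adj v w := (mem_filter.1 hw).2
    exact (ht.face _ _ h).2.2.2
  · intro w hw
    have h : G.Adj w v := (mem_filter.1 hw).2.symm
    exact (hφ (w, v) h).symm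

/-- an injective numbering of the vertices -/
noncomputable def nu (v : V) : ℕ := (Fintype.equivFin V v).val

theorem nu_inj {v w : V} (h : nu v = nu w) : v = w :=
  (Fintype.equivFin V).injective (Fin.ext h)

/-- edges in `A`, represented by their increasing darts -/
noncomputable def EA (G : SimpleGraph V) (A : Finset V) : Finset (V × V) :=
  (DA G A).filter (fun d => nu d.1 < nu d.2)

theorem sum_DA {M : Type*} [AddCommMonoid M] (A : Finset V) (ψ : V × V → M) :
    ∑ d ∈ DA G A, ψ d = ∑ d ∈ EA G A, (ψ d + ψ d.swap) := by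
  rw [sum_add_distrib]
  have h2 : ∑ d ∈ EA G A, ψ d.swap = ∑ d ∈ (DA G A).filter (fun d => ¬ nu d.1 < nu d.2), ψ d := by
    refine sum_bij' (fun d _ => d.swap) (fun d _ => d.swap) ?_ ?_ ?_ ?_ ?_
    · intro d hd
      unfold EA at hd
      rw [mem_filter, mem_DA] at hd ⊢
      obtain ⟨⟨h1, h2, h3⟩, h4⟩ := hd
      exact ⟨⟨h2, h1, h3.symm⟩, by simp only [Prod.fst_swap, Prod.snd_swap]; omega⟩
    · intro d hd
      unfold EA
      rw [mem_filter, mem_DA] at hd ⊢
      obtain ⟨⟨h1, h2, h3⟩, h4⟩ := hd
      refine ⟨⟨h2, h1, h3.symm⟩, ?_⟩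
      simp only [Prod.fst_swap, Prod.snd_swap]
      have : nu d.1 ≠ nu d.2 := fun e => h3.ne (nu_inj e)
      omega
    · intro d _; exact Prod.swap_swap d
    · intro d _; exact Prod.swap_swap d
    · intro d _; rfl
  rw [h2]
  unfold EA
  exact (sum_filter_add_sum_filter_not _ _ _).symm

theorem card_DA (A : Finset V) : #(DA G A) = 2 * #(EA G A) := by
  have := sum_DA (G := G) A (fun _ => (1 : ℕ))
  rw [← card_eq_sum_ones] at this
  rw [this, sum_const, smul_eq_mul]
  ring

/-- connected components of the induced graph -/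
abbrev CC (G : SimpleGraph V) (B : Finset V) := (G.induce (B : Set V)).ConnectedComponent

instance (B : Finset V) : Finite (CC G B) :=
  Quot.finite _

noncomputable instance (B : Finset V) : Fintype (CC G B) := Fintype.ofFinite _

theorem cc_eq (B : Finset V) : cc G B = Fintype.card (CC G B) := by
  unfold cc
  rw [Nat.card_eq_fintype_card]

/-- the component of `x` in `B` -/
noncomputable def cp (G : SimpleGraph V) (B : Finset V) (x : V) (h : x ∈ B) : CC G B :=
  (G.induce (B : Set V)).connectedComponentMk ⟨x, by exact_mod_cast h⟩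

theorem cp_adj {B : Finset V} {x y : V} (hx : x ∈ B) (hy : y ∈ B) (h : G.Adj x y) :
    cp G B x hx = cp G B y hy := by
  unfold cp
  apply SimpleGraph.ConnectedComponent.sound
  apply SimpleGraph.Adj.reachable
  exact h

/-- index set: faces in `A` and components of the complement -/
abbrev II (G : SimpleGraph V) (t : V → V → V) (A : Finset V) := {o // o ∈ FA G t A} ⊕ CC G (univ \ A)

/-- face functions -/
noncomputable def ph (G : SimpleGraph V) (t : V → V → V) (A : Finset V) (i : II G t A)
    (d : V × V) : ZMod 2 :=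
  match i with
  | Sum.inl o => if d ∈ o.1 then 1 else 0
  | Sum.inr c => if ∃ x, ∃ h : x ∈ univ \ A, (x = d.1 ∨ x = d.2 ∨ x = t d.1 d.2) ∧
      cp G (univ \ A) x h = c then 1 else 0

theorem ph_nx (ht : IsRot G t) (A : Finset V) (i : II G t A) {d : V × V} (h : G.Adj d.1 d.2) :
    ph G t A i (nx t d) = ph G t A i d := by
  rcases i with ⟨o, ho⟩ | c
  · unfold FA at ho
    rw [mem_image] at ho
    obtain ⟨d0, hd0, rfl⟩ := ho
    have had0 : G.Adj d0.1 d0.2 := (mem_TA.1 hd0).2.2.1
    unfold ph
    simp only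
    have : nx t d ∈ orb t d0 ↔ d ∈ orb t d0 := by
      constructor
      · intro h1
        rw [← orb_eq_of_mem ht had0 h1, orb_nx ht h]
        exact self_mem_orb d
      · intro h1
        rw [← orb_eq_of_mem ht had0 h1, ← orb_nx ht h]
        exact self_mem_orb _
    simp only [this]
  · unfold ph
    simp only
    have h1 := (ht.face _ _ h).2.2.1
    unfold nx
    simp only [h1]
    congr 1
    apply propext
    constructor
    · rintro ⟨x, hx, hx', hc⟩
      exact ⟨x, hx, by tauto, hc⟩
    · rintro ⟨x, hx, hx', hc⟩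
      exact ⟨x, hx, by tauto, hc⟩

theorem ph_comp (ht : IsRot G t) (A : Finset V) (c : CC G (univ \ A)) {d : V × V}
    (h : G.Adj d.1 d.2) {x : V} (hx : x ∈ univ \ A) (hxd : x = d.1 ∨ x = d.2 ∨ x = t d.1 d.2) :
    ph G t A (Sum.inr c) d = if cp G (univ \ A) x hx = c then 1 else 0 := by
  have hf := ht.face _ _ h
  unfold ph
  simp only
  congr 1
  apply propext
  constructor
  · rintro ⟨y, hy, hyd, rfl⟩
    by_cases hxy : x = y
    · subst hxy; rfl
    · apply cp_adj
      rcases hxd with rfl | rfl | rfl <;> rcases hyd with rfl | rfl | rfl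
      all_goals first | exact absurd rfl hxy | exact h | exact h.symm | exact hf.1 | exact hf.1.symm | exact hf.2.1 | exact hf.2.1.symm
  · intro hc
    exact ⟨x, hx, hxd, hc⟩

theorem ph_swap (ht : IsRot G t) (A : Finset V) (i : II G t A) {d : V × V} (h : G.Adj d.1 d.2)
    (hd : ¬ (d.1 ∈ A ∧ d.2 ∈ A)) : ph G t A i d = ph G t A i d.swap := by
  rcases i with ⟨o, ho⟩ | c
  · unfold FA at ho
    rw [mem_image] at ho
    obtain ⟨d0, hd0, rfl⟩ := ho
    unfold ph
    simp only
    rw [if_neg, if_neg]
    · intro h1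
      have := mem_TA.1 (orb_sub_TA ht hd0 h1)
      exact hd ⟨this.2.1, this.1⟩
    · intro h1
      have := mem_TA.1 (orb_sub_TA ht hd0 h1)
      exact hd ⟨this.1, this.2.1⟩
  · have : ∃ x, x ∈ univ \ A ∧ (x = d.1 ∨ x = d.2) := by
      by_cases h1 : d.1 ∈ A
      · exact ⟨d.2, by rw [mem_sdiff]; exact ⟨mem_univ _, fun h2 => hd ⟨h1, h2⟩⟩, Or.inr rfl⟩
      · exact ⟨d.1, by rw [mem_sdiff]; exact ⟨mem_univ _, h1⟩, Or.inl rfl⟩
    obtain ⟨x, hx, hxd⟩ := this
    have h' : G.Adj d.swap.1 d.swap.2 := h.symm
    rw [ph_comp ht A c h hx (by tauto), ph_comp ht A c h' hx (by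
      simp only [Prod.fst_swap, Prod.snd_swap]; tauto)]

/-- faces × edges -/
noncomputable def MM (G : SimpleGraph V) (t : V → V → V) (A : Finset V) :
    Matrix (II G t A) {e // e ∈ EA G A} (ZMod 2) :=
  fun i e => ph G t A i e.1 + ph G t A i e.1.swap

/-- edges × vertices -/
noncomputable def NN (G : SimpleGraph V) (A : Finset V) :
    Matrix {e // e ∈ EA G A} {v // v ∈ A} (ZMod 2) :=
  fun e v => (if e.1.1 = v.1 then 1 else 0) + (if e.1.2 = v.1 then 1 else 0)

theorem MM_NN (ht : IsRot G t) (A : Finset V) : MM G t A * NN G A = 0 := by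
  ext i v
  rw [Matrix.mul_apply, Matrix.zero_apply]
  obtain ⟨v, hv⟩ := v
  unfold MM NN
  simp only
  rw [Finset.sum_coe_sort (EA G A) (fun e => (ph G t A i e + ph G t A i e.swap) *
    ((if e.1 = v then 1 else 0) + (if e.2 = v then 1 else 0)))]
  have h1 := sum_DA (G := G) A (fun d => (ph G t A i d + ph G t A i d.swap) *
    (if d.1 = v then 1 else 0))
  have h2 : ∑ e ∈ EA G A, (ph G t A i e + ph G t A i e.swap) *
    ((if e.1 = v then 1 else 0) + (if e.2 = v then 1 else 0)) =
    ∑ d ∈ DA G A, (ph G t A i d + ph G t A i d.swap) * (if d.1 = v then 1 else 0) := by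
    rw [h1]
    refine sum_congr rfl fun d _ => ?_
    simp only [Prod.fst_swap, Prod.swap_swap]
    ring
  rw [h2]
  have h3 : ∑ d ∈ DA G A, (ph G t A i d + ph G t A i d.swap) * (if d.1 = v then 1 else 0) =
      ∑ w ∈ univ.filter (fun w => G.Adj v w), (ph G t A i (v, w) + ph G t A i (w, v)) := by
    have h4 : ∑ w ∈ univ.filter (fun w => G.Adj v w), (ph G t A i (v, w) + ph G t A i (w, v)) =
        ∑ w ∈ (univ.filter (fun w => G.Adj v w)).filter (fun w => w ∈ A),
          (ph G t A i (v, w) + ph G t A i (w, v)) := by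
      symm
      apply sum_subset (filter_subset _ _)
      intro w hw hw'
      have had : G.Adj v w := (mem_filter.1 hw).2
      have hwA : w ∉ A := fun h => hw' (mem_filter.2 ⟨hw, h⟩)
      rw [ph_swap ht A i (d := (v, w)) had (fun h => hwA h.2)]
      exact CharTwo.add_self_eq_zero _
    rw [h4]
    simp only [mul_ite, mul_one, mul_zero]
    rw [← sum_filter]
    refine sum_bij' (fun d _ => d.2) (fun w _ => (v, w)) ?_ ?_ ?_ ?_ ?_
    · intro d hd
      rw [mem_filter, mem_DA] at hd
      rw [mem_filter, mem_filter]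
      obtain ⟨⟨h5, h6, h7⟩, h8⟩ := hd
      rw [h8] at h7
      exact ⟨⟨mem_univ _, h7⟩, h6⟩
    · intro w hw
      rw [mem_filter, mem_filter] at hw
      rw [mem_filter, mem_DA]
      exact ⟨⟨hv, hw.2, hw.1.2⟩, rfl⟩
    · intro d hd
      rw [mem_filter] at hd
      ext
      · exact hd.2.symm
      · rfl
    · intro w _; rfl
    · intro d hd
      rw [mem_filter] at hd
      obtain ⟨_, h8⟩ := hd
      rw [← h8]
      rfl
  rw [h3, sum_add_distrib, sum_swap ht v (ph G t A i) (fun d hd => ph_nx ht A i hd)]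
  exact CharTwo.add_self_eq_zero _

theorem NN_ker {A : Finset V} {g : {v // v ∈ A} → ZMod 2} (hg : (NN G A).mulVec g = 0)
    {u w : V} (hu : u ∈ A) (hw : w ∈ A) (h : G.Adj u w) : g ⟨u, hu⟩ = g ⟨w, hw⟩ := by
  have key : ∀ (d : V × V) (hd : d ∈ EA G A) (h1 : d.1 ∈ A) (h2 : d.2 ∈ A),
      g ⟨d.1, h1⟩ = g ⟨d.2, h2⟩ := by
    intro d hd h1 h2
    have := congrFun hg ⟨d, hd⟩
    rw [Pi.zero_apply, Matrix.mulVec, dotProduct] at this
    unfold NN at this
    simp only [add_mul, ite_mul, one_mul, zero_mul] at this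
    rw [sum_add_distrib] at this
    have e1 : ∑ x : {v // v ∈ A}, (if d.1 = x.1 then g x else 0) = g ⟨d.1, h1⟩ := by
      rw [sum_eq_single ⟨d.1, h1⟩]
      · simp
      · intro b _ hb
        rw [if_neg]
        intro e
        exact hb (Subtype.ext e.symm)
      · intro h; exact absurd (mem_univ _) h
    have e2 : ∑ x : {v // v ∈ A}, (if d.2 = x.1 then g x else 0) = g ⟨d.2, h2⟩ := by
      rw [sum_eq_single ⟨d.2, h2⟩]
      · simp
      · intro b _ hb
        rw [if_neg]
        intro e
        exact hb (Subtype.ext e.symm)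
      · intro h; exact absurd (mem_univ _) h
    rw [e1, e2] at this
    exact CharTwo.add_eq_zero.1 this
  have hne : nu u ≠ nu w := fun e => h.ne (nu_inj e)
  rcases lt_or_gt_of_ne hne with hlt | hlt
  · exact key (u, w) (by unfold EA; rw [mem_filter, mem_DA]; exact ⟨⟨hu, hw, h⟩, hlt⟩) hu hw
  · exact (key (w, u) (by unfold EA; rw [mem_filter, mem_DA]; exact ⟨⟨hw, hu, h.symm⟩, hlt⟩) hw hu).symm

theorem rank_NN (A : Finset V) : #A ≤ (NN G A).rank + cc G A := by
  have h1 := LinearMap.finrank_range_add_finrank_ker (NN G A).mulVecLin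
  rw [Module.finrank_fintype_fun_eq_card, Fintype.card_coe] at h1
  have h2 : (NN G A).rank = Module.finrank (ZMod 2) (LinearMap.range (NN G A).mulVecLin) := rfl
  rw [h2, cc_eq]
  have h3 : Module.finrank (ZMod 2) (LinearMap.ker (NN G A).mulVecLin) ≤ Fintype.card (CC G A) := by
    have hout : ∀ c : CC G A, ∃ v : {v // v ∈ A}, cp G A v.1 v.2 = c := by
      intro c
      obtain ⟨v, hv⟩ := c.exists_rep
      exact ⟨⟨v.1, by exact_mod_cast v.2⟩, hv⟩
    choose out hout using hout
    let L : ({v // v ∈ A} → ZMod 2) →ₗ[ZMod 2] (CC G A → ZMod 2) :=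
      LinearMap.funLeft (ZMod 2) (ZMod 2) out
    have hinj : Function.Injective (L ∘ₗ (LinearMap.ker (NN G A).mulVecLin).subtype) := by
      rw [← LinearMap.ker_eq_bot, LinearMap.ker_eq_bot']
      rintro ⟨g, hg⟩ hL
      rw [LinearMap.mem_ker, Matrix.mulVecLin_apply] at hg
      apply Subtype.ext
      funext v
      have hconst : ∀ u w : {v // v ∈ A}, cp G A u.1 u.2 = cp G A w.1 w.2 → g u = g w := by
        intro u w huw
        unfold cp at huw
        have hr := SimpleGraph.ConnectedComponent.exact huw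
        obtain ⟨p⟩ := hr
        have hstep : ∀ {a b : ((A : Set V))} (p : (G.induce (A : Set V)).Walk a b),
            g ⟨a.1, by exact_mod_cast a.2⟩ = g ⟨b.1, by exact_mod_cast b.2⟩ := by
          intro a b p
          induction p with
          | nil => rfl
          | cons hadj q ih =>
            rw [← ih]
            exact NN_ker hg _ _ hadj
        exact hstep p
      change g v = 0
      rw [hconst v (out (cp G A v.1 v.2)) (hout _).symm]
      have := congrFun hL (cp G A v.1 v.2)
      simpa [L, LinearMap.funLeft] using this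
    have := LinearMap.finrank_le_finrank_of_injective hinj
    rwa [Module.finrank_fintype_fun_eq_card] at this
  omega

theorem const_of_ker (ht : IsRot G t) (hc : G.Connected) {Φ : V × V → ZMod 2}
    (h1 : ∀ d : V × V, G.Adj d.1 d.2 → Φ (nx t d) = Φ d)
    (h2 : ∀ d : V × V, G.Adj d.1 d.2 → Φ d = Φ d.swap) {d0 : V × V} (hd0 : G.Adj d0.1 d0.2)
    {d : V × V} (hd : G.Adj d.1 d.2) : Φ d = Φ d0 := by
  -- around a vertex
  have ha : ∀ v w, G.Adj v w → Φ (v, t v w) = Φ (v, w) := by
    intro v w h
    have hf := ht.face _ _ h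
    have e1 : nx t (nx t (v, w)) = (t v w, v) := nx2 ht (d := (v, w)) h
    have e2 : Φ (nx t (nx t (v, w))) = Φ (v, w) := by
      rw [h1 _ (nx_adj ht (d := (v, w)) h), h1 (v, w) h]
    rw [e1] at e2
    rw [← e2]
    exact h2 (v, t v w) hf.1
  have hb : ∀ v w w', G.Adj v w → G.Adj v w' → Φ (v, w) = Φ (v, w') := by
    intro v w w' hw hw'
    obtain ⟨k, hk⟩ := ht.cyc v w w' hw hw'
    have : ∀ k : ℕ, G.Adj v ((t v)^[k] w) ∧ Φ (v, (t v)^[k] w) = Φ (v, w) := by
      intro k
      induction k with
      | zero => exact ⟨hw, rfl⟩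
      | succ k ih =>
        rw [Function.iterate_succ_apply']
        exact ⟨(ht.face _ _ ih.1).1, (ha _ _ ih.1).trans ih.2⟩
    rw [← hk]
    exact (this k).2.symm
  -- along walks
  have hw : ∀ {u v : V} (p : G.Walk u v) (a b : V), G.Adj u a → G.Adj v b → Φ (u, a) = Φ (v, b) := by
    intro u v p
    induction p with
    | nil => intro a b ha hb'; exact hb _ _ _ ha hb'
    | @cons x y z hxy q ih =>
      intro a b ha hb'
      rw [hb x a y ha hxy, h2 (x, y) hxy]
      exact ih x b hxy.symm hb'
  obtain ⟨p⟩ := hc.preconnected d.1 d0.1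
  exact hw p d.2 d0.2 hd hd0

theorem exists_nb {x y : V} (p : G.Walk x y) (h : x ≠ y) : ∃ w, G.Adj x w := by
  cases p with
  | nil => exact absurd rfl h
  | cons hadj q => exact ⟨_, hadj⟩

theorem rank_MM (ht : IsRot G t) (hc : G.Connected) (A : Finset V) {d0 : V × V}
    (hd0 : G.Adj d0.1 d0.2) : #(FA G t A) + cc G (univ \ A) ≤ (MM G t A).rank + 1 := by
  rw [← Matrix.rank_transpose]
  have h1 := LinearMap.finrank_range_add_finrank_ker (MM G t A).transpose.mulVecLin
  rw [Module.finrank_fintype_fun_eq_card, Fintype.card_sum, Fintype.card_coe, ← cc_eq] at h1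
  have h2 : (MM G t A).transpose.rank =
    Module.finrank (ZMod 2) (LinearMap.range (MM G t A).transpose.mulVecLin) := rfl
  rw [h2]
  have h3 : Module.finrank (ZMod 2) (LinearMap.ker (MM G t A).transpose.mulVecLin) ≤ 1 := by
    let L : (II G t A → ZMod 2) →ₗ[ZMod 2] ZMod 2 :=
      ∑ i, (ph G t A i d0) • LinearMap.proj i
    have hLa : ∀ c, L c = ∑ i, c i * ph G t A i d0 := by
      intro c
      simp only [L, LinearMap.sum_apply, LinearMap.smul_apply, LinearMap.proj_apply, smul_eq_mul]
      exact sum_congr rfl fun i _ => mul_comm _ _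
    have hinj : Function.Injective (L ∘ₗ (LinearMap.ker (MM G t A).transpose.mulVecLin).subtype) := by
      rw [← LinearMap.ker_eq_bot, LinearMap.ker_eq_bot']
      rintro ⟨c, hcc⟩ hL
      rw [LinearMap.mem_ker, Matrix.mulVecLin_apply] at hcc
      have hL' : ∑ i, c i * ph G t A i d0 = 0 := by
        rw [← hLa]
        exact hL
      set Φ : V × V → ZMod 2 := fun d => ∑ i, c i * ph G t A i d with hΦ
      have hn : ∀ d : V × V, G.Adj d.1 d.2 → Φ (nx t d) = Φ d := by
        intro d hd
        simp only [hΦ]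
        exact sum_congr rfl fun i _ => by rw [ph_nx ht A i hd]
      have hE : ∀ d ∈ EA G A, Φ d = Φ d.swap := by
        intro d hd
        have := congrFun hcc ⟨d, hd⟩
        rw [Pi.zero_apply, Matrix.mulVec, dotProduct] at this
        unfold MM at this
        simp only [Matrix.transpose_apply, add_mul] at this
        rw [sum_add_distrib] at this
        have e := CharTwo.add_eq_zero.1 this
        simp only [hΦ]
        calc _ = ∑ i, ph G t A i d * c i := sum_congr rfl fun i _ => mul_comm _ _
          _ = ∑ i, ph G t A i d.swap * c i := e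
          _ = _ := sum_congr rfl fun i _ => mul_comm _ _
      have hs : ∀ d : V × V, G.Adj d.1 d.2 → Φ d = Φ d.swap := by
        intro d hd
        by_cases hA : d.1 ∈ A ∧ d.2 ∈ A
        · have hne : nu d.1 ≠ nu d.2 := fun e => hd.ne (nu_inj e)
          rcases lt_or_gt_of_ne hne with hlt | hlt
          · exact hE d (by unfold EA; rw [mem_filter, mem_DA]; exact ⟨⟨hA.1, hA.2, hd⟩, hlt⟩)
          · have := hE d.swap (by
              unfold EA; rw [mem_filter, mem_DA]; exact ⟨⟨hA.2, hA.1, hd.symm⟩, hlt⟩)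
            rw [Prod.swap_swap] at this
            exact this.symm
        · simp only [hΦ]
          exact sum_congr rfl fun i _ => by rw [ph_swap ht A i hd hA]
      have hz : ∀ d : V × V, G.Adj d.1 d.2 → Φ d = 0 := by
        intro d hd
        rw [const_of_ker ht hc hn hs hd0 hd]
        exact hL'
      apply Subtype.ext
      funext i
      rcases i with ⟨o, ho⟩ | k
      · have ho' := ho
        unfold FA at ho
        rw [mem_image] at ho
        obtain ⟨d, hd, hdo⟩ := ho
        have hd' := mem_TA.1 hd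
        have h4 := hz d hd'.2.2.1
        simp only [hΦ] at h4
        rw [sum_eq_single (Sum.inl ⟨o, ho'⟩)] at h4
        · unfold ph at h4
          simp only at h4
          rw [if_pos (by rw [← hdo]; exact self_mem_orb d), mul_one] at h4
          exact h4
        · intro j _ hj
          rcases j with ⟨o', ho'⟩ | k
          · unfold ph
            simp only
            rw [if_neg, mul_zero]
            intro hdo'
            apply hj
            congr 1
            apply Subtype.ext
            simp only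
            unfold FA at ho'
            rw [mem_image] at ho'
            obtain ⟨d', hd1, rfl⟩ := ho'
            rw [← hdo, orb_eq_of_mem ht (mem_TA.1 hd1).2.2.1 hdo']
          · unfold ph
            simp only
            rw [if_neg, mul_zero]
            rintro ⟨x, hx, hxd, _⟩
            rw [mem_sdiff] at hx
            apply hx.2
            rcases hxd with rfl | rfl | rfl
            · exact hd'.1
            · exact hd'.2.1
            · exact hd'.2.2.2
        · intro h; exact absurd (mem_univ _) h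
      · obtain ⟨x, hx⟩ := k.exists_rep
        have hxA : x.1 ∈ univ \ A := by exact_mod_cast x.2
        have hcp : cp G (univ \ A) x.1 hxA = k := hx
        -- a neighbour of x
        have hnb : ∃ w, G.Adj x.1 w := by
          by_cases hxd : x.1 = d0.1
          · exact ⟨d0.2, by rw [hxd]; exact hd0⟩
          · obtain ⟨p⟩ := hc.preconnected x.1 d0.1
            exact exists_nb p hxd
        obtain ⟨w, hw⟩ := hnb
        have h4 := hz (x.1, w) hw
        simp only [hΦ] at h4
        rw [sum_eq_single (Sum.inr k)] at h4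
        · rw [ph_comp ht A k (d := (x.1, w)) hw hxA (Or.inl rfl), if_pos hcp, mul_one] at h4
          exact h4
        · intro j _ hj
          rcases j with ⟨o', ho'⟩ | k'
          · unfold ph
            simp only
            rw [if_neg, mul_zero]
            intro hdo'
            unfold FA at ho'
            rw [mem_image] at ho'
            obtain ⟨d', hd1, rfl⟩ := ho'
            have := (mem_TA.1 (orb_sub_TA ht hd1 hdo')).1
            rw [mem_sdiff] at hxA
            exact hxA.2 this
          · rw [ph_comp ht A k' (d := (x.1, w)) hw hxA (Or.inl rfl), if_neg, mul_zero]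
            intro e
            apply hj
            rw [← e, hcp]
        · intro h; exact absurd (mem_univ _) h
    have := LinearMap.finrank_le_finrank_of_injective hinj
    rwa [Module.finrank_self] at this
  omega

end DualA

open DualA in
/-- Alexander duality, deterministic form -/
theorem dual_det {V : Type*} [Fintype V] (G : SimpleGraph V) (hc : G.Connected) (t : V → V → V)
    (ht : IsRot G t) (A : Finset V) :
    (#A : ℝ) - (#((A ×ˢ A).filter (fun d => G.Adj d.1 d.2)) : ℝ) / 2
      + (#((A ×ˢ A).filter (fun d => G.Adj d.1 d.2 ∧ t d.1 d.2 ∈ A)) : ℝ) / 3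
      + cc G (univ \ A) - 1 ≤ cc G A := by
  change (#A : ℝ) - (#(DA G A) : ℝ) / 2 + (#(TA G t A) : ℝ) / 3 + cc G (univ \ A) - 1 ≤ cc G A
  rw [card_DA, card_TA ht]
  by_cases hd : ∃ d0 : V × V, G.Adj d0.1 d0.2
  · obtain ⟨d0, hd0⟩ := hd
    have h1 := rank_NN (G := G) A
    have h2 := rank_MM ht hc A hd0
    have h3 := Matrix.rank_add_rank_le_card_of_mul_eq_zero (MM_NN ht A)
    rw [Fintype.card_coe] at h3
    have h4 : #A + #(FA G t A) + cc G (univ \ A) ≤ #(EA G A) + 1 + cc G A := by omega
    have h5 : (#A : ℝ) + #(FA G t A) + cc G (univ \ A) ≤ #(EA G A) + 1 + cc G A := by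
      exact_mod_cast h4
    push_cast
    linarith
  · have hV : ∀ v w : V, v = w := by
      intro v w
      obtain ⟨p⟩ := hc.preconnected v w
      cases p with
      | nil => rfl
      | cons hadj q => exact absurd ⟨(_, _), hadj⟩ hd
    have h1 : EA G A = ∅ := by
      rw [eq_empty_iff_forall_notMem]
      intro d hdd
      unfold EA at hdd
      rw [mem_filter, mem_DA] at hdd
      exact hd ⟨d, hdd.1.2.2⟩
    have h2 : FA G t A = ∅ := by
      rw [eq_empty_iff_forall_notMem]
      intro o ho
      unfold FA at ho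
      rw [mem_image] at ho
      obtain ⟨d, hdd, _⟩ := ho
      exact hd ⟨d, (mem_TA.1 hdd).2.2.1⟩
    rw [h1, h2]
    have h3 : cc G (univ \ A) ≤ #(univ \ A) := by
      rw [cc_eq]
      have := Fintype.card_le_of_surjective
        (fun v : {v // v ∈ univ \ A} => cp G (univ \ A) v.1 v.2) (by
          intro c
          obtain ⟨v, hv⟩ := c.exists_rep
          exact ⟨⟨v.1, by exact_mod_cast v.2⟩, hv⟩)
      rwa [Fintype.card_coe] at this
    have h4 : #A + #(univ \ A) ≤ 1 := by
      rw [← card_union_of_disjoint disjoint_sdiff]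
      exact card_le_one.2 fun a _ b _ => hV a b
    have h5 : (#A : ℝ) + cc G (univ \ A) ≤ 1 := by
      have : #A + cc G (univ \ A) ≤ 1 := by omega
      exact_mod_cast this
    have h6 : (0 : ℝ) ≤ cc G A := Nat.cast_nonneg _
    simp only [card_empty, mul_zero, Nat.cast_zero, zero_div, sub_zero, add_zero]
    linarith

end Pool.Agent.Helper53.OS
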