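import Pool.Agent.Helper53.OS.DualBAux
import Pool.Agent.Helper53.OS.DualA

/-! MP_195d30_co, piece DUALB: the duality relation in expectation. -/

set_option autoImplicit false

namespace Pool.Agent.Helper53.OS

open Finset
open scoped Classical

theorem dual {V : Type*} [Fintype V] [D : DecidableEq V] (G : SimpleGraph V) (hG : IsTri G) {p : ℝ}
    (h0 : 0 ≤ p) (h1 : p ≤ 1) :
    |bern univ p (fun A => (cc G A : ℝ)) - (Fintype.card V * ff p
      + bern univ (1 - p) (fun A => (cc G A : ℝ)))| ≤ 10 := by
  have e : D = fun a b => Classical.propDecidable (a = b) := Subsingleton.elim _ _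
  subst e
  obtain ⟨t, ht⟩ := hG.rot
  have := dual_of G t ht hG.edges (fun A => by
    have := dual_det G hG.connected t ht A
    exact this) h0 h1
  linarith

end Pool.Agent.Helper53.OS
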