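import Pool.Agent.Helper53.OS.Base

/-! MP_195d30_co, piece DUALB (auxiliary part, without DUALA): expectations. -/

set_option autoImplicit false

namespace Pool.Agent.Helper53.OS

open Finset
open scoped Classical

section
variable {V : Type*} [Fintype V] [DecidableEq V]

/-- passing to the complement exchanges `p` and `1 - p` -/
theorem bern_compl (p : ℝ) (F : Finset V → ℝ) :
    bern univ p (fun A => F (univ \ A)) = bern univ (1 - p) F := by
  unfold bern
  refine sum_nbij' (fun A => univ \ A) (fun A => univ \ A) ?_ ?_ ?_ ?_ ?_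
  · intro A _
    exact mem_powerset.2 (subset_univ _)
  · intro A _
    exact mem_powerset.2 (subset_univ _)
  · intro A _
    exact Finset.sdiff_sdiff_eq_self (subset_univ A)
  · intro A _
    exact Finset.sdiff_sdiff_eq_self (subset_univ A)
  · intro A _
    have : univ \ (univ \ A) = A := Finset.sdiff_sdiff_eq_self (subset_univ A)
    simp only [this]
    rw [sub_sub_cancel]
    ring

/-- the expectation of the number of vertices -/
theorem bern_card (p : ℝ) : bern univ p (fun A : Finset V => (#A : ℝ)) = Fintype.card V * p := by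
  have h : ∀ A : Finset V, (#A : ℝ) = ∑ v : V, ind (({v} : Finset V) ⊆ A ∧ Disjoint (∅ : Finset V) A) := by
    intro A
    have h1 : ∀ v : V, ind (({v} : Finset V) ⊆ A ∧ Disjoint (∅ : Finset V) A) =
        if v ∈ A then (1 : ℝ) else 0 := by
      intro v
      unfold ind
      simp
    rw [sum_congr rfl (fun v _ => h1 v)]
    simp
  simp_rw [h]
  rw [bern_sum, sum_congr rfl (g := fun _ => p)]
  · simp
  · intro v _
    rw [bern_event (subset_univ _) (subset_univ _) (disjoint_empty_right _)]
    simp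

/-- the expectation of a number of configurations with `k` vertices -/
theorem bern_count {ι : Type*} (D : Finset ι) (I : ι → Finset V) (k : ℕ) (hk : ∀ d ∈ D, #(I d) = k)
    (p : ℝ) : bern univ p (fun A => (#(D.filter (fun d => I d ⊆ A)) : ℝ)) = #D * p ^ k := by
  have h : ∀ A : Finset V, (#(D.filter (fun d => I d ⊆ A)) : ℝ) =
      ∑ d ∈ D, ind (I d ⊆ A ∧ Disjoint (∅ : Finset V) A) := by
    intro A
    rw [card_filter]
    push_cast
    refine sum_congr rfl fun d _ => ?_
    unfold ind
    simp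
  simp_rw [h]
  rw [bern_sum, sum_congr rfl (g := fun _ => p ^ k)]
  · simp
  · intro d hd
    rw [bern_event (subset_univ _) (subset_univ _) (disjoint_empty_right _), hk d hd]
    simp

theorem darts_card (G : SimpleGraph V) :
    #((univ : Finset (V × V)).filter (fun d => G.Adj d.1 d.2)) = 2 * Nat.card G.edgeSet := by
  have h1 : #((univ : Finset (V × V)).filter (fun d => G.Adj d.1 d.2)) = ∑ v, G.degree v := by
    rw [card_eq_sum_card_fiberwise (f := Prod.fst) (t := univ) (fun _ _ => mem_univ _)]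
    refine sum_congr rfl fun v _ => ?_
    rw [← G.card_neighborFinset_eq_degree]
    refine card_bij (fun d _ => d.2) ?_ ?_ ?_
    · intro d hd
      rw [mem_filter, mem_filter] at hd
      rw [SimpleGraph.mem_neighborFinset, ← hd.2]
      exact hd.1.2
    · intro d hd e he h
      rw [mem_filter] at hd he
      exact Prod.ext (hd.2.trans he.2.symm) h
    · intro w hw
      rw [SimpleGraph.mem_neighborFinset] at hw
      exact ⟨(v, w), by rw [mem_filter, mem_filter]; exact ⟨⟨mem_univ _, hw⟩, rfl⟩, rfl⟩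
  rw [h1, SimpleGraph.sum_degrees_eq_twice_card_edges, SimpleGraph.edgeFinset_card,
    Nat.card_eq_fintype_card]

/-- lower half of the duality inequality -/
theorem dual_half (G : SimpleGraph V) (t : V → V → V) (ht : IsRot G t)
    (hE : Nat.card G.edgeSet + 6 = 3 * Fintype.card V)
    (hdet : ∀ A : Finset V,
      (#A : ℝ) - (#((A ×ˢ A).filter (fun d => G.Adj d.1 d.2)) : ℝ) / 2
        + (#((A ×ˢ A).filter (fun d => G.Adj d.1 d.2 ∧ t d.1 d.2 ∈ A)) : ℝ) / 3
        + cc G (univ \ A) - 1 ≤ cc G A) {p : ℝ} (h0 : 0 ≤ p) (h1 : p ≤ 1) :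
    Fintype.card V * ff p + bern univ (1 - p) (fun A => (cc G A : ℝ)) - 1 ≤
      bern univ p (fun A => (cc G A : ℝ)) := by
  set D : Finset (V × V) := univ.filter (fun d => G.Adj d.1 d.2) with hD
  have hDc : (#D : ℝ) = 6 * Fintype.card V - 12 := by
    have h2 : (#D : ℝ) = 2 * (Nat.card G.edgeSet : ℝ) := by
      rw [hD]
      exact_mod_cast darts_card G
    have h3 : (Nat.card G.edgeSet : ℝ) + 6 = 3 * Fintype.card V := by exact_mod_cast hE
    linarith
  have hd2 : ∀ A : Finset V, #((A ×ˢ A).filter (fun d => G.Adj d.1 d.2)) =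
      #(D.filter (fun d => ({d.1, d.2} : Finset V) ⊆ A)) := by
    intro A
    congr 1
    ext d
    simp only [hD, mem_filter, mem_product, mem_univ, true_and, insert_subset_iff,
      singleton_subset_iff]
    tauto
  have hd3 : ∀ A : Finset V, #((A ×ˢ A).filter (fun d => G.Adj d.1 d.2 ∧ t d.1 d.2 ∈ A)) =
      #(D.filter (fun d => ({d.1, d.2, t d.1 d.2} : Finset V) ⊆ A)) := by
    intro A
    congr 1
    ext d
    simp only [hD, mem_filter, mem_product, mem_univ, true_and, insert_subset_iff,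
      singleton_subset_iff]
    tauto
  have e2 : bern univ p (fun A : Finset V => (#((A ×ˢ A).filter (fun d => G.Adj d.1 d.2)) : ℝ)) =
      #D * p ^ 2 := by
    simp_rw [hd2]
    refine bern_count D (fun d => {d.1, d.2}) 2 ?_ p
    intro d hd
    rw [hD, mem_filter] at hd
    exact card_pair hd.2.ne
  have e3 : bern univ p (fun A : Finset V =>
      (#((A ×ˢ A).filter (fun d => G.Adj d.1 d.2 ∧ t d.1 d.2 ∈ A)) : ℝ)) = #D * p ^ 3 := by
    simp_rw [hd3]
    refine bern_count D (fun d => {d.1, d.2, t d.1 d.2}) 3 ?_ p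
    intro d hd
    rw [hD, mem_filter] at hd
    have hf := ht.face _ _ hd.2
    exact card_eq_three.2 ⟨_, _, _, hd.2.ne, hf.1.ne, hf.2.1.ne, rfl⟩
  have e1 := bern_card (V := V) p
  have e4 := bern_compl p (fun A : Finset V => (cc G A : ℝ))
  have key := bern_mono (S := univ) h0 h1 (fun A (_ : A ⊆ univ) => hdet A)
  have hexp : bern univ p (fun A : Finset V =>
      (#A : ℝ) - (#((A ×ˢ A).filter (fun d => G.Adj d.1 d.2)) : ℝ) / 2
        + (#((A ×ˢ A).filter (fun d => G.Adj d.1 d.2 ∧ t d.1 d.2 ∈ A)) : ℝ) / 3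
        + cc G (univ \ A) - 1) =
      Fintype.card V * p - #D * p ^ 2 / 2 + #D * p ^ 3 / 3
        + bern univ (1 - p) (fun A => (cc G A : ℝ)) - 1 := by
    have h2 : (fun A : Finset V =>
      (#A : ℝ) - (#((A ×ˢ A).filter (fun d => G.Adj d.1 d.2)) : ℝ) / 2
        + (#((A ×ˢ A).filter (fun d => G.Adj d.1 d.2 ∧ t d.1 d.2 ∈ A)) : ℝ) / 3
        + cc G (univ \ A) - 1) = (fun A : Finset V =>
      ((((#A : ℝ) + (-1 / 2) * (#((A ×ˢ A).filter (fun d => G.Adj d.1 d.2)) : ℝ))
        + (1 / 3) * (#((A ×ˢ A).filter (fun d => G.Adj d.1 d.2 ∧ t d.1 d.2 ∈ A)) : ℝ))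
        + cc G (univ \ A)) + (-1)) := by
      funext A
      ring
    rw [h2, bern_add, bern_add, bern_add, bern_add, bern_smul, bern_smul, bern_const, e1, e2, e3, e4]
    ring
  rw [hexp, hDc] at key
  have h5 : 0 ≤ 6 * p ^ 2 - 4 * p ^ 3 := by
    nlinarith [mul_nonneg (sq_nonneg p) (by linarith : (0:ℝ) ≤ 1 - p), sq_nonneg p]
  unfold ff
  nlinarith [key, h5]

/-- the duality relation from the deterministic inequality -/
theorem dual_of (G : SimpleGraph V) (t : V → V → V) (ht : IsRot G t)
    (hE : Nat.card G.edgeSet + 6 = 3 * Fintype.card V)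
    (hdet : ∀ A : Finset V,
      (#A : ℝ) - (#((A ×ˢ A).filter (fun d => G.Adj d.1 d.2)) : ℝ) / 2
        + (#((A ×ˢ A).filter (fun d => G.Adj d.1 d.2 ∧ t d.1 d.2 ∈ A)) : ℝ) / 3
        + cc G (univ \ A) - 1 ≤ cc G A) {p : ℝ} (h0 : 0 ≤ p) (h1 : p ≤ 1) :
    |bern univ p (fun A => (cc G A : ℝ)) - (Fintype.card V * ff p
      + bern univ (1 - p) (fun A => (cc G A : ℝ)))| ≤ 1 := by
  have h2 := dual_half G t ht hE hdet h0 h1
  have h3 := dual_half G t ht hE hdet (p := 1 - p) (by linarith) (by linarith)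
  rw [sub_sub_cancel] at h3
  have h4 : ff (1 - p) = - ff p := by
    unfold ff
    ring
  rw [h4] at h3
  rw [abs_le]
  constructor
  · linarith
  · linarith

end

end Pool.Agent.Helper53.OS
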