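import Pool.Agent.Helper53.OS.Base

/-! Values of the walk count `hb` for `12 ≤ m ≤ 40` and the bound `3 ^ (m - 3)`.
The function `cw n · d` is packed into one natural number in base `X = 2 ^ 64`: the point `(a, b)`
with `b ≤ 0` has index `a + 40 - 81 b`. -/

set_option autoImplicit false

namespace Pool.Agent.Helper53.OS

open Finset
open scoped Classical

namespace HbVal

/-- digit `k` in base `X` -/
def dgt (X N k : ℕ) : ℕ := N / X ^ k % X

section
variable {X : ℕ}

theorem dgt_zero (N : ℕ) : dgt X N 0 = N % X := by simp [dgt]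

theorem dgt_succ (N k : ℕ) : dgt X N (k + 1) = dgt X (N / X) k := by
  unfold dgt
  rw [Nat.div_div_eq_div_mul, pow_succ, mul_comm]

theorem dgt_div (N s k : ℕ) : dgt X (N / X ^ s) k = dgt X N (s + k) := by
  unfold dgt
  rw [Nat.div_div_eq_div_mul, pow_add]

theorem dgt_mul (hX : 0 < X) (N s k : ℕ) : dgt X (N * X ^ s) (s + k) = dgt X N k := by
  unfold dgt
  rw [pow_add, ← Nat.div_div_eq_div_mul, Nat.mul_div_cancel _ (pow_pos hX s)]

theorem dgt_mul_lt (hX : 0 < X) {N s k : ℕ} (h : k < s) : dgt X (N * X ^ s) k = 0 := by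
  unfold dgt
  obtain ⟨j, rfl⟩ : ∃ j, s = k + (j + 1) := ⟨s - k - 1, by omega⟩
  rw [pow_add, mul_comm (X ^ k), ← mul_assoc, Nat.mul_div_cancel _ (pow_pos hX k), pow_succ,
    ← mul_assoc]
  exact Nat.mul_mod_left _ _

theorem dgt_add (hX : 0 < X) {M N c d : ℕ} (hM : ∀ k, dgt X M k ≤ c) (hN : ∀ k, dgt X N k ≤ d)
    (h : c + d < X) (k : ℕ) : dgt X (M + N) k = dgt X M k + dgt X N k := by
  induction k generalizing M N with
  | zero =>
    rw [dgt_zero, dgt_zero, dgt_zero]
    have h1 := hM 0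
    have h2 := hN 0
    rw [dgt_zero] at h1 h2
    rw [Nat.add_mod, Nat.mod_eq_of_lt (by omega)]
  | succ k ih =>
    rw [dgt_succ, dgt_succ, dgt_succ]
    have h1 := hM 0
    have h2 := hN 0
    rw [dgt_zero] at h1 h2
    have h3 : (M + N) / X = M / X + N / X := by
      rw [Nat.add_div hX, if_neg (by omega), add_zero]
    rw [h3]
    apply ih
    · intro j
      rw [← dgt_succ]
      exact hM _
    · intro j
      rw [← dgt_succ]
      exact hN _

end

/-- six numbers, one for each direction -/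
structure S6 where
  p0 : ℕ
  p1 : ℕ
  p2 : ℕ
  p3 : ℕ
  p4 : ℕ
  p5 : ℕ

/-- component -/
def S6.get (s : S6) (d : Fin 6) : ℕ := ![s.p0, s.p1, s.p2, s.p3, s.p4, s.p5] d

/-- shifts: direction `0` is index `+1`, `1` is `-81`, `2` is `-82`, `3` is `-1`, `4` is `+81`,
`5` is `+82` -/
def sh (X : ℕ) (d : Fin 6) (N : ℕ) : ℕ :=
  ![N / X ^ 1, N * X ^ 81, N * X ^ 82, N * X ^ 1, N / X ^ 81, N / X ^ 82] d

/-- one step -/
def step (X : ℕ) (s : S6) : S6 where
  p0 := s.p5 / X ^ 82 + s.p0 / X ^ 1 + s.p1 * X ^ 81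
  p1 := s.p0 / X ^ 1 + s.p1 * X ^ 81 + s.p2 * X ^ 82
  p2 := s.p1 * X ^ 81 + s.p2 * X ^ 82 + s.p3 * X ^ 1
  p3 := s.p2 * X ^ 82 + s.p3 * X ^ 1 + s.p4 / X ^ 81
  p4 := s.p3 * X ^ 1 + s.p4 / X ^ 81 + s.p5 / X ^ 82
  p5 := s.p4 / X ^ 81 + s.p5 / X ^ 82 + s.p0 / X ^ 1

/-- the packed functions `cw n` -/
def St (X : ℕ) (n : ℕ) : S6 := Nat.rec ⟨0, 0, X ^ 40, 0, 0, 0⟩ (fun _ s => step X s) n

section
variable {X : ℕ}

theorem St_succ (n : ℕ) : St X (n + 1) = step X (St X n) := rfl

theorem sh0 (N : ℕ) : sh X 0 N = N / X ^ 1 := rfl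
theorem sh1 (N : ℕ) : sh X 1 N = N * X ^ 81 := rfl
theorem sh2 (N : ℕ) : sh X 2 N = N * X ^ 82 := rfl
theorem sh3 (N : ℕ) : sh X 3 N = N * X ^ 1 := rfl
theorem sh4 (N : ℕ) : sh X 4 N = N / X ^ 81 := rfl
theorem sh5 (N : ℕ) : sh X 5 N = N / X ^ 82 := rfl
theorem get0 (s : S6) : s.get 0 = s.p0 := rfl
theorem get1 (s : S6) : s.get 1 = s.p1 := rfl
theorem get2 (s : S6) : s.get 2 = s.p2 := rfl
theorem get3 (s : S6) : s.get 3 = s.p3 := rfl
theorem get4 (s : S6) : s.get 4 = s.p4 := rfl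
theorem get5 (s : S6) : s.get 5 = s.p5 := rfl

theorem forall_fin6 {P : Fin 6 → Prop} (h0 : P 0) (h1 : P 1) (h2 : P 2) (h3 : P 3) (h4 : P 4)
    (h5 : P 5) (d : Fin 6) : P d := by
  fin_cases d
  · exact h0
  · exact h1
  · exact h2
  · exact h3
  · exact h4
  · exact h5

theorem step_get (s : S6) (d : Fin 6) : (step X s).get d =
    sh X (d - 1) (s.get (d - 1)) + sh X d (s.get d) + sh X (d + 1) (s.get (d + 1)) := by
  revert d
  apply forall_fin6
  · rw [show (0 : Fin 6) - 1 = 5 from rfl, show (0 : Fin 6) + 1 = 1 from rfl, get0, get5, get0, get1,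
      sh5, sh0, sh1]
    rfl
  · rw [show (1 : Fin 6) - 1 = 0 from rfl, show (1 : Fin 6) + 1 = 2 from rfl, get1, get0, get1, get2,
      sh0, sh1, sh2]
    rfl
  · rw [show (2 : Fin 6) - 1 = 1 from rfl, show (2 : Fin 6) + 1 = 3 from rfl, get2, get1, get2, get3,
      sh1, sh2, sh3]
    rfl
  · rw [show (3 : Fin 6) - 1 = 2 from rfl, show (3 : Fin 6) + 1 = 4 from rfl, get3, get2, get3, get4,
      sh2, sh3, sh4]
    rfl
  · rw [show (4 : Fin 6) - 1 = 3 from rfl, show (4 : Fin 6) + 1 = 5 from rfl, get4, get3, get4, get5,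
      sh3, sh4, sh5]
    rfl
  · rw [show (5 : Fin 6) - 1 = 4 from rfl, show (5 : Fin 6) + 1 = 0 from rfl, get5, get4, get5, get0,
      sh4, sh5, sh0]
    rfl

theorem dgt_sh_le (hX : 0 < X) {N c : ℕ} (h : ∀ k, dgt X N k ≤ c) (k : ℕ) (d : Fin 6) :
    dgt X (sh X d N) k ≤ c := by
  have h1 : ∀ s, dgt X (N / X ^ s) k ≤ c := fun s => by rw [dgt_div]; exact h _
  have h2 : ∀ s, dgt X (N * X ^ s) k ≤ c := by
    intro s
    rcases lt_or_ge k s with h3 | h3
    · rw [dgt_mul_lt hX h3]; exact Nat.zero_le _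
    · obtain ⟨j, rfl⟩ := Nat.exists_eq_add_of_le h3
      rw [dgt_mul hX]; exact h _
  revert d
  apply forall_fin6
  · rw [sh0]; exact h1 1
  · rw [sh1]; exact h2 81
  · rw [sh2]; exact h2 82
  · rw [sh3]; exact h2 1
  · rw [sh4]; exact h1 81
  · rw [sh5]; exact h1 82

theorem dgt_zero' (k : ℕ) : dgt X 0 k = 0 := by simp [dgt]

theorem dgt_one_le (hX : 0 < X) (k : ℕ) : dgt X (X ^ 40) k ≤ 1 := by
  rcases lt_or_ge k 40 with h3 | h3
  · have := dgt_mul_lt hX (N := 1) h3
    rw [one_mul] at this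
    rw [this]; exact Nat.zero_le _
  · obtain ⟨j, rfl⟩ := Nat.exists_eq_add_of_le h3
    have := dgt_mul hX 1 40 j
    rw [one_mul] at this
    rw [this]
    unfold dgt
    refine (Nat.mod_le _ _).trans ?_
    exact Nat.div_le_self _ _

theorem dgt_St_le (hX : 3 ^ 40 < X) {n : ℕ} (hn : n ≤ 40) :
    ∀ (k : ℕ) (d : Fin 6), dgt X ((St X n).get d) k ≤ 3 ^ n := by
  have hX0 : 0 < X := by omega
  induction n with
  | zero =>
    intro k
    apply forall_fin6
    · rw [get0]; exact (dgt_zero' k).trans_le (Nat.zero_le _)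
    · rw [get1]; exact (dgt_zero' k).trans_le (Nat.zero_le _)
    · rw [get2]; exact dgt_one_le hX0 k
    · rw [get3]; exact (dgt_zero' k).trans_le (Nat.zero_le _)
    · rw [get4]; exact (dgt_zero' k).trans_le (Nat.zero_le _)
    · rw [get5]; exact (dgt_zero' k).trans_le (Nat.zero_le _)
  | succ n ih =>
    intro k d
    have ih' := fun d k => ih (by omega) k d
    have hX3 : 3 ^ n + 3 ^ n + 3 ^ n < X := by
      have h4 : 3 ^ (n + 1) ≤ 3 ^ 40 := Nat.pow_le_pow_right (by norm_num) hn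
      rw [pow_succ] at h4
      omega
    rw [St_succ, step_get]
    have ha := fun k => dgt_sh_le hX0 (ih' (d - 1)) k (d - 1)
    have hb := fun k => dgt_sh_le hX0 (ih' d) k d
    have hc := fun k => dgt_sh_le hX0 (ih' (d + 1)) k (d + 1)
    have hab : ∀ k, dgt X (sh X (d - 1) ((St X n).get (d - 1)) + sh X d ((St X n).get d)) k
        ≤ 3 ^ n + 3 ^ n := by
      intro k
      rw [dgt_add hX0 ha hb (by omega)]
      exact add_le_add (ha k) (hb k)
    rw [dgt_add hX0 hab hc hX3, pow_succ]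
    have := hab k
    have := hc k
    omega

theorem dgt_St_succ (hX : 3 ^ 40 < X) {n : ℕ} (hn : n + 1 ≤ 40) (d : Fin 6) (k : ℕ) :
    dgt X ((St X (n + 1)).get d) k = dgt X (sh X (d - 1) ((St X n).get (d - 1))) k
      + dgt X (sh X d ((St X n).get d)) k + dgt X (sh X (d + 1) ((St X n).get (d + 1))) k := by
  have hX0 : 0 < X := by omega
  have ih' := fun d k => dgt_St_le hX (n := n) (by omega) k d
  have hX3 : 3 ^ n + 3 ^ n + 3 ^ n < X := by
    have h4 : 3 ^ (n + 1) ≤ 3 ^ 40 := Nat.pow_le_pow_right (by norm_num) hn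
    rw [pow_succ] at h4
    omega
  rw [St_succ, step_get]
  have ha := fun k => dgt_sh_le hX0 (ih' (d - 1)) k (d - 1)
  have hb := fun k => dgt_sh_le hX0 (ih' d) k d
  have hc := fun k => dgt_sh_le hX0 (ih' (d + 1)) k (d + 1)
  have hab : ∀ k, dgt X (sh X (d - 1) ((St X n).get (d - 1)) + sh X d ((St X n).get d)) k
      ≤ 3 ^ n + 3 ^ n := by
    intro k
    rw [dgt_add hX0 ha hb (by omega)]
    exact add_le_add (ha k) (hb k)
  rw [dgt_add hX0 hab hc hX3, dgt_add hX0 ha hb (by omega)]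

/-- index of a point -/
def ix (x : ℤ × ℤ) : ℤ := x.1 + 40 - 81 * x.2

theorem sh_ix (hX : 0 < X) {N : ℕ} {x : ℤ × ℤ} {e : Fin 6} (hx : 0 ≤ ix x)
    (hy : 0 ≤ ix (x + dir e)) :
    dgt X (sh X e N) (ix x).toNat = dgt X N (ix (x + dir e)).toNat := by
  obtain ⟨k, hk⟩ : ∃ k : ℕ, ix x = k := ⟨(ix x).toNat, (Int.toNat_of_nonneg hx).symm⟩
  obtain ⟨j, hj⟩ : ∃ j : ℕ, ix (x + dir e) = j :=
    ⟨(ix (x + dir e)).toNat, (Int.toNat_of_nonneg hy).symm⟩
  rw [hk, hj, Int.toNat_natCast, Int.toNat_natCast]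
  unfold ix at hk hj
  rw [Prod.fst_add, Prod.snd_add] at hj
  clear hx hy
  revert e
  apply forall_fin6
  · intro hj
    have h1 : j = 1 + k := by
      have h3 : (dir 0).1 = 1 := rfl
      have h4 : (dir 0).2 = 0 := rfl
      rw [h3, h4] at hj; omega
    rw [h1, sh0]; exact dgt_div N 1 k
  · intro hj
    have h1 : k = 81 + j := by
      have h3 : (dir 1).1 = 0 := rfl
      have h4 : (dir 1).2 = 1 := rfl
      rw [h3, h4] at hj; omega
    rw [h1, sh1]; exact dgt_mul hX N 81 j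
  · intro hj
    have h1 : k = 82 + j := by
      have h3 : (dir 2).1 = -1 := rfl
      have h4 : (dir 2).2 = 1 := rfl
      rw [h3, h4] at hj; omega
    rw [h1, sh2]; exact dgt_mul hX N 82 j
  · intro hj
    have h1 : k = 1 + j := by
      have h3 : (dir 3).1 = -1 := rfl
      have h4 : (dir 3).2 = 0 := rfl
      rw [h3, h4] at hj; omega
    rw [h1, sh3]; exact dgt_mul hX N 1 j
  · intro hj
    have h1 : j = 81 + k := by
      have h3 : (dir 4).1 = 0 := rfl
      have h4 : (dir 4).2 = -1 := rfl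
      rw [h3, h4] at hj; omega
    rw [h1, sh4]; exact dgt_div N 81 k
  · intro hj
    have h1 : j = 82 + k := by
      have h3 : (dir 5).1 = 1 := rfl
      have h4 : (dir 5).2 = -1 := rfl
      rw [h3, h4] at hj; omega
    rw [h1, sh5]; exact dgt_div N 82 k

theorem dir_abs (e : Fin 6) : -1 ≤ (dir e).1 := by fin_cases e <;> decide

theorem cw_le (hX : 3 ^ 40 < X) {n : ℕ} (hn : n ≤ 40) : ∀ (x : ℤ × ℤ) (d : Fin 6), x.2 ≤ 0 →
    (n : ℤ) ≤ x.1 + 40 → cw n x d ≤ dgt X ((St X n).get d) (ix x).toNat := by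
  have hX0 : 0 < X := by omega
  induction n with
  | zero =>
    intro x d hx2 hx1
    unfold cw
    split_ifs with h
    · obtain ⟨rfl, rfl⟩ := h
      rw [get2]
      have h1 : (ix (0, 0)).toNat = 40 + 0 := rfl
      have h2 : (St X 0).p2 = 1 * X ^ 40 := by rw [one_mul]; rfl
      rw [h1, h2, dgt_mul hX0]
      rw [dgt_zero, Nat.mod_eq_of_lt (by omega)]
    · exact Nat.zero_le _
  | succ n ih =>
    intro x d hx2 hx1
    push_cast at hx1
    have key : ∀ e : Fin 6, (if (x + dir e).2 ≤ 0 then cw n (x + dir e) e else 0)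
        ≤ dgt X (sh X e ((St X n).get e)) (ix x).toNat := by
      intro e
      split_ifs with h
      · have h1 : (n : ℤ) ≤ (x + dir e).1 + 40 := by
          have := dir_abs e
          rw [Prod.fst_add]; omega
        refine (ih (by omega) (x + dir e) e h h1).trans ?_
        rw [sh_ix hX0]
        · unfold ix; omega
        · unfold ix; omega
      · exact Nat.zero_le _
    rw [dgt_St_succ hX hn]
    unfold cw
    exact add_le_add (add_le_add (key _) (key _)) (key _)

theorem hb_le_dgt (hX : 3 ^ 40 < X) {m : ℕ} (h1 : 1 ≤ m) (h2 : m ≤ 40) :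
    hb m ≤ dgt X ((St X (m - 1)).p3) 39 := by
  have h3 := cw_le hX (n := m - 1) (by omega) (-1, 0) 3 le_rfl (by push_cast [h1]; omega)
  rw [get3] at h3
  have h4 : (ix (-1, 0)).toNat = 39 := rfl
  rw [h4] at h3
  exact h3

end

end HbVal

open HbVal

/-- table of the values of `hb` from 12 to 40 -/
def hbTab : List ℕ := [85,145,549,1148,3792,8958,27340,69574,203745,540634,1552919,4221990,12022327,
  33193348,94187609,262761888,745109889,2093815181,5942860369,16789117964,47732666808,135409662017,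
  385748676205,1098014559469,3134506176231,8947739943709,25595915068229,73247039400791,
  209946236129297]

theorem HbVal.tab_ok : ∀ i < 29, dgt (2 ^ 64) ((St (2 ^ 64) (i + 11)).p3) 39 ≤ hbTab.getD i 0 := by
  decide +kernel

theorem hb_val {m : ℕ} (h1 : 12 ≤ m) (h2 : m ≤ 40) : hb m ≤ hbTab.getD (m - 12) 0 := by
  refine (hb_le_dgt (X := 2 ^ 64) (by norm_num) (by omega) h2).trans ?_
  have := HbVal.tab_ok (m - 12) (by omega)
  rwa [show m - 12 + 11 = m - 1 by omega] at this

theorem HbVal.dir_inj : ∀ e f : Fin 6, dir e = dir f → e = f := by decide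

theorem HbVal.cw_one (x : ℤ × ℤ) (d : Fin 6) : cw 1 x d ≤ if x = (1, -1) then 1 else 0 := by
  have h2 : ∀ e : Fin 6, (if (x + dir e).2 ≤ 0 then cw 0 (x + dir e) e else 0) =
      if x = (1, -1) ∧ e = 2 then 1 else 0 := by
    intro e
    unfold cw
    by_cases h : x = (1, -1) ∧ e = 2
    · obtain ⟨rfl, rfl⟩ := h
      decide
    · rw [if_neg h]
      split_ifs with h3 h4
      · exfalso
        apply h
        obtain ⟨h5, rfl⟩ := h4
        refine ⟨?_, rfl⟩
        have h6 : x + dir 2 + (1, -1) = (0, 0) + (1, -1) := by rw [h5]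
        have h7 : dir 2 + (1, -1) = (0 : ℤ × ℤ) := by decide
        rw [add_assoc, h7, add_zero] at h6
        rw [h6]
        rfl
      · rfl
      · rfl
  have h1 : cw 1 x d = (if (x + dir (d - 1)).2 ≤ 0 then cw 0 (x + dir (d - 1)) (d - 1) else 0) +
    (if (x + dir d).2 ≤ 0 then cw 0 (x + dir d) d else 0) +
    (if (x + dir (d + 1)).2 ≤ 0 then cw 0 (x + dir (d + 1)) (d + 1) else 0) := rfl
  rw [h1, h2, h2, h2]
  by_cases h : x = (1, -1)
  · simp only [h, true_and, if_true]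
    clear h1
    revert d
    decide
  · simp [h]

theorem HbVal.cw_two (x : ℤ × ℤ) (d : Fin 6) : cw 2 x d ≤ 1 := by
  have h01 : d - 1 ≠ d := by revert d; decide
  have h02 : d ≠ d + 1 := by revert d; decide
  have h03 : d - 1 ≠ d + 1 := by revert d; decide
  have h2 : ∀ e : Fin 6, (if (x + dir e).2 ≤ 0 then cw 1 (x + dir e) e else 0) ≤
      if x + dir e = (1, -1) then 1 else 0 := by
    intro e
    split_ifs with h3 h4 h4
    · have := HbVal.cw_one (x + dir e) e
      rwa [if_pos h4] at this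
    · have := HbVal.cw_one (x + dir e) e
      rwa [if_neg h4] at this
    · exact Nat.zero_le _
    · exact le_rfl
  have h1 : cw 2 x d = (if (x + dir (d - 1)).2 ≤ 0 then cw 1 (x + dir (d - 1)) (d - 1) else 0) +
    (if (x + dir d).2 ≤ 0 then cw 1 (x + dir d) d else 0) +
    (if (x + dir (d + 1)).2 ≤ 0 then cw 1 (x + dir (d + 1)) (d + 1) else 0) := rfl
  rw [h1]
  refine (add_le_add (add_le_add (h2 _) (h2 _)) (h2 _)).trans ?_
  have hd : ∀ e f : Fin 6, x + dir e = (1, -1) → x + dir f = (1, -1) → e = f := by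
    intro e f he hf
    apply HbVal.dir_inj
    exact add_left_cancel (he.trans hf.symm)
  split_ifs with ha hb hc hc hb hc hc
  · exact absurd (hd _ _ ha hb) h01
  · exact absurd (hd _ _ ha hb) h01
  · exact absurd (hd _ _ ha hc) h03
  · norm_num
  · exact absurd (hd _ _ hb hc) h02
  · norm_num
  · norm_num
  · norm_num

theorem HbVal.cw_three (n : ℕ) : ∀ (x : ℤ × ℤ) (d : Fin 6), cw (n + 2) x d ≤ 3 ^ n := by
  induction n with
  | zero => exact fun x d => HbVal.cw_two x d
  | succ n ih =>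
    intro x d
    have key : ∀ e : Fin 6, (if (x + dir e).2 ≤ 0 then cw (n + 2) (x + dir e) e else 0) ≤ 3 ^ n := by
      intro e
      split_ifs
      · exact ih _ _
      · exact Nat.zero_le _
    have h1 : cw (n + 1 + 2) x d =
      (if (x + dir (d - 1)).2 ≤ 0 then cw (n + 2) (x + dir (d - 1)) (d - 1) else 0) +
      (if (x + dir d).2 ≤ 0 then cw (n + 2) (x + dir d) d else 0) +
      (if (x + dir (d + 1)).2 ≤ 0 then cw (n + 2) (x + dir (d + 1)) (d + 1) else 0) := rfl
    rw [h1, pow_succ]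
    have := key (d - 1)
    have := key d
    have := key (d + 1)
    omega

/-- first and last directions are fixed, and the last but one is determined by the position -/
theorem hb_le {m : ℕ} (h : 3 ≤ m) : hb m ≤ 3 ^ (m - 3) := by
  unfold hb
  rw [show m - 1 = (m - 3) + 2 by omega]
  exact HbVal.cw_three _ _ _

end Pool.Agent.Helper53.OS
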