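import Pool.Agent.Helper53.OS.Kap

/-! Piece LOC of MP_195d30_co: local charts. -/

set_option autoImplicit false

namespace Pool.Agent.Helper53.OS

open Finset
open scoped Classical

theorem loc_mem_ball {r : ℕ} {x : ℤ × ℤ} : x ∈ ball r ↔ hn x ≤ r := by
  unfold ball
  rw [mem_filter, mem_product, mem_Icc, mem_Icc]
  refine ⟨fun h => h.2, fun h => ⟨?_, h⟩⟩
  unfold hn at h
  omega

section
variable {V : Type*} [DecidableEq V] {G : SimpleGraph V} {K : ℕ} {ι : ℤ × ℤ → V}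

/-- the image of a connected set is connected -/
theorem loc_Cn_image (hι : ∀ x ∈ ball K, ∀ u, G.Adj (ι x) u ↔ ∃ y, T.Adj x y ∧ ι y = u)
    {C : Finset (ℤ × ℤ)} (hC : Cn T C) (hCK : C ⊆ ball K) : Cn G (C.image ι) := by
  refine ⟨hC.1.image ι, ?_⟩
  intro u hu w hw
  obtain ⟨x, hx, rfl⟩ := mem_image.1 hu
  obtain ⟨y, hy, rfl⟩ := mem_image.1 hw
  refine (hC.2 x hx y hy).closed (P := fun y => Con G (C.image ι) (ι x) (ι y))
    (Con.refl (mem_image_of_mem ι hx)) ?_
  intro a b ha haC hbC hab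
  exact ha.trans (Con.of_adj (mem_image_of_mem ι haC) (mem_image_of_mem ι hbC)
    ((hι a (hCK haC) (ι b)).2 ⟨b, hab, rfl⟩))

theorem loc_ball_of_adj {x y : ℤ × ℤ} {r : ℕ} (h : T.Adj x y) (hx : hn x ≤ r) : hn y ≤ r + 1 := by
  obtain ⟨i, rfl⟩ := adj_iff.1 h
  exact (hn_add_dir x i).trans (by omega)

/-- when the cluster of `v` is the image of the lattice animal `C` -/
theorem loc_clus_iff {v : V} (h0 : ι (0, 0) = v) (hinj : Set.InjOn ι (ball (K + 1)))
    (hι : ∀ x ∈ ball K, ∀ u, G.Adj (ι x) u ↔ ∃ y, T.Adj x y ∧ ι y = u)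
    {C : Finset (ℤ × ℤ)} (h0C : (0, 0) ∈ C) (hC : Cn T C) (hCK : #C ≤ K) (A : Finset V) :
    clus G A v = C.image ι ↔ C.image ι ⊆ A ∧ Disjoint ((bd C).image ι) A := by
  have hCb : C ⊆ ball K := fun x hx => loc_mem_ball.2 (by have := hn_lt_card h0C hC hx; omega)
  have hv : v ∈ C.image ι := by rw [← h0]; exact mem_image_of_mem ι h0C
  rw [clus_eq_iff (loc_Cn_image hι hC hCb) hv]
  refine and_congr_right fun _ => ?_
  rw [disjoint_left]
  constructor
  · intro h u hu huA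
    obtain ⟨y, hy, rfl⟩ := mem_image.1 hu
    obtain ⟨h1, x, hx, hxy⟩ := mem_bd.1 hy
    have h2 := h (ι x) (mem_image_of_mem ι hx) (ι y) ((hι x (hCb hx) (ι y)).2 ⟨y, hxy, rfl⟩) huA
    obtain ⟨z, hz, hzy⟩ := mem_image.1 h2
    have hxK := loc_mem_ball.1 (hCb hx)
    have : z = y := hinj (by
      have := loc_mem_ball.1 (hCb hz)
      exact mem_coe.2 (loc_mem_ball.2 (by omega))) (mem_coe.2 (loc_mem_ball.2 (loc_ball_of_adj hxy hxK))) hzy
    exact h1 (this ▸ hz)
  · intro h u hu w huw hwA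
    obtain ⟨x, hx, rfl⟩ := mem_image.1 hu
    obtain ⟨y, hxy, rfl⟩ := (hι x (hCb hx) w).1 huw
    by_contra hyC
    have hy : y ∉ C := fun hy => hyC (mem_image_of_mem ι hy)
    exact h (mem_image_of_mem ι (mem_bd.2 ⟨hy, x, hx, hxy⟩)) hwA

theorem loc_bern_clus [Fintype V] {v : V} (h0 : ι (0, 0) = v) (hinj : Set.InjOn ι (ball (K + 1)))
    (hι : ∀ x ∈ ball K, ∀ u, G.Adj (ι x) u ↔ ∃ y, T.Adj x y ∧ ι y = u)
    {C : Finset (ℤ × ℤ)} (h0C : (0, 0) ∈ C) (hC : Cn T C) (hCK : #C ≤ K) (q : ℝ) :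
    bern univ q (fun A => ind (clus G A v = C.image ι)) = wt q C := by
  have hCb : ∀ x ∈ C, hn x ≤ K := fun x hx => by have := hn_lt_card h0C hC hx; omega
  have hsub : ((C ∪ bd C : Finset (ℤ × ℤ)) : Set (ℤ × ℤ)) ⊆ ball (K + 1) := by
    intro x hx
    rcases mem_union.1 (mem_coe.1 hx) with h | h
    · exact mem_coe.2 (loc_mem_ball.2 ((hCb x h).trans (Nat.le_succ K)))
    · obtain ⟨_, y, hy, hyx⟩ := mem_bd.1 h
      exact mem_coe.2 (loc_mem_ball.2 (loc_ball_of_adj hyx (hCb y hy)))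
  have hi := hinj.mono hsub
  have c1 : #(C.image ι) = #C := card_image_of_injOn (hi.mono (by
    intro x hx; exact mem_coe.2 (mem_union_left _ (mem_coe.1 hx))))
  have c2 : #((bd C).image ι) = #(bd C) := card_image_of_injOn (hi.mono (by
    intro x hx; exact mem_coe.2 (mem_union_right _ (mem_coe.1 hx))))
  have hd : Disjoint (C.image ι) ((bd C).image ι) := by
    rw [disjoint_left]
    intro u hu hu'
    obtain ⟨x, hx, rfl⟩ := mem_image.1 hu
    obtain ⟨y, hy, hxy⟩ := mem_image.1 hu'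
    have : y = x := hi (mem_coe.2 (mem_union_right _ hy)) (mem_coe.2 (mem_union_left _ hx)) hxy
    rw [this] at hy
    exact disjoint_left.1 (disjoint_bd C) hx hy
  have e := bern_event (subset_univ (C.image ι)) (subset_univ ((bd C).image ι)) hd q
  rw [c1, c2] at e
  unfold wt
  rw [← e]
  exact bern_congr fun A _ => ind_congr (loc_clus_iff h0 hinj hι h0C hC hCK A)

/-- a small cluster is the image of a lattice animal -/
theorem loc_exists {v : V} (h0 : ι (0, 0) = v) (hinj : Set.InjOn ι (ball (K + 1)))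
    (hι : ∀ x ∈ ball K, ∀ u, G.Adj (ι x) u ↔ ∃ y, T.Adj x y ∧ ι y = u) {A : Finset V} (hv : v ∈ A)
    (hK : #(clus G A v) ≤ K) : ∃ C ∈ An K, clus G A v = C.image ι := by
  have hK1 : 1 ≤ K := (card_pos.2 ⟨v, self_mem_clus hv⟩).trans_le hK
  obtain ⟨A', hA'⟩ : ∃ A', A' = (ball K).filter (fun x => ι x ∈ A) := ⟨_, rfl⟩
  have h0A : ((0, 0) : ℤ × ℤ) ∈ A' := by
    rw [hA', mem_filter, loc_mem_ball, h0]
    exact ⟨by simp [hn], hv⟩
  have hA'b : A' ⊆ ball K := by rw [hA']; exact filter_subset _ _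
  obtain ⟨C, hCdef⟩ : ∃ C, C = clus T A' (0, 0) := ⟨_, rfl⟩
  have h0C : ((0, 0) : ℤ × ℤ) ∈ C := by rw [hCdef]; exact self_mem_clus h0A
  have hC : Cn T C := by rw [hCdef]; exact Cn_clus h0A
  have hCA' : C ⊆ A' := by rw [hCdef]; exact clus_subset
  have hCb : C ⊆ ball K := hCA'.trans hA'b
  have hCn := loc_Cn_image hι hC hCb
  have hvC : v ∈ C.image ι := by rw [← h0]; exact mem_image_of_mem ι h0C
  have hCA : C.image ι ⊆ A := by
    intro u hu
    obtain ⟨x, hx, rfl⟩ := mem_image.1 hu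
    have := hCA' hx
    rw [hA'] at this
    exact (mem_filter.1 this).2
  have hsub : C.image ι ⊆ clus G A v := by
    intro u hu
    exact mem_clus.2 ((hCn.2 v hvC u hu).mono hCA)
  have hcard : #(C.image ι) = #C := card_image_of_injOn (hinj.mono (by
    intro x hx
    have := loc_mem_ball.1 (hCb (mem_coe.1 hx))
    exact mem_coe.2 (loc_mem_ball.2 (by omega))))
  have hCK : #C ≤ K := by rw [← hcard]; exact (card_le_card hsub).trans hK
  refine ⟨C, mem_An.2 ⟨h0C, hC, hCK⟩, ?_⟩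
  rw [clus_eq_iff hCn hvC]
  refine ⟨hCA, ?_⟩
  intro u hu w huw hwA
  obtain ⟨x, hx, rfl⟩ := mem_image.1 hu
  obtain ⟨y, hxy, rfl⟩ := (hι x (hCb hx) w).1 huw
  refine mem_image_of_mem ι ?_
  have hxn := hn_lt_card h0C hC hx
  have hyn : hn y ≤ K := by
    have := loc_ball_of_adj hxy (r := hn x) le_rfl
    omega
  have hyA' : y ∈ A' := by
    rw [hA', mem_filter]
    exact ⟨loc_mem_ball.2 hyn, hwA⟩
  rw [hCdef] at hx ⊢
  exact clus_adj hx hyA' hxy

end

theorem loc {V : Type*} [Fintype V] [DecidableEq V] (G : SimpleGraph V) (K : ℕ) (v : V)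
    (ι : ℤ × ℤ → V) (h0 : ι (0, 0) = v) (hinj : Set.InjOn ι (ball (K + 1)))
    (hι : ∀ x ∈ ball K, ∀ u, G.Adj (ι x) u ↔ ∃ y, T.Adj x y ∧ ι y = u) (q : ℝ) :
    bern univ q (fun A => ind (v ∈ A ∧ #(clus G A v) ≤ K) * (1 / (#(clus G A v) : ℝ))) =
      kapK K q := by
  have himg : ∀ C ∈ An K, ∀ C' ∈ An K, C.image ι = C'.image ι → C = C' := by
    have main : ∀ C ∈ An K, ∀ C' ∈ An K, C.image ι = C'.image ι → C ⊆ C' := by
      intro C hC C' hC' he x hx
      have hC1 := mem_An.1 hC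
      have hC1' := mem_An.1 hC'
      have h1 : ι x ∈ C'.image ι := by rw [← he]; exact mem_image_of_mem ι hx
      obtain ⟨y, hy, hyx⟩ := mem_image.1 h1
      have h2 := hn_lt_card hC1.1 hC1.2.1 hx
      have h3 := hn_lt_card hC1'.1 hC1'.2.1 hy
      have : y = x := hinj (mem_coe.2 (loc_mem_ball.2 (by omega))) (mem_coe.2 (loc_mem_ball.2 (by omega))) hyx
      rwa [← this]
    intro C hC C' hC' he
    exact Subset.antisymm (main C hC C' hC' he) (main C' hC' C hC he.symm)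
  have hcard : ∀ C ∈ An K, #(C.image ι) = #C := by
    intro C hC
    have hC1 := mem_An.1 hC
    refine card_image_of_injOn (hinj.mono ?_)
    intro x hx
    have h2 := hn_lt_card hC1.1 hC1.2.1 (mem_coe.1 hx)
    exact mem_coe.2 (loc_mem_ball.2 (by omega))
  have h1 : kapK K q = bern univ q (fun A => ∑ C ∈ An K,
      (1 / (#C : ℝ)) * ind (clus G A v = C.image ι)) := by
    rw [bern_sum]
    unfold kapK
    refine sum_congr rfl fun C hC => ?_
    have hC1 := mem_An.1 hC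
    rw [bern_smul, loc_bern_clus h0 hinj hι hC1.1 hC1.2.1 hC1.2.2]
    ring
  rw [h1]
  refine bern_congr fun A _ => ?_
  by_cases hA : v ∈ A ∧ #(clus G A v) ≤ K
  · obtain ⟨C, hC, hCe⟩ := loc_exists h0 hinj hι hA.1 hA.2
    rw [ind_true hA, one_mul, sum_eq_single C, ind_true hCe, mul_one, hCe, hcard C hC]
    · intro C' hC' hne
      rw [ind_false, mul_zero]
      intro h
      exact hne (himg C' hC' C hC (h.symm.trans hCe))
    · intro h
      exact absurd hC h
  · rw [ind_false hA, zero_mul, sum_eq_zero]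
    intro C hC
    rw [ind_false, mul_zero]
    intro h
    apply hA
    have hC1 := mem_An.1 hC
    have hv : v ∈ clus G A v := by
      rw [h, ← h0]
      exact mem_image_of_mem ι hC1.1
    refine ⟨clus_subset hv, ?_⟩
    rw [h, hcard C hC]
    exact hC1.2.2

end Pool.Agent.Helper53.OS
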