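import Pool.Agent.Helper53.OS.Base

/-! MP_195d30_co, piece TUBE: the extremal triangulations (a tube of the triangular lattice with
two caps). -/

set_option autoImplicit false

namespace Pool.Agent.Helper53.OS

open Finset
open scoped Classical

/-- vertices of the tube: `M` columns, `M + 1` rows, two caps -/
abbrev TV (M : ℕ) : Type := (ZMod M × Fin (M + 1)) ⊕ Bool

/-- the projection of the triangular lattice onto the tube with its caps -/
def vt (M : ℕ) (z : ℤ × ℤ) : TV M :=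
  if h : 0 ≤ z.2 ∧ z.2 ≤ M then Sum.inl ((z.1 : ZMod M), ⟨z.2.toNat, by omega⟩)
  else Sum.inr (decide (0 < z.2))

theorem vt_in {M : ℕ} {z : ℤ × ℤ} (h : 0 ≤ z.2 ∧ z.2 ≤ M) :
    vt M z = Sum.inl ((z.1 : ZMod M), ⟨z.2.toNat, by omega⟩) := dif_pos h

theorem vt_up {M : ℕ} {z : ℤ × ℤ} (h : (M : ℤ) < z.2) : vt M z = Sum.inr true := by
  have h1 : ¬ (0 ≤ z.2 ∧ z.2 ≤ M) := by omega
  have h2 : 0 < z.2 := by omega
  simp [vt, h1, h2]

theorem vt_dn {M : ℕ} {z : ℤ × ℤ} (h : z.2 < 0) : vt M z = Sum.inr false := by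
  have h1 : ¬ (0 ≤ z.2 ∧ z.2 ≤ M) := by omega
  have h2 : ¬ 0 < z.2 := by omega
  simp [vt, h1, h2]

theorem vt_congr {M : ℕ} {z w : ℤ × ℤ} (h1 : (z.1 : ZMod M) = (w.1 : ZMod M)) (h2 : z.2 = w.2) :
    vt M z = vt M w := by
  unfold vt
  by_cases h : 0 ≤ w.2 ∧ w.2 ≤ M
  · have h' : 0 ≤ z.2 ∧ z.2 ≤ M := by rw [h2]; exact h
    rw [dif_pos h, dif_pos h']
    simp [h1, h2]
  · have h' : ¬ (0 ≤ z.2 ∧ z.2 ≤ M) := by rw [h2]; exact h
    rw [dif_neg h, dif_neg h', h2]

theorem vt_eq {M : ℕ} {z w : ℤ × ℤ} (h : 0 ≤ z.2 ∧ z.2 ≤ M) :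
    vt M z = vt M w ↔ (z.1 : ZMod M) = (w.1 : ZMod M) ∧ z.2 = w.2 := by
  constructor
  · intro he
    rw [vt_in h] at he
    by_cases h' : 0 ≤ w.2 ∧ w.2 ≤ M
    · rw [vt_in h'] at he
      have := Sum.inl_injective he
      simp only [Prod.mk.injEq, Fin.mk.injEq] at this
      refine ⟨this.1, ?_⟩
      omega
    · unfold vt at he
      rw [dif_neg h'] at he
      exact absurd he (by simp)
  · rintro ⟨h1, h2⟩
    exact vt_congr h1 h2

theorem vt_surj {M : ℕ} [NeZero M] (i : ZMod M) (j : Fin (M + 1)) :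
    vt M ((i.val : ℤ), (j : ℤ)) = Sum.inl (i, j) := by
  have h : 0 ≤ ((i.val : ℤ), ((j : ℕ) : ℤ)).2 ∧ ((i.val : ℤ), ((j : ℕ) : ℤ)).2 ≤ M := by
    have := j.isLt
    constructor
    · simp
    · simp only; omega
  rw [vt_in h]
  simp

/-- the tube with its caps -/
def TG (M : ℕ) : SimpleGraph (TV M) where
  Adj a b := a ≠ b ∧ ∃ x y, T.Adj x y ∧ vt M x = a ∧ vt M y = b
  symm := ⟨by
    rintro a b ⟨h, x, y, hxy, hx, hy⟩
    exact ⟨h.symm, y, x, hxy.symm, hy, hx⟩⟩
  loopless := ⟨fun a h => h.1 rfl⟩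

theorem dir0 : dir 0 = (1, 0) := rfl
theorem dir1 : dir 1 = (0, 1) := rfl
theorem dir2 : dir 2 = (-1, 1) := rfl
theorem dir3 : dir 3 = (-1, 0) := rfl
theorem dir4 : dir 4 = (0, -1) := rfl
theorem dir5 : dir 5 = (1, -1) := rfl

theorem one_ne {M : ℕ} (hM : 3 ≤ M) : (1 : ZMod M) ≠ 0 := by
  intro h
  have : ((1 : ℕ) : ZMod M) = 0 := by exact_mod_cast h
  rw [ZMod.natCast_eq_zero_iff] at this
  have := Nat.le_of_dvd (by norm_num) this
  omega

theorem two_ne {M : ℕ} (hM : 3 ≤ M) : (2 : ZMod M) ≠ 0 := by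
  intro h
  have : ((2 : ℕ) : ZMod M) = 0 := by exact_mod_cast h
  rw [ZMod.natCast_eq_zero_iff] at this
  have := Nat.le_of_dvd (by norm_num) this
  omega

theorem ne_dir {M : ℕ} (hM : 3 ≤ M) {z : ℤ × ℤ} (h : 0 ≤ z.2 ∧ z.2 ≤ M) (k : Fin 6) :
    vt M z ≠ vt M (z + dir k) := by
  rw [Ne, vt_eq h]
  rintro ⟨h1, h2⟩
  have o1 := one_ne hM
  fin_cases k <;> simp [dir] at h1 h2
  · exact o1 h1
  · exact o1 h1

theorem tg_adj {M : ℕ} (hM : 3 ≤ M) {z : ℤ × ℤ} (h : 0 ≤ z.2 ∧ z.2 ≤ M) (u : TV M) :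
    (TG M).Adj (vt M z) u ↔ ∃ k, vt M (z + dir k) = u := by
  constructor
  · rintro ⟨hne, x, y, ⟨k, hk⟩, hx, hy⟩
    refine ⟨k, ?_⟩
    rw [← hy, hk]
    have := (vt_eq h).1 hx.symm
    apply vt_congr
    · simp [this.1]
    · simp [this.2]
  · rintro ⟨k, rfl⟩
    exact ⟨ne_dir hM h k, z, z + dir k, ⟨k, rfl⟩, rfl, rfl⟩

/-- the neighbour tests -/
def trz (M : ℕ) (z : ℤ × ℤ) (w : TV M) : TV M :=
  if w = vt M (z + dir 5) then vt M (z + dir 0) else
  if w = vt M (z + dir 4) then vt M (z + dir 5) else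
  if w = vt M (z + dir 3) then vt M (z + dir 4) else
  if w = vt M (z + dir 2) then vt M (z + dir 3) else
  if w = vt M (z + dir 1) then vt M (z + dir 2) else vt M (z + dir 1)

/-- the rotation system -/
def tr (M : ℕ) : TV M → TV M → TV M
  | Sum.inl (i, j), w => trz M ((i.val : ℤ), (j : ℤ)) w
  | Sum.inr true, Sum.inl (i, _) => Sum.inl (i + 1, Fin.last M)
  | Sum.inr false, Sum.inl (i, _) => Sum.inl (i - 1, 0)
  | Sum.inr _, Sum.inr b => Sum.inr b

theorem trz_congr {M : ℕ} {z w : ℤ × ℤ} (h1 : (z.1 : ZMod M) = (w.1 : ZMod M)) (h2 : z.2 = w.2)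
    (u : TV M) : trz M z u = trz M w u := by
  have : ∀ k, vt M (z + dir k) = vt M (w + dir k) := by
    intro k
    apply vt_congr
    · simp [h1]
    · simp [h2]
  simp only [trz, this]

theorem tr_vt {M : ℕ} [NeZero M] {z : ℤ × ℤ} (h : 0 ≤ z.2 ∧ z.2 ≤ M) (u : TV M) :
    tr M (vt M z) u = trz M z u := by
  rw [vt_in h]
  unfold tr
  apply trz_congr
  · simp
  · simp only
    omega

theorem tr_up {M : ℕ} {z y : ℤ × ℤ} (h : (M : ℤ) < z.2) (hy : y.2 = M) :
    tr M (vt M z) (vt M y) = vt M (y + dir 0) := by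
  rw [vt_up h, vt_in (by constructor <;> omega)]
  rw [vt_in (by rw [dir0]; constructor <;> simp only [Prod.snd_add] <;> omega)]
  simp only [tr]
  congr 1
  ext
  · simp [dir0]
  · simp [dir0, hy]

theorem tr_dn {M : ℕ} {z y : ℤ × ℤ} (h : z.2 < 0) (hy : y.2 = 0) :
    tr M (vt M z) (vt M y) = vt M (y + dir 3) := by
  rw [vt_dn h, vt_in (by constructor <;> omega)]
  rw [vt_in (by rw [dir3]; constructor <;> simp only [Prod.snd_add] <;> omega)]
  simp only [tr]
  congr 1
  ext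
  · simp [dir3, sub_eq_add_neg]
  · simp [dir3, hy]

theorem vt_row {M : ℕ} {a b : ℤ × ℤ} (ha : -1 ≤ a.2 ∧ a.2 ≤ M + 1) (hb : -1 ≤ b.2 ∧ b.2 ≤ M + 1)
    (h : vt M a = vt M b) : a.2 = b.2 := by
  by_cases h1 : 0 ≤ a.2 ∧ a.2 ≤ M
  · exact ((vt_eq h1).1 h).2
  by_cases h2 : 0 ≤ b.2 ∧ b.2 ≤ M
  · exact ((vt_eq h2).1 h.symm).2.symm
  rcases lt_or_ge a.2 0 with h3 | h3 <;> rcases lt_or_ge b.2 0 with h4 | h4
  · omega
  · rw [vt_dn h3, vt_up (by omega)] at h
    simp at h
  · rw [vt_up (by omega), vt_dn h4] at h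
    simp at h
  · omega

theorem dne {M : ℕ} (hM : 3 ≤ M) {z : ℤ × ℤ} (h : 0 ≤ z.2 ∧ z.2 ≤ M) {k k' : Fin 6} (hk : k ≠ k')
    (h1 : z.2 < M ∨ ¬ ((k = 1 ∨ k = 2) ∧ (k' = 1 ∨ k' = 2)))
    (h2 : 0 < z.2 ∨ ¬ ((k = 4 ∨ k = 5) ∧ (k' = 4 ∨ k' = 5))) :
    vt M (z + dir k) ≠ vt M (z + dir k') := by
  have o1 := one_ne hM
  have o2 := two_ne hM
  have o1' : (1 : ZMod M) ≠ -1 := by
    intro h
    apply o2
    have := sub_eq_zero.2 h
    rwa [sub_neg_eq_add, one_add_one_eq_two] at this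
  intro he
  have hr : ∀ k, -1 ≤ (z + dir k).2 ∧ (z + dir k).2 ≤ M + 1 := by
    intro k
    fin_cases k <;> simp [dir] <;> omega
  have hrow := vt_row (hr k) (hr k') he
  have hin : 0 ≤ (z + dir k).2 ∧ (z + dir k).2 ≤ M := by
    fin_cases k <;> fin_cases k' <;> simp [dir] at hk hrow h1 h2 ⊢ <;> omega
  have hc := ((vt_eq hin).1 he).1
  fin_cases k <;> fin_cases k' <;> simp [dir] at hk hrow hc
  all_goals first
    | exact o1 hc
    | exact o1 hc.symm
    | exact o1' hc
    | exact o1' hc.symm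

theorem t5 {M : ℕ} (z : ℤ × ℤ) : trz M z (vt M (z + dir 5)) = vt M (z + dir 0) := by
  simp [trz]

theorem t4 {M : ℕ} (hM : 3 ≤ M) {z : ℤ × ℤ} (h : 0 ≤ z.2 ∧ z.2 ≤ M) (h0 : 0 < z.2) :
    trz M z (vt M (z + dir 4)) = vt M (z + dir 5) := by
  unfold trz
  rw [if_neg (dne hM h (by decide) (Or.inr (by decide)) (Or.inl h0)), if_pos rfl]

theorem t3 {M : ℕ} (hM : 3 ≤ M) {z : ℤ × ℤ} (h : 0 ≤ z.2 ∧ z.2 ≤ M) :
    trz M z (vt M (z + dir 3)) = vt M (z + dir 4) := by
  unfold trz
  rw [if_neg (dne hM h (by decide) (Or.inr (by decide)) (Or.inr (by decide))),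
    if_neg (dne hM h (by decide) (Or.inr (by decide)) (Or.inr (by decide))), if_pos rfl]

theorem t2 {M : ℕ} (hM : 3 ≤ M) {z : ℤ × ℤ} (h : 0 ≤ z.2 ∧ z.2 ≤ M) :
    trz M z (vt M (z + dir 2)) = vt M (z + dir 3) := by
  unfold trz
  rw [if_neg (dne hM h (by decide) (Or.inr (by decide)) (Or.inr (by decide))),
    if_neg (dne hM h (by decide) (Or.inr (by decide)) (Or.inr (by decide))),
    if_neg (dne hM h (by decide) (Or.inr (by decide)) (Or.inr (by decide))), if_pos rfl]

theorem t1 {M : ℕ} (hM : 3 ≤ M) {z : ℤ × ℤ} (h : 0 ≤ z.2 ∧ z.2 ≤ M) (h0 : z.2 < M) :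
    trz M z (vt M (z + dir 1)) = vt M (z + dir 2) := by
  unfold trz
  rw [if_neg (dne hM h (by decide) (Or.inl h0) (Or.inr (by decide))),
    if_neg (dne hM h (by decide) (Or.inl h0) (Or.inr (by decide))),
    if_neg (dne hM h (by decide) (Or.inl h0) (Or.inr (by decide))),
    if_neg (dne hM h (by decide) (Or.inl h0) (Or.inr (by decide))), if_pos rfl]

theorem t0 {M : ℕ} (hM : 3 ≤ M) {z : ℤ × ℤ} (h : 0 ≤ z.2 ∧ z.2 ≤ M) :
    trz M z (vt M (z + dir 0)) = vt M (z + dir 1) := by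
  unfold trz
  rw [if_neg (dne hM h (by decide) (Or.inr (by decide)) (Or.inr (by decide))),
    if_neg (dne hM h (by decide) (Or.inr (by decide)) (Or.inr (by decide))),
    if_neg (dne hM h (by decide) (Or.inr (by decide)) (Or.inr (by decide))),
    if_neg (dne hM h (by decide) (Or.inr (by decide)) (Or.inr (by decide))),
    if_neg (dne hM h (by decide) (Or.inr (by decide)) (Or.inr (by decide)))]

/-! ### faces -/

theorem dsum {z a b c : ℤ × ℤ} (h : a + b = c) : z + a + b = z + c := by rw [add_assoc, h]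

theorem vrep {M : ℕ} [NeZero M] (v : TV M) :
    (∃ z : ℤ × ℤ, (0 ≤ z.2 ∧ z.2 ≤ M) ∧ v = vt M z) ∨
      (v = Sum.inr true) ∨ (v = Sum.inr false) := by
  rcases v with ⟨i, j⟩ | b
  · left
    refine ⟨((i.val : ℤ), (j : ℤ)), ?_, (vt_surj i j).symm⟩
    have := j.isLt
    constructor
    · simp
    · simp only; omega
  · cases b
    · right; right; rfl
    · right; left; rfl

theorem adj_up {M : ℕ} (hM : 3 ≤ M) {u : TV M} :
    (TG M).Adj (Sum.inr true) u ↔ ∃ z : ℤ × ℤ, z.2 = M ∧ u = vt M z := by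
  have hu : vt M (0, (M : ℤ) + 1) = Sum.inr true := vt_up (by simp)
  constructor
  · rintro ⟨hne, x, y, ⟨k, hk⟩, hx, hy⟩
    have hx2 : (M : ℤ) < x.2 := by
      by_contra hcon
      rcases lt_or_ge x.2 0 with h | h
      · rw [vt_dn h] at hx
        simp at hx
      · rw [vt_in ⟨h, by omega⟩] at hx
        simp at hx
    have hy2 : ¬ (M : ℤ) < y.2 := by
      intro hcon
      rw [vt_up hcon] at hy
      exact hne hy
    refine ⟨y, ?_, hy.symm⟩
    have hy3 : y.2 = x.2 + (dir k).2 := by rw [hk]; simp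
    have : -1 ≤ (dir k).2 := by fin_cases k <;> simp [dir]
    omega
  · rintro ⟨z, hz, rfl⟩
    have hz1 : 0 ≤ z.2 ∧ z.2 ≤ M := by constructor <;> omega
    apply SimpleGraph.Adj.symm
    rw [tg_adj hM hz1]
    refine ⟨1, ?_⟩
    rw [vt_up]
    simp [dir, hz]

theorem adj_dn {M : ℕ} (hM : 3 ≤ M) {u : TV M} :
    (TG M).Adj (Sum.inr false) u ↔ ∃ z : ℤ × ℤ, z.2 = 0 ∧ u = vt M z := by
  constructor
  · rintro ⟨hne, x, y, ⟨k, hk⟩, hx, hy⟩
    have hx2 : x.2 < 0 := by
      by_contra hcon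
      rcases lt_or_ge (M : ℤ) x.2 with h | h
      · rw [vt_up h] at hx
        simp at hx
      · rw [vt_in ⟨by omega, h⟩] at hx
        simp at hx
    have hy2 : ¬ y.2 < 0 := by
      intro hcon
      rw [vt_dn hcon] at hy
      exact hne hy
    refine ⟨y, ?_, hy.symm⟩
    have hy3 : y.2 = x.2 + (dir k).2 := by rw [hk]; simp
    have : (dir k).2 ≤ 1 := by fin_cases k <;> simp [dir]
    omega
  · rintro ⟨z, hz, rfl⟩
    have hz1 : 0 ≤ z.2 ∧ z.2 ≤ M := by constructor <;> omega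
    apply SimpleGraph.Adj.symm
    rw [tg_adj hM hz1]
    refine ⟨4, ?_⟩
    rw [vt_dn]
    simp [dir, hz]

theorem tr_up' {M : ℕ} {y : ℤ × ℤ} (hy : y.2 = M) :
    tr M (Sum.inr true) (vt M y) = vt M (y + dir 0) := by
  have := tr_up (M := M) (z := (0, (M : ℤ) + 1)) (y := y) (by simp) hy
  rwa [vt_up (z := (0, (M : ℤ) + 1)) (by simp)] at this

theorem tr_dn' {M : ℕ} {y : ℤ × ℤ} (hy : y.2 = 0) :
    tr M (Sum.inr false) (vt M y) = vt M (y + dir 3) := by
  have := tr_dn (M := M) (z := (0, -1)) (y := y) (by simp) hy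
  rwa [vt_dn (z := (0, -1)) (by simp)] at this

theorem adj_up_of {M : ℕ} (hM : 3 ≤ M) {z : ℤ × ℤ} (hz : z.2 = M) :
    (TG M).Adj (Sum.inr true) (vt M z) := (adj_up hM).2 ⟨z, hz, rfl⟩

theorem adj_dn_of {M : ℕ} (hM : 3 ≤ M) {z : ℤ × ℤ} (hz : z.2 = 0) :
    (TG M).Adj (Sum.inr false) (vt M z) := (adj_dn hM).2 ⟨z, hz, rfl⟩

theorem adj_of {M : ℕ} (hM : 3 ≤ M) {z : ℤ × ℤ} (h : 0 ≤ z.2 ∧ z.2 ≤ M) (k : Fin 6) :
    (TG M).Adj (vt M z) (vt M (z + dir k)) := (tg_adj hM h _).2 ⟨k, rfl⟩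

/-- the face statement for the triangle at `z` in direction `k`, `k'` -/
theorem face_gen {M : ℕ} [NeZero M] (hM : 3 ≤ M) {z : ℤ × ℤ} (h : 0 ≤ z.2 ∧ z.2 ≤ M)
    {a b c c' d d' : Fin 6}
    (h1 : trz M z (vt M (z + dir a)) = vt M (z + dir b))
    (hw : 0 ≤ (z + dir a).2 ∧ (z + dir a).2 ≤ M)
    (hu : 0 ≤ (z + dir b).2 ∧ (z + dir b).2 ≤ M)
    (h2 : trz M (z + dir a) (vt M (z + dir a + dir c)) = vt M (z + dir a + dir c'))
    (h3 : trz M (z + dir b) (vt M (z + dir b + dir d)) = vt M (z + dir b + dir d'))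
    (e1 : dir a + dir c = dir b) (e2 : dir a + dir c' = 0) (e3 : dir b + dir d = 0)
    (e4 : dir b + dir d' = dir a) :
    (TG M).Adj (vt M z) (tr M (vt M z) (vt M (z + dir a))) ∧
    (TG M).Adj (vt M (z + dir a)) (tr M (vt M z) (vt M (z + dir a))) ∧
    tr M (vt M (z + dir a)) (tr M (vt M z) (vt M (z + dir a))) = vt M z ∧
    tr M (tr M (vt M z) (vt M (z + dir a))) (vt M z) = vt M (z + dir a) := by
  rw [tr_vt h, h1]
  rw [dsum e1, dsum e2, add_zero] at h2
  rw [dsum e3, dsum e4, add_zero] at h3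
  refine ⟨adj_of hM h b, ?_, ?_, ?_⟩
  · have := adj_of hM hw c
    rwa [dsum e1] at this
  · rw [tr_vt hw, h2]
  · rw [tr_vt hu, h3]

/-- the face property of a dart -/
def FaceP (M : ℕ) (v w : TV M) : Prop :=
  (TG M).Adj v (tr M v w) ∧ (TG M).Adj w (tr M v w) ∧ tr M w (tr M v w) = v ∧ tr M (tr M v w) v = w

theorem rng {M : ℕ} {z : ℤ × ℤ} (h : 0 ≤ z.2 ∧ z.2 ≤ M) (k : Fin 6)
    (h1 : k = 1 ∨ k = 2 → z.2 < M) (h2 : k = 4 ∨ k = 5 → 0 < z.2) :
    0 ≤ (z + dir k).2 ∧ (z + dir k).2 ≤ M := by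
  fin_cases k <;> simp [dir] at h1 h2 ⊢ <;> omega

theorem up1 {M : ℕ} {z : ℤ × ℤ} (h : z.2 = M) : vt M (z + dir 1) = Sum.inr true := by
  rw [vt_up]; simp [dir, h]
theorem up2 {M : ℕ} {z : ℤ × ℤ} (h : z.2 = M) : vt M (z + dir 2) = Sum.inr true := by
  rw [vt_up]; simp [dir, h]
theorem dn4 {M : ℕ} {z : ℤ × ℤ} (h : z.2 = 0) : vt M (z + dir 4) = Sum.inr false := by
  rw [vt_dn]; simp [dir, h]
theorem dn5 {M : ℕ} {z : ℤ × ℤ} (h : z.2 = 0) : vt M (z + dir 5) = Sum.inr false := by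
  rw [vt_dn]; simp [dir, h]

theorem upA {M : ℕ} [NeZero M] (hM : 3 ≤ M) {z : ℤ × ℤ} (h : z.2 = M) :
    FaceP M (vt M z) (vt M (z + dir 0)) := by
  have hz : 0 ≤ z.2 ∧ z.2 ≤ M := by constructor <;> omega
  have hz0 := rng hz 0 (fun hh => absurd hh (by decide)) (fun hh => absurd hh (by decide))
  have hz02 : (z + dir 0).2 = M := by simp [dir, h]
  have e : tr M (vt M z) (vt M (z + dir 0)) = Sum.inr true := by
    rw [tr_vt hz, t0 hM hz, up1 h]
  unfold FaceP
  rw [e]
  refine ⟨(adj_up_of hM h).symm, (adj_up_of hM hz02).symm, ?_, tr_up' h⟩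
  rw [tr_vt hz0, ← up2 hz02, t2 hM hz0, add_assoc, show dir 0 + dir 3 = 0 by decide, add_zero]

theorem upB {M : ℕ} [NeZero M] (hM : 3 ≤ M) {z : ℤ × ℤ} (h : z.2 = M) :
    FaceP M (vt M z) (Sum.inr true) := by
  have hz : 0 ≤ z.2 ∧ z.2 ≤ M := by constructor <;> omega
  have hz3 := rng hz 3 (fun hh => absurd hh (by decide)) (fun hh => absurd hh (by decide))
  have hz32 : (z + dir 3).2 = M := by simp [dir, h]
  have e : tr M (vt M z) (Sum.inr true) = vt M (z + dir 3) := by
    rw [tr_vt hz, ← up2 h, t2 hM hz]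
  unfold FaceP
  rw [e]
  refine ⟨adj_of hM hz 3, adj_up_of hM hz32, ?_, ?_⟩
  · rw [tr_up' hz32, add_assoc, show dir 3 + dir 0 = 0 by decide, add_zero]
  · have := t0 hM hz3
    rw [add_assoc, show dir 3 + dir 0 = 0 by decide, add_zero] at this
    rw [tr_vt hz3, this, up1 hz32]

theorem upC {M : ℕ} [NeZero M] (hM : 3 ≤ M) {z : ℤ × ℤ} (h : z.2 = M) :
    FaceP M (Sum.inr true) (vt M z) := by
  have hz : 0 ≤ z.2 ∧ z.2 ≤ M := by constructor <;> omega
  have hz0 := rng hz 0 (fun hh => absurd hh (by decide)) (fun hh => absurd hh (by decide))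
  have hz02 : (z + dir 0).2 = M := by simp [dir, h]
  unfold FaceP
  rw [tr_up' h]
  refine ⟨adj_up_of hM hz02, adj_of hM hz 0, ?_, ?_⟩
  · rw [tr_vt hz, t0 hM hz, up1 h]
  · rw [tr_vt hz0, ← up2 hz02, t2 hM hz0, add_assoc, show dir 0 + dir 3 = 0 by decide, add_zero]

theorem dnA {M : ℕ} [NeZero M] (hM : 3 ≤ M) {z : ℤ × ℤ} (h : z.2 = 0) :
    FaceP M (vt M z) (vt M (z + dir 3)) := by
  have hz : 0 ≤ z.2 ∧ z.2 ≤ M := by constructor <;> omega
  have hz3 := rng hz 3 (fun hh => absurd hh (by decide)) (fun hh => absurd hh (by decide))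
  have hz32 : (z + dir 3).2 = 0 := by simp [dir, h]
  have e : tr M (vt M z) (vt M (z + dir 3)) = Sum.inr false := by
    rw [tr_vt hz, t3 hM hz, dn4 h]
  unfold FaceP
  rw [e]
  refine ⟨(adj_dn_of hM h).symm, (adj_dn_of hM hz32).symm, ?_, tr_dn' h⟩
  rw [tr_vt hz3, ← dn5 hz32, t5, add_assoc, show dir 3 + dir 0 = 0 by decide, add_zero]

theorem dnB {M : ℕ} [NeZero M] (hM : 3 ≤ M) {z : ℤ × ℤ} (h : z.2 = 0) :
    FaceP M (vt M z) (Sum.inr false) := by
  have hz : 0 ≤ z.2 ∧ z.2 ≤ M := by constructor <;> omega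
  have hz0 := rng hz 0 (fun hh => absurd hh (by decide)) (fun hh => absurd hh (by decide))
  have hz02 : (z + dir 0).2 = 0 := by simp [dir, h]
  have e : tr M (vt M z) (Sum.inr false) = vt M (z + dir 0) := by
    rw [tr_vt hz, ← dn5 h, t5]
  unfold FaceP
  rw [e]
  refine ⟨adj_of hM hz 0, adj_dn_of hM hz02, ?_, ?_⟩
  · rw [tr_dn' hz02, add_assoc, show dir 0 + dir 3 = 0 by decide, add_zero]
  · have := t3 hM hz0
    rw [add_assoc, show dir 0 + dir 3 = 0 by decide, add_zero] at this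
    rw [tr_vt hz0, this, dn4 hz02]

theorem dnC {M : ℕ} [NeZero M] (hM : 3 ≤ M) {z : ℤ × ℤ} (h : z.2 = 0) :
    FaceP M (Sum.inr false) (vt M z) := by
  have hz : 0 ≤ z.2 ∧ z.2 ≤ M := by constructor <;> omega
  have hz3 := rng hz 3 (fun hh => absurd hh (by decide)) (fun hh => absurd hh (by decide))
  have hz32 : (z + dir 3).2 = 0 := by simp [dir, h]
  unfold FaceP
  rw [tr_dn' h]
  refine ⟨adj_dn_of hM hz32, adj_of hM hz 3, ?_, ?_⟩
  · rw [tr_vt hz, t3 hM hz, dn4 h]
  · rw [tr_vt hz3, ← dn5 hz32, t5, add_assoc, show dir 3 + dir 0 = 0 by decide, add_zero]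

theorem face_in {M : ℕ} [NeZero M] (hM : 3 ≤ M) {z : ℤ × ℤ} (h : 0 ≤ z.2 ∧ z.2 ≤ M) (k : Fin 6) :
    FaceP M (vt M z) (vt M (z + dir k)) := by
  rcases eq_or_lt_of_le h.2 with hU | hU <;> rcases eq_or_lt_of_le h.1 with hD | hD
  · omega
  · -- top row
    fin_cases k
    · exact upA hM hU
    · show FaceP M (vt M z) (vt M (z + dir 1))
      rw [up1 hU]; exact upB hM hU
    · show FaceP M (vt M z) (vt M (z + dir 2))
      rw [up2 hU]; exact upB hM hU
    · exact face_gen hM h (a := 3) (b := 4) (c := 5) (c' := 0) (d := 1) (d' := 2) (t3 hM h)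
        (rng h 3 (fun hh => absurd hh (by decide)) (fun hh => absurd hh (by decide))) (rng h 4 (fun hh => absurd hh (by decide)) (fun _ => hD)) (t5 _)
        (t1 hM (rng h 4 (fun hh => absurd hh (by decide)) (fun _ => hD)) (by simp [dir]; omega))
        (by decide) (by decide) (by decide) (by decide)
    · exact face_gen hM h (a := 4) (b := 5) (c := 0) (c' := 1) (d := 2) (d' := 3) (t4 hM h hD)
        (rng h 4 (fun hh => absurd hh (by decide)) (fun _ => hD)) (rng h 5 (fun hh => absurd hh (by decide)) (fun _ => hD))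
        (t0 hM (rng h 4 (fun hh => absurd hh (by decide)) (fun _ => hD))) (t2 hM (rng h 5 (fun hh => absurd hh (by decide)) (fun _ => hD)))
        (by decide) (by decide) (by decide) (by decide)
    · exact face_gen hM h (a := 5) (b := 0) (c := 1) (c' := 2) (d := 3) (d' := 4) (t5 _)
        (rng h 5 (fun hh => absurd hh (by decide)) (fun _ => hD)) (rng h 0 (fun hh => absurd hh (by decide)) (fun hh => absurd hh (by decide)))
        (t1 hM (rng h 5 (fun hh => absurd hh (by decide)) (fun _ => hD)) (by simp [dir]; omega))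
        (t3 hM (rng h 0 (fun hh => absurd hh (by decide)) (fun hh => absurd hh (by decide))))
        (by decide) (by decide) (by decide) (by decide)
  · -- bottom row
    fin_cases k
    · exact face_gen hM h (a := 0) (b := 1) (c := 2) (c' := 3) (d := 4) (d' := 5) (t0 hM h)
        (rng h 0 (fun hh => absurd hh (by decide)) (fun hh => absurd hh (by decide))) (rng h 1 (fun _ => hU) (fun hh => absurd hh (by decide)))
        (t2 hM (rng h 0 (fun hh => absurd hh (by decide)) (fun hh => absurd hh (by decide))))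
        (t4 hM (rng h 1 (fun _ => hU) (fun hh => absurd hh (by decide))) (by simp [dir]; omega))
        (by decide) (by decide) (by decide) (by decide)
    · exact face_gen hM h (a := 1) (b := 2) (c := 3) (c' := 4) (d := 5) (d' := 0) (t1 hM h hU)
        (rng h 1 (fun _ => hU) (fun hh => absurd hh (by decide))) (rng h 2 (fun _ => hU) (fun hh => absurd hh (by decide)))
        (t3 hM (rng h 1 (fun _ => hU) (fun hh => absurd hh (by decide)))) (t5 _)
        (by decide) (by decide) (by decide) (by decide)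
    · exact face_gen hM h (a := 2) (b := 3) (c := 4) (c' := 5) (d := 0) (d' := 1) (t2 hM h)
        (rng h 2 (fun _ => hU) (fun hh => absurd hh (by decide))) (rng h 3 (fun hh => absurd hh (by decide)) (fun hh => absurd hh (by decide)))
        (t4 hM (rng h 2 (fun _ => hU) (fun hh => absurd hh (by decide))) (by simp [dir]; omega))
        (t0 hM (rng h 3 (fun hh => absurd hh (by decide)) (fun hh => absurd hh (by decide))))
        (by decide) (by decide) (by decide) (by decide)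
    · exact dnA hM hD.symm
    · show FaceP M (vt M z) (vt M (z + dir 4))
      rw [dn4 hD.symm]; exact dnB hM hD.symm
    · show FaceP M (vt M z) (vt M (z + dir 5))
      rw [dn5 hD.symm]; exact dnB hM hD.symm
  · fin_cases k
    · exact face_gen hM h (a := 0) (b := 1) (c := 2) (c' := 3) (d := 4) (d' := 5) (t0 hM h)
        (rng h 0 (fun hh => absurd hh (by decide)) (fun hh => absurd hh (by decide))) (rng h 1 (fun _ => hU) (fun hh => absurd hh (by decide)))
        (t2 hM (rng h 0 (fun hh => absurd hh (by decide)) (fun hh => absurd hh (by decide))))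
        (t4 hM (rng h 1 (fun _ => hU) (fun hh => absurd hh (by decide))) (by simp [dir]; omega))
        (by decide) (by decide) (by decide) (by decide)
    · exact face_gen hM h (a := 1) (b := 2) (c := 3) (c' := 4) (d := 5) (d' := 0) (t1 hM h hU)
        (rng h 1 (fun _ => hU) (fun hh => absurd hh (by decide))) (rng h 2 (fun _ => hU) (fun hh => absurd hh (by decide)))
        (t3 hM (rng h 1 (fun _ => hU) (fun hh => absurd hh (by decide)))) (t5 _)
        (by decide) (by decide) (by decide) (by decide)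
    · exact face_gen hM h (a := 2) (b := 3) (c := 4) (c' := 5) (d := 0) (d' := 1) (t2 hM h)
        (rng h 2 (fun _ => hU) (fun hh => absurd hh (by decide))) (rng h 3 (fun hh => absurd hh (by decide)) (fun hh => absurd hh (by decide)))
        (t4 hM (rng h 2 (fun _ => hU) (fun hh => absurd hh (by decide))) (by simp [dir]; omega))
        (t0 hM (rng h 3 (fun hh => absurd hh (by decide)) (fun hh => absurd hh (by decide))))
        (by decide) (by decide) (by decide) (by decide)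
    · exact face_gen hM h (a := 3) (b := 4) (c := 5) (c' := 0) (d := 1) (d' := 2) (t3 hM h)
        (rng h 3 (fun hh => absurd hh (by decide)) (fun hh => absurd hh (by decide))) (rng h 4 (fun hh => absurd hh (by decide)) (fun _ => hD)) (t5 _)
        (t1 hM (rng h 4 (fun hh => absurd hh (by decide)) (fun _ => hD)) (by simp [dir]; omega))
        (by decide) (by decide) (by decide) (by decide)
    · exact face_gen hM h (a := 4) (b := 5) (c := 0) (c' := 1) (d := 2) (d' := 3) (t4 hM h hD)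
        (rng h 4 (fun hh => absurd hh (by decide)) (fun _ => hD)) (rng h 5 (fun hh => absurd hh (by decide)) (fun _ => hD))
        (t0 hM (rng h 4 (fun hh => absurd hh (by decide)) (fun _ => hD))) (t2 hM (rng h 5 (fun hh => absurd hh (by decide)) (fun _ => hD)))
        (by decide) (by decide) (by decide) (by decide)
    · exact face_gen hM h (a := 5) (b := 0) (c := 1) (c' := 2) (d := 3) (d' := 4) (t5 _)
        (rng h 5 (fun hh => absurd hh (by decide)) (fun _ => hD)) (rng h 0 (fun hh => absurd hh (by decide)) (fun hh => absurd hh (by decide)))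
        (t1 hM (rng h 5 (fun hh => absurd hh (by decide)) (fun _ => hD)) (by simp [dir]; omega))
        (t3 hM (rng h 0 (fun hh => absurd hh (by decide)) (fun hh => absurd hh (by decide))))
        (by decide) (by decide) (by decide) (by decide)

theorem face_all {M : ℕ} [NeZero M] (hM : 3 ≤ M) (v w : TV M) (h : (TG M).Adj v w) :
    FaceP M v w := by
  rcases vrep v with ⟨z, hz, rfl⟩ | rfl | rfl
  · obtain ⟨k, rfl⟩ := (tg_adj hM hz w).1 h
    exact face_in hM hz k
  · obtain ⟨z, hz, rfl⟩ := (adj_up hM).1 h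
    exact upC hM hz
  · obtain ⟨z, hz, rfl⟩ := (adj_dn hM).1 h
    exact dnC hM hz

/-! ### the rotations are cyclic -/

theorem cyc_in {M : ℕ} [NeZero M] (hM : 3 ≤ M) {z : ℤ × ℤ} (h : 0 ≤ z.2 ∧ z.2 ≤ M) :
    (∀ k, ∃ n : ℕ, (trz M z)^[n] (vt M (z + dir k)) = vt M (z + dir 0)) ∧
    (∀ k, ∃ n : ℕ, (trz M z)^[n] (vt M (z + dir 0)) = vt M (z + dir k)) := by
  have s5 := t5 (M := M) z
  have s4 : trz M z (vt M (z + dir 4)) = vt M (z + dir 5) ∨
      vt M (z + dir 4) = vt M (z + dir 5) := by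
    rcases eq_or_lt_of_le h.1 with hD | hD
    · right; rw [dn4 hD.symm, dn5 hD.symm]
    · left; exact t4 hM h hD
  have s3 := t3 hM h
  have s2 := t2 hM h
  have s1 : trz M z (vt M (z + dir 1)) = vt M (z + dir 2) ∨
      vt M (z + dir 1) = vt M (z + dir 2) := by
    rcases eq_or_lt_of_le h.2 with hU | hU
    · right; rw [up1 hU, up2 hU]
    · left; exact t1 hM h hU
  have s0 := t0 hM h
  constructor
  · have r5 : ∃ n : ℕ, (trz M z)^[n] (vt M (z + dir 5)) = vt M (z + dir 0) := ⟨1, by simpa using s5⟩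
    have r4 : ∃ n : ℕ, (trz M z)^[n] (vt M (z + dir 4)) = vt M (z + dir 0) := by
      rcases s4 with s4 | s4
      · obtain ⟨n, hn⟩ := r5
        exact ⟨n + 1, by rw [Function.iterate_succ_apply, s4, hn]⟩
      · rw [s4]; exact r5
    have r3 : ∃ n : ℕ, (trz M z)^[n] (vt M (z + dir 3)) = vt M (z + dir 0) := by
      obtain ⟨n, hn⟩ := r4
      exact ⟨n + 1, by rw [Function.iterate_succ_apply, s3, hn]⟩
    have r2 : ∃ n : ℕ, (trz M z)^[n] (vt M (z + dir 2)) = vt M (z + dir 0) := by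
      obtain ⟨n, hn⟩ := r3
      exact ⟨n + 1, by rw [Function.iterate_succ_apply, s2, hn]⟩
    have r1 : ∃ n : ℕ, (trz M z)^[n] (vt M (z + dir 1)) = vt M (z + dir 0) := by
      rcases s1 with s1 | s1
      · obtain ⟨n, hn⟩ := r2
        exact ⟨n + 1, by rw [Function.iterate_succ_apply, s1, hn]⟩
      · rw [s1]; exact r2
    intro k
    fin_cases k
    · exact ⟨0, rfl⟩
    · exact r1
    · exact r2
    · exact r3
    · exact r4
    · exact r5
  · have r1 : ∃ n : ℕ, (trz M z)^[n] (vt M (z + dir 0)) = vt M (z + dir 1) := ⟨1, by simpa using s0⟩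
    have r2 : ∃ n : ℕ, (trz M z)^[n] (vt M (z + dir 0)) = vt M (z + dir 2) := by
      rcases s1 with s1 | s1
      · obtain ⟨n, hn⟩ := r1
        exact ⟨n + 1, by rw [Function.iterate_succ_apply', hn, s1]⟩
      · rw [← s1]; exact r1
    have r3 : ∃ n : ℕ, (trz M z)^[n] (vt M (z + dir 0)) = vt M (z + dir 3) := by
      obtain ⟨n, hn⟩ := r2
      exact ⟨n + 1, by rw [Function.iterate_succ_apply', hn, s2]⟩
    have r4 : ∃ n : ℕ, (trz M z)^[n] (vt M (z + dir 0)) = vt M (z + dir 4) := by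
      obtain ⟨n, hn⟩ := r3
      exact ⟨n + 1, by rw [Function.iterate_succ_apply', hn, s3]⟩
    have r5 : ∃ n : ℕ, (trz M z)^[n] (vt M (z + dir 0)) = vt M (z + dir 5) := by
      rcases s4 with s4 | s4
      · obtain ⟨n, hn⟩ := r4
        exact ⟨n + 1, by rw [Function.iterate_succ_apply', hn, s4]⟩
      · rw [← s4]; exact r4
    intro k
    fin_cases k
    · exact ⟨0, rfl⟩
    · exact r1
    · exact r2
    · exact r3
    · exact r4
    · exact r5

theorem tr_fun {M : ℕ} [NeZero M] {z : ℤ × ℤ} (h : 0 ≤ z.2 ∧ z.2 ≤ M) :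
    tr M (vt M z) = trz M z := funext fun u => tr_vt h u

theorem iter_up {M : ℕ} (n : ℕ) {z : ℤ × ℤ} (hz : z.2 = M) :
    (tr M (Sum.inr true))^[n] (vt M z) = vt M (z.1 + n, z.2) := by
  induction n with
  | zero => simp
  | succ n ih =>
    rw [Function.iterate_succ_apply', ih, tr_up' (by simpa using hz)]
    congr 1
    ext
    · simp [dir]; ring
    · simp [dir]

theorem iter_dn {M : ℕ} (n : ℕ) {z : ℤ × ℤ} (hz : z.2 = 0) :
    (tr M (Sum.inr false))^[n] (vt M z) = vt M (z.1 - n, z.2) := by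
  induction n with
  | zero => simp
  | succ n ih =>
    rw [Function.iterate_succ_apply', ih, tr_dn' (by simpa using hz)]
    congr 1
    ext
    · simp [dir]; ring
    · simp [dir]

theorem isRot {M : ℕ} [NeZero M] (hM : 3 ≤ M) : IsRot (TG M) (tr M) where
  face v w h := face_all hM v w h
  cyc := by
    intro v w w' h h'
    rcases vrep v with ⟨z, hz, rfl⟩ | rfl | rfl
    · obtain ⟨k, rfl⟩ := (tg_adj hM hz w).1 h
      obtain ⟨k', rfl⟩ := (tg_adj hM hz w').1 h'
      obtain ⟨n, hn⟩ := (cyc_in hM hz).1 k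
      obtain ⟨n', hn'⟩ := (cyc_in hM hz).2 k'
      refine ⟨n' + n, ?_⟩
      rw [tr_fun hz, Function.iterate_add_apply, hn, hn']
    · obtain ⟨z, hz, rfl⟩ := (adj_up hM).1 h
      obtain ⟨z', hz', rfl⟩ := (adj_up hM).1 h'
      refine ⟨((z'.1 - z.1 : ℤ) : ZMod M).val, ?_⟩
      rw [iter_up _ hz]
      apply vt_congr
      · simp
      · simp [hz, hz']
    · obtain ⟨z, hz, rfl⟩ := (adj_dn hM).1 h
      obtain ⟨z', hz', rfl⟩ := (adj_dn hM).1 h'
      refine ⟨((z.1 - z'.1 : ℤ) : ZMod M).val, ?_⟩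
      rw [iter_dn _ hz]
      apply vt_congr
      · simp
      · simp [hz, hz']

/-! ### connectedness -/

theorem reach_h {M : ℕ} (hM : 3 ≤ M) {y : ℤ} (h : 0 ≤ y ∧ y ≤ M) (n : ℕ) :
    (TG M).Reachable (vt M (0, y)) (vt M ((n : ℤ), y)) := by
  induction n with
  | zero => exact SimpleGraph.Reachable.refl _
  | succ n ih =>
    refine ih.trans ?_
    have := (adj_of hM (z := ((n : ℤ), y)) h 0).reachable
    have e : (((n : ℤ), y) : ℤ × ℤ) + dir 0 = (((n + 1 : ℕ) : ℤ), y) := by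
      ext <;> simp [dir]
    rwa [e] at this

theorem reach_v {M : ℕ} (hM : 3 ≤ M) (n : ℕ) (h : n ≤ M) :
    (TG M).Reachable (vt M (0, 0)) (vt M (0, (n : ℤ))) := by
  induction n with
  | zero => exact SimpleGraph.Reachable.refl _
  | succ n ih =>
    refine (ih (by omega)).trans ?_
    have := (adj_of hM (z := (0, (n : ℤ))) (by constructor <;> simp only <;> omega) 1).reachable
    have e : ((0, (n : ℤ)) : ℤ × ℤ) + dir 1 = (0, ((n + 1 : ℕ) : ℤ)) := by
      ext <;> simp [dir]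
    rwa [e] at this

theorem tg_connected {M : ℕ} [NeZero M] (hM : 3 ≤ M) : (TG M).Connected := by
  have key : ∀ v, (TG M).Reachable (vt M (0, 0)) v := by
    intro v
    rcases v with ⟨i, j⟩ | b
    · rw [← vt_surj i j]
      have hj := j.isLt
      exact (reach_v hM j (by omega)).trans (reach_h hM (by constructor <;> omega) _)
    · cases b
      · exact (adj_dn_of hM (z := (0, 0)) rfl).symm.reachable
      · exact (reach_v hM M le_rfl).trans (adj_up_of hM (z := (0, (M : ℤ))) rfl).symm.reachable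
  have : Nonempty (TV M) := ⟨Sum.inr true⟩
  exact ⟨fun v w => (key v).symm.trans (key w)⟩

/-! ### counting the edges -/

theorem deg_inl {M : ℕ} [NeZero M] (hM : 3 ≤ M) (i : ZMod M) (j : Fin (M + 1)) :
    (TG M).degree (Sum.inl (i, j)) + (if j = 0 then 1 else 0) + (if j = Fin.last M then 1 else 0)
      = 6 := by
  have hj := j.isLt
  set z : ℤ × ℤ := ((i.val : ℤ), (j : ℤ)) with hz
  have hzr : 0 ≤ z.2 ∧ z.2 ≤ M := by constructor <;> simp only [hz] <;> omega
  have hv : (Sum.inl (i, j) : TV M) = vt M z := (vt_surj i j).symm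
  have hN : (TG M).neighborFinset (Sum.inl (i, j)) = univ.image (fun k => vt M (z + dir k)) := by
    ext u
    rw [SimpleGraph.mem_neighborFinset, hv, tg_adj hM hzr]
    simp
  rw [← SimpleGraph.card_neighborFinset_eq_degree, hN]
  rcases eq_or_ne j 0 with h0 | h0
  · -- bottom row
    have hj0 : (j : ℕ) = 0 := by rw [h0]; rfl
    have hz0 : z.2 = 0 := by simp [hz, hj0]
    have hl : j ≠ Fin.last M := by
      rw [h0]; intro h
      have := congrArg Fin.val h
      simp at this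
      omega
    have hlt : z.2 < M := by rw [hz0]; exact_mod_cast (by omega : 0 < M)
    have : (univ.image (fun k => vt M (z + dir k))) =
        ((univ.erase (4 : Fin 6)).image (fun k => vt M (z + dir k))) := by
      ext u
      simp only [mem_image, mem_univ, true_and, mem_erase, and_true]
      constructor
      · rintro ⟨k, hk⟩
        by_cases h4 : k = 4
        · refine ⟨5, by decide, ?_⟩
          rw [← hk, h4, dn4 hz0, dn5 hz0]
        · exact ⟨k, h4, hk⟩
      · rintro ⟨k, _, hk⟩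
        exact ⟨k, hk⟩
    rw [this, card_image_of_injOn]
    · simp [h0, show (0 : Fin (M + 1)) ≠ Fin.last M by rw [← h0]; exact hl]
    · intro a ha b hb hab
      by_contra hne
      simp only [coe_erase, coe_univ, Set.mem_sdiff, Set.mem_univ, Set.mem_singleton_iff,
        true_and] at ha hb
      refine dne hM hzr hne (Or.inl hlt) (Or.inr ?_) hab
      rintro ⟨h1, h2⟩
      rcases h1 with h1 | h1
      · exact ha h1
      · rcases h2 with h2 | h2
        · exact hb h2
        · exact hne (h1.trans h2.symm)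
  rcases eq_or_ne j (Fin.last M) with h1 | h1
  · have hjM : (j : ℕ) = M := by rw [h1]; rfl
    have hz0 : z.2 = M := by simp [hz, hjM]
    have hlt : 0 < z.2 := by rw [hz0]; exact_mod_cast (by omega : 0 < M)
    have : (univ.image (fun k => vt M (z + dir k))) =
        ((univ.erase (1 : Fin 6)).image (fun k => vt M (z + dir k))) := by
      ext u
      simp only [mem_image, mem_univ, true_and, mem_erase, and_true]
      constructor
      · rintro ⟨k, hk⟩
        by_cases h4 : k = 1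
        · refine ⟨2, by decide, ?_⟩
          rw [← hk, h4, up1 hz0, up2 hz0]
        · exact ⟨k, h4, hk⟩
      · rintro ⟨k, _, hk⟩
        exact ⟨k, hk⟩
    rw [this, card_image_of_injOn]
    · simp [h1]
      omega
    · intro a ha b hb hab
      by_contra hne
      simp only [coe_erase, coe_univ, Set.mem_sdiff, Set.mem_univ, Set.mem_singleton_iff,
        true_and] at ha hb
      refine dne hM hzr hne (Or.inr ?_) (Or.inl hlt) hab
      rintro ⟨h1, h2⟩
      rcases h1 with h1 | h1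
      · exact ha h1
      · rcases h2 with h2 | h2
        · exact hb h2
        · exact hne (h1.trans h2.symm)
  · have hlt : 0 < z.2 := by
      simp only [hz]
      have : (j : ℕ) ≠ 0 := fun h => h0 (Fin.ext h)
      omega
    have hlt' : z.2 < M := by
      simp only [hz]
      have : (j : ℕ) ≠ M := fun h => h1 (Fin.ext h)
      omega
    rw [card_image_of_injOn]
    · simp [h0, h1]
    · intro a _ b _ hab
      by_contra hne
      exact dne hM hzr hne (Or.inl hlt') (Or.inl hlt) hab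

theorem deg_up {M : ℕ} [NeZero M] (hM : 3 ≤ M) : (TG M).degree (Sum.inr true) = M := by
  have hN : (TG M).neighborFinset (Sum.inr true) =
      univ.image (fun i : ZMod M => (Sum.inl (i, Fin.last M) : TV M)) := by
    ext u
    rw [SimpleGraph.mem_neighborFinset, adj_up hM]
    simp only [mem_image, mem_univ, true_and]
    constructor
    · rintro ⟨z, hz, rfl⟩
      refine ⟨z.1, ?_⟩
      rw [vt_in (by constructor <;> omega)]
      congr 1
      ext
      · rfl
      · simp [hz]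
    · rintro ⟨i, rfl⟩
      refine ⟨((i.val : ℤ), (M : ℤ)), rfl, ?_⟩
      exact (vt_surj i (Fin.last M)).symm
  rw [← SimpleGraph.card_neighborFinset_eq_degree, hN, card_image_of_injective]
  · simp [ZMod.card]
  · intro a b h
    simpa using h

theorem deg_dn {M : ℕ} [NeZero M] (hM : 3 ≤ M) : (TG M).degree (Sum.inr false) = M := by
  have hN : (TG M).neighborFinset (Sum.inr false) =
      univ.image (fun i : ZMod M => (Sum.inl (i, (0 : Fin (M + 1))) : TV M)) := by
    ext u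
    rw [SimpleGraph.mem_neighborFinset, adj_dn hM]
    simp only [mem_image, mem_univ, true_and]
    constructor
    · rintro ⟨z, hz, rfl⟩
      refine ⟨z.1, ?_⟩
      rw [vt_in (by constructor <;> omega)]
      congr 1
      ext
      · rfl
      · simp [hz]
    · rintro ⟨i, rfl⟩
      refine ⟨((i.val : ℤ), (0 : ℤ)), rfl, ?_⟩
      exact (vt_surj i (0 : Fin (M + 1))).symm
  rw [← SimpleGraph.card_neighborFinset_eq_degree, hN, card_image_of_injective]
  · simp [ZMod.card]
  · intro a b h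
    simpa using h

theorem tv_card {M : ℕ} [NeZero M] : Fintype.card (TV M) = M * (M + 1) + 2 := by
  simp [TV, ZMod.card]

theorem tg_edges {M : ℕ} [NeZero M] (hM : 3 ≤ M) :
    Nat.card (TG M).edgeSet + 6 = 3 * Fintype.card (TV M) := by
  rw [tv_card, Nat.card_eq_fintype_card, ← SimpleGraph.edgeFinset_card]
  have h := (TG M).sum_degrees_eq_twice_card_edges
  rw [Fintype.sum_sum_type, Fintype.sum_prod_type, Fintype.sum_bool, deg_up hM, deg_dn hM] at h
  have h2 : ∀ i : ZMod M, ∑ j : Fin (M + 1), (TG M).degree (Sum.inl (i, j)) + 2 = 6 * (M + 1) := by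
    intro i
    have h3 : ∑ j : Fin (M + 1), ((TG M).degree (Sum.inl (i, j)) + (if j = 0 then 1 else 0) +
        (if j = Fin.last M then 1 else 0)) = ∑ j : Fin (M + 1), 6 :=
      Finset.sum_congr rfl fun j _ => deg_inl hM i j
    rw [Finset.sum_add_distrib, Finset.sum_add_distrib] at h3
    simp at h3
    omega
  have h4 : ∑ i : ZMod M, (∑ j : Fin (M + 1), (TG M).degree (Sum.inl (i, j)) + 2) =
      ∑ i : ZMod M, 6 * (M + 1) := Finset.sum_congr rfl fun i _ => h2 i
  rw [Finset.sum_add_distrib] at h4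
  simp only [sum_const, card_univ, ZMod.card, smul_eq_mul] at h4
  nlinarith [h, h4]

theorem tg_isTri {M : ℕ} [NeZero M] (hM : 3 ≤ M) : IsTri (TG M) where
  three_le := by rw [tv_card]; nlinarith
  connected := tg_connected hM
  edges := tg_edges hM
  rot := ⟨tr M, isRot hM⟩

/-! ### charts and boxes -/

/-- two lattice points of the same row that are closer than `M` have different images -/
theorem vt_inj_near {M : ℕ} {z w : ℤ × ℤ} (h : 0 ≤ z.2 ∧ z.2 ≤ M) (hd : |z.1 - w.1| < M)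
    (he : vt M z = vt M w) : z = w := by
  obtain ⟨h1, h2⟩ := (vt_eq h).1 he
  have h3 : ((z.1 - w.1 : ℤ) : ZMod M) = 0 := by push_cast; rw [h1, sub_self]
  rw [ZMod.intCast_zmod_eq_zero_iff_dvd] at h3
  have h4 : z.1 - w.1 = 0 := Int.eq_zero_of_abs_lt_dvd h3 hd
  ext
  · omega
  · exact h2

theorem mem_ball_bd {r : ℕ} {x : ℤ × ℤ} (h : x ∈ ball r) :
    (-(r : ℤ) ≤ x.1 ∧ x.1 ≤ r) ∧ (-(r : ℤ) ≤ x.2 ∧ x.2 ≤ r) := by
  unfold ball at h
  rw [mem_filter, mem_product, mem_Icc, mem_Icc] at h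
  exact h.1

theorem mem_box_bd {L : ℕ} {x : ℤ × ℤ} (h : x ∈ box L) :
    (0 ≤ x.1 ∧ x.1 < L) ∧ (0 ≤ x.2 ∧ x.2 < L) := by
  unfold box at h
  rw [mem_product, mem_Ico, mem_Ico] at h
  exact h

theorem tube (L s : ℕ) (hL : 1 ≤ L) (hs : 3 ≤ s) :
    ∃ (V : Type) (_ : Fintype V) (_ : DecidableEq V) (G : SimpleGraph V), IsTri G ∧
      Fintype.card V = L * s * (L * s + 1) + 2 ∧
      (∃ B : Fin (s * s) → ℤ × ℤ → V, (∀ k, Set.InjOn (B k) (box L)) ∧
        (∀ k k', k ≠ k' → Disjoint ((box L).image (B k)) ((box L).image (B k'))) ∧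
        (∀ k, ∀ x ∈ box L, ∀ y ∈ box L, G.Adj (B k x) (B k y) ↔ T.Adj x y)) ∧
      (∀ K : ℕ, 2 * K + 5 ≤ L * s → ∃ Gd : Finset V,
        Fintype.card V ≤ #Gd + (2 * K + 10) * (L * s) ∧
        ∀ v ∈ Gd, ∃ ι : ℤ × ℤ → V, ι (0, 0) = v ∧ Set.InjOn ι (ball (K + 1)) ∧
          ∀ x ∈ ball K, ∀ u, G.Adj (ι x) u ↔ ∃ y, T.Adj x y ∧ ι y = u) := by
  obtain ⟨M, hMdef⟩ : ∃ M, M = L * s := ⟨_, rfl⟩
  have hM : 3 ≤ M := by rw [hMdef]; nlinarith
  have hLM : L < M := by rw [hMdef]; nlinarith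
  haveI : NeZero M := ⟨by omega⟩
  have hMZ : (M : ℤ) = L * s := by rw [hMdef]; push_cast; ring
  rw [← hMdef]
  refine ⟨TV M, inferInstance, inferInstance, TG M, tg_isTri hM, tv_card, ?_, ?_⟩
  · -- boxes
    have hss : 0 < s := by omega
    let c : Fin (s * s) → ℤ × ℤ := fun k => ((L : ℤ) * ((k : ℕ) % s : ℕ), (L : ℤ) * ((k : ℕ) / s : ℕ))
    have hc : ∀ k : Fin (s * s), ∀ x ∈ box L, (0 ≤ (c k + x).1 ∧ (c k + x).1 < M) ∧
        (0 ≤ (c k + x).2 ∧ (c k + x).2 < M) := by
      intro k x hx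
      obtain ⟨⟨h1, h2⟩, h3, h4⟩ := mem_box_bd hx
      have a1 : (((k : ℕ) % s : ℕ) : ℤ) + 1 ≤ s := by
        have := Nat.mod_lt (k : ℕ) hss
        exact_mod_cast this
      have a2 : (((k : ℕ) / s : ℕ) : ℤ) + 1 ≤ s := by
        have : (k : ℕ) / s < s := Nat.div_lt_of_lt_mul k.isLt
        exact_mod_cast this
      have a3 : (0 : ℤ) ≤ (((k : ℕ) % s : ℕ) : ℤ) := Int.natCast_nonneg _
      have a4 : (0 : ℤ) ≤ (((k : ℕ) / s : ℕ) : ℤ) := Int.natCast_nonneg _
      have hL0 : (0 : ℤ) < L := by exact_mod_cast hL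
      simp only [c, Prod.fst_add, Prod.snd_add]
      rw [hMZ]
      refine ⟨⟨?_, ?_⟩, ?_, ?_⟩
      · positivity
      · nlinarith
      · positivity
      · nlinarith
    refine ⟨fun k x => vt M (c k + x), ?_, ?_, ?_⟩
    · intro k x hx y hy he
      have hx' := hc k x hx
      have hy' := hc k y hy
      have := vt_inj_near (M := M) ⟨hx'.2.1, hx'.2.2.le⟩ (by rw [abs_lt]; constructor <;> omega) he
      exact add_left_cancel this
    · intro k k' hkk
      rw [Finset.disjoint_left]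
      intro u hu hu'
      rw [mem_image] at hu hu'
      obtain ⟨x, hx, rfl⟩ := hu
      obtain ⟨y, hy, he⟩ := hu'
      have hx' := hc k x hx
      have hy' := hc k' y hy
      have := vt_inj_near (M := M) ⟨hy'.2.1, hy'.2.2.le⟩ (by rw [abs_lt]; constructor <;> omega) he
      obtain ⟨⟨h1, h2⟩, h3, h4⟩ := mem_box_bd hx
      obtain ⟨⟨h1', h2'⟩, h3', h4'⟩ := mem_box_bd hy
      have e1 : (L : ℤ) * ((k' : ℕ) % s : ℕ) + y.1 = (L : ℤ) * ((k : ℕ) % s : ℕ) + x.1 :=
        congrArg Prod.fst this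
      have e2 : (L : ℤ) * ((k' : ℕ) / s : ℕ) + y.2 = (L : ℤ) * ((k : ℕ) / s : ℕ) + x.2 :=
        congrArg Prod.snd this
      have hL0 : (0 : ℤ) < L := by exact_mod_cast hL
      have f : ∀ a b : ℕ, ∀ p q : ℤ, 0 ≤ p → p < L → 0 ≤ q → q < L →
          (L : ℤ) * a + p = L * b + q → a = b := by
        intro a b p q hp hp' hq hq' h
        by_contra hne
        rcases Nat.lt_or_gt_of_ne hne with hlt | hlt
        · have : (a : ℤ) + 1 ≤ b := by exact_mod_cast hlt
          nlinarith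
        · have : (b : ℤ) + 1 ≤ a := by exact_mod_cast hlt
          nlinarith
      have g1 := f _ _ _ _ h1' h2' h1 h2 e1
      have g2 := f _ _ _ _ h3' h4' h3 h4 e2
      apply hkk
      apply Fin.ext
      rw [← Nat.mod_add_div (k : ℕ) s, ← Nat.mod_add_div (k' : ℕ) s, g1, g2]
    · intro k x hx y hy
      have hx' := hc k x hx
      have hy' := hc k y hy
      rw [tg_adj hM ⟨hx'.2.1, hx'.2.2.le⟩]
      constructor
      · rintro ⟨i, hi⟩
        refine ⟨i, ?_⟩
        have hb : |(c k + y).1 - (c k + x + dir i).1| < M := by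
          have hd : -1 ≤ (dir i).1 ∧ (dir i).1 ≤ 1 := by fin_cases i <;> simp [dir]
          obtain ⟨⟨h1, h2⟩, _⟩ := mem_box_bd hx
          obtain ⟨⟨h1', h2'⟩, _⟩ := mem_box_bd hy
          simp only [Prod.fst_add]
          rw [abs_lt]
          constructor <;> omega
        have := vt_inj_near (M := M) ⟨hy'.2.1, hy'.2.2.le⟩ hb hi.symm
        rw [add_assoc] at this
        exact add_left_cancel this
      · rintro ⟨i, rfl⟩
        exact ⟨i, by rw [add_assoc]⟩
  · intro K hK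
    let f : ZMod M × Fin (M - 2 * K - 1) → TV M := fun p =>
      Sum.inl (p.1, ⟨(p.2 : ℕ) + K + 1, by have := p.2.isLt; omega⟩)
    have hf : Function.Injective f := by
      intro p q h
      simp only [f, Sum.inl.injEq, Prod.mk.injEq, Fin.mk.injEq] at h
      ext
      · rw [h.1]
      · omega
    refine ⟨univ.image f, ?_, ?_⟩
    · rw [card_image_of_injective _ hf, tv_card]
      simp only [card_univ, Fintype.card_prod, ZMod.card, Fintype.card_fin]
      obtain ⟨R, hR⟩ : ∃ R, M = R + (2 * K + 1) := ⟨M - (2 * K + 1), by omega⟩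
      have e : M - 2 * K - 1 = R := by omega
      rw [e]
      have : M * M = M * R + M * (2 * K + 1) := by rw [← Nat.mul_add, ← hR]
      nlinarith
    · intro v hv
      rw [mem_image] at hv
      obtain ⟨⟨i, j⟩, _, rfl⟩ := hv
      have hj := j.isLt
      set z0 : ℤ × ℤ := ((i.val : ℤ), ((j : ℕ) : ℤ) + K + 1) with hz0
      have hrow : ∀ x ∈ ball (K + 1), 0 ≤ (z0 + x).2 ∧ (z0 + x).2 ≤ M := by
        intro x hx
        obtain ⟨_, h3, h4⟩ := mem_ball_bd hx
        simp only [hz0, Prod.snd_add]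
        push_cast at h3 h4
        constructor
        · omega
        · omega
      refine ⟨fun x => vt M (z0 + x), ?_, ?_, ?_⟩
      · have h0 : z0 + (0, 0) = z0 := add_zero z0
        show vt M (z0 + (0, 0)) = f (i, j)
        rw [h0]
        have := vt_surj (M := M) i ⟨(j : ℕ) + K + 1, by omega⟩
        simp only [f]
        rw [← this, hz0]
        push_cast
        rfl
      · intro x hx y hy he
        obtain ⟨⟨h1, h2⟩, _⟩ := mem_ball_bd hx
        obtain ⟨⟨h1', h2'⟩, _⟩ := mem_ball_bd hy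
        push_cast at h1 h2 h1' h2'
        have := vt_inj_near (M := M) (hrow x hx) (by
          simp only [Prod.fst_add]
          rw [abs_lt]
          constructor <;> omega) he
        exact add_left_cancel this
      · intro x hx u
        have hx' : 0 ≤ (z0 + x).2 ∧ (z0 + x).2 ≤ M := by
          obtain ⟨_, h3, h4⟩ := mem_ball_bd hx
          simp only [hz0, Prod.snd_add]
          constructor
          · omega
          · omega
        rw [tg_adj hM hx']
        constructor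
        · rintro ⟨k, rfl⟩
          exact ⟨x + dir k, ⟨k, rfl⟩, by rw [add_assoc]⟩
        · rintro ⟨y, ⟨k, rfl⟩, rfl⟩
          exact ⟨k, by rw [add_assoc]⟩

end Pool.Agent.Helper53.OS
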