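import Pool.Agent.Helper53.OS.KDualCore
import Pool.Agent.Helper53.OS.Loc
import Pool.Agent.Helper53.OS.Box
import Pool.Agent.Helper53.OS.Tube
import Pool.Agent.Helper53.OS.DualB

/-! Duality for the cluster density (piece KDUAL of MP_195d30_co). -/

set_option autoImplicit false

namespace Pool.Agent.Helper53.OS

open Finset
open scoped Classical

theorem kap_dual {p : ℝ} (h0 : 0 ≤ p) (h1 : p ≤ 1) : kap p = ff p + kap (1 - p) :=
  kap_dual_of (fun _ _ _ => loc) box_upper tube (fun _ _ _ => dual) h0 h1

end Pool.Agent.Helper53.OS
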