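import Pool.Agent.Helper53.OS.Boxes
import Pool.Agent.Helper53.OS.Kap

/-! Duality for the cluster density (piece KDUAL of MP_195d30_co): everything relative to the
statements of LOC, BOX, TUBE and DUALB, which appear here as hypotheses. -/

set_option autoImplicit false

namespace Pool.Agent.Helper53.OS

open Finset
open scoped Classical

/-- the statement of `loc` -/
def LocStmt : Prop := ∀ (V : Type) [Fintype V] [DecidableEq V] (G : SimpleGraph V) (K : ℕ) (v : V)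
    (ι : ℤ × ℤ → V) (_ : ι (0, 0) = v) (_ : Set.InjOn ι (ball (K + 1)))
    (_ : ∀ x ∈ ball K, ∀ u, G.Adj (ι x) u ↔ ∃ y, T.Adj x y ∧ ι y = u) (q : ℝ),
    bern univ q (fun A => ind (v ∈ A ∧ #(clus G A v) ≤ K) * (1 / (#(clus G A v) : ℝ))) =
      kapK K q

/-- the statement of `box_upper` -/
def BoxStmt : Prop := ∀ {η : ℝ} (_ : 0 < η), ∃ L₀ : ℕ, ∀ L ≥ L₀, ∀ p : ℝ, 0 ≤ p → p ≤ 1 →
    bern (box L) p (fun A => (cc T A : ℝ)) ≤ L ^ 2 * (kap p + η)

/-- the statement of `tube` -/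
def TubeStmt : Prop := ∀ (L s : ℕ) (_ : 1 ≤ L) (_ : 3 ≤ s),
    ∃ (V : Type) (_ : Fintype V) (_ : DecidableEq V) (G : SimpleGraph V), IsTri G ∧
      Fintype.card V = L * s * (L * s + 1) + 2 ∧
      (∃ B : Fin (s * s) → ℤ × ℤ → V, (∀ k, Set.InjOn (B k) (box L)) ∧
        (∀ k k', k ≠ k' → Disjoint ((box L).image (B k)) ((box L).image (B k'))) ∧
        (∀ k, ∀ x ∈ box L, ∀ y ∈ box L, G.Adj (B k x) (B k y) ↔ T.Adj x y)) ∧
      (∀ K : ℕ, 2 * K + 5 ≤ L * s → ∃ Gd : Finset V,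
        Fintype.card V ≤ #Gd + (2 * K + 10) * (L * s) ∧
        ∀ v ∈ Gd, ∃ ι : ℤ × ℤ → V, ι (0, 0) = v ∧ Set.InjOn ι (ball (K + 1)) ∧
          ∀ x ∈ ball K, ∀ u, G.Adj (ι x) u ↔ ∃ y, T.Adj x y ∧ ι y = u)

/-- the statement of `dual` -/
def DualStmt : Prop := ∀ (V : Type) [Fintype V] [DecidableEq V] (G : SimpleGraph V) (_ : IsTri G)
    {p : ℝ} (_ : 0 ≤ p) (_ : p ≤ 1),
    |bern univ p (fun A => (cc G A : ℝ)) - (Fintype.card V * ff p
      + bern univ (1 - p) (fun A => (cc G A : ℝ)))| ≤ 10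

theorem ecc_eq {V : Type*} [Fintype V] [DecidableEq V] (G : SimpleGraph V) (p : ℝ) :
    bern univ p (fun A => (cc G A : ℝ)) =
      ∑ v, bern univ p (fun A => ind (v ∈ A) * (1 / (#(clus G A v) : ℝ))) := by
  rw [← bern_sum]
  refine bern_congr fun A _ => ?_
  rw [cc_eq_sum]
  have h1 : ∑ v ∈ A, (1 : ℝ) / (#(clus G A v) : ℝ) =
      ∑ v ∈ A, ind (v ∈ A) * (1 / (#(clus G A v) : ℝ)) :=
    sum_congr rfl fun v hv => by rw [ind_true hv, one_mul]
  rw [h1]
  refine sum_subset (subset_univ A) fun v _ hv => ?_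
  rw [ind_false hv, zero_mul]

theorem ecc_lower (hloc : LocStmt) {V : Type} [Fintype V] [DecidableEq V] (G : SimpleGraph V) (K : ℕ)
    (Gd : Finset V)
    (hGd : ∀ v ∈ Gd, ∃ ι : ℤ × ℤ → V, ι (0, 0) = v ∧ Set.InjOn ι (ball (K + 1)) ∧
          ∀ x ∈ ball K, ∀ u, G.Adj (ι x) u ↔ ∃ y, T.Adj x y ∧ ι y = u)
    {p : ℝ} (h0 : 0 ≤ p) (h1 : p ≤ 1) :
    (#Gd : ℝ) * kapK K p ≤ bern univ p (fun A => (cc G A : ℝ)) := by
  rw [ecc_eq]
  have h2 : (#Gd : ℝ) * kapK K p = ∑ _v ∈ Gd, kapK K p := by rw [sum_const, nsmul_eq_mul]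
  rw [h2]
  calc ∑ _v ∈ Gd, kapK K p
      ≤ ∑ v ∈ Gd, bern univ p (fun A => ind (v ∈ A) * (1 / (#(clus G A v) : ℝ))) := by
        refine sum_le_sum fun v hv => ?_
        obtain ⟨ι, hι0, hinj, hι⟩ := hGd v hv
        rw [← hloc V G K v ι hι0 hinj hι p]
        refine bern_mono h0 h1 fun A _ => ?_
        exact mul_le_mul_of_nonneg_right (ind_mono fun h => h.1) (by positivity)
    _ ≤ _ := by
        refine sum_le_sum_of_subset_of_nonneg (subset_univ _) fun v _ _ => ?_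
        exact bern_nonneg h0 h1 fun A _ => mul_nonneg (ind_nonneg _) (by positivity)

theorem ecc_upper {V : Type*} [Fintype V] [DecidableEq V] (G : SimpleGraph V) {N L : ℕ}
    (B : Fin N → ℤ × ℤ → V) (hinj : ∀ k, Set.InjOn (B k) (box L))
    (hdis : ∀ k k', k ≠ k' → Disjoint ((box L).image (B k)) ((box L).image (B k')))
    (hadj : ∀ k, ∀ x ∈ box L, ∀ y ∈ box L, G.Adj (B k x) (B k y) ↔ T.Adj x y)
    {p : ℝ} (h0 : 0 ≤ p) (h1 : p ≤ 1) :
    bern univ p (fun A => (cc G A : ℝ)) ≤ N * bern (box L) p (fun A => (cc T A : ℝ))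
      + ((Fintype.card V : ℝ) - N * L ^ 2) := by
  refine (bern_mono h0 h1 fun A _ => cc_le_boxes G B hinj hdis A).trans_eq ?_
  rw [bern_add univ p (fun A => ∑ k, (cc G (A ∩ (box L).image (B k)) : ℝ)), bern_const, bern_sum]
  congr 1
  rw [sum_congr rfl (fun k _ => bern_cc_box G (B k) (hinj k) (hadj k) p), sum_const, card_univ,
    Fintype.card_fin, nsmul_eq_mul]

/-- the expected number of components of the tube -/
theorem tube_ecc (hloc : LocStmt) (hboxs : BoxStmt) (htube : TubeStmt) {δ : ℝ} (hδ : 0 < δ) : ∃ C : ℝ, 0 ≤ C ∧ ∀ N : ℕ, ∃ M : ℕ, N ≤ M ∧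
    ∃ (V : Type) (_ : Fintype V) (_ : DecidableEq V) (G : SimpleGraph V), IsTri G ∧
      Fintype.card V = M * (M + 1) + 2 ∧
      ∀ p : ℝ, 0 ≤ p → p ≤ 1 →
        |bern univ p (fun A => (cc G A : ℝ)) - Fintype.card V * kap p| ≤
          Fintype.card V * δ + C * M + 2 := by
  obtain ⟨K, hK⟩ := exists_nat_one_div_lt hδ
  obtain ⟨L₀, hL₀⟩ := hboxs hδ
  obtain ⟨L, hL⟩ : ∃ L, L = max L₀ 1 := ⟨_, rfl⟩
  have hL1 : 1 ≤ L := by rw [hL]; exact le_max_right _ _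
  have hLL : L₀ ≤ L := by rw [hL]; exact le_max_left _ _
  refine ⟨2 * K + 10, by positivity, fun N => ?_⟩
  obtain ⟨s, hs⟩ : ∃ s, s = max 3 (max N (2 * K + 5)) := ⟨_, rfl⟩
  have hs3 : 3 ≤ s := by rw [hs]; exact le_max_left _ _
  have hsN : N ≤ s := by rw [hs]; exact (le_max_left _ _).trans (le_max_right _ _)
  have hsK : 2 * K + 5 ≤ s := by rw [hs]; exact (le_max_right _ _).trans (le_max_right _ _)
  have hsM : s ≤ L * s := Nat.le_mul_of_pos_left s hL1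
  obtain ⟨V, i1, i2, G, hG, hcard, ⟨B, hinj, hdis, hadj⟩, hGd⟩ := htube L s hL1 hs3
  obtain ⟨Gd, hGd1, hGd2⟩ := hGd K (hsK.trans hsM)
  refine ⟨L * s, hsN.trans hsM, V, i1, i2, G, hG, hcard, fun p h0 h1 => ?_⟩
  have hlow := ecc_lower hloc G K Gd hGd2 h0 h1
  have hup := ecc_upper G B hinj hdis hadj h0 h1
  have hbox := hL₀ L hLL p h0 h1
  have hk1 := kapK_le_kap h0 h1 K
  have hk2 := kap_le h0 h1 K
  have hk3 := kap_le_one h0 h1
  have hk4 := kapK_nonneg h0 h1 K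
  obtain ⟨E, hE⟩ : ∃ E, E = bern univ p (fun A => (cc G A : ℝ)) := ⟨_, rfl⟩
  obtain ⟨b, hb⟩ : ∃ b, b = bern (box L) p (fun A => (cc T A : ℝ)) := ⟨_, rfl⟩
  rw [← hE] at hlow hup ⊢
  rw [← hb] at hup hbox
  obtain ⟨n, hn⟩ : ∃ n : ℝ, n = (Fintype.card V : ℝ) := ⟨_, rfl⟩
  rw [← hn] at hup ⊢
  obtain ⟨M, hM⟩ : ∃ M : ℝ, M = ((L * s : ℕ) : ℝ) := ⟨_, rfl⟩
  rw [← hM]
  have hM' : M = (L : ℝ) * s := by rw [hM]; push_cast; ring
  have hn' : n = M * (M + 1) + 2 := by rw [hn, hcard, hM]; push_cast; ring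
  have hM0 : 0 ≤ M := by rw [hM]; positivity
  have hGd3 : n ≤ #Gd + (2 * K + 10) * M := by
    rw [hn, hM]; exact_mod_cast hGd1
  have hNs : (((s * s : ℕ) : ℝ)) * L ^ 2 = M ^ 2 := by rw [hM']; push_cast; ring
  have hss : (0 : ℝ) ≤ ((s * s : ℕ) : ℝ) := by positivity
  rw [abs_le]
  constructor
  · -- lower bound
    have h2 : (n - (2 * K + 10) * M) * kapK K p ≤ E :=
      (mul_le_mul_of_nonneg_right (by linarith) hk4).trans hlow
    have h3 : (2 * K + 10) * M * kapK K p ≤ (2 * K + 10) * M := by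
      have : 0 ≤ (2 * (K : ℝ) + 10) * M := by positivity
      nlinarith
    have hn0 : 0 ≤ n := by rw [hn']; positivity
    have h4 : n * kap p ≤ n * kapK K p + n * δ := by
      rw [← mul_add]
      exact mul_le_mul_of_nonneg_left (by linarith) hn0
    linarith
  · have h2 : ((s * s : ℕ) : ℝ) * b ≤ ((s * s : ℕ) : ℝ) * (L ^ 2 * (kap p + δ)) :=
      mul_le_mul_of_nonneg_left hbox hss
    have h3 : ((s * s : ℕ) : ℝ) * (L ^ 2 * (kap p + δ)) = M ^ 2 * (kap p + δ) := by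
      rw [← mul_assoc, hNs]
    rw [hNs] at hup
    have h4 : M ^ 2 * (kap p + δ) ≤ n * (kap p + δ) := by
      refine mul_le_mul_of_nonneg_right (by rw [hn']; nlinarith) (by linarith)
    have h5 : 0 ≤ (2 * (K : ℝ) + 9) * M := by positivity
    have h6 : n - M ^ 2 = M + 2 := by rw [hn']; ring
    linarith

theorem kap_dual_of (hloc : LocStmt) (hboxs : BoxStmt) (htube : TubeStmt) (hdual : DualStmt)
    {p : ℝ} (h0 : 0 ≤ p) (h1 : p ≤ 1) : kap p = ff p + kap (1 - p) := by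
  have key : ∀ δ : ℝ, 0 < δ → |kap p - (ff p + kap (1 - p))| ≤ 3 * δ := by
    intro δ hδ
    obtain ⟨C, hC, hN⟩ := tube_ecc hloc hboxs htube hδ
    obtain ⟨N, hN1⟩ := exists_nat_ge (max 1 ((2 * C + 14) / δ))
    obtain ⟨M, hNM, V, i1, i2, G, hG, hcard, hE⟩ := hN N
    have ha := hE p h0 h1
    have hb := hE (1 - p) (by linarith) (by linarith)
    have hd := hdual V G hG h0 h1
    obtain ⟨n, hn⟩ : ∃ n : ℝ, n = (Fintype.card V : ℝ) := ⟨_, rfl⟩
    rw [← hn] at ha hb hd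
    have hMN : (N : ℝ) ≤ M := by exact_mod_cast hNM
    have hM1 : (1 : ℝ) ≤ M := (le_max_left _ _).trans (hN1.trans hMN)
    have hM2 : (2 * C + 14) / δ ≤ M := (le_max_right _ _).trans (hN1.trans hMN)
    have hM3 : 2 * C + 14 ≤ M * δ := by rwa [div_le_iff₀ hδ] at hM2
    have hn' : n = M * (M + 1) + 2 := by rw [hn, hcard]; push_cast; ring
    have hn0 : 0 < n := by rw [hn']; positivity
    have h2 : n * |kap p - (ff p + kap (1 - p))| ≤ n * (3 * δ) := by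
      have h3 : n * |kap p - (ff p + kap (1 - p))| =
          |n * kap p - (n * ff p + n * kap (1 - p))| := by
        rw [← abs_of_pos hn0, ← abs_mul, abs_of_pos hn0]
        congr 1
        ring
      rw [h3]
      have h4 : 2 * (C * M) + 14 ≤ n * δ := by
        have h5 : (2 * C + 14) * M ≤ M * δ * M := mul_le_mul_of_nonneg_right hM3 (by linarith)
        have h6 : 14 ≤ 14 * (M : ℝ) := by linarith
        have h7 : M * δ * M ≤ n * δ := by
          rw [hn']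
          have : 0 ≤ ((M : ℝ) + 2) * δ := by positivity
          nlinarith
        nlinarith
      rw [abs_le] at ha hb hd ⊢
      constructor <;> linarith [ha.1, ha.2, hb.1, hb.2, hd.1, hd.2]
    exact le_of_mul_le_mul_left h2 hn0
  have h2 : |kap p - (ff p + kap (1 - p))| ≤ 0 := by
    refine le_of_forall_pos_le_add fun ε hε => ?_
    have := key (ε / 3) (by positivity)
    linarith
  have h3 := abs_nonpos_iff.1 h2
  linarith

end Pool.Agent.Helper53.OS
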