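import Pool.Agent.Helper53.OS.Ccs

/-! Piece PERM of MP_195d30_co: uniform orders versus Bernoulli percolation. -/

set_option autoImplicit false

namespace Pool.Agent.Helper53.OS

open Finset
open scoped Classical

/-! ### binomial probabilities -/

/-- the terms of the binomial expansion of `(s + (n - s)) ^ n` -/
def bt (n s k : ℕ) : ℕ := n.choose k * s ^ k * (n - s) ^ (n - k)

theorem bt_succ {n s k : ℕ} (hk : k < n) :
    bt n s (k + 1) * ((k + 1) * (n - s)) = bt n s k * ((n - k) * s) := by
  unfold bt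
  have h1 : n.choose (k + 1) * (k + 1) = n.choose k * (n - k) := Nat.choose_succ_right_eq n k
  have h2 : n - k = (n - (k + 1)) + 1 := by omega
  calc n.choose (k + 1) * s ^ (k + 1) * (n - s) ^ (n - (k + 1)) * ((k + 1) * (n - s))
      = (n.choose (k + 1) * (k + 1)) * (s ^ (k + 1)) * ((n - s) ^ (n - (k + 1)) * (n - s)) := by ring
    _ = (n.choose k * (n - k)) * s ^ (k + 1) * (n - s) ^ (n - k) := by
        rw [h1, ← pow_succ, ← h2]
    _ = n.choose k * s ^ k * (n - s) ^ (n - k) * ((n - k) * s) := by ring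

theorem bt_mono_left {n s k : ℕ} (hs : s ≤ n) (hk : k < s) : bt n s k ≤ bt n s (k + 1) := by
  rcases Nat.eq_or_lt_of_le hs with rfl | hlt
  · have : bt s s k = 0 := by
      unfold bt
      rw [Nat.sub_self, zero_pow (by omega), mul_zero]
    rw [this]
    exact Nat.zero_le _
  · have h := bt_succ (n := n) (s := s) (k := k) (by omega)
    have h2 : (k + 1) * (n - s) ≤ (n - k) * s := by
      obtain ⟨a, rfl⟩ := Nat.exists_eq_add_of_lt hk
      obtain ⟨b, rfl⟩ := Nat.exists_eq_add_of_lt hlt
      have e1 : k + a + 1 + b + 1 - (k + a + 1) = b + 1 := by omega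
      have e2 : k + a + 1 + b + 1 - k = a + 1 + b + 1 := by omega
      rw [e1, e2]
      nlinarith
    have hpos : 0 < (k + 1) * (n - s) := Nat.mul_pos (by omega) (by omega)
    refine Nat.le_of_mul_le_mul_right ?_ hpos
    rw [h]
    exact Nat.mul_le_mul_left _ h2

theorem bt_mono_right {n s k : ℕ} (hs : s ≤ k) (hk : k < n) : bt n s (k + 1) ≤ bt n s k := by
  have h := bt_succ (n := n) (s := s) (k := k) hk
  have h2 : (n - k) * s ≤ (k + 1) * (n - s) := by
    obtain ⟨a, rfl⟩ := Nat.exists_eq_add_of_le hs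
    obtain ⟨b, rfl⟩ := Nat.exists_eq_add_of_lt hk
    have e1 : s + a + b + 1 - s = a + b + 1 := by omega
    have e2 : s + a + b + 1 - (s + a) = b + 1 := by omega
    rw [e1, e2]
    nlinarith
  have hpos : 0 < (k + 1) * (n - s) := Nat.mul_pos (by omega) (by omega)
  refine Nat.le_of_mul_le_mul_right ?_ hpos
  rw [h]
  exact Nat.mul_le_mul_left _ h2

theorem bt_le {n s k : ℕ} (hs : s ≤ n) (hk : k ≤ n) : bt n s k ≤ bt n s s := by
  rcases le_total k s with h | h
  · obtain ⟨d, hd⟩ := Nat.exists_eq_add_of_le h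
    induction d generalizing k with
    | zero => rw [hd]; simp
    | succ d ih =>
      have h1 : bt n s k ≤ bt n s (k + 1) := bt_mono_left hs (by omega)
      exact h1.trans (ih (by omega) (by omega) (by omega))
  · induction k, h using Nat.le_induction with
    | base => exact le_rfl
    | succ m hm ih => exact (bt_mono_right hm (by omega)).trans (ih (by omega))

theorem pow_le_bt {n s : ℕ} (hs : s ≤ n) : n ^ n ≤ (n + 1) * bt n s s := by
  have h : n ^ n = ∑ k ∈ range (n + 1), bt n s k := by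
    have h1 : n ^ n = (s + (n - s)) ^ n := by rw [Nat.add_sub_cancel' hs]
    rw [h1, add_pow]
    refine sum_congr rfl fun k _ => ?_
    unfold bt
    push_cast
    ring
  rw [h]
  calc ∑ k ∈ range (n + 1), bt n s k ≤ ∑ _k ∈ range (n + 1), bt n s s :=
        sum_le_sum fun k hk => bt_le hs (by have := mem_range.1 hk; omega)
    _ = (n + 1) * bt n s s := by rw [sum_const, card_range, smul_eq_mul]

/-- the largest binomial probability is at least `1 / (n + 1)` -/
theorem mode_ge {n s : ℕ} (hn : 0 < n) (hs : s ≤ n) :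
    1 ≤ ((n : ℝ) + 1) * (n.choose s * ((s : ℝ) / n) ^ s * (1 - (s : ℝ) / n) ^ (n - s)) := by
  have h := pow_le_bt hs
  have hn' : (0 : ℝ) < n := by exact_mod_cast hn
  have h1 : (1 - (s : ℝ) / n) = ((n - s : ℕ) : ℝ) / n := by
    rw [Nat.cast_sub hs]
    field_simp
  rw [h1, div_pow, div_pow]
  have h2 : ((n : ℝ) ^ s) * (n : ℝ) ^ (n - s) = (n : ℝ) ^ n := by
    rw [← pow_add]
    congr 1
    omega
  have h3 : ((n : ℝ) + 1) * (n.choose s * ((s : ℝ) ^ s / (n : ℝ) ^ s)
      * (((n - s : ℕ) : ℝ) ^ (n - s) / (n : ℝ) ^ (n - s)))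
      = (((n + 1) * bt n s s : ℕ) : ℝ) / (n : ℝ) ^ n := by
    rw [← h2]
    unfold bt
    push_cast
    field_simp
  rw [h3, le_div_iff₀ (by positivity), one_mul]
  exact_mod_cast h

/-! ### uniform orders -/

section perm
variable {V : Type*} [Fintype V]

theorem card_pre (σ : Fin (Fintype.card V) ≃ V) {s : ℕ} (hs : s ≤ Fintype.card V) :
    #(pre σ s) = s := by
  unfold pre
  rw [card_image_of_injective _ σ.injective]
  have : (univ.filter (fun i : Fin (Fintype.card V) => i.val < s)) =
      (univ : Finset (Fin s)).map (Fin.castLEEmb hs) := by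
    ext i
    simp only [mem_filter, mem_univ, true_and, mem_map]
    constructor
    · intro h
      exact ⟨⟨i.val, h⟩, by ext; simp⟩
    · rintro ⟨j, rfl⟩
      simp
  rw [this, card_map, card_univ, Fintype.card_fin]

theorem pre_trans (σ : Fin (Fintype.card V) ≃ V) (π : V ≃ V) (s : ℕ) :
    pre (σ.trans π) s = (pre σ s).image π := by
  unfold pre
  rw [image_image]
  rfl

/-- the number of orders whose first `s` vertices are `A` -/
noncomputable def cnt (s : ℕ) (A : Finset V) : ℕ :=
  #(univ.filter (fun σ : Fin (Fintype.card V) ≃ V => pre σ s = A))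

theorem exists_perm {A B : Finset V} (h : #A = #B) : ∃ π : V ≃ V, A.image π = B := by
  let e : {x // x ∈ A} ≃ {x // x ∈ B} := Finset.equivOfCardEq h
  refine ⟨e.extendSubtype, ?_⟩
  ext x
  simp only [mem_image]
  constructor
  · rintro ⟨a, ha, rfl⟩
    exact Equiv.extendSubtype_mem e a ha
  · intro hx
    refine ⟨e.symm ⟨x, hx⟩, (e.symm ⟨x, hx⟩).2, ?_⟩
    rw [Equiv.extendSubtype_apply_of_mem e _ (e.symm ⟨x, hx⟩).2]
    simp

theorem cnt_eq {s : ℕ} {A B : Finset V} (h : #A = #B) : cnt s A = cnt s B := by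
  obtain ⟨π, hπ⟩ := exists_perm h
  unfold cnt
  refine card_bij' (fun σ _ => σ.trans π) (fun σ _ => σ.trans π.symm) ?_ ?_ ?_ ?_
  · intro σ hσ
    simp only [mem_filter, mem_univ, true_and] at hσ ⊢
    rw [pre_trans, hσ, hπ]
  · intro σ hσ
    simp only [mem_filter, mem_univ, true_and] at hσ ⊢
    rw [pre_trans, hσ, ← hπ, image_image]
    have : (π.symm : V → V) ∘ π = id := by
      funext x
      simp
    rw [this, image_id]
  · intro σ _
    ext x
    simp
  · intro σ _
    ext x
    simp

theorem sum_perm {s : ℕ} (hs : s ≤ Fintype.card V) (F : Finset V → ℝ) :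
    ∑ σ : Fin (Fintype.card V) ≃ V, F (pre σ s) =
      ∑ A ∈ (univ : Finset V).powersetCard s, (cnt s A : ℝ) * F A := by
  have h1 : ∀ σ : Fin (Fintype.card V) ≃ V, F (pre σ s) =
      ∑ A ∈ (univ : Finset V).powersetCard s, if pre σ s = A then F A else 0 := by
    intro σ
    rw [sum_ite_eq, if_pos]
    rw [mem_powersetCard]
    exact ⟨subset_univ _, card_pre σ hs⟩
  rw [sum_congr rfl fun σ _ => h1 σ, sum_comm]
  refine sum_congr rfl fun A _ => ?_
  rw [← sum_filter, sum_const, nsmul_eq_mul]
  rfl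

theorem card_orders : Fintype.card (Fin (Fintype.card V) ≃ V) = (Fintype.card V).factorial := by
  rw [Fintype.card_equiv (Fintype.equivFin V).symm, Fintype.card_fin]

theorem cnt_mul {s : ℕ} (hs : s ≤ Fintype.card V) {A : Finset V} (hA : #A = s) :
    (cnt s A : ℝ) * ((Fintype.card V).choose s : ℝ) = ((Fintype.card V).factorial : ℝ) := by
  have h := sum_perm (V := V) hs (fun _ => 1)
  have h1 : ∑ A' ∈ (univ : Finset V).powersetCard s, (cnt s A' : ℝ) * 1
      = ((Fintype.card V).choose s : ℝ) * (cnt s A : ℝ) := by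
    rw [← card_univ (α := V), ← card_powersetCard, ← nsmul_eq_mul, ← sum_const]
    refine sum_congr rfl fun A' hA' => ?_
    rw [mul_one, cnt_eq (A := A') (B := A)]
    rw [(mem_powersetCard.1 hA').2, hA]
  rw [h1, sum_const, nsmul_eq_mul, mul_one, card_univ, card_orders] at h
  rw [h]
  ring

/-- average over orders = average over subsets -/
theorem avg_eq {s : ℕ} (hs : s ≤ Fintype.card V) (F : Finset V → ℝ) :
    (∑ σ : Fin (Fintype.card V) ≃ V, F (pre σ s)) / (Fintype.card V).factorial *
      ((Fintype.card V).choose s : ℝ) = ∑ A ∈ (univ : Finset V).powersetCard s, F A := by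
  have hf : ((Fintype.card V).factorial : ℝ) ≠ 0 := by
    exact_mod_cast Nat.factorial_ne_zero _
  rw [sum_perm hs, div_mul_eq_mul_div, div_eq_iff hf, sum_mul, sum_mul]
  refine sum_congr rfl fun A hA => ?_
  rw [← cnt_mul hs (mem_powersetCard.1 hA).2]
  ring

end perm

section bern
variable {V : Type*} [Fintype V]

theorem bern_eq_sum [DecidableEq V] (p : ℝ) (F : Finset V → ℝ) :
    bern univ p F = ∑ s ∈ range (Fintype.card V + 1),
      p ^ s * (1 - p) ^ (Fintype.card V - s) * ∑ A ∈ (univ : Finset V).powersetCard s, F A := by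
  unfold bern
  rw [Finset.sum_powerset]
  rw [card_univ]
  refine sum_congr rfl fun s _ => ?_
  rw [mul_sum]
  refine sum_congr rfl fun A hA => ?_
  rw [card_sdiff_of_subset (subset_univ A), card_univ, (mem_powersetCard.1 hA).2]

theorem perm_cc_empty {W : Type*} (G : SimpleGraph W) : cc G (∅ : Finset W) = 0 := by
  have := cc_le_card G (∅ : Finset W)
  simpa using this

/-- a constant time is a stopping algorithm -/
theorem isStop_const {s : ℕ} (h1 : 1 ≤ s) (h2 : s ≤ Fintype.card V) :
    IsStop (fun _ : Fin (Fintype.card V) ≃ V => s) :=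
  ⟨fun _ => h1, fun _ => h2, fun _ _ _ => rfl⟩

/-- the expected number of components at the fixed time `s` -/
noncomputable def Ex (G : SimpleGraph V) (s : ℕ) : ℝ :=
  (∑ σ : Fin (Fintype.card V) ≃ V, (cc G (pre σ s) : ℝ)) / (Fintype.card V).factorial

theorem Ex_nonneg (G : SimpleGraph V) (s : ℕ) : 0 ≤ Ex G s :=
  div_nonneg (sum_nonneg fun _ _ => Nat.cast_nonneg _) (Nat.cast_nonneg _)

theorem Ex_zero (G : SimpleGraph V) : Ex G 0 = 0 := by
  unfold Ex
  have : ∀ σ : Fin (Fintype.card V) ≃ V, (cc G (pre σ 0) : ℝ) = 0 := by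
    intro σ
    have h3 : pre σ 0 = ∅ := by
      rw [← card_eq_zero]
      exact card_pre σ (Nat.zero_le _)
    rw [h3, perm_cc_empty, Nat.cast_zero]
  rw [sum_congr rfl fun σ _ => this σ]
  simp

theorem score_const (G : SimpleGraph V) (s : ℕ) :
    score G (fun _ : Fin (Fintype.card V) ≃ V => s) = Ex G s := rfl

theorem exists_stop {V : Type*} [Fintype V] [inst : DecidableEq V] [Nonempty V]
    (G : SimpleGraph V) {p : ℝ}
    (h0 : 0 ≤ p) (h1 : p ≤ 1) : ∃ 𝒜 : (Fin (Fintype.card V) ≃ V) → ℕ, IsStop 𝒜 ∧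
    bern univ p (fun A => (cc G A : ℝ)) ≤ score G 𝒜 := by
  obtain rfl : inst = (fun a b => Classical.propDecidable (a = b)) := Subsingleton.elim _ _
  have hn0 : 0 < Fintype.card V := Fintype.card_pos
  obtain ⟨s, hs, hmax⟩ := exists_max_image (Icc 1 (Fintype.card V)) (Ex G) ⟨1, by simp; omega⟩
  rw [mem_Icc] at hs
  refine ⟨fun _ => s, isStop_const hs.1 hs.2, ?_⟩
  rw [score_const, bern_eq_sum]
  have hsum : ∑ k ∈ range (Fintype.card V + 1),
      p ^ k * (1 - p) ^ (Fintype.card V - k) * ((Fintype.card V).choose k : ℝ) = 1 := by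
    have := add_pow p (1 - p) (Fintype.card V)
    rw [add_sub_cancel, one_pow] at this
    exact this.symm
  calc ∑ k ∈ range (Fintype.card V + 1), p ^ k * (1 - p) ^ (Fintype.card V - k) *
        ∑ A ∈ (univ : Finset V).powersetCard k, (cc G A : ℝ)
      ≤ ∑ k ∈ range (Fintype.card V + 1), p ^ k * (1 - p) ^ (Fintype.card V - k) *
          (((Fintype.card V).choose k : ℝ) * Ex G s) := by
        refine sum_le_sum fun k hk => ?_
        have hk' : k ≤ Fintype.card V := by have := mem_range.1 hk; omega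
        refine mul_le_mul_of_nonneg_left ?_
          (mul_nonneg (pow_nonneg h0 _) (pow_nonneg (by linarith) _))
        have havg := avg_eq (V := V) hk' (fun A => (cc G A : ℝ))
        rw [← havg, mul_comm]
        refine mul_le_mul_of_nonneg_left ?_ (Nat.cast_nonneg _)
        change Ex G k ≤ Ex G s
        rcases Nat.eq_zero_or_pos k with rfl | hk0
        · rw [Ex_zero]
          exact Ex_nonneg G s
        · exact hmax k (mem_Icc.2 ⟨hk0, hk'⟩)
    _ = (∑ k ∈ range (Fintype.card V + 1),
          p ^ k * (1 - p) ^ (Fintype.card V - k) * ((Fintype.card V).choose k : ℝ)) * Ex G s := by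
        rw [sum_mul]
        exact sum_congr rfl fun k _ => by ring
    _ = Ex G s := by rw [hsum, one_mul]

/-- the probability that the first `s` vertices have more than `Z` components -/
noncomputable def Pr (G : SimpleGraph V) (Z : ℝ) (s : ℕ) : ℝ :=
  (∑ σ : Fin (Fintype.card V) ≃ V, ind (Z < cc G (pre σ s))) / (Fintype.card V).factorial

theorem score_le_Pr (G : SimpleGraph V)
    (𝒜 : (Fin (Fintype.card V) ≃ V) → ℕ) (h𝒜 : IsStop 𝒜) {Z : ℝ} (hZ : 0 ≤ Z) :
    score G 𝒜 ≤ Z + Fintype.card V * ∑ s ∈ range (Fintype.card V + 1), Pr G Z s := by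
  have hf : (0 : ℝ) < ((Fintype.card V).factorial : ℝ) := by
    exact_mod_cast Nat.factorial_pos _
  -- pointwise bound
  have hpt : ∀ σ : Fin (Fintype.card V) ≃ V, (cc G (pre σ (𝒜 σ)) : ℝ) ≤
      Z + Fintype.card V * ∑ s ∈ range (Fintype.card V + 1), ind (Z < cc G (pre σ s)) := by
    intro σ
    by_cases hlt : Z < cc G (pre σ (𝒜 σ))
    · have h1 : (cc G (pre σ (𝒜 σ)) : ℝ) ≤ Fintype.card V := by
        have := (cc_le_card G (pre σ (𝒜 σ))).trans (card_le_univ _)
        exact_mod_cast this
      have h2 : (1 : ℝ) ≤ ∑ s ∈ range (Fintype.card V + 1), ind (Z < cc G (pre σ s)) := by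
        have hmem : 𝒜 σ ∈ range (Fintype.card V + 1) := by
          rw [mem_range]
          have := h𝒜.le_card σ
          omega
        calc (1 : ℝ) = ind (Z < cc G (pre σ (𝒜 σ))) := (ind_true hlt).symm
          _ ≤ _ := single_le_sum (f := fun s => ind (Z < cc G (pre σ s)))
            (fun s _ => ind_nonneg _) hmem
      have h3 : (Fintype.card V : ℝ) * 1 ≤
          Fintype.card V * ∑ s ∈ range (Fintype.card V + 1), ind (Z < cc G (pre σ s)) :=
        mul_le_mul_of_nonneg_left h2 (Nat.cast_nonneg _)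
      linarith
    · have h2 : (0 : ℝ) ≤ Fintype.card V *
          ∑ s ∈ range (Fintype.card V + 1), ind (Z < cc G (pre σ s)) :=
        mul_nonneg (Nat.cast_nonneg _) (sum_nonneg fun s _ => ind_nonneg _)
      linarith [not_lt.1 hlt]
  unfold score Pr
  rw [div_le_iff₀ hf]
  calc ∑ σ : Fin (Fintype.card V) ≃ V, (cc G (pre σ (𝒜 σ)) : ℝ)
      ≤ ∑ σ : Fin (Fintype.card V) ≃ V, (Z + Fintype.card V *
          ∑ s ∈ range (Fintype.card V + 1), ind (Z < cc G (pre σ s))) :=
        sum_le_sum fun σ _ => hpt σ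
    _ = _ := by
        rw [sum_add_distrib, sum_const, card_univ, card_orders, nsmul_eq_mul, ← mul_sum, sum_comm,
          add_mul, ← sum_div, mul_assoc, div_mul_cancel₀ _ hf.ne', mul_comm Z]

theorem score_le {V : Type*} [Fintype V] [inst : DecidableEq V] [Nonempty V] (G : SimpleGraph V)
    (𝒜 : (Fin (Fintype.card V) ≃ V) → ℕ) (h𝒜 : IsStop 𝒜) {Z : ℝ} (hZ : 0 ≤ Z) :
    score G 𝒜 ≤ Z + Fintype.card V * (Fintype.card V + 1) * ∑ s ∈ range (Fintype.card V + 1),
      bern univ ((s : ℝ) / Fintype.card V) (fun A => ind (Z < cc G A)) := by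
  obtain rfl : inst = (fun a b => Classical.propDecidable (a = b)) := Subsingleton.elim _ _
  have hn0 : 0 < Fintype.card V := Fintype.card_pos
  refine (score_le_Pr G 𝒜 h𝒜 hZ).trans ?_
  have h5 : ∑ s ∈ range (Fintype.card V + 1), Pr G Z s
      ≤ (Fintype.card V + 1) * ∑ s ∈ range (Fintype.card V + 1),
      bern univ ((s : ℝ) / Fintype.card V) (fun A => ind (Z < cc G A)) := by
    rw [mul_sum]
    refine sum_le_sum fun s hs => ?_
    have hs' : s ≤ Fintype.card V := by have := mem_range.1 hs; omega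
    have hP0 : 0 ≤ Pr G Z s :=
      div_nonneg (sum_nonneg fun σ _ => ind_nonneg _) (Nat.cast_nonneg _)
    have havg : Pr G Z s * ((Fintype.card V).choose s : ℝ) =
        ∑ A ∈ (univ : Finset V).powersetCard s, ind (Z < cc G A) :=
      avg_eq (V := V) hs' (fun A => ind (Z < cc G A))
    have hm := mode_ge hn0 hs'
    have hx0 : (0 : ℝ) ≤ (s : ℝ) / Fintype.card V := by positivity
    have hx1 : (s : ℝ) / Fintype.card V ≤ 1 := by
      rw [div_le_one (by exact_mod_cast hn0)]
      exact_mod_cast hs'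
    have hb : ((s : ℝ) / Fintype.card V) ^ s *
        (1 - (s : ℝ) / Fintype.card V) ^ (Fintype.card V - s) *
        ∑ A ∈ (univ : Finset V).powersetCard s, ind (Z < cc G A) ≤
        bern univ ((s : ℝ) / Fintype.card V) (fun A => ind (Z < cc G A)) := by
      rw [bern_eq_sum]
      refine single_le_sum (f := fun k => ((s : ℝ) / Fintype.card V) ^ k *
        (1 - (s : ℝ) / Fintype.card V) ^ (Fintype.card V - k) *
        ∑ A ∈ (univ : Finset V).powersetCard k, ind (Z < cc G A)) ?_ hs
      intro k _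
      exact mul_nonneg (mul_nonneg (pow_nonneg hx0 _) (pow_nonneg (by linarith) _))
        (sum_nonneg fun A _ => ind_nonneg _)
    have hn1 : (0 : ℝ) ≤ (Fintype.card V : ℝ) + 1 := by positivity
    calc Pr G Z s = 1 * Pr G Z s := (one_mul _).symm
      _ ≤ (((Fintype.card V : ℝ) + 1) * ((Fintype.card V).choose s *
            ((s : ℝ) / Fintype.card V) ^ s *
            (1 - (s : ℝ) / Fintype.card V) ^ (Fintype.card V - s))) * Pr G Z s :=
          mul_le_mul_of_nonneg_right hm hP0
      _ = ((Fintype.card V : ℝ) + 1) * (((s : ℝ) / Fintype.card V) ^ s *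
            (1 - (s : ℝ) / Fintype.card V) ^ (Fintype.card V - s) *
        ∑ A ∈ (univ : Finset V).powersetCard s, ind (Z < cc G A)) := by
          rw [← havg]
          ring
      _ ≤ _ := mul_le_mul_of_nonneg_left hb hn1
  have h6 := mul_le_mul_of_nonneg_left h5 (Nat.cast_nonneg (α := ℝ) (Fintype.card V))
  rw [← mul_assoc] at h6
  linarith

end bern

end Pool.Agent.Helper53.OS
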