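import Pool.Agent.Helper53.OS.Ccs
import Pool.Agent.Helper53.OS.Kap
import Pool.Agent.Helper53.OS.Cher
import Pool.Agent.Helper53.OS.Box
import Pool.Agent.Helper53.OS.Tube
import Pool.Agent.Helper53.OS.Perm

/-! MP_195d30_co, piece UPPER -/

set_option autoImplicit false
namespace Pool.Agent.Helper53.OS
open Finset
open scoped Classical

namespace Up

/-- transport of Bernoulli percolation along an injection -/
theorem bern_image {V W : Type*} [DecidableEq V] [DecidableEq W] (S : Finset W) (f : W → V)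
    (hf : Set.InjOn f S) (p : ℝ) (F : Finset V → ℝ) :
    bern (S.image f) p F = bern S p (fun A => F (A.image f)) := by
  unfold bern
  rw [powerset_image, sum_image]
  · refine sum_congr rfl fun A hA => ?_
    have hA' := mem_powerset.1 hA
    have e1 : #(A.image f) = #A := card_image_of_injOn (hf.mono hA')
    have e2 : #(S.image f \ A.image f) = #(S \ A) := by
      rw [card_sdiff_of_subset (image_subset_image hA'), card_sdiff_of_subset hA', e1,
        card_image_of_injOn hf]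
    rw [e1, e2]
  · intro A hA A' hA' h0
    have h : A.image f = A'.image f := h0
    have hA1 := mem_powerset.1 (mem_coe.1 hA)
    have hA2 := mem_powerset.1 (mem_coe.1 hA')
    ext x
    constructor
    · intro hx
      have : f x ∈ A'.image f := h ▸ mem_image_of_mem f hx
      obtain ⟨y, hy, hxy⟩ := mem_image.1 this
      rwa [← hf (hA2 hy) (hA1 hx) hxy]
    · intro hx
      have : f x ∈ A.image f := h ▸ mem_image_of_mem f hx
      obtain ⟨y, hy, hxy⟩ := mem_image.1 this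
      rwa [← hf (hA1 hy) (hA2 hx) hxy]

theorem card_box (L : ℕ) : #(box L) = L ^ 2 := by
  unfold box
  rw [card_product, Int.card_Ico]
  simp [sq]

theorem cc_empty {V : Type*} (G : SimpleGraph V) : cc G (∅ : Finset V) = 0 := by
  have := cc_le_card G (∅ : Finset V)
  simpa using this

theorem cc_union_le' {V : Type*} [D : DecidableEq V] (G : SimpleGraph V) (A B : Finset V) :
    cc G (A ∪ B) ≤ cc G A + cc G B := by
  have e : D = fun a b => Classical.propDecidable (a = b) := Subsingleton.elim _ _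
  subst e
  exact cc_union_le G A B

theorem cc_image' {V W : Type*} [D : DecidableEq V] (G : SimpleGraph V) (H : SimpleGraph W)
    (f : W → V) (A : Finset W) (hf : Set.InjOn f A)
    (hadj : ∀ x ∈ A, ∀ y ∈ A, G.Adj (f x) (f y) ↔ H.Adj x y) :
    cc G (A.image f) = cc H A := by
  have e : D = fun a b => Classical.propDecidable (a = b) := Subsingleton.elim _ _
  subst e
  exact cc_image G H f A hf hadj

theorem cc_biUnion_le {V ι : Type*} [DecidableEq V] (G : SimpleGraph V) (I : Finset ι)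
    (F : ι → Finset V) : cc G (I.biUnion F) ≤ ∑ k ∈ I, cc G (F k) := by
  induction I using Finset.induction_on with
  | empty => rw [biUnion_empty, cc_empty, sum_empty]
  | insert k I hk ih =>
    rw [biUnion_insert, sum_insert hk]
    exact (cc_union_le' G _ _).trans (Nat.add_le_add_left ih _)

theorem kap_le_XX {p : ℝ} (h0 : 0 ≤ p) (h1 : p ≤ 1) : kap p ≤ XX := by
  unfold XX
  exact le_ciSup (f := fun p : Set.Icc (0 : ℝ) 1 => kap p.1)
    ⟨1, by rintro _ ⟨p, rfl⟩; exact kap_le_one p.2.1 p.2.2⟩ (⟨p, h0, h1⟩ : Set.Icc (0 : ℝ) 1)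

theorem kap_nonneg {p : ℝ} (h0 : 0 ≤ p) (h1 : p ≤ 1) : 0 ≤ kap p :=
  (kapK_nonneg h0 h1 0).trans (kapK_le_kap h0 h1 0)

theorem XX_nonneg : 0 ≤ XX := (kap_nonneg (p := 0) le_rfl zero_le_one).trans
  (kap_le_XX le_rfl zero_le_one)

/-- the deterministic bound -/
theorem det {V : Type*} [Fintype V] [DecidableEq V] (G : SimpleGraph V) {n M : ℕ}
    (Bx : Fin n → Finset V) (hdis : ∀ k k', k ≠ k' → Disjoint (Bx k) (Bx k'))
    (hc : ∀ k, #(Bx k) = M) (A : Finset V) :
    (cc G A : ℝ) ≤ ∑ k, (cc G (A ∩ Bx k) : ℝ) + (Fintype.card V - n * M) := by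
  have hU : A = (univ.biUnion fun k => A ∩ Bx k) ∪ (A \ univ.biUnion Bx) := by
    ext x
    simp only [mem_union, mem_biUnion, mem_univ, true_and, mem_inter, mem_sdiff]
    constructor
    · intro hx
      by_cases h : ∃ k, x ∈ Bx k
      · obtain ⟨k, hk⟩ := h
        exact Or.inl ⟨k, hx, hk⟩
      · exact Or.inr ⟨hx, h⟩
    · rintro (⟨k, hx, _⟩ | ⟨hx, _⟩) <;> exact hx
  have hcard : #(univ.biUnion Bx) = n * M := by
    rw [card_biUnion (fun k _ k' _ h => hdis k k' h), sum_congr rfl (fun k _ => hc k)]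
    simp
  have h3 : cc G A ≤ ∑ k, cc G (A ∩ Bx k) + #(A \ univ.biUnion Bx) := by
    calc cc G A = cc G ((univ.biUnion fun k => A ∩ Bx k) ∪ (A \ univ.biUnion Bx)) := by
          rw [← hU]
      _ ≤ _ := (cc_union_le' G _ _).trans (Nat.add_le_add (cc_biUnion_le G _ _) (cc_le_card G _))
  have h4 : #(A \ univ.biUnion Bx) + n * M ≤ Fintype.card V := by
    rw [← hcard, ← card_union_of_disjoint sdiff_disjoint]
    exact card_le_univ _
  have h3' : (cc G A : ℝ) ≤ ∑ k, (cc G (A ∩ Bx k) : ℝ) + #(A \ univ.biUnion Bx) := by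
    exact_mod_cast h3
  have h4' : (#(A \ univ.biUnion Bx) : ℝ) + n * M ≤ Fintype.card V := by
    exact_mod_cast h4
  linarith

/-- one box -/
theorem box_mean {V : Type*} [DecidableEq V] (G : SimpleGraph V) {L : ℕ}
    (f : ℤ × ℤ → V) (hinj : Set.InjOn f (box L))
    (hadj : ∀ x ∈ box L, ∀ y ∈ box L, G.Adj (f x) (f y) ↔ T.Adj x y) (p : ℝ) :
    bern ((box L).image f) p (fun A => (cc G (A ∩ (box L).image f) : ℝ)) =
      bern (box L) p (fun A => (cc T A : ℝ)) := by
  rw [bern_image (box L) f hinj]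
  refine bern_congr fun A hA => ?_
  have e2 : A.image f ∩ (box L).image f = A.image f := inter_eq_left.2 (image_subset_image hA)
  have e3 := cc_image' G T f A (hinj.mono hA) (fun x hx y hy => hadj x (hA hx) y (hA hy))
  show (cc G (A.image f ∩ (box L).image f) : ℝ) = _
  rw [e2, e3]

theorem cc_inter_le {V : Type*} [DecidableEq V] (G : SimpleGraph V) {L : ℕ} (f : ℤ × ℤ → V)
    (A : Finset V) : (cc G (A ∩ (box L).image f) : ℝ) ≤ (L : ℝ) ^ 2 := by
  have h2 : cc G (A ∩ (box L).image f) ≤ L ^ 2 := by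
    calc cc G (A ∩ (box L).image f) ≤ #(A ∩ (box L).image f) := cc_le_card G _
      _ ≤ #((box L).image f) := card_le_card inter_subset_right
      _ ≤ #(box L) := card_image_le
      _ = L ^ 2 := card_box L
  exact_mod_cast h2

/-- the deterministic bound and the Chernoff bound -/
theorem tail {V : Type*} [Fintype V] [DecidableEq V] (G : SimpleGraph V) {L n : ℕ} (hL : 1 ≤ L)
    (B : Fin n → ℤ × ℤ → V) (hinj : ∀ k, Set.InjOn (B k) (box L))
    (hdis : ∀ k k', k ≠ k' → Disjoint ((box L).image (B k)) ((box L).image (B k')))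
    (hadj : ∀ k, ∀ x ∈ box L, ∀ y ∈ box L, G.Adj (B k x) (B k y) ↔ T.Adj x y)
    {η : ℝ} (hη : 0 < η) (hη1 : η ≤ 1) {p : ℝ} (h0 : 0 ≤ p) (h1 : p ≤ 1)
    (hbox : bern (box L) p (fun A => (cc T A : ℝ)) ≤ L ^ 2 * (kap p + η)) {Z : ℝ}
    (hZ : (n : ℝ) * (L ^ 2 * (XX + 2 * η)) + (Fintype.card V - n * L ^ 2) ≤ Z) :
    bern univ p (fun A => ind (Z < cc G A)) ≤ Real.exp (-(n * η ^ 2 / 4)) := by
  have hL0 : (0 : ℝ) < L ^ 2 := by
    have : (1 : ℝ) ≤ L := by exact_mod_cast hL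
    positivity
  have hX : ∀ (k : Fin n) (A : Finset V), 0 ≤ (cc G (A ∩ (box L).image (B k)) : ℝ) ∧
      (cc G (A ∩ (box L).image (B k)) : ℝ) ≤ (L : ℝ) ^ 2 := fun k A =>
    ⟨Nat.cast_nonneg _, cc_inter_le G (B k) A⟩
  have hμ : ∀ k, bern ((box L).image (B k)) p
      (fun A => (cc G (A ∩ (box L).image (B k)) : ℝ)) ≤ L ^ 2 * (XX + η) := by
    intro k
    rw [box_mean G (B k) (hinj k) (hadj k)]
    refine hbox.trans (mul_le_mul_of_nonneg_left ?_ hL0.le)
    linarith [kap_le_XX h0 h1]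
  have hεc : (L : ℝ) ^ 2 * η ≤ L ^ 2 := mul_le_of_le_one_right hL0.le hη1
  have hch := chernoff n (univ : Finset V) (fun k => (box L).image (B k)) (fun k => subset_univ _)
    hdis (fun (k : Fin n) (A : Finset V) => (cc G (A ∩ (box L).image (B k)) : ℝ)) hL0 hX h0 h1 hμ
    (ε := (L : ℝ) ^ 2 * η) (mul_pos hL0 hη) hεc
  have e3 : -((n : ℝ) * ((L : ℝ) ^ 2 * η) ^ 2 / (4 * ((L : ℝ) ^ 2) ^ 2)) = -(n * η ^ 2 / 4) := by
    have : (L : ℝ) ≠ 0 := by
      intro h; rw [h] at hL0; norm_num at hL0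
    field_simp
  rw [e3] at hch
  refine le_trans (bern_mono h0 h1 fun A _ => ind_mono fun hA => ?_) hch
  have h2 := det G (fun k => (box L).image (B k)) hdis
    (M := L ^ 2) (fun k => by
      show #((box L).image (B k)) = L ^ 2
      rw [card_image_of_injOn (hinj k), card_box]) A
  have h5 : ∑ k, (cc G (A ∩ (box L).image (B k)) : ℝ) =
      ∑ k, (cc G (A ∩ (box L).image (B k) ∩ (box L).image (B k)) : ℝ) := by
    refine sum_congr rfl fun k _ => ?_
    rw [inter_assoc, inter_self]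
  have h2' : (cc G A : ℝ) ≤ ∑ k, (cc G (A ∩ (box L).image (B k)) : ℝ)
      + (Fintype.card V - n * ((L ^ 2 : ℕ) : ℝ)) := h2
  rw [h5] at h2'
  push_cast at h2'
  have h6 : (n : ℝ) * (L ^ 2 * (XX + η) + L ^ 2 * η) = n * (L ^ 2 * (XX + 2 * η)) := by ring
  show (n : ℝ) * (L ^ 2 * (XX + η) + L ^ 2 * η) ≤
    ∑ k, (cc G (A ∩ (box L).image (B k) ∩ (box L).image (B k)) : ℝ)
  rw [h6]
  linarith

/-- polynomial factors are killed by the exponential -/
theorem exists_large {L : ℕ} {ε b : ℝ} (hε : 0 < ε) (hb : 0 < b) (N : ℕ) :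
    ∃ s : ℕ, 3 ≤ s ∧ N ≤ s ∧ 2 / s ≤ ε ∧
      (((L : ℝ) + 2) * s) ^ 4 * Real.exp (-(b * s)) ≤ ε := by
  have h1 : Filter.Tendsto (fun s : ℕ => b * (s : ℝ)) Filter.atTop Filter.atTop :=
    (tendsto_natCast_atTop_atTop).const_mul_atTop hb
  have h2 := (Real.tendsto_pow_mul_exp_neg_atTop_nhds_zero 4).comp h1
  have h3 : Filter.Tendsto (fun s : ℕ => (((L : ℝ) + 2) / b) ^ 4 *
      ((b * (s : ℝ)) ^ 4 * Real.exp (-(b * s)))) Filter.atTop (nhds 0) := by
    have := h2.const_mul ((((L : ℝ) + 2) / b) ^ 4)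
    rw [mul_zero] at this
    exact this
  have h4 : ∀ᶠ s : ℕ in Filter.atTop, (((L : ℝ) + 2) * s) ^ 4 * Real.exp (-(b * s)) < ε := by
    filter_upwards [h3.eventually (gt_mem_nhds hε)] with s hs
    have e : (((L : ℝ) + 2) / b) ^ 4 * ((b * (s : ℝ)) ^ 4 * Real.exp (-(b * s)))
        = (((L : ℝ) + 2) * s) ^ 4 * Real.exp (-(b * s)) := by
      field_simp
    rwa [e] at hs
  have h5 : Filter.Tendsto (fun s : ℕ => 2 / (s : ℝ)) Filter.atTop (nhds 0) :=
    tendsto_const_div_atTop_nhds_zero_nat 2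
  have h6 : ∀ᶠ s : ℕ in Filter.atTop, 2 / (s : ℝ) < ε := h5.eventually (gt_mem_nhds hε)
  obtain ⟨s, h7, h8, h9, h10⟩ := (h4.and (h6.and ((Filter.eventually_ge_atTop 3).and
    (Filter.eventually_ge_atTop N)))).exists
  exact ⟨s, h9, h10, h8.le, h7.le⟩

/-- the final arithmetic -/
theorem arith {L s n X η ε : ℝ} (hL : 1 ≤ L) (hs : 3 ≤ s) (hn : n = L * s * (L * s + 1) + 2)
    (hX : 0 ≤ X) (hη : 0 < η) (hε : 0 < ε) (hηε : 8 * η ≤ ε) (hsε : 2 / s ≤ ε / 4) :
    s * s * (L ^ 2 * (X + 2 * η)) + (L * s + 2) + ε / 4 * n ≤ (X + ε) * n := by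
  have hLs : 3 ≤ L * s := by
    have := mul_le_mul hL hs (by norm_num) (by linarith)
    linarith
  have hn0 : 0 < n := by rw [hn]; positivity
  have h10 : s * s * (L ^ 2 * (X + 2 * η)) ≤ (X + 2 * η) * n := by
    have h1 : s * s * L ^ 2 ≤ n := by
      have e : s * s * L ^ 2 = L * s * (L * s) := by ring
      have e' : L * s * (L * s + 1) = L * s * (L * s) + L * s := by ring
      rw [hn, e, e']
      linarith
    have h11 := mul_le_mul_of_nonneg_right h1 (show 0 ≤ X + 2 * η by positivity)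
    have e : s * s * (L ^ 2 * (X + 2 * η)) = s * s * L ^ 2 * (X + 2 * η) := by ring
    rw [e]
    linarith
  have h12 : L * s + 2 ≤ ε / 4 * n := by
    have h13 : 2 ≤ ε / 4 * s := by
      rw [div_le_iff₀ (by linarith)] at hsε
      exact hsε
    have h14 : 2 ≤ ε / 4 * (L * s) := by
      have h1 : s ≤ L * s := le_mul_of_one_le_left (by linarith) hL
      have := mul_le_mul_of_nonneg_left h1 (show 0 ≤ ε / 4 by positivity)
      linarith
    have h15 : L * s + 2 ≤ 2 * (L * s) := by linarith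
    have h16 : 2 * (L * s) ≤ ε / 4 * (L * s) * (L * s) :=
      mul_le_mul_of_nonneg_right h14 (by positivity)
    have h17 : ε / 4 * (L * s) * (L * s) ≤ ε / 4 * n := by
      rw [mul_assoc]
      apply mul_le_mul_of_nonneg_left _ (by positivity)
      have e' : L * s * (L * s + 1) = L * s * (L * s) + L * s := by ring
      rw [hn, e']
      linarith
    linarith
  have h19 : 8 * η * n ≤ ε * n := mul_le_mul_of_nonneg_right hηε hn0.le
  have h20 : (X + ε) * n = X * n + ε * n := by ring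
  rw [h20]
  have h21 : (X + 2 * η) * n = X * n + 2 * η * n := by ring
  linarith

theorem arith2 {L s n : ℝ} (hL : 1 ≤ L) (hs : 3 ≤ s) (hn : n = L * s * (L * s + 1) + 2) :
    (n + 1) * (n + 1) ≤ ((L + 2) * s) ^ 4 := by
  have hLs : 3 ≤ L * s := by
    have := mul_le_mul hL hs (by norm_num) (by linarith)
    linarith
  have hn0 : 0 < n := by rw [hn]; positivity
  have h7 : n + 1 ≤ ((L + 2) * s) ^ 2 := by
    have h1 : L * s + 2 ≤ (L + 2) * s := by linarith
    have h2 : (L * s + 2) ^ 2 ≤ ((L + 2) * s) ^ 2 := pow_le_pow_left₀ (by linarith) h1 2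
    have e : (L * s + 2) ^ 2 = L * s * (L * s + 1) + 3 * (L * s) + 4 := by ring
    rw [hn]
    linarith
  calc (n + 1) * (n + 1) ≤ ((L + 2) * s) ^ 2 * ((L + 2) * s) ^ 2 :=
        mul_le_mul h7 h7 (by positivity) (by positivity)
    _ = ((L + 2) * s) ^ 4 := by ring

end Up

theorem upper {ε : ℝ} (hε : 0 < ε) (N : ℕ) :
    ∃ (V : Type) (_ : Fintype V) (_ : DecidableEq V) (G : SimpleGraph V), IsTri G ∧
      N ≤ Fintype.card V ∧
      ∀ 𝒜 : (Fin (Fintype.card V) ≃ V) → ℕ, IsStop 𝒜 → score G 𝒜 ≤ (XX + ε) * Fintype.card V := by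
  obtain ⟨η, hη, hη1, hηε⟩ : ∃ η : ℝ, 0 < η ∧ η ≤ 1 ∧ 8 * η ≤ ε :=
    ⟨min 1 (ε / 8), by positivity, min_le_left _ _, by linarith [min_le_right 1 (ε / 8)]⟩
  obtain ⟨L₀, hL₀⟩ := box_upper hη
  obtain ⟨L, hL, hL1⟩ : ∃ L : ℕ, L₀ ≤ L ∧ 1 ≤ L := ⟨max L₀ 1, le_max_left _ _, le_max_right _ _⟩
  have hbox := hL₀ L hL
  obtain ⟨s, hs3, hsN, hsε, hexp⟩ := Up.exists_large (L := L) (ε := ε / 4) (b := η ^ 2 / 4)
    (by positivity) (by positivity) N
  obtain ⟨V, iF, iD, G, hG, hcard, ⟨B, hinj, hdis, hadj⟩, -⟩ := tube L s hL1 hs3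
  have hLr : (1 : ℝ) ≤ L := by exact_mod_cast hL1
  have hsr : (3 : ℝ) ≤ s := by exact_mod_cast hs3
  have hnr : (Fintype.card V : ℝ) = L * s * (L * s + 1) + 2 := by
    rw [hcard]; push_cast; ring
  set n : ℝ := (Fintype.card V : ℝ) with hn
  refine ⟨V, iF, iD, G, hG, ?_, fun 𝒜 h𝒜 => ?_⟩
  · rw [hcard]
    calc N ≤ s := hsN
      _ ≤ L * s := Nat.le_mul_of_pos_left s (by omega)
      _ ≤ L * s * (L * s + 1) := Nat.le_mul_of_pos_right _ (by omega)
      _ ≤ L * s * (L * s + 1) + 2 := Nat.le_add_right _ _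
  have hne : Nonempty V := Fintype.card_pos_iff.1 (by rw [hcard]; omega)
  have hn0 : 0 < n := by rw [hnr]; positivity
  -- the threshold
  obtain ⟨Z, hZ⟩ : ∃ Z : ℝ, Z = ((s * s : ℕ) : ℝ) * (L ^ 2 * (XX + 2 * η)) +
      (n - ((s * s : ℕ) : ℝ) * L ^ 2) := ⟨_, rfl⟩
  have hss : ((s * s : ℕ) : ℝ) = (s : ℝ) * s := by push_cast; ring
  have hZ' : Z = (s : ℝ) * s * (L ^ 2 * (XX + 2 * η)) + (L * s + 2) := by
    rw [hZ, hss, hnr]; ring
  have hX0 := Up.XX_nonneg
  have hZ0 : 0 ≤ Z := by rw [hZ']; positivity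
  have h1 := score_le G 𝒜 h𝒜 hZ0
  have h2 : ∑ t ∈ range (Fintype.card V + 1),
      bern univ ((t : ℝ) / Fintype.card V) (fun A => ind (Z < cc G A)) ≤
      (n + 1) * Real.exp (-(η ^ 2 / 4 * s)) := by
    have h3 : ∀ t ∈ range (Fintype.card V + 1),
        bern univ ((t : ℝ) / Fintype.card V) (fun A => ind (Z < cc G A)) ≤
        Real.exp (-(η ^ 2 / 4 * s)) := by
      intro t ht
      have ht' : t ≤ Fintype.card V := by have := mem_range.1 ht; omega
      have hp0 : (0 : ℝ) ≤ (t : ℝ) / Fintype.card V := by positivity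
      have hp1 : (t : ℝ) / Fintype.card V ≤ 1 := by
        rw [div_le_one hn0, hn]
        exact_mod_cast ht'
      refine (Up.tail G hL1 B hinj hdis hadj hη hη1 hp0 hp1 (hbox _ hp0 hp1) hZ.ge).trans ?_
      apply Real.exp_le_exp.2
      rw [hss]
      have : (s : ℝ) ≤ s * s := by nlinarith
      have h4 : η ^ 2 / 4 * s ≤ η ^ 2 / 4 * (s * s) := mul_le_mul_of_nonneg_left this (by positivity)
      have e : (s : ℝ) * s * η ^ 2 / 4 = η ^ 2 / 4 * (s * s) := by ring
      rw [e]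
      linarith
    refine (sum_le_sum h3).trans ?_
    rw [sum_const, card_range, nsmul_eq_mul]
    push_cast
    exact le_rfl
  have h5 : n * (n + 1) * ((n + 1) * Real.exp (-(η ^ 2 / 4 * s))) ≤ ε / 4 * n := by
    have h6 : (n + 1) * (n + 1) ≤ (((L : ℝ) + 2) * s) ^ 4 := Up.arith2 hLr hsr hnr
    have h8 : (n + 1) * (n + 1) * Real.exp (-(η ^ 2 / 4 * s)) ≤ ε / 4 :=
      (mul_le_mul_of_nonneg_right h6 (Real.exp_pos _).le).trans hexp
    calc n * (n + 1) * ((n + 1) * Real.exp (-(η ^ 2 / 4 * s)))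
        = n * ((n + 1) * (n + 1) * Real.exp (-(η ^ 2 / 4 * s))) := by ring
      _ ≤ n * (ε / 4) := mul_le_mul_of_nonneg_left h8 hn0.le
      _ = ε / 4 * n := by ring
  have h9 : (Fintype.card V : ℝ) * (Fintype.card V + 1) * ∑ t ∈ range (Fintype.card V + 1),
      bern univ ((t : ℝ) / Fintype.card V) (fun A => ind (Z < cc G A)) ≤ ε / 4 * n := by
    refine le_trans (mul_le_mul_of_nonneg_left h2 (by positivity)) ?_
    exact h5
  -- final comparison
  have h10 := Up.arith hLr hsr hnr hX0 hη hε hηε hsε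
  have h11 := hZ'.le
  refine h1.trans ((add_le_add h11 h9).trans ?_)
  rw [← hn]
  linarith

end Pool.Agent.Helper53.OS
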