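import Pool.Agent.Helper53.OS.Lower
import Pool.Agent.Helper53.OS.Upper
import Pool.Agent.Helper53.OS.Ccs
/-! MP_195d30_co, piece LIM: from `lower`, `upper` to the liminf. -/
set_option autoImplicit false
namespace Pool.Agent.Helper53.OS
open Finset
open scoped Classical

section transport
variable {V W : Type} [Fintype V] [Fintype W]

/-- transport of an order along a bijection -/
noncomputable def trO (e : V ≃ W) :
    (Fin (Fintype.card V) ≃ V) ≃ (Fin (Fintype.card W) ≃ W) where
  toFun σ := (finCongr (Fintype.card_congr e).symm).trans (σ.trans e)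
  invFun τ := (finCongr (Fintype.card_congr e)).trans (τ.trans e.symm)
  left_inv σ := by ext i; simp
  right_inv τ := by ext i; simp

theorem pre_trO (e : V ≃ W) (σ : Fin (Fintype.card V) ≃ V) (s : ℕ) :
    pre (trO e σ) s = (pre σ s).image e := by
  ext w
  simp only [pre, mem_image, mem_filter, mem_univ, true_and, trO, Equiv.coe_fn_mk,
    Equiv.trans_apply]
  constructor
  · rintro ⟨i, hi, rfl⟩
    exact ⟨σ ((finCongr (Fintype.card_congr e).symm) i), ⟨_, by simpa using hi, rfl⟩, rfl⟩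
  · rintro ⟨v, ⟨i, hi, rfl⟩, rfl⟩
    exact ⟨finCongr (Fintype.card_congr e) i, by simpa using hi, by simp⟩

theorem stop_trO (e : V ≃ W) {𝒜 : (Fin (Fintype.card W) ≃ W) → ℕ} (h : IsStop 𝒜) :
    IsStop (fun σ : Fin (Fintype.card V) ≃ V => 𝒜 (trO e σ)) where
  one_le σ := h.one_le _
  le_card σ := by
    exact (h.le_card (trO e σ)).trans_eq (Fintype.card_congr e).symm
  pref σ τ hst := by
    refine h.pref _ _ fun i hi => ?_
    have := hst (finCongr (Fintype.card_congr e).symm i) (by simpa using hi)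
    simp only [trO, Equiv.coe_fn_mk, Equiv.trans_apply]
    rw [this]

theorem score_trO (e : V ≃ W) (G : SimpleGraph V) (H : SimpleGraph W)
    (he : ∀ x y, H.Adj (e x) (e y) ↔ G.Adj x y) (𝒜 : (Fin (Fintype.card W) ≃ W) → ℕ) :
    score G (fun σ : Fin (Fintype.card V) ≃ V => 𝒜 (trO e σ)) = score H 𝒜 := by
  unfold score
  have hc : ((Fintype.card V).factorial : ℝ) = (Fintype.card W).factorial := by
    rw [Fintype.card_congr e]
  rw [hc]
  congr 1
  rw [← (trO e).sum_comp]
  refine sum_congr rfl fun σ _ => ?_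
  rw [pre_trO, cc_image H G e _ e.injective.injOn (fun x _ y _ => he x y)]

theorem isTri_trans (e : V ≃ W) (G : SimpleGraph V) (H : SimpleGraph W)
    (he : ∀ x y, H.Adj (e x) (e y) ↔ G.Adj x y) (hG : IsTri G) : IsTri H := by
  let φ : G ≃g H := ⟨e, fun {a b} => he a b⟩
  refine ⟨?_, φ.connected_iff.mp hG.connected, ?_, ?_⟩
  · rw [← Fintype.card_congr e]; exact hG.three_le
  · rw [← Fintype.card_congr e, ← hG.edges, Nat.card_congr φ.mapEdgeSet]
  · obtain ⟨t, ht⟩ := hG.rot
    have he' : ∀ x y, H.Adj x y ↔ G.Adj (e.symm x) (e.symm y) := fun x y => by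
      rw [← he]; simp
    refine ⟨fun x y => e (t (e.symm x) (e.symm y)), ⟨?_, ?_⟩⟩
    · intro v w hvw
      rw [he'] at hvw
      obtain ⟨h1, h2, h3, h4⟩ := ht.face _ _ hvw
      refine ⟨?_, ?_, ?_, ?_⟩
      · rw [he']; simpa using h1
      · rw [he']; simpa using h2
      · simp [h3]
      · simp [h4]
    · intro v w w' h1 h2
      rw [he'] at h1 h2
      obtain ⟨k, hk⟩ := ht.cyc _ _ _ h1 h2
      refine ⟨k, ?_⟩
      have : ∀ j, (fun y => e (t (e.symm v) (e.symm y)))^[j] w = e ((t (e.symm v))^[j] (e.symm w)) := by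
        intro j
        induction j with
        | zero => simp
        | succ j ih => rw [Function.iterate_succ_apply', ih, Function.iterate_succ_apply']; simp
      rw [this, hk]; simp

end transport

theorem score_nonneg {V : Type*} [Fintype V] (G : SimpleGraph V)
    (𝒜 : (Fin (Fintype.card V) ≃ V) → ℕ) : 0 ≤ score G 𝒜 := by
  unfold score; positivity

theorem score_le_card {V : Type*} [Fintype V] (G : SimpleGraph V)
    (𝒜 : (Fin (Fintype.card V) ≃ V) → ℕ) : score G 𝒜 ≤ Fintype.card V := by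
  unfold score
  have hf : (0 : ℝ) < (Fintype.card V).factorial := by exact_mod_cast Nat.factorial_pos _
  rw [div_le_iff₀ hf]
  have h1 : ∀ σ : Fin (Fintype.card V) ≃ V, (cc G (pre σ (𝒜 σ)) : ℝ) ≤ Fintype.card V := by
    intro σ
    exact_mod_cast (cc_le_card G _).trans (card_le_univ _)
  refine (sum_le_sum fun σ _ => h1 σ).trans ?_
  rw [sum_const, nsmul_eq_mul, card_univ, Fintype.card_equiv (Fintype.equivFin V).symm,
    Fintype.card_fin, mul_comm]

theorem bdd_score {V : Type*} [Fintype V] (G : SimpleGraph V) :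
    BddAbove (Set.range (fun 𝒜 : {𝒜 : (Fin (Fintype.card V) ≃ V) → ℕ // IsStop 𝒜} =>
      score G 𝒜.1)) := by
  refine ⟨Fintype.card V, ?_⟩
  rintro _ ⟨𝒜, rfl⟩
  exact score_le_card G _

theorem liminf_eq : Filter.liminf
    (fun G : {G : Σ n : ℕ, SimpleGraph (Fin n) // IsTri G.2} => maxScore G.1.2 / (G.1.1 : ℝ))
    (Filter.comap (fun G => G.1.1) Filter.atTop) = XX := by
  rw [Filter.liminf_eq]
  set S := {a : ℝ | ∀ᶠ G : {G : Σ n : ℕ, SimpleGraph (Fin n) // IsTri G.2} in
    Filter.comap (fun G => G.1.1) Filter.atTop, a ≤ maxScore G.1.2 / (G.1.1 : ℝ)} with hS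
  have hev : ∀ P : {G : Σ n : ℕ, SimpleGraph (Fin n) // IsTri G.2} → Prop,
      (∀ᶠ G in Filter.comap (fun G : {G : Σ n : ℕ, SimpleGraph (Fin n) // IsTri G.2} => G.1.1)
        Filter.atTop, P G) ↔ ∃ N : ℕ, ∀ G, N ≤ G.1.1 → P G := by
    intro P
    rw [Filter.eventually_comap, Filter.eventually_atTop]
    constructor
    · rintro ⟨N, hN⟩
      exact ⟨N, fun G hG => hN _ hG G rfl⟩
    · rintro ⟨N, hN⟩
      exact ⟨N, fun n hn G hG => hN G (hG ▸ hn)⟩
  have hup : ∀ ε > 0, ∀ a ∈ S, a ≤ XX + ε := by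
    intro ε hε a ha
    rw [hS, Set.mem_ofPred_eq, hev] at ha
    obtain ⟨N, hN⟩ := ha
    obtain ⟨V, _, _, G, hG, hNV, hsc⟩ := upper hε (max N 1)
    let e : V ≃ Fin (Fintype.card V) := Fintype.equivFin V
    let H : SimpleGraph (Fin (Fintype.card V)) := G.comap e.symm
    have he : ∀ x y, H.Adj (e x) (e y) ↔ G.Adj x y := by
      intro x y; simp [H]
    have hH : IsTri H := isTri_trans e G H he hG
    have h1 := hN ⟨⟨Fintype.card V, H⟩, hH⟩ ((le_max_left _ _).trans hNV)
    have hpos : (0 : ℝ) < Fintype.card V := by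
      have : 1 ≤ Fintype.card V := (le_max_right _ _).trans hNV
      exact_mod_cast this
    refine h1.trans ?_
    simp only
    rw [div_le_iff₀ hpos]
    unfold maxScore
    have : Nonempty {𝒜 : (Fin (Fintype.card (Fin (Fintype.card V))) ≃ Fin (Fintype.card V)) → ℕ //
        IsStop 𝒜} := by
      refine ⟨⟨fun _ => 1, ⟨fun _ => le_rfl, fun _ => ?_, fun _ _ _ => rfl⟩⟩⟩
      have := hH.three_le
      omega
    refine ciSup_le fun 𝒜 => ?_
    rw [← score_trO e G H he]
    exact hsc _ (stop_trO e 𝒜.2)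
  have hlow : ∀ ε > 0, XX - ε ∈ S := by
    intro ε hε
    rw [hS, Set.mem_ofPred_eq, hev]
    obtain ⟨N, hN⟩ := lower hε
    refine ⟨max N 1, fun G hG => ?_⟩
    have hc : Fintype.card (Fin G.1.1) = G.1.1 := Fintype.card_fin _
    obtain ⟨𝒜, h𝒜, h2⟩ := hN (Fin G.1.1) inferInstance inferInstance G.1.2 G.2
      (by rw [hc]; exact (le_max_left _ _).trans hG)
    rw [hc] at h2
    have hpos : (0 : ℝ) < (G.1.1 : ℝ) := by
      have : 1 ≤ G.1.1 := (le_max_right _ _).trans hG
      exact_mod_cast this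
    rw [le_div_iff₀ hpos]
    exact h2.trans (le_ciSup (bdd_score G.1.2) ⟨𝒜, h𝒜⟩)
  have hne : S.Nonempty := ⟨_, hlow 1 one_pos⟩
  have hbd : BddAbove S := ⟨XX + 1, fun a ha => hup 1 one_pos a ha⟩
  apply le_antisymm
  · refine csSup_le hne fun a ha => ?_
    exact le_of_forall_pos_le_add fun ε hε => hup ε hε a ha
  · refine le_of_forall_pos_le_add fun ε hε => ?_
    have := le_csSup hbd (hlow ε hε)
    linarith

end Pool.Agent.Helper53.OS
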