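import Pool.Agent.Helper53.OS.Kap

/-! Piece SHIFT of MP_195d30_co: translation of animals. -/

set_option autoImplicit false

namespace Pool.Agent.Helper53.OS

open Finset
open scoped Classical

namespace Shift

/-- translate -/
noncomputable def trn (o : ℤ × ℤ) (C : Finset (ℤ × ℤ)) : Finset (ℤ × ℤ) := C.image (fun x => x - o)

theorem mem_trn {o x : ℤ × ℤ} {C : Finset (ℤ × ℤ)} : x ∈ trn o C ↔ x + o ∈ C := by
  unfold trn
  rw [mem_image]
  constructor
  · rintro ⟨y, hy, rfl⟩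
    simpa using hy
  · intro h
    exact ⟨x + o, h, by simp⟩

theorem card_trn (o : ℤ × ℤ) (C : Finset (ℤ × ℤ)) : #(trn o C) = #C :=
  card_image_of_injective _ (sub_left_injective)

theorem trn_trn (o o' : ℤ × ℤ) (C : Finset (ℤ × ℤ)) : trn o (trn o' C) = trn (o + o') C := by
  ext x
  rw [mem_trn, mem_trn, mem_trn, add_assoc]

theorem trn_zero (C : Finset (ℤ × ℤ)) : trn 0 C = C := by
  ext x
  rw [mem_trn, add_zero]

theorem adj_shift {x y : ℤ × ℤ} (o : ℤ × ℤ) : T.Adj (x - o) (y - o) ↔ T.Adj x y := by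
  rw [adj_iff, adj_iff]
  refine exists_congr fun i => ?_
  constructor
  · intro h
    have : y = x - o + dir i + o := by rw [← h]; abel
    rw [this]; abel
  · intro h
    rw [h]; abel

theorem Con_trn {C : Finset (ℤ × ℤ)} {x y : ℤ × ℤ} (h : Con T C x y) (o : ℤ × ℤ) :
    Con T (trn o C) (x - o) (y - o) := by
  refine h.closed (P := fun y => Con T (trn o C) (x - o) (y - o)) ?_ ?_
  · exact Con.refl (mem_trn.2 (by simpa using h.left_mem))
  · intro y z hy hyC hzC hyz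
    exact hy.trans (Con.of_adj (mem_trn.2 (by simpa using hyC)) (mem_trn.2 (by simpa using hzC))
      ((adj_shift o).2 hyz))

theorem Cn_trn {C : Finset (ℤ × ℤ)} (h : Cn T C) (o : ℤ × ℤ) : Cn T (trn o C) := by
  obtain ⟨⟨z, hz⟩, h2⟩ := h
  refine ⟨⟨z - o, mem_trn.2 (by simpa using hz)⟩, ?_⟩
  intro x hx y hy
  have := Con_trn (h2 _ (mem_trn.1 hx) _ (mem_trn.1 hy)) o
  simpa using this

theorem bd_trn (C : Finset (ℤ × ℤ)) (o : ℤ × ℤ) : bd (trn o C) = trn o (bd C) := by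
  ext y
  rw [mem_trn, mem_bd, mem_bd, mem_trn]
  refine and_congr_right fun _ => ?_
  constructor
  · rintro ⟨x, hx, hxy⟩
    refine ⟨x + o, mem_trn.1 hx, ?_⟩
    rw [← adj_shift o]
    simpa using hxy
  · rintro ⟨x, hx, hxy⟩
    refine ⟨x - o, mem_trn.2 (by simpa using hx), ?_⟩
    rw [← adj_shift o] at hxy
    simpa using hxy

theorem wt_trn (q : ℝ) (C : Finset (ℤ × ℤ)) (o : ℤ × ℤ) : wt q (trn o C) = wt q C := by
  unfold wt
  rw [bd_trn, card_trn, card_trn]

/-- `m` is the rightmost vertex of the top row of `C` -/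
def IsTopR (C : Finset (ℤ × ℤ)) (m : ℤ × ℤ) : Prop :=
  m ∈ C ∧ ∀ x ∈ C, x.2 < m.2 ∨ (x.2 = m.2 ∧ x.1 ≤ m.1)

theorem exists_topR {C : Finset (ℤ × ℤ)} (h : C.Nonempty) : ∃ m, IsTopR C m := by
  obtain ⟨a, ha, ha'⟩ := exists_max_image C (fun x => x.2) h
  have h2 : (C.filter (fun x => x.2 = a.2)).Nonempty := ⟨a, mem_filter.2 ⟨ha, rfl⟩⟩
  obtain ⟨m, hm, hm'⟩ := exists_max_image _ (fun x : ℤ × ℤ => x.1) h2
  rw [mem_filter] at hm
  refine ⟨m, hm.1, fun x hx => ?_⟩
  rcases lt_or_eq_of_le (ha' x hx) with h3 | h3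
  · left; rw [hm.2]; exact h3
  · right; exact ⟨by rw [hm.2]; exact h3, hm' x (mem_filter.2 ⟨hx, h3⟩)⟩

theorem topR_unique {C : Finset (ℤ × ℤ)} {m m' : ℤ × ℤ} (h : IsTopR C m) (h' : IsTopR C m') :
    m = m' := by
  have h1 := h.2 m' h'.1
  have h2 := h'.2 m h.1
  ext <;> omega

theorem topR_trn {C : Finset (ℤ × ℤ)} {m : ℤ × ℤ} (h : IsTopR C m) (o : ℤ × ℤ) :
    IsTopR (trn o C) (m - o) := by
  refine ⟨mem_trn.2 (by simpa using h.1), fun x hx => ?_⟩
  have := h.2 _ (mem_trn.1 hx)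
  simp only [Prod.snd_add, Prod.fst_add, Prod.snd_sub, Prod.fst_sub] at this ⊢
  omega

theorem mem_Tp {K : ℕ} {C : Finset (ℤ × ℤ)} : C ∈ Tp K ↔ C ∈ An K ∧ IsTopR C (0, 0) := by
  unfold Tp IsTopR
  rw [mem_filter]
  constructor
  · rintro ⟨h1, h2⟩
    exact ⟨h1, (mem_An.1 h1).1, h2⟩
  · rintro ⟨h1, _, h2⟩
    exact ⟨h1, h2⟩

end Shift

open Shift

theorem sum_An_eq (K : ℕ) (h : Finset (ℤ × ℤ) → ℝ) :
    ∑ C ∈ An K, h C = ∑ C ∈ Tp K, ∑ o ∈ C, h (C.image (fun x => x - o)) := by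
  rw [Finset.sum_sigma']
  symm
  refine sum_bij (fun a _ => trn a.2 a.1) ?_ ?_ ?_ ?_
  · rintro ⟨C, o⟩ ha
    rw [mem_sigma] at ha
    obtain ⟨h1, h2⟩ := ha
    simp only at h1 h2 ⊢
    obtain ⟨h3, h4, h5⟩ := mem_An.1 (mem_Tp.1 h1).1
    refine mem_An.2 ⟨mem_trn.2 ?_, Cn_trn h4 o, by rw [card_trn]; exact h5⟩
    have : ((0, 0) : ℤ × ℤ) + o = o := zero_add o
    rw [this]; exact h2
  · rintro ⟨C, o⟩ ha ⟨C', o'⟩ ha' heq
    rw [mem_sigma] at ha ha'
    simp only at ha ha' heq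
    have t1 := topR_trn (mem_Tp.1 ha.1).2 o
    have t2 := topR_trn (mem_Tp.1 ha'.1).2 o'
    rw [heq] at t1
    have h3 := topR_unique t1 t2
    have h4 : o = o' := by
      have : ((0, 0) : ℤ × ℤ) - o = (0, 0) - o' := h3
      exact sub_right_injective this
    subst h4
    have h5 : trn (-o) (trn o C) = trn (-o) (trn o C') := by rw [heq]
    rw [trn_trn, trn_trn, neg_add_cancel, trn_zero, trn_zero] at h5
    rw [h5]
  · intro C hC
    obtain ⟨h3, h4, h5⟩ := mem_An.1 hC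
    obtain ⟨m, hm⟩ := exists_topR h4.1
    refine ⟨⟨trn m C, -m⟩, ?_, ?_⟩
    · rw [mem_sigma]
      refine ⟨?_, ?_⟩
      · refine mem_Tp.2 ⟨mem_An.2 ⟨?_, Cn_trn h4 m, by rw [card_trn]; exact h5⟩, ?_⟩
        · rw [mem_trn]
          have : ((0, 0) : ℤ × ℤ) + m = m := zero_add m
          rw [this]; exact hm.1
        · have := topR_trn hm m
          rwa [sub_self] at this
      · simp only
        rw [mem_trn, neg_add_cancel]
        exact h3
    · simp only
      rw [trn_trn, neg_add_cancel, trn_zero]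
  · rintro ⟨C, o⟩ _
    rfl

theorem kapK_eq_Tp (K : ℕ) (q : ℝ) : kapK K q = ∑ C ∈ Tp K, wt q C := by
  unfold kapK
  rw [sum_An_eq]
  refine sum_congr rfl fun C hC => ?_
  have h1 : ∀ o ∈ C, wt q (C.image (fun x => x - o)) / (#(C.image (fun x => x - o)) : ℝ) =
      wt q C / #C := by
    intro o _
    have := wt_trn q C o
    have h2 := card_trn o C
    unfold trn at this h2
    rw [this, h2]
  rw [sum_congr rfl h1, sum_const, nsmul_eq_mul]
  have h2 : (#C : ℝ) ≠ 0 := by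
    have : C.Nonempty := ⟨_, (mem_An.1 (mem_Tp.1 hC).1).1⟩
    exact_mod_cast (card_pos.2 this).ne'
  field_simp

namespace Shift

theorem rad_trn_le {C : Finset (ℤ × ℤ)} {o : ℤ × ℤ} (ho : o ∈ C) : rad (trn o C) ≤ dm C := by
  unfold rad
  refine Finset.sup_le fun x hx => ?_
  have hx' := mem_trn.1 hx
  unfold dm
  have h1 : hn x = hn ((x + o) - o) := by rw [add_sub_cancel_right]
  rw [h1]
  exact (Finset.le_sup (f := fun y => hn (x + o - y)) ho).trans
    (Finset.le_sup (f := fun z => C.sup (fun y => hn (z - y))) hx')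

theorem nat_mono {a b : ℕ} (h : a ≤ b) : (a : ℝ) * ((a : ℝ) - 1) ≤ b * ((b : ℝ) - 1) := by
  rcases Nat.eq_zero_or_pos a with rfl | ha
  · rcases Nat.eq_zero_or_pos b with rfl | hb
    · simp
    · have : (1 : ℝ) ≤ b := by exact_mod_cast hb
      simp only [Nat.cast_zero, zero_mul]
      exact mul_nonneg (by linarith) (by linarith)
  · have h1 : (1 : ℝ) ≤ a := by exact_mod_cast ha
    have h2 : (a : ℝ) ≤ b := by exact_mod_cast h
    exact mul_le_mul h2 (by linarith) (by linarith) (by linarith)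

end Shift

theorem shift_N1 {q : ℝ} (h0 : 0 ≤ q) (h1 : q ≤ 1) (K : ℕ) :
    ∑ C ∈ (An K).filter (fun C => 2 ≤ #C), wt q C * (2 + 6 * rad C * ((rad C : ℝ) - 1) / #C) ≤
    ∑ C ∈ (Tp K).filter (fun C => 2 ≤ #C),
      wt q C * (2 * #C + 6 * dm C * ((dm C : ℝ) - 1)) := by
  rw [sum_filter, sum_An_eq, sum_filter]
  refine sum_le_sum fun C hC => ?_
  have hcard : ∀ o, #(C.image (fun x => x - o)) = #C := fun o => card_trn o C
  have hwt : ∀ o, wt q (C.image (fun x => x - o)) = wt q C := fun o => wt_trn q C o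
  by_cases h2 : 2 ≤ #C
  · rw [if_pos h2]
    have hpos : (0 : ℝ) < #C := by
      have : 0 < #C := by omega
      exact_mod_cast this
    have h3 : ∀ o ∈ C, (if 2 ≤ #(C.image (fun x => x - o)) then
        wt q (C.image (fun x => x - o)) * (2 + 6 * rad (C.image (fun x => x - o)) *
          ((rad (C.image (fun x => x - o)) : ℝ) - 1) / #(C.image (fun x => x - o))) else 0) ≤
        wt q C * (2 + 6 * dm C * ((dm C : ℝ) - 1) / #C) := by
      intro o ho
      rw [hcard, hwt, if_pos h2]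
      refine mul_le_mul_of_nonneg_left ?_ (wt_nonneg h0 h1 C)
      have h4 := nat_mono (rad_trn_le ho)
      unfold trn at h4
      have h5 : 6 * (rad (C.image (fun x => x - o)) : ℝ) *
          ((rad (C.image (fun x => x - o)) : ℝ) - 1) ≤ 6 * dm C * ((dm C : ℝ) - 1) := by
        nlinarith
      gcongr
    refine (sum_le_sum h3).trans_eq ?_
    rw [sum_const, nsmul_eq_mul]
    field_simp
  · rw [if_neg h2]
    refine (sum_eq_zero fun o _ => ?_).le
    rw [hcard, if_neg h2]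

namespace Shift

theorem hn_fst (x : ℤ × ℤ) : x.1.natAbs ≤ hn x := by
  unfold hn; omega

theorem hn_snd (x : ℤ × ℤ) : x.2.natAbs ≤ hn x := by
  unfold hn; omega

theorem hn_sub_le_dm {C : Finset (ℤ × ℤ)} {x y : ℤ × ℤ} (hx : x ∈ C) (hy : y ∈ C) :
    hn (x - y) ≤ dm C := by
  unfold dm
  exact (Finset.le_sup (f := fun y => hn (x - y)) hy).trans
    (Finset.le_sup (f := fun z => C.sup (fun y => hn (z - y))) hx)

end Shift

/-- the two coordinates have range at most `dm C` -/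
theorem card_le_dm (C : Finset (ℤ × ℤ)) : #C ≤ (dm C + 1) ^ 2 := by
  rcases C.eq_empty_or_nonempty with rfl | hne
  · simp
  obtain ⟨a, ha, ha'⟩ := exists_min_image C (fun x => x.1) hne
  obtain ⟨b, hb, hb'⟩ := exists_min_image C (fun x => x.2) hne
  have hsub : C ⊆ (Finset.Icc a.1 (a.1 + dm C)) ×ˢ (Finset.Icc b.2 (b.2 + dm C)) := by
    intro x hx
    rw [mem_product, Finset.mem_Icc, Finset.mem_Icc]
    have h1 := ha' x hx
    have h2 := hb' x hx
    have h3 := (hn_fst (x - a)).trans (hn_sub_le_dm hx ha)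
    have h4 := (hn_snd (x - b)).trans (hn_sub_le_dm hx hb)
    simp only [Prod.fst_sub, Prod.snd_sub] at h3 h4
    omega
  refine (card_le_card hsub).trans ?_
  rw [card_product, Int.card_Icc, Int.card_Icc]
  have h1 : (a.1 + dm C + 1 - a.1).toNat = dm C + 1 := by omega
  have h2 : (b.2 + dm C + 1 - b.2).toNat = dm C + 1 := by omega
  rw [h1, h2, sq]

end Pool.Agent.Helper53.OS
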