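import Pool.Agent.Helper53.OS.Kap
import Pool.Agent.Helper53.OS.Shift

/-! Piece LOCB of MP_195d30_co: a local bound for the truncated cluster density. -/

set_option autoImplicit false

namespace Pool.Agent.Helper53.OS

open Finset
open scoped Classical

theorem kapK_le_local {q : ℝ} (h0 : 0 ≤ q) (h1 : q ≤ 1) (K : ℕ) :
    kapK K q ≤ q * (1 - q) ^ 3 * (1 - q ^ 2) := by
  rw [kapK_eq_Tp]
  obtain ⟨J, hJ⟩ : ∃ J : Finset (ℤ × ℤ), J = {(1, 0), (0, 1), (-1, 1)} := ⟨_, rfl⟩
  obtain ⟨I, hI⟩ : ∃ I : Finset (ℤ × ℤ), I = {(0, 0), (-1, 0), (-2, 1)} := ⟨_, rfl⟩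
  have hJ3 : #J = 3 := by rw [hJ]; decide
  have hI3 : #I = 3 := by rw [hI]; decide
  have hIJ : Disjoint I J := by rw [hI, hJ]; decide
  have hOJ : Disjoint ({(0, 0)} : Finset (ℤ × ℤ)) J := by rw [hJ]; decide
  obtain ⟨S, hS⟩ : ∃ S, S = (Tp K).biUnion (fun C => C ∪ bd C) ∪ (I ∪ J) := ⟨_, rfl⟩
  have hsub : ∀ C ∈ Tp K, C ∪ bd C ⊆ S := by
    intro C hC
    rw [hS]
    exact (subset_biUnion_of_mem (fun C => C ∪ bd C) hC).trans subset_union_left
  have hIS : I ⊆ S := by rw [hS]; exact subset_union_left.trans subset_union_right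
  have hJS : J ⊆ S := by rw [hS]; exact subset_union_right.trans subset_union_right
  have hOI : ({(0, 0)} : Finset (ℤ × ℤ)) ⊆ I := by rw [hI]; decide
  have key := sum_wt_le_event h0 h1 (S := S) (v := (0, 0)) (Tp K)
    (fun C hC => by
      have h := mem_An.1 (mem_filter.1 hC).1
      exact ⟨h.1, h.2.1, subset_union_left.trans (hsub C hC), subset_union_right.trans (hsub C hC)⟩)
    (fun A => (({(0, 0)} : Finset (ℤ × ℤ)) ⊆ A ∧ Disjoint J A) ∧ ¬ (I ⊆ A ∧ Disjoint J A))
    (by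
      intro C hC A _ hCA hdis
      have h := mem_An.1 (mem_filter.1 hC).1
      have htop := (mem_filter.1 hC).2
      have hbd : ∀ x ∈ C, ∀ y, T.Adj x y → y ∉ C → y ∉ A := by
        intro x hx y hxy hy hyA
        exact disjoint_left.1 hdis (mem_bd.2 ⟨hy, x, hx, hxy⟩) hyA
      have hn1 : ((1, 0) : ℤ × ℤ) ∉ C := fun hx => by
        have := htop _ hx
        simp at this
      have hn2 : ((0, 1) : ℤ × ℤ) ∉ C := fun hx => by
        have := htop _ hx
        simp at this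
      have hn3 : ((-1, 1) : ℤ × ℤ) ∉ C := fun hx => by
        have := htop _ hx
        simp at this
      have hn4 : ((-2, 1) : ℤ × ℤ) ∉ C := fun hx => by
        have := htop _ hx
        simp at this
      refine ⟨⟨singleton_subset_iff.2 (hCA h.1), ?_⟩, ?_⟩
      · rw [disjoint_left, hJ]
        intro x hx
        simp only [mem_insert, mem_singleton] at hx
        rcases hx with rfl | rfl | rfl
        · exact hbd _ h.1 _ ⟨0, by decide⟩ hn1
        · exact hbd _ h.1 _ ⟨1, by decide⟩ hn2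
        · exact hbd _ h.1 _ ⟨2, by decide⟩ hn3
      · rintro ⟨hIA, _⟩
        have ha : ((-1, 0) : ℤ × ℤ) ∈ A := hIA (by rw [hI]; decide)
        have hb : ((-2, 1) : ℤ × ℤ) ∈ A := hIA (by rw [hI]; decide)
        have hc : ((-1, 0) : ℤ × ℤ) ∈ C := by
          by_contra hc
          exact hbd _ h.1 _ ⟨3, by decide⟩ hc ha
        exact hbd _ hc _ ⟨2, by decide⟩ hn4 hb)
  refine key.trans ?_
  have e1 := bern_event (S := S) (hOI.trans hIS) hJS hOJ q
  have e2 := bern_event (S := S) hIS hJS hIJ q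
  have e3 : bern S q (fun A => ind ((({(0, 0)} : Finset (ℤ × ℤ)) ⊆ A ∧ Disjoint J A) ∧
      ¬ (I ⊆ A ∧ Disjoint J A))) + bern S q (fun A => ind (I ⊆ A ∧ Disjoint J A)) =
      bern S q (fun A => ind (({(0, 0)} : Finset (ℤ × ℤ)) ⊆ A ∧ Disjoint J A)) := by
    rw [← bern_add]
    refine bern_congr fun A _ => ?_
    by_cases hb : I ⊆ A ∧ Disjoint J A
    · rw [ind_true hb, ind_false (fun h => h.2 hb), ind_true ⟨hOI.trans hb.1, hb.2⟩, zero_add]
    · rw [ind_false hb, add_zero]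
      exact ind_congr ⟨fun h => h.1, fun h => ⟨h, hb⟩⟩
  rw [e1, e2, hJ3, hI3, card_singleton] at e3
  nlinarith [e3]

end Pool.Agent.Helper53.OS
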