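import Pool.Agent.Helper53.OS.HbVal

/-! Piece NUM of MP_195d30_co: numerical inequalities. -/

set_option autoImplicit false

namespace Pool.Agent.Helper53.OS

open Finset
open scoped Classical

/-- `q^a p^b` is increasing in `p` for `p ≤ 1/2`, `a ≤ b` -/
theorem nm_mono {p p' : ℝ} (h0 : 0 ≤ p) (h : p ≤ p') (h1 : p' ≤ 1 / 2) {a b : ℕ} (hab : a ≤ b) :
    (1 - p) ^ a * p ^ b ≤ (1 - p') ^ a * p' ^ b := by
  obtain ⟨c, rfl⟩ := Nat.exists_eq_add_of_le hab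
  have e1 : (1 - p) ^ a * p ^ (a + c) = ((1 - p) * p) ^ a * p ^ c := by
    rw [mul_pow, pow_add]; ring
  have e2 : (1 - p') ^ a * p' ^ (a + c) = ((1 - p') * p') ^ a * p' ^ c := by
    rw [mul_pow, pow_add]; ring
  rw [e1, e2]
  have h2 : (1 - p) * p ≤ (1 - p') * p' := by nlinarith
  have h3 : 0 ≤ (1 - p) * p := mul_nonneg (by linarith) h0
  exact mul_le_mul (pow_le_pow_left₀ h3 h2 a) (pow_le_pow_left₀ h0 h c) (pow_nonneg h0 c)
    (pow_nonneg (h3.trans h2) a)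

/-- comparison of the terms after division by `q^3 p^5` -/
theorem nm_term {p p' : ℝ} (h0 : 0 ≤ p) (h : p ≤ p') (h1 : p' ≤ 1 / 2) {a b : ℕ}
    (hab : a + 2 ≤ b) (hb : 5 ≤ b) :
    (1 - p) ^ a * p ^ b * ((1 - p') ^ 3 * p' ^ 5) ≤ (1 - p') ^ a * p' ^ b * ((1 - p) ^ 3 * p ^ 5) := by
  have hq : 0 ≤ 1 - p := by linarith
  have hq' : 0 ≤ 1 - p' := by linarith
  have h0' : 0 ≤ p' := h0.trans h
  rcases le_or_gt a 3 with ha | ha
  · obtain ⟨c, hc⟩ := Nat.exists_eq_add_of_le ha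
    obtain ⟨d, rfl⟩ := Nat.exists_eq_add_of_le hb
    have e1 : (1 - p) ^ a * p ^ (5 + d) * ((1 - p') ^ 3 * p' ^ 5) =
      ((1 - p) ^ a * (1 - p') ^ a * p ^ 5 * p' ^ 5) * ((1 - p') ^ c * p ^ d) := by
      rw [hc, pow_add, pow_add]; ring
    have e2 : (1 - p') ^ a * p' ^ (5 + d) * ((1 - p) ^ 3 * p ^ 5) =
      ((1 - p) ^ a * (1 - p') ^ a * p ^ 5 * p' ^ 5) * ((1 - p) ^ c * p' ^ d) := by
      rw [hc, pow_add, pow_add]; ring
    rw [e1, e2]
    apply mul_le_mul_of_nonneg_left _ (by positivity)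
    exact mul_le_mul (pow_le_pow_left₀ hq' (by linarith) c) (pow_le_pow_left₀ h0 h d)
      (by positivity) (by positivity)
  · obtain ⟨c, hc⟩ := Nat.exists_eq_add_of_le ha.le
    obtain ⟨d, hd⟩ := Nat.exists_eq_add_of_le hab
    subst hc
    have e0 : b = 5 + (c + d) := by omega
    subst e0
    have e1 : (1 - p) ^ (3 + c) * p ^ (5 + (c + d)) * ((1 - p') ^ 3 * p' ^ 5) =
      ((1 - p) ^ 3 * (1 - p') ^ 3 * p ^ 5 * p' ^ 5) * ((1 - p) ^ c * p ^ (c + d)) := by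
      rw [pow_add, pow_add]; ring
    have e2 : (1 - p') ^ (3 + c) * p' ^ (5 + (c + d)) * ((1 - p) ^ 3 * p ^ 5) =
      ((1 - p) ^ 3 * (1 - p') ^ 3 * p ^ 5 * p' ^ 5) * ((1 - p') ^ c * p' ^ (c + d)) := by
      rw [pow_add, pow_add]; ring
    rw [e1, e2]
    exact mul_le_mul_of_nonneg_left (nm_mono h0 h h1 (Nat.le_add_right c d)) (by positivity)

/-- head and tail -/
theorem nm_split (a : ℕ → ℝ) (ha : ∀ m, 0 ≤ a m) (tl : ℝ)
    (htl : ∀ M, 40 ≤ M → ∑ m ∈ Finset.Icc 41 M, a m ≤ tl) (M : ℕ) :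
    ∑ m ∈ Finset.Icc 12 M, a m ≤ ∑ m ∈ Finset.Icc 12 40, a m + tl := by
  have h1 : ∑ m ∈ Finset.Icc 12 M, a m ≤ ∑ m ∈ Finset.Icc 12 (max M 40), a m :=
    Finset.sum_le_sum_of_subset_of_nonneg
      (Finset.Icc_subset_Icc le_rfl (le_max_left _ _)) (fun i _ _ => ha i)
  have h2 : Finset.Icc 12 (max M 40) = Finset.Icc 12 40 ∪ Finset.Icc 41 (max M 40) := by
    ext x; simp only [Finset.mem_union, Finset.mem_Icc]; omega
  have h3 : Disjoint (Finset.Icc 12 40) (Finset.Icc 41 (max M 40)) := by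
    rw [Finset.disjoint_left]; intro x hx hy
    simp only [Finset.mem_Icc] at hx hy; omega
  rw [h2, Finset.sum_union h3] at h1
  have h4 := htl (max M 40) (le_max_right _ _)
  linarith

/-- telescoping -/
theorem nm_tail (a G : ℕ → ℝ) (hG : ∀ m, 0 ≤ G m) (h : ∀ m, 41 ≤ m → a m ≤ G m - G (m + 1))
    (M : ℕ) (hM : 40 ≤ M) : ∑ m ∈ Finset.Icc 41 M, a m ≤ G 41 := by
  have key : ∀ M, 40 ≤ M → ∑ m ∈ Finset.Icc 41 M, a m ≤ G 41 - G (M + 1) := by
    intro M hM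
    induction M, hM using Nat.le_induction with
    | base => simp
    | succ n hn ih =>
      rw [Finset.sum_Icc_succ_top (by omega)]
      have := h (n + 1) (by omega)
      linarith
  have := key M hM
  have := hG (M + 1)
  linarith

theorem nm_hb_le {m : ℕ} (h : 41 ≤ m) : (hb m : ℝ) ≤ 3 ^ m / 27 := by
  have h1 : (hb m : ℝ) ≤ 3 ^ (m - 3) := by exact_mod_cast hb_le (by omega : 3 ≤ m)
  obtain ⟨c, rfl⟩ := Nat.exists_eq_add_of_le (by omega : 3 ≤ m)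
  rw [show 3 + c - 3 = c by omega] at h1
  rw [pow_add]
  linarith

theorem nm_hb_tab {m : ℕ} (h1 : 12 ≤ m) (h2 : m ≤ 40) :
    (hb m : ℝ) ≤ ((hbTab.getD (m - 12) 0 : ℕ) : ℝ) := by
  exact_mod_cast hb_val h1 h2

/-- the unweighted walk sum -/
theorem nm_walk {p : ℝ} (h0 : 0 ≤ p) (h1 : 3 * p < 1) (M : ℕ) :
    ∑ m ∈ Finset.Icc 12 M, (hb m : ℝ) * p ^ m ≤
      ∑ m ∈ Finset.Icc 12 40, ((hbTab.getD (m - 12) 0 : ℕ) : ℝ) * p ^ m
        + (3 * p) ^ 41 / (27 * (1 - 3 * p)) := by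
  have hr : 0 ≤ 3 * p := by linarith
  have hr1 : 0 < 1 - 3 * p := by linarith
  have h2 := nm_split (fun m => (hb m : ℝ) * p ^ m) (fun m => by positivity)
    ((3 * p) ^ 41 / (27 * (1 - 3 * p))) (fun M hM => by
      refine nm_tail (fun m => (hb m : ℝ) * p ^ m) (fun m => (3 * p) ^ m / (27 * (1 - 3 * p)))
        (fun m => by positivity) (fun m hm => ?_) M hM
      have e1 : (3 * p) ^ m / (27 * (1 - 3 * p)) - (3 * p) ^ (m + 1) / (27 * (1 - 3 * p)) =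
        3 ^ m / 27 * p ^ m := by
        rw [pow_succ, mul_pow]
        field_simp
      change (hb m : ℝ) * p ^ m ≤ (3 * p) ^ m / (27 * (1 - 3 * p)) -
        (3 * p) ^ (m + 1) / (27 * (1 - 3 * p))
      rw [e1]
      exact mul_le_mul_of_nonneg_right (nm_hb_le hm) (by positivity)) M
  refine h2.trans ?_
  have h3 : ∑ m ∈ Finset.Icc 12 40, (hb m : ℝ) * p ^ m ≤
      ∑ m ∈ Finset.Icc 12 40, ((hbTab.getD (m - 12) 0 : ℕ) : ℝ) * p ^ m := by
    apply Finset.sum_le_sum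
    intro m hm
    rw [Finset.mem_Icc] at hm
    exact mul_le_mul_of_nonneg_right (nm_hb_tab hm.1 hm.2) (by positivity)
  linarith

theorem nm_wm {m : ℕ} (hm : 41 ≤ m) : wm m ≤ 2 * (m : ℝ) ^ 2 := by
  unfold wm
  obtain ⟨k, hk⟩ : ∃ k, (m - 6) / 2 = k := ⟨_, rfl⟩
  rw [hk]
  have h1 : 2 * k + 6 ≤ m := by omega
  have h2 : 2 * (k : ℝ) + 6 ≤ m := by exact_mod_cast h1
  have h3 : (0 : ℝ) ≤ k := Nat.cast_nonneg k
  push_cast
  nlinarith

theorem nm_wm_nonneg (m : ℕ) : 0 ≤ wm m := by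
  unfold wm
  obtain ⟨k, hk⟩ : ∃ k, (m - 6) / 2 = k := ⟨_, rfl⟩
  rw [hk]
  rcases Nat.eq_zero_or_pos k with h | h
  · rw [h]; norm_num
  · have h1 : (1 : ℝ) ≤ k := by exact_mod_cast h
    have h2 : 0 ≤ (k : ℝ) * ((k : ℝ) - 1) := mul_nonneg (by linarith) (by linarith)
    push_cast
    nlinarith

/-- the weighted walk sum at `3/14` -/
theorem nm_walk1 (M : ℕ) :
    ∑ m ∈ Finset.Icc 12 M, (hb m : ℝ) * (3 / 14 : ℝ) ^ m * wm m ≤
      ∑ m ∈ Finset.Icc 12 40, ((hbTab.getD (m - 12) 0 : ℕ) : ℝ) * (3 / 14 : ℝ) ^ m * wm m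
        + 23 / 100 * (41 : ℝ) ^ 2 * (9 / 14) ^ 41 := by
  have h2 := nm_split (fun m => (hb m : ℝ) * (3 / 14 : ℝ) ^ m * wm m)
    (fun m => mul_nonneg (by positivity) (nm_wm_nonneg m))
    (23 / 100 * (41 : ℝ) ^ 2 * (9 / 14) ^ 41) (fun M hM => by
      have h3 := nm_tail (fun m => (hb m : ℝ) * (3 / 14 : ℝ) ^ m * wm m)
        (fun m => 23 / 100 * (m : ℝ) ^ 2 * (9 / 14) ^ m)
        (fun m => by positivity) (fun m hm => by
          have e1 : (3 : ℝ) ^ m / 27 * (3 / 14) ^ m = (9 / 14) ^ m / 27 := by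
            rw [div_mul_eq_mul_div, ← mul_pow]; norm_num
          have e2 : (hb m : ℝ) * (3 / 14 : ℝ) ^ m ≤ (9 / 14) ^ m / 27 := by
            rw [← e1]
            exact mul_le_mul_of_nonneg_right (nm_hb_le hm) (by positivity)
          have e3 : (hb m : ℝ) * (3 / 14 : ℝ) ^ m * wm m ≤ (9 / 14) ^ m / 27 * (2 * (m : ℝ) ^ 2) :=
            mul_le_mul e2 (nm_wm hm) (nm_wm_nonneg m) (by positivity)
          refine e3.trans ?_
          have hm' : (41 : ℝ) ≤ m := by exact_mod_cast hm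
          have hp : (0 : ℝ) < (9 / 14) ^ m := by positivity
          have e4 : (m : ℝ) ^ 2 * (2 / 27) ≤ 23 / 100 * (m : ℝ) ^ 2
              - 23 / 100 * ((m : ℝ) + 1) ^ 2 * (9 / 14) := by nlinarith
          have e5 := mul_le_mul_of_nonneg_left e4 hp.le
          push_cast
          rw [pow_succ ((9 : ℝ) / 14) m]
          linarith) M hM
      exact_mod_cast h3) M
  refine h2.trans ?_
  have h3 : ∑ m ∈ Finset.Icc 12 40, (hb m : ℝ) * (3 / 14 : ℝ) ^ m * wm m ≤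
      ∑ m ∈ Finset.Icc 12 40, ((hbTab.getD (m - 12) 0 : ℕ) : ℝ) * (3 / 14 : ℝ) ^ m * wm m := by
    apply Finset.sum_le_sum
    intro m hm
    rw [Finset.mem_Icc] at hm
    exact mul_le_mul_of_nonneg_right (mul_le_mul_of_nonneg_right (nm_hb_tab hm.1 hm.2)
      (by positivity)) (nm_wm_nonneg m)
  linarith

set_option maxRecDepth 20000 in
theorem nm_num1 : P1 (3 / 14) (1 - 3 / 14) + (1 - 3 / 14) *
    (∑ m ∈ Finset.Icc 12 40, ((hbTab.getD (m - 12) 0 : ℕ) : ℝ) * (3 / 14 : ℝ) ^ m * wm m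
        + 23 / 100 * (41 : ℝ) ^ 2 * (9 / 14) ^ 41) ≤ (1 - 3 / 14) ^ 3 * (3 / 14) ^ 5 := by
  norm_num [P1, wm, hbTab, Finset.sum_Icc_succ_top]

theorem nm_P1 {p p' : ℝ} (h0 : 0 ≤ p) (h : p ≤ p') (h1 : p' ≤ 1 / 2) :
    P1 p (1 - p) * ((1 - p') ^ 3 * p' ^ 5) ≤ P1 p' (1 - p') * ((1 - p) ^ 3 * p ^ 5) := by
  have t0 := nm_term h0 h h1 (a := 2) (b := 8) (by norm_num) (by norm_num)
  have t1 := nm_term h0 h h1 (a := 2) (b := 10) (by norm_num) (by norm_num)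
  have t2 := nm_term h0 h h1 (a := 2) (b := 11) (by norm_num) (by norm_num)
  have t3 := nm_term h0 h h1 (a := 3) (b := 9) (by norm_num) (by norm_num)
  have t4 := nm_term h0 h h1 (a := 3) (b := 10) (by norm_num) (by norm_num)
  have t5 := nm_term h0 h h1 (a := 3) (b := 12) (by norm_num) (by norm_num)
  have t6 := nm_term h0 h h1 (a := 3) (b := 13) (by norm_num) (by norm_num)
  have t7 := nm_term h0 h h1 (a := 3) (b := 15) (by norm_num) (by norm_num)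
  have t8 := nm_term h0 h h1 (a := 4) (b := 10) (by norm_num) (by norm_num)
  have t9 := nm_term h0 h h1 (a := 4) (b := 11) (by norm_num) (by norm_num)
  have t10 := nm_term h0 h h1 (a := 4) (b := 12) (by norm_num) (by norm_num)
  have t11 := nm_term h0 h h1 (a := 4) (b := 13) (by norm_num) (by norm_num)
  have t12 := nm_term h0 h h1 (a := 4) (b := 14) (by norm_num) (by norm_num)
  have t13 := nm_term h0 h h1 (a := 5) (b := 11) (by norm_num) (by norm_num)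
  have t14 := nm_term h0 h h1 (a := 5) (b := 12) (by norm_num) (by norm_num)
  have t15 := nm_term h0 h h1 (a := 5) (b := 13) (by norm_num) (by norm_num)
  have t16 := nm_term h0 h h1 (a := 6) (b := 12) (by norm_num) (by norm_num)
  have t17 := nm_term h0 h h1 (a := 6) (b := 13) (by norm_num) (by norm_num)
  have t18 := nm_term h0 h h1 (a := 7) (b := 12) (by norm_num) (by norm_num)
  unfold P1
  generalize (1 - p') ^ 3 * p' ^ 5 = c' at *
  generalize (1 - p) ^ 3 * p ^ 5 = c at *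
  linarith

theorem nm_P0 {p p' : ℝ} (h0 : 0 ≤ p) (h : p ≤ p') (h1 : p' ≤ 1 / 2) :
    P0 p (1 - p) ≤ P0 p' (1 - p') := by
  have t0 := nm_mono h0 h h1 (a := 2) (b := 8) (by norm_num)
  have t1 := nm_mono h0 h h1 (a := 2) (b := 10) (by norm_num)
  have t2 := nm_mono h0 h h1 (a := 2) (b := 11) (by norm_num)
  have t3 := nm_mono h0 h h1 (a := 3) (b := 9) (by norm_num)
  have t4 := nm_mono h0 h h1 (a := 3) (b := 10) (by norm_num)
  have t5 := nm_mono h0 h h1 (a := 3) (b := 12) (by norm_num)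
  have t6 := nm_mono h0 h h1 (a := 3) (b := 13) (by norm_num)
  have t7 := nm_mono h0 h h1 (a := 3) (b := 15) (by norm_num)
  have t8 := nm_mono h0 h h1 (a := 4) (b := 10) (by norm_num)
  have t9 := nm_mono h0 h h1 (a := 4) (b := 11) (by norm_num)
  have t10 := nm_mono h0 h h1 (a := 4) (b := 12) (by norm_num)
  have t11 := nm_mono h0 h h1 (a := 4) (b := 13) (by norm_num)
  have t12 := nm_mono h0 h h1 (a := 4) (b := 14) (by norm_num)
  have t13 := nm_mono h0 h h1 (a := 5) (b := 11) (by norm_num)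
  have t14 := nm_mono h0 h h1 (a := 5) (b := 12) (by norm_num)
  have t15 := nm_mono h0 h h1 (a := 5) (b := 13) (by norm_num)
  have t16 := nm_mono h0 h h1 (a := 6) (b := 12) (by norm_num)
  have t17 := nm_mono h0 h h1 (a := 6) (b := 13) (by norm_num)
  have t18 := nm_mono h0 h h1 (a := 7) (b := 12) (by norm_num)
  unfold P0
  linarith

theorem num1 {p : ℝ} (h0 : 0 < p) (h1 : p ≤ 3 / 14) (M : ℕ) :
    P1 p (1 - p) + (1 - p) * ∑ m ∈ Finset.Icc 12 M, hb m * p ^ m * wm m ≤ (1 - p) ^ 3 * p ^ 5 := by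
  have a1 := nm_P1 h0.le h1 (by norm_num)
  have a2 : (1 - p) * (∑ m ∈ Finset.Icc 12 M, hb m * p ^ m * wm m) *
      ((1 - 3 / 14 : ℝ) ^ 3 * (3 / 14) ^ 5) ≤
      (1 - 3 / 14) * (∑ m ∈ Finset.Icc 12 M, (hb m : ℝ) * (3 / 14 : ℝ) ^ m * wm m) *
        ((1 - p) ^ 3 * p ^ 5) := by
    rw [Finset.mul_sum, Finset.sum_mul, Finset.mul_sum, Finset.sum_mul]
    apply Finset.sum_le_sum
    intro m hm
    rw [Finset.mem_Icc] at hm
    have b1 := nm_term h0.le h1 (by norm_num) (a := 1) (b := m) (by omega) (by omega)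
    rw [pow_one, pow_one] at b1
    have b2 : 0 ≤ (hb m : ℝ) * wm m := mul_nonneg (by positivity) (nm_wm_nonneg m)
    have b3 := mul_le_mul_of_nonneg_left b1 b2
    calc (1 - p) * ((hb m : ℝ) * p ^ m * wm m) * ((1 - 3 / 14 : ℝ) ^ 3 * (3 / 14) ^ 5)
        = (hb m : ℝ) * wm m * ((1 - p) * p ^ m * ((1 - 3 / 14 : ℝ) ^ 3 * (3 / 14) ^ 5)) := by ring
      _ ≤ (hb m : ℝ) * wm m * ((1 - 3 / 14 : ℝ) * (3 / 14) ^ m * ((1 - p) ^ 3 * p ^ 5)) := b3
      _ = (1 - 3 / 14) * ((hb m : ℝ) * (3 / 14 : ℝ) ^ m * wm m) * ((1 - p) ^ 3 * p ^ 5) := by ring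
  have a3 := nm_walk1 M
  have a4 := nm_num1
  have hc : (0 : ℝ) < (1 - 3 / 14) ^ 3 * (3 / 14) ^ 5 := by norm_num
  have hq : 0 < 1 - p := by linarith
  have hc' : 0 < (1 - p) ^ 3 * p ^ 5 := by positivity
  have a5 : P1 (3 / 14) (1 - 3 / 14) + (1 - 3 / 14) *
      (∑ m ∈ Finset.Icc 12 M, (hb m : ℝ) * (3 / 14 : ℝ) ^ m * wm m) ≤
      (1 - 3 / 14) ^ 3 * (3 / 14) ^ 5 := by
    have := mul_le_mul_of_nonneg_left a3 (by norm_num : (0 : ℝ) ≤ 1 - 3 / 14)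
    linarith
  have a6 := mul_le_mul_of_nonneg_right a5 hc'.le
  refine le_of_mul_le_mul_right ?_ hc
  rw [add_mul]
  rw [add_mul] at a6
  linarith

/-- the increasing part -/
theorem nm_rest {p p' : ℝ} (h0 : 0 ≤ p) (h : p ≤ p') (h1 : 3 * p' < 1) (M : ℕ) :
    ((1 - p) * p ^ 6 + P0 p (1 - p)) + (1 - p) * ∑ m ∈ Finset.Icc 12 M, hb m * p ^ m ≤
    ((1 - p') * p' ^ 6 + P0 p' (1 - p')) + (1 - p') *
      (∑ m ∈ Finset.Icc 12 40, ((hbTab.getD (m - 12) 0 : ℕ) : ℝ) * p' ^ m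
        + (3 * p') ^ 41 / (27 * (1 - 3 * p'))) := by
  have h2 : p' ≤ 1 / 2 := by linarith
  have a1 := nm_P0 h0 h h2
  have a2 := nm_mono h0 h h2 (a := 1) (b := 6) (by norm_num)
  rw [pow_one, pow_one] at a2
  have a3 : (1 - p) * ∑ m ∈ Finset.Icc 12 M, (hb m : ℝ) * p ^ m ≤
      (1 - p') * ∑ m ∈ Finset.Icc 12 M, (hb m : ℝ) * p' ^ m := by
    rw [Finset.mul_sum, Finset.mul_sum]
    apply Finset.sum_le_sum
    intro m hm
    rw [Finset.mem_Icc] at hm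
    have b1 := nm_mono h0 h h2 (a := 1) (b := m) (by omega)
    rw [pow_one, pow_one] at b1
    have b3 := mul_le_mul_of_nonneg_left b1 (Nat.cast_nonneg (hb m) : (0 : ℝ) ≤ hb m)
    linarith
  have a4 := mul_le_mul_of_nonneg_left (nm_walk (h0.trans h) h1 M) (by linarith : 0 ≤ 1 - p')
  linarith

/-- `ff` is decreasing on `[3/14, 1/2]` -/
theorem nm_ff {p p' : ℝ} (h0 : 53 / 250 ≤ p) (h : p ≤ p') (h1 : p' ≤ 1 / 2) : ff p' ≤ ff p := by
  unfold ff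
  have e : p * (1 - p) * (1 - 2 * p) - p' * (1 - p') * (1 - 2 * p') =
    (p' - p) * (3 * (p + p') - 1 - 2 * (p ^ 2 + p * p' + p' ^ 2)) := by ring
  have h2 : 0 ≤ 3 * (p + p') - 1 - 2 * (p ^ 2 + p * p' + p' ^ 2) := by nlinarith
  have := mul_nonneg (sub_nonneg.2 h) h2
  linarith

set_option maxRecDepth 20000 in
theorem nm_v1 : ((1 - 216 / 1000 : ℝ) * (216 / 1000) ^ 6 + P0 (216 / 1000) (1 - 216 / 1000)) + (1 - 216 / 1000) *
      (∑ m ∈ Finset.Icc 12 40, ((hbTab.getD (m - 12) 0 : ℕ) : ℝ) * (216 / 1000 : ℝ) ^ m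
        + (3 * (216 / 1000)) ^ 41 / (27 * (1 - 3 * (216 / 1000)))) ≤ 9291 / 100000000 := by
  norm_num [P0, hbTab, Finset.sum_Icc_succ_top]

set_option maxRecDepth 20000 in
theorem nm_v2 : ((1 - 222 / 1000 : ℝ) * (222 / 1000) ^ 6 + P0 (222 / 1000) (1 - 222 / 1000)) + (1 - 222 / 1000) *
      (∑ m ∈ Finset.Icc 12 40, ((hbTab.getD (m - 12) 0 : ℕ) : ℝ) * (222 / 1000 : ℝ) ^ m
        + (3 * (222 / 1000)) ^ 41 / (27 * (1 - 3 * (222 / 1000)))) ≤ 1100 / 10000000 := by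
  norm_num [P0, hbTab, Finset.sum_Icc_succ_top]

set_option maxRecDepth 20000 in
theorem nm_v3 : ((1 - 240 / 1000 : ℝ) * (240 / 1000) ^ 6 + P0 (240 / 1000) (1 - 240 / 1000)) + (1 - 240 / 1000) *
      (∑ m ∈ Finset.Icc 12 40, ((hbTab.getD (m - 12) 0 : ℕ) : ℝ) * (240 / 1000 : ℝ) ^ m
        + (3 * (240 / 1000)) ^ 41 / (27 * (1 - 3 * (240 / 1000)))) ≤ 1783 / 10000000 := by
  norm_num [P0, hbTab, Finset.sum_Icc_succ_top]

set_option maxRecDepth 20000 in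
theorem nm_v4 : ((1 - 285 / 1000 : ℝ) * (285 / 1000) ^ 6 + P0 (285 / 1000) (1 - 285 / 1000)) + (1 - 285 / 1000) *
      (∑ m ∈ Finset.Icc 12 40, ((hbTab.getD (m - 12) 0 : ℕ) : ℝ) * (285 / 1000 : ℝ) ^ m
        + (3 * (285 / 1000)) ^ 41 / (27 * (1 - 3 * (285 / 1000)))) ≤ 85 / 100000 := by
  norm_num [P0, hbTab, Finset.sum_Icc_succ_top]

set_option maxRecDepth 20000 in
theorem nm_v0 : ((1 - 3 / 14 : ℝ) * (3 / 14) ^ 6 + P0 (3 / 14) (1 - 3 / 14)) + (1 - 3 / 14) *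
      (∑ m ∈ Finset.Icc 12 40, ((hbTab.getD (m - 12) 0 : ℕ) : ℝ) * (3 / 14 : ℝ) ^ m
        + (3 * (3 / 14)) ^ 41 / (27 * (1 - 3 * (3 / 14)))) ≤ 885 / 10000000 := by
  norm_num [P0, hbTab, Finset.sum_Icc_succ_top]

theorem num2 {p : ℝ} (h0 : 3 / 14 ≤ p) (h1 : p ≤ 57 / 200) (M : ℕ) :
    ff p + ((1 - p) * p ^ 6 + P0 p (1 - p)) + (1 - p) * ∑ m ∈ Finset.Icc 12 M, hb m * p ^ m
      ≤ 96305 / 1000000 := by
  have hp : 0 ≤ p := by linarith
  rcases le_or_gt p (216 / 1000) with h | h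
  · have a1 := nm_rest hp h (by norm_num) M
    have a2 := nm_v1
    have a3 := nm_ff (by norm_num) h0 (by linarith)
    have a4 : ff (3 / 14) ≤ 962100 / 10000000 := by norm_num [ff]
    linarith
  rcases le_or_gt p (222 / 1000) with h' | h'
  · have a1 := nm_rest hp h' (by norm_num) M
    have a2 := nm_v2
    have a3 := nm_ff (by norm_num) h.le (by linarith)
    have a4 : ff (216 / 1000) ≤ 961874 / 10000000 := by norm_num [ff]
    linarith
  rcases le_or_gt p (240 / 1000) with h'' | h''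
  · have a1 := nm_rest hp h'' (by norm_num) M
    have a2 := nm_v3
    have a3 := nm_ff (by norm_num) h'.le (by linarith)
    have a4 : ff (222 / 1000) ≤ 960301 / 10000000 := by norm_num [ff]
    linarith
  · have a1 := nm_rest hp (by linarith : p ≤ 285 / 1000) (by norm_num) M
    have a2 := nm_v4
    have a3 := nm_ff (by norm_num) h''.le (by linarith)
    have a4 : ff (240 / 1000) ≤ 9485 / 100000 := by norm_num [ff]
    linarith

theorem num2' {p : ℝ} (h0 : 0 ≤ p) (h1 : p ≤ 3 / 14) (M : ℕ) :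
    ff p + ((1 - p) * p ^ 6 + P0 p (1 - p)) + (1 - p) * ∑ m ∈ Finset.Icc 12 M, hb m * p ^ m
      ≤ 9633 / 100000 := by
  have a1 := nm_rest h0 h1 (by norm_num) M
  have a2 := nm_v0
  have a3 : ff p ≤ 9623 / 100000 := by
    unfold ff
    nlinarith [mul_nonneg h0 (sq_nonneg (p - 21132 / 100000)), sq_nonneg (p - 21132 / 100000)]
  linarith

theorem num3 {p : ℝ} (h0 : 57 / 200 ≤ p) (h1 : p ≤ 1 / 2) :
    ff p + (1 - p) * p ^ 3 * (1 - (1 - p) ^ 2) ≤ 96305 / 1000000 := by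
  unfold ff
  have hp : 0 ≤ p - 57 / 200 := by linarith
  have hq : 0 ≤ 1 / 2 - p := by linarith
  have hpq := mul_nonneg hp hq
  have e1 : 1 - 2 * p + 2 * p ^ 3 - p ^ 4 ≤ 844 / 1000 - 1312 / 1000 * p := by
    nlinarith [mul_nonneg hpq (by nlinarith : 0 ≤ -(p ^ 2) + 1215 / 1000 * p + 81 / 100)]
  have e2 : 0 ≤ p * (1 - p) := mul_nonneg (by linarith) (by linarith)
  have e3 := mul_le_mul_of_nonneg_left e1 e2
  have e4 : p * (1 - p) * (844 / 1000 - 1312 / 1000 * p) ≤ 96305 / 1000000 := by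
    nlinarith [mul_nonneg hp (by nlinarith : 0 ≤ -(844 / 1000 - 2156 / 1000 * (p + 57 / 200)
      + 1312 / 1000 * (p ^ 2 + 57 / 200 * p + (57 / 200) ^ 2)))]
  have e5 : p * (1 - p) * (1 - 2 * p) + (1 - p) * p ^ 3 * (1 - (1 - p) ^ 2) =
    p * (1 - p) * (1 - 2 * p + 2 * p ^ 3 - p ^ 4) := by ring
  rw [e5]
  linarith

theorem num4 : 96305 / 1000000 ≤ ff (53 / 250) + ((197 / 250 : ℝ) * (53 / 250) ^ 6
    + 3 * (197 / 250) ^ 2 * (53 / 250) ^ 8 + 2 * (197 / 250) ^ 3 * (53 / 250) ^ 9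
    + 9 * (197 / 250) ^ 3 * (53 / 250) ^ 10) := by
  norm_num [ff]

end Pool.Agent.Helper53.OS
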