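import Pool.Agent.Helper53.OS.Base

/-! SMALL: clusters of diameter at most 2 (piece of MP_195d30_co). -/

set_option autoImplicit false

namespace Pool.Agent.Helper53.OS

open Finset
open scoped Classical

/-- the nine possible vertices besides the origin -/
def W9l : List (ℤ × ℤ) :=
  [(-2,0),(-1,0),(-1,-1),(0,-1),(0,-2),(1,-2),(1,-1),(2,-2),(2,-1)]

/-- add the origin -/
def mkS (l : List (ℤ × ℤ)) : Finset (ℤ × ℤ) := ((0,0) :: l).toFinset

/-- size, size of the boundary, diameter -/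
def keyOf (C : Finset (ℤ × ℤ)) : ℕ × ℕ × ℕ := (#C, #(bd C), dm C)

/-- all candidate sets of diameter at most 2 -/
def Ls : List (Finset (ℤ × ℤ)) := (W9l.sublists.map mkS).filter (fun C => dm C ≤ 2)

/-- their keys -/
def keys : List (ℕ × ℕ × ℕ) :=
    [(1, 6, 0), (2, 11, 2), (2, 8, 1), (3, 10, 2), (2, 10, 2), (3, 12, 2), (3, 10, 2), (4, 11, 2),
    (2, 8, 1), (3, 12, 2), (3, 9, 1), (4, 11, 2), (3, 10, 2), (4, 12, 2), (4, 10, 2), (5, 11, 2),
    (2, 11, 2), (3, 15, 2), (3, 12, 2), (4, 14, 2), (3, 12, 2), (4, 14, 2), (4, 12, 2), (5, 13, 2),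
    (3, 10, 2), (4, 14, 2), (4, 11, 2), (5, 13, 2), (4, 11, 2), (5, 13, 2), (5, 11, 2), (6, 12, 2),
    (2, 10, 2), (3, 12, 2), (3, 13, 2), (4, 13, 2), (3, 10, 2), (4, 11, 2), (4, 12, 2), (5, 12, 2),
    (3, 12, 2), (4, 13, 2), (4, 13, 2), (5, 13, 2), (4, 11, 2), (5, 12, 2), (5, 12, 2), (6, 12, 2),
    (2, 8, 1), (3, 10, 2), (3, 12, 2), (4, 12, 2), (3, 9, 1), (4, 10, 2), (4, 11, 2), (5, 11, 2),
    (3, 12, 2), (4, 13, 2), (4, 13, 2), (5, 13, 2), (4, 11, 2), (5, 12, 2), (5, 12, 2), (6, 12, 2),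
    (3, 10, 2), (4, 12, 2), (4, 13, 2), (5, 13, 2), (4, 10, 2), (5, 11, 2), (5, 12, 2), (6, 12, 2),
    (4, 12, 2), (5, 13, 2), (5, 13, 2), (6, 13, 2), (5, 11, 2), (6, 12, 2), (6, 12, 2), (7, 12, 2),
    (2, 11, 2), (3, 12, 2), (3, 15, 2), (4, 14, 2), (3, 12, 2), (4, 12, 2), (4, 14, 2), (5, 13, 2),
    (3, 10, 2), (4, 11, 2), (4, 14, 2), (5, 13, 2), (4, 11, 2), (5, 11, 2), (5, 13, 2), (6, 12, 2),
    (2, 10, 2), (3, 12, 2), (3, 13, 2), (4, 13, 2), (3, 10, 2), (4, 11, 2), (4, 12, 2), (5, 12, 2),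
    (3, 12, 2), (4, 13, 2), (4, 13, 2), (5, 13, 2), (4, 11, 2), (5, 12, 2), (5, 12, 2), (6, 12, 2)]

set_option maxRecDepth 100000 in
theorem keys_eq : Ls.map keyOf = keys := by
  decide +kernel

theorem mem_Ls {K : ℕ} {C : Finset (ℤ × ℤ)} (hC : C ∈ Tp K) (hd : dm C ≤ 2) : C ∈ Ls := by
  unfold Tp An at hC
  simp only [mem_filter, mem_powerset] at hC
  obtain ⟨⟨_, h0, _, _⟩, htop⟩ := hC
  have hhn : ∀ x ∈ C, hn x ≤ 2 := by
    intro x hx
    have h1 : hn (x - (0, 0)) ≤ C.sup (fun y => hn (x - y)) :=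
      Finset.le_sup (f := fun y => hn (x - y)) h0
    have h2 : C.sup (fun y => hn (x - y)) ≤ dm C :=
      Finset.le_sup (f := fun x => C.sup (fun y => hn (x - y))) hx
    have h3 : x - ((0, 0) : ℤ × ℤ) = x := by
      rw [show ((0, 0) : ℤ × ℤ) = 0 from rfl, sub_zero]
    rw [h3] at h1
    omega
  have hmem : ∀ x ∈ C, x = (0, 0) ∨ x ∈ W9l := by
    rintro ⟨a, b⟩ hx
    have h1 := hhn _ hx
    have h2 := htop _ hx
    unfold hn at h1
    simp only at h1 h2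
    have ha : a.natAbs ≤ 2 := by omega
    have hb : b.natAbs ≤ 2 := by omega
    have hab : (a + b).natAbs ≤ 2 := by omega
    have a1 : -2 ≤ a := by omega
    have a2 : a ≤ 2 := by omega
    have b1 : -2 ≤ b := by omega
    have b2 : b ≤ 0 := by omega
    unfold W9l
    interval_cases a <;> interval_cases b <;> first | (exfalso; omega) | decide
  unfold Ls
  rw [List.mem_filter]
  refine ⟨?_, by simpa using hd⟩
  rw [List.mem_map]
  refine ⟨W9l.filter (fun x => x ∈ C), ?_, ?_⟩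
  · rw [List.mem_sublists]
    exact List.filter_sublist
  · ext x
    unfold mkS
    simp only [List.toFinset_cons, mem_insert, List.mem_toFinset, List.mem_filter,
      decide_eq_true_eq]
    constructor
    · rintro (rfl | h)
      · exact h0
      · exact h.2
    · intro h
      rcases hmem x h with h' | h'
      · exact Or.inl h'
      · exact Or.inr ⟨h', h⟩

theorem sum_toFinset_le {α : Type*} [DecidableEq α] (L : List α) (f : α → ℝ)
    (hf : ∀ a, 0 ≤ f a) : ∑ a ∈ L.toFinset, f a ≤ (L.map f).sum := by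
  induction L with
  | nil => simp
  | cons a L ih =>
    rw [List.toFinset_cons, List.map_cons, List.sum_cons]
    by_cases h : a ∈ L.toFinset
    · rw [insert_eq_of_mem h]
      have := hf a
      linarith
    · rw [sum_insert h]
      linarith

/-- the summands in terms of the key -/
theorem sum_Ls_le (K : ℕ) (P : Finset (ℤ × ℤ) → Prop) [DecidablePred P]
    (g : ℕ × ℕ × ℕ → ℝ) (hg : ∀ C : Finset (ℤ × ℤ), 0 ≤ g (keyOf C)) (f : Finset (ℤ × ℤ) → ℝ)
    (hf : ∀ C ∈ Tp K, dm C ≤ 2 → P C → f C = g (keyOf C))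
    (hP : ∀ C, P C → dm C ≤ 2) :
    ∑ C ∈ (Tp K).filter P, f C ≤ (keys.map g).sum := by
  rw [← keys_eq, List.map_map]
  refine le_trans ?_ (sum_toFinset_le Ls (g ∘ keyOf) (fun C => hg C))
  have h1 : ∑ C ∈ (Tp K).filter P, f C = ∑ C ∈ (Tp K).filter P, (g ∘ keyOf) C := by
    refine sum_congr rfl fun C hC => ?_
    rw [mem_filter] at hC
    exact hf C hC.1 (hP C hC.2) hC.2
  rw [h1]
  refine sum_le_sum_of_subset_of_nonneg ?_ (fun C _ _ => hg C)
  intro C hC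
  rw [mem_filter] at hC
  rw [List.mem_toFinset]
  exact mem_Ls hC.1 (hP C hC.2)

theorem small_upper1 {q : ℝ} (h0 : 0 ≤ q) (h1 : q ≤ 1) (K : ℕ) :
    ∑ C ∈ (Tp K).filter (fun C => 2 ≤ #C ∧ dm C ≤ 2),
      wt q C * (2 * #C + 6 * dm C * ((dm C : ℝ) - 1)) ≤ P1 (1 - q) q := by
  have hp : 0 ≤ 1 - q := by linarith
  have key := sum_Ls_le K (fun C => 2 ≤ #C ∧ dm C ≤ 2) (fun k => if 2 ≤ k.1 then
    q ^ k.1 * (1 - q) ^ k.2.1 * (2 * (k.1 : ℝ) + 6 * (k.2.2 : ℝ) * ((k.2.2 : ℝ) - 1)) else 0)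
    (by
      intro C
      unfold keyOf
      simp only
      split_ifs
      · refine mul_nonneg (mul_nonneg (pow_nonneg h0 _) (pow_nonneg hp _)) ?_
        rcases Nat.eq_zero_or_pos (dm C) with h | h
        · rw [h]; simp
        · have : (1 : ℝ) ≤ dm C := by exact_mod_cast h
          have h3 : 0 ≤ 6 * (dm C : ℝ) * ((dm C : ℝ) - 1) :=
            mul_nonneg (by positivity) (by linarith)
          have h4 : (0 : ℝ) ≤ 2 * (#C : ℝ) := by positivity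
          linarith
      · exact le_rfl)
    (fun C => wt q C * (2 * #C + 6 * dm C * ((dm C : ℝ) - 1)))
    (by
      intro C _ _ h
      unfold keyOf wt
      simp only [if_pos h.1])
    (fun C h => h.2)
  refine key.trans ?_
  clear key hp
  unfold keys P1
  generalize 1 - q = p
  simp only [List.map_cons, List.map_nil, List.sum_cons, List.sum_nil]
  norm_num
  apply le_of_eq
  ring

theorem small_upper0 {q : ℝ} (h0 : 0 ≤ q) (h1 : q ≤ 1) (K : ℕ) :
    ∑ C ∈ (Tp K).filter (fun C => dm C ≤ 2), wt q C ≤ q * (1 - q) ^ 6 + P0 (1 - q) q := by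
  have hp : 0 ≤ 1 - q := by linarith
  have key := sum_Ls_le K (fun C => dm C ≤ 2) (fun k => q ^ k.1 * (1 - q) ^ k.2.1)
    (fun C => mul_nonneg (pow_nonneg h0 _) (pow_nonneg hp _)) (fun C => wt q C)
    (fun C _ _ _ => rfl) (fun C h => h)
  refine key.trans ?_
  clear key hp
  unfold keys P0
  generalize 1 - q = p
  simp only [List.map_cons, List.map_nil, List.sum_cons, List.sum_nil]
  apply le_of_eq
  ring

/-- the fifteen connected sets with at most three vertices -/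
def L15 : List (Finset (ℤ × ℤ)) := ([[], [(-1,0)], [(0,-1)], [(1,-1)], [(-1,0),(0,-1)], [(0,-1),(1,-1)],
  [(-1,0),(-2,0)], [(-1,0),(-1,-1)], [(-1,0),(1,-1)], [(0,-1),(-1,-1)], [(0,-1),(0,-2)],
  [(0,-1),(1,-2)], [(1,-1),(1,-2)], [(1,-1),(2,-2)], [(1,-1),(2,-1)]] : List (List (ℤ × ℤ))).map mkS

theorem L15_nodup : L15.Nodup := by decide +kernel

theorem L15_keys : L15.map keyOf = [(1, 6, 0), (2, 8, 1), (2, 8, 1), (2, 8, 1), (3, 9, 1), (3, 9, 1),
    (3, 10, 2), (3, 10, 2), (3, 10, 2), (3, 10, 2), (3, 10, 2), (3, 10, 2), (3, 10, 2), (3, 10, 2),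
    (3, 10, 2)] := by decide +kernel

theorem L15_prop : ∀ C ∈ L15, (0, 0) ∈ C ∧ #C ≤ 3 ∧ (∀ x ∈ C, hn x ≤ 2 ∧ -2 ≤ x.1 ∧ x.1 ≤ 2 ∧
    -2 ≤ x.2 ∧ x.2 ≤ 2) ∧ (∀ x ∈ C, x.2 < 0 ∨ (x.2 = 0 ∧ x.1 ≤ 0)) ∧
    (∀ x ∈ C, x = (0, 0) ∨ x ∈ nb (0, 0) ∨ ∃ y ∈ C, y ∈ nb (0, 0) ∧ x ∈ nb y) := by
  decide +kernel

theorem L15_sub {K : ℕ} (hK : 3 ≤ K) {C : Finset (ℤ × ℤ)} (hC : C ∈ L15) : C ∈ Tp K := by
  obtain ⟨h0, hcard, hball, htop, hcon⟩ := L15_prop C hC
  unfold Tp An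
  simp only [mem_filter, mem_powerset]
  refine ⟨⟨?_, h0, ⟨⟨_, h0⟩, ?_⟩, by omega⟩, htop⟩
  · intro x hx
    obtain ⟨h1, h2, h3, h4, h5⟩ := hball x hx
    unfold ball
    rw [mem_filter, mem_product, Finset.mem_Icc, Finset.mem_Icc]
    have : (3 : ℤ) ≤ K := by exact_mod_cast hK
    refine ⟨⟨⟨by omega, by omega⟩, ⟨by omega, by omega⟩⟩, by omega⟩
  · have key : ∀ x ∈ C, Con T C (0, 0) x := by
      intro x hx
      rcases hcon x hx with h | h | ⟨y, hy, h, h'⟩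
      · rw [h]; exact Con.refl h0
      · exact Con.of_adj h0 hx (mem_nb.1 h)
      · exact (Con.of_adj h0 hy (mem_nb.1 h)).trans (Con.of_adj hy hx (mem_nb.1 h'))
    intro x hx y hy
    exact (key x hx).symm.trans (key y hy)

theorem small_lower {q : ℝ} (h0 : 0 ≤ q) (h1 : q ≤ 1) {K : ℕ} (hK : 3 ≤ K) :
    q * (1 - q) ^ 6 + 3 * q ^ 2 * (1 - q) ^ 8 + 2 * q ^ 3 * (1 - q) ^ 9 + 9 * q ^ 3 * (1 - q) ^ 10 ≤
      ∑ C ∈ Tp K, wt q C := by
  have hsub : L15.toFinset ⊆ Tp K := by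
    intro C hC
    exact L15_sub hK (List.mem_toFinset.1 hC)
  refine le_trans ?_ (sum_le_sum_of_subset_of_nonneg hsub (fun C _ _ => wt_nonneg h0 h1 C))
  rw [List.sum_toFinset _ L15_nodup]
  have h2 : L15.map (fun C => wt q C) = (L15.map keyOf).map (fun k => q ^ k.1 * (1 - q) ^ k.2.1) := by
    rw [List.map_map]
    rfl
  rw [h2, L15_keys]
  simp only [List.map_cons, List.map_nil, List.sum_cons, List.sum_nil]
  apply le_of_eq
  generalize 1 - q = p
  ring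

end Pool.Agent.Helper53.OS

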