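import Pool.Agent.Helper53.OS.Base

/-! Piece TOPO for MP_195d30_co: the closed circuit around a finite cluster of the triangular
lattice.

Proof.  `D = bd C`, `e` the edge `(0,1) - (1,0)`.
(1) `(0,1)` and `(1,0)` are joined by a path in `D` without `e` (`reach`): otherwise, with `s` the
indicator of the vertices reached from `(0,1)`, the cochain `Z` (crossing number of the ray to the
right of `0` minus the differential of `s` on edges meeting `C`, zero elsewhere) has the same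
boundary sums over triangles as the crossing number, namely one only for the triangle
`0, (1,0), (0,1)`, but the total over all triangles of a finitely supported cochain vanishes.
(2) a shortest such path, closed by `e`, has distinct vertices and turns by at most 60 degrees.
(3) its winding number is the same around all vertices of `C`, so it passes strictly beyond each
vertex of `C` in all six directions; a closed walk with the turning condition whose range in one of
the coordinates is `R` has at least `2 R + 2` steps (`per`). -/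

set_option autoImplicit false

namespace Pool.Agent.Helper53.OS

open Finset
open scoped Classical

namespace Topo

/-! ### integer sequences with the turning condition -/

theorem lip {f : ℕ → ℤ} (hl : ∀ i, |f (i + 1) - f i| ≤ 1) (i k : ℕ) : |f (i + k) - f i| ≤ k := by
  induction k with
  | zero => simp
  | succ k ih =>
    have h1 := hl (i + k)
    rw [← add_assoc]
    rw [abs_le] at *
    push_cast
    constructor <;> linarith [h1.1, h1.2, ih.1, ih.2]

theorem lip' {f : ℕ → ℤ} (hl : ∀ i, |f (i + 1) - f i| ≤ 1) {i j : ℕ} (h : i ≤ j) :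
    |f j - f i| ≤ (j : ℤ) - i := by
  obtain ⟨k, rfl⟩ := Nat.exists_eq_add_of_le h
  have := lip hl i k
  push_cast
  linarith

theorem per_mod {f : ℕ → ℤ} {m : ℕ} (hp : ∀ i, f (i + m) = f i) (i : ℕ) : f (i % m) = f i := by
  have h : ∀ k r, f (r + m * k) = f r := by
    intro k
    induction k with
    | zero => intro r; simp
    | succ k ih =>
      intro r
      rw [Nat.mul_succ, ← add_assoc, hp, ih]
  conv_rhs => rw [← Nat.mod_add_div i m]
  rw [h]

theorem per {f : ℕ → ℤ} {m : ℕ} (hm : 0 < m) (hp : ∀ i, f (i + m) = f i)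
    (hl : ∀ i, |f (i + 1) - f i| ≤ 1)
    (hs : ∀ i, 0 ≤ (f (i + 1) - f i) * (f (i + 2) - f (i + 1))) {x y : ℕ} {R : ℕ} (hR : 1 ≤ R)
    (h : f y + R ≤ f x) : 2 * R + 2 ≤ m := by
  have hne : (range m).Nonempty := ⟨0, mem_range.2 hm⟩
  obtain ⟨x₀, hx₀, hmax⟩ := exists_max_image (range m) f hne
  obtain ⟨y₀, hy₀, hmin⟩ := exists_min_image (range m) f hne
  have hmax' : ∀ i, f i ≤ f x₀ := fun i => by
    rw [← per_mod hp i]; exact hmax _ (mem_range.2 (Nat.mod_lt _ hm))
  have hmin' : ∀ i, f y₀ ≤ f i := fun i => by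
    rw [← per_mod hp i]; exact hmin _ (mem_range.2 (Nat.mod_lt _ hm))
  rw [mem_range] at hx₀ hy₀
  have hxy : f y₀ + R ≤ f x₀ := by
    have := hmax' x
    have := hmin' y
    linarith
  obtain ⟨z, hz1, hz2, hz3⟩ : ∃ z, x₀ < z ∧ z < x₀ + m ∧ f z = f y₀ := by
    rcases lt_trichotomy x₀ y₀ with h1 | h1 | h1
    · exact ⟨y₀, h1, by omega, rfl⟩
    · exfalso
      rw [h1] at hxy
      have : (1 : ℤ) ≤ R := by exact_mod_cast hR
      linarith
    · exact ⟨y₀ + m, by omega, by omega, hp y₀⟩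
  have hR' : (1 : ℤ) ≤ R := by exact_mod_cast hR
  have hx1 : f (x₀ + m) = f x₀ := hp x₀
  have hx2 : f (x₀ + m + 1) = f (x₀ + 1) := by
    rw [show x₀ + m + 1 = x₀ + 1 + m by ring]; exact hp _
  -- the two flat steps
  have hA : f (x₀ + 1) = f x₀ ∨ f (x₀ + m - 1) = f x₀ := by
    have h1 := hs (x₀ + m - 1)
    rw [show x₀ + m - 1 + 1 = x₀ + m by omega, show x₀ + m - 1 + 2 = x₀ + m + 1 by omega,
      hx1, hx2] at h1
    have h2 := hmax' (x₀ + m - 1)
    have h3 := hmax' (x₀ + 1)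
    by_contra hcon
    push Not at hcon
    have h4 : f (x₀ + 1) < f x₀ := lt_of_le_of_ne h3 hcon.1
    have h5 : f (x₀ + m - 1) < f x₀ := lt_of_le_of_ne h2 hcon.2
    have : (f x₀ - f (x₀ + m - 1)) * (f (x₀ + 1) - f x₀) < 0 :=
      mul_neg_of_pos_of_neg (by linarith) (by linarith)
    linarith
  have hB : f (z + 1) = f z ∨ f (z - 1) = f z := by
    have h1 := hs (z - 1)
    rw [show z - 1 + 1 = z by omega, show z - 1 + 2 = z + 1 by omega] at h1
    have h2 := hmin' (z - 1)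
    have h3 := hmin' (z + 1)
    rw [← hz3] at h2 h3
    by_contra hcon
    push Not at hcon
    have h4 : f z < f (z + 1) := lt_of_le_of_ne h3 (Ne.symm hcon.1)
    have h5 : f z < f (z - 1) := lt_of_le_of_ne h2 (Ne.symm hcon.2)
    have : (f z - f (z - 1)) * (f (z + 1) - f z) < 0 :=
      mul_neg_of_neg_of_pos (by linarith) (by linarith)
    linarith
  rw [← hz3] at hxy
  rcases hA with hA | hA <;> rcases hB with hB | hB
  · have e1 := (abs_le.1 (lip' hl (show x₀ + 1 ≤ z by omega))).1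
    have e2 := (abs_le.1 (lip' hl (show z + 1 ≤ x₀ + m by omega))).2
    push_cast at e1 e2
    rw [hA] at e1
    rw [hB, hx1] at e2
    omega
  · have hne : x₀ + 1 ≠ z := by
      intro h'
      rw [h'] at hA
      rw [hA] at hxy
      linarith
    have e1 := (abs_le.1 (lip' hl (show x₀ + 1 ≤ z - 1 by omega))).1
    have e2 := (abs_le.1 (lip' hl (show z ≤ x₀ + m by omega))).2
    rw [hA, hB] at e1
    rw [hx1] at e2
    rw [Nat.cast_sub (by omega)] at e1
    push_cast at e1 e2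
    omega
  · have hne : z + 1 ≠ x₀ + m := by
      intro h'
      rw [h', hx1] at hB
      rw [← hB] at hxy
      linarith
    have e1 := (abs_le.1 (lip' hl (show x₀ ≤ z by omega))).1
    have e2 := (abs_le.1 (lip' hl (show z + 1 ≤ x₀ + m - 1 by omega))).2
    rw [hA, hB] at e2
    rw [Nat.cast_sub (by omega)] at e2
    push_cast at e1 e2
    omega
  · have e1 := (abs_le.1 (lip' hl (show x₀ ≤ z - 1 by omega))).1
    have e2 := (abs_le.1 (lip' hl (show z ≤ x₀ + m - 1 by omega))).2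
    rw [hB] at e1
    rw [hA] at e2
    rw [Nat.cast_sub (by omega)] at e1 e2
    push_cast at e1 e2
    omega

/-! ### adjacency in coordinates -/

theorem adj_coord {u v : ℤ × ℤ} : T.Adj u v ↔
    (v.1 = u.1 + 1 ∧ v.2 = u.2) ∨ (v.1 = u.1 ∧ v.2 = u.2 + 1) ∨ (v.1 = u.1 - 1 ∧ v.2 = u.2 + 1) ∨
    (v.1 = u.1 - 1 ∧ v.2 = u.2) ∨ (v.1 = u.1 ∧ v.2 = u.2 - 1) ∨ (v.1 = u.1 + 1 ∧ v.2 = u.2 - 1) := by
  rw [adj_iff]
  constructor
  · rintro ⟨i, rfl⟩
    fin_cases i <;> simp [dir] <;> omega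
  · obtain ⟨a, b⟩ := u
    obtain ⟨a', b'⟩ := v
    simp only
    rintro (h | h | h | h | h | h)
    · exact ⟨0, by simp [dir]; omega⟩
    · exact ⟨1, by simp [dir]; omega⟩
    · exact ⟨2, by simp [dir]; omega⟩
    · exact ⟨3, by simp [dir]; omega⟩
    · exact ⟨4, by simp [dir]; omega⟩
    · exact ⟨5, by simp [dir]; omega⟩

theorem ne_coord {u v : ℤ × ℤ} (h : u ≠ v) : ¬ (u.1 = v.1 ∧ u.2 = v.2) :=
  fun h' => h (Prod.ext h'.1 h'.2)

/-- the signed crossing of the step `u → v` with the ray from `c` to the right -/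
def w (c u v : ℤ × ℤ) : ℤ :=
  if u.2 = c.2 ∧ v.2 = c.2 + 1 ∧ c.1 + 1 ≤ u.1 then 1
  else if v.2 = c.2 ∧ u.2 = c.2 + 1 ∧ c.1 + 1 ≤ v.1 then -1 else 0

theorem w_anti (c u v : ℤ × ℤ) : w c v u = - w c u v := by
  unfold w
  split_ifs <;> omega

theorem w_shift0 {c u v : ℤ × ℤ} (hu : u ≠ (c.1 + 1, c.2)) (hv : v ≠ (c.1 + 1, c.2)) :
    w c u v = w (c.1 + 1, c.2) u v := by
  have hu := ne_coord hu
  have hv := ne_coord hv
  simp only at hu hv
  unfold w
  simp only
  split_ifs <;> omega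

/-- indicator of a half row -/
def hr (c u : ℤ × ℤ) : ℤ := if u.2 = c.2 ∧ c.1 ≤ u.1 then 1 else 0

theorem w_shift1 {c u v : ℤ × ℤ} (hu : u ≠ (c.1, c.2 + 1)) (hv : v ≠ (c.1, c.2 + 1))
    (huv : T.Adj u v) :
    w c u v - w (c.1, c.2 + 1) u v = hr (c.1 + 1, c.2 + 1) v - hr (c.1 + 1, c.2 + 1) u := by
  have hu := ne_coord hu
  have hv := ne_coord hv
  rw [adj_coord] at huv
  simp only at hu hv
  unfold w hr
  simp only
  split_ifs <;> omega

theorem w_shift2 {c u v : ℤ × ℤ} (hu : u ≠ (c.1 - 1, c.2 + 1)) (hv : v ≠ (c.1 - 1, c.2 + 1))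
    (hu' : u ≠ c) (hv' : v ≠ c) (huv : T.Adj u v) :
    w c u v - w (c.1 - 1, c.2 + 1) u v = hr (c.1, c.2 + 1) v - hr (c.1, c.2 + 1) u := by
  have hu := ne_coord hu
  have hv := ne_coord hv
  have hu' := ne_coord hu'
  have hv' := ne_coord hv'
  rw [adj_coord] at huv
  simp only at hu hv
  unfold w hr
  simp only
  split_ifs <;> omega

/-- the winding number around `c` of the closed walk `g` of length `m` -/
def W (g : ℕ → ℤ × ℤ) (m : ℕ) (c : ℤ × ℤ) : ℤ := ∑ i ∈ range m, w c (g i) (g (i + 1))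

theorem W_adj_aux {g : ℕ → ℤ × ℤ} {m : ℕ} (hg : g m = g 0) (hadj : ∀ i, T.Adj (g i) (g (i + 1)))
    {c c' : ℤ × ℤ} (hc : ∀ i, g i ≠ c) (hc' : ∀ i, g i ≠ c') {s : ℤ × ℤ → ℤ}
    (h : ∀ u v, u ≠ c → v ≠ c → u ≠ c' → v ≠ c' → T.Adj u v → w c u v - w c' u v = s v - s u) :
    W g m c = W g m c' := by
  rw [← sub_eq_zero]
  unfold W
  rw [← sum_sub_distrib]
  rw [sum_congr rfl (fun i _ => h (g i) (g (i + 1)) (hc i) (hc (i + 1)) (hc' i) (hc' (i + 1))
    (hadj i))]
  rw [sum_range_sub (fun i => s (g i)), hg, sub_self]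

theorem W_adj {g : ℕ → ℤ × ℤ} {m : ℕ} (hg : g m = g 0) (hadj : ∀ i, T.Adj (g i) (g (i + 1)))
    {c c' : ℤ × ℤ} (hc : ∀ i, g i ≠ c) (hc' : ∀ i, g i ≠ c') (hcc : T.Adj c c') :
    W g m c = W g m c' := by
  have key : ∀ c c' : ℤ × ℤ, (∀ i, g i ≠ c) → (∀ i, g i ≠ c') →
      (c' = (c.1 + 1, c.2) ∨ c' = (c.1, c.2 + 1) ∨ c' = (c.1 - 1, c.2 + 1)) →
      W g m c = W g m c' := by
    rintro c c' hc hc' (rfl | rfl | rfl)
    · exact W_adj_aux hg hadj hc hc' (s := fun _ => 0) (fun u v _ _ h3 h4 _ => by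
        rw [w_shift0 h3 h4]; ring)
    · exact W_adj_aux hg hadj hc hc' (s := hr (c.1 + 1, c.2 + 1)) (fun u v _ _ h3 h4 h5 =>
        w_shift1 h3 h4 h5)
    · exact W_adj_aux hg hadj hc hc' (s := hr (c.1, c.2 + 1)) (fun u v h1 h2 h3 h4 h5 =>
        w_shift2 h3 h4 h1 h2 h5)
  rw [adj_coord] at hcc
  have e : ∀ a b : ℤ × ℤ, a.1 = b.1 → a.2 = b.2 → a = b := fun a b => Prod.ext
  rcases hcc with h | h | h | h | h | h
  · exact key c c' hc hc' (Or.inl (e _ _ (by simp; omega) (by simp; omega)))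
  · exact key c c' hc hc' (Or.inr (Or.inl (e _ _ (by simp; omega) (by simp; omega))))
  · exact key c c' hc hc' (Or.inr (Or.inr (e _ _ (by simp; omega) (by simp; omega))))
  · exact (key c' c hc' hc (Or.inl (e _ _ (by simp; omega) (by simp; omega)))).symm
  · exact (key c' c hc' hc (Or.inr (Or.inl (e _ _ (by simp; omega) (by simp; omega))))).symm
  · exact (key c' c hc' hc (Or.inr (Or.inr (e _ _ (by simp; omega) (by simp; omega))))).symm

/-! ### existence of the circuit -/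

/-- the triangular lattice on `D` without the edge `(0,1) - (1,0)` -/
def HG (D : Finset (ℤ × ℤ)) : SimpleGraph (ℤ × ℤ) where
  Adj u v := T.Adj u v ∧ u ∈ D ∧ v ∈ D ∧ ¬ (u = (0, 1) ∧ v = (1, 0)) ∧ ¬ (u = (1, 0) ∧ v = (0, 1))
  symm := ⟨fun _ _ h => ⟨h.1.symm, h.2.2.1, h.2.1, fun h' => h.2.2.2.2 ⟨h'.2, h'.1⟩,
    fun h' => h.2.2.2.1 ⟨h'.2, h'.1⟩⟩⟩
  loopless := ⟨fun _ h => T.loopless.irrefl _ h.1⟩

section exist
variable {C : Finset (ℤ × ℤ)}

theorem bd_row (htop : ∀ x ∈ C, x.2 < 0 ∨ (x.2 = 0 ∧ x.1 ≤ 0)) {v : ℤ × ℤ} (hv : v ∈ bd C) :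
    v.2 ≤ 1 ∧ (v.2 = 1 → v.1 ≤ 0) := by
  obtain ⟨_, x, hx, hxv⟩ := mem_bd.1 hv
  have h1 := htop x hx
  rw [adj_coord] at hxv
  omega

theorem mem_bd_of {u v : ℤ × ℤ} (hu : u ∈ C) (hv : v ∉ C) (h : T.Adj u v) : v ∈ bd C :=
  mem_bd.2 ⟨hv, u, hu, h⟩

theorem bd_a (h0 : (0, 0) ∈ C) (htop : ∀ x ∈ C, x.2 < 0 ∨ (x.2 = 0 ∧ x.1 ≤ 0)) :
    ((0, 1) : ℤ × ℤ) ∈ bd C := by
  refine mem_bd_of h0 (fun h => ?_) (adj_coord.2 (by simp))
  have := htop _ h
  simp at this

theorem bd_b (h0 : (0, 0) ∈ C) (htop : ∀ x ∈ C, x.2 < 0 ∨ (x.2 = 0 ∧ x.1 ≤ 0)) :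
    ((1, 0) : ℤ × ℤ) ∈ bd C := by
  refine mem_bd_of h0 (fun h => ?_) (adj_coord.2 (by simp))
  have := htop _ h
  simp at this

/-- steps inside the boundary cross the ray only at the special edge -/
theorem w_bd (htop : ∀ x ∈ C, x.2 < 0 ∨ (x.2 = 0 ∧ x.1 ≤ 0)) {u v : ℤ × ℤ} (h : (HG (bd C)).Adj u v) :
    w (0, 0) u v = 0 := by
  obtain ⟨h1, h2, h3, h4, h5⟩ := h
  have h2 := bd_row htop h2
  have h3 := bd_row htop h3
  rw [adj_coord] at h1
  have h4 : ¬ ((u.1 = 0 ∧ u.2 = 1) ∧ (v.1 = 1 ∧ v.2 = 0)) :=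
    fun h => h4 ⟨Prod.ext h.1.1 h.1.2, Prod.ext h.2.1 h.2.2⟩
  have h5 : ¬ ((u.1 = 1 ∧ u.2 = 0) ∧ (v.1 = 0 ∧ v.2 = 1)) :=
    fun h => h5 ⟨Prod.ext h.1.1 h.1.2, Prod.ext h.2.1 h.2.2⟩
  unfold w
  simp only
  split_ifs <;> omega

theorem w_U (a b : ℤ) : w (0, 0) (a, b) (a + 1, b) + w (0, 0) (a + 1, b) (a, b + 1)
    + w (0, 0) (a, b + 1) (a, b) = if (a, b) = ((0, 0) : ℤ × ℤ) then 1 else 0 := by
  unfold w
  simp only [Prod.mk.injEq]
  split_ifs <;> omega

theorem w_D (a b : ℤ) : w (0, 0) (a + 1, b) (a + 1, b + 1) + w (0, 0) (a + 1, b + 1) (a, b + 1)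
    + w (0, 0) (a, b + 1) (a + 1, b) = 0 := by
  unfold w
  simp only
  split_ifs <;> omega

theorem reach (h0 : (0, 0) ∈ C) (htop : ∀ x ∈ C, x.2 < 0 ∨ (x.2 = 0 ∧ x.1 ≤ 0)) :
    (HG (bd C)).Reachable (0, 1) (1, 0) := by
  by_contra hnr
  obtain ⟨s, hs⟩ : ∃ s : ℤ × ℤ → ℤ, s = fun u => if (HG (bd C)).Reachable (0, 1) u then 1 else 0 :=
    ⟨_, rfl⟩
  -- the crossing number is the differential of `s` on edges inside the boundary
  have hY : ∀ u v, u ∈ bd C → v ∈ bd C → T.Adj u v → w (0, 0) u v = s v - s u := by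
    intro u v hu hv huv
    by_cases h1 : u = (0, 1) ∧ v = (1, 0)
    · obtain ⟨rfl, rfl⟩ := h1
      rw [hs]
      simp only
      rw [if_neg hnr, if_pos (SimpleGraph.Reachable.refl _)]
      simp [w]
    by_cases h2 : u = (1, 0) ∧ v = (0, 1)
    · obtain ⟨rfl, rfl⟩ := h2
      rw [hs]
      simp only
      rw [if_neg hnr, if_pos (SimpleGraph.Reachable.refl _)]
      simp [w]
    have h3 : (HG (bd C)).Adj u v := ⟨huv, hu, hv, h1, h2⟩
    rw [w_bd htop h3, hs]
    simp only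
    have h4 : (HG (bd C)).Reachable (0, 1) u ↔ (HG (bd C)).Reachable (0, 1) v :=
      ⟨fun h => h.trans h3.reachable, fun h => h.trans h3.symm.reachable⟩
    simp only [h4, sub_self]
  obtain ⟨Z, hZ⟩ : ∃ Z : ℤ × ℤ → ℤ × ℤ → ℤ, Z = fun u v =>
      if u ∈ C ∨ v ∈ C then w (0, 0) u v - (s v - s u) else 0 := ⟨_, rfl⟩
  have hZa : ∀ u v, Z v u = - Z u v := by
    intro u v
    rw [hZ]
    simp only
    rw [w_anti (0, 0) u v]
    by_cases h : u ∈ C ∨ v ∈ C
    · rw [if_pos h, if_pos h.symm]; ring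
    · rw [if_neg h, if_neg (fun h' => h h'.symm)]; ring
  -- triangles
  have htri : ∀ u v t, T.Adj u v → T.Adj v t → T.Adj t u →
      ((u ∉ C ∧ v ∉ C ∧ t ∉ C) → w (0, 0) u v + w (0, 0) v t + w (0, 0) t u = 0) →
      Z u v + Z v t + Z t u = w (0, 0) u v + w (0, 0) v t + w (0, 0) t u := by
    intro u v t huv hvt htu hnone
    by_cases hall : u ∉ C ∧ v ∉ C ∧ t ∉ C
    · rw [hnone hall, hZ]
      simp [hall.1, hall.2.1, hall.2.2]
    · have hk : ∀ x y, T.Adj x y → (x ∈ C ∨ x ∈ bd C) → (y ∈ C ∨ y ∈ bd C) →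
          Z x y = w (0, 0) x y - (s y - s x) := by
        intro x y hxy hx hy
        rw [hZ]
        simp only
        by_cases h : x ∈ C ∨ y ∈ C
        · rw [if_pos h]
        · rw [if_neg h]
          push Not at h
          have hx' : x ∈ bd C := hx.resolve_left h.1
          have hy' : y ∈ bd C := hy.resolve_left h.2
          rw [hY x y hx' hy' hxy]
          ring
      have hmem : ∀ x y, T.Adj x y → x ∈ C → (y ∈ C ∨ y ∈ bd C) := by
        intro x y hxy hx
        by_cases hy : y ∈ C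
        · exact Or.inl hy
        · exact Or.inr (mem_bd_of hx hy hxy)
      have h3 : (u ∈ C ∨ u ∈ bd C) ∧ (v ∈ C ∨ v ∈ bd C) ∧ (t ∈ C ∨ t ∈ bd C) := by
        by_cases hu : u ∈ C
        · exact ⟨Or.inl hu, hmem u v huv hu, hmem u t htu.symm hu⟩
        by_cases hv : v ∈ C
        · exact ⟨hmem v u huv.symm hv, Or.inl hv, hmem v t hvt hv⟩
        by_cases ht : t ∈ C
        · exact ⟨hmem t u htu ht, hmem t v hvt.symm ht, Or.inl ht⟩
        · exact absurd ⟨hu, hv, ht⟩ hall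
      rw [hk u v huv h3.1 h3.2.1, hk v t hvt h3.2.1 h3.2.2, hk t u htu h3.2.2 h3.1]
      ring
  -- the sum over the two triangles at `x`
  have hsum : ∀ x : ℤ × ℤ, (Z x (x + (1, 0)) - Z (x + (0, 1)) (x + (0, 1) + (1, 0)))
      + (Z (x + (1, 0)) (x + (1, 0) + (0, 1)) - Z x (x + (0, 1)))
      = if x = (0, 0) then 1 else 0 := by
    rintro ⟨a, b⟩
    simp only [Prod.mk_add_mk, add_zero]
    have hU := htri (a, b) (a + 1, b) (a, b + 1) (adj_coord.2 (by simp)) (adj_coord.2 (by simp))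
      (adj_coord.2 (by simp)) (by
        rintro ⟨h, _, _⟩
        rw [w_U, if_neg]
        rintro h'
        rw [h'] at h
        exact h h0)
    have hD := htri (a + 1, b) (a + 1, b + 1) (a, b + 1) (adj_coord.2 (by simp))
      (adj_coord.2 (by simp)) (adj_coord.2 (by simp)) (fun _ => w_D a b)
    rw [w_U] at hU
    rw [w_D] at hD
    rw [← hU]
    have e1 := hZa (a, b + 1) (a + 1, b + 1)
    have e2 := hZa (a, b) (a, b + 1)
    have e3 := hZa (a, b + 1) (a + 1, b)
    linarith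
  -- finite supports
  have hfin : ∀ e : ℤ × ℤ, (Function.support (fun x => Z x (x + e))).Finite := by
    intro e
    refine Set.Finite.subset ((C ∪ C.image (fun x => x - e)).finite_toSet) ?_
    intro x hx
    rw [Function.mem_support] at hx
    rw [mem_coe, mem_union, mem_image]
    by_contra hcon
    push Not at hcon
    apply hx
    rw [hZ]
    simp only
    rw [if_neg]
    rintro (h | h)
    · exact hcon.1 h
    · exact hcon.2 _ h (by simp)
  have hfin' : ∀ e f : ℤ × ℤ, (Function.support (fun x => Z (x + f) (x + f + e))).Finite := by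
    intro e f
    have : (fun x => Z (x + f) (x + f + e)) = (fun x => Z x (x + e)) ∘ (Equiv.addRight f) := by
      funext x
      simp
    rw [this, Function.support_comp_eq_preimage]
    exact (hfin e).preimage (Equiv.injective _).injOn
  have hinv : ∀ e f : ℤ × ℤ, ∑ᶠ x, Z (x + f) (x + f + e) = ∑ᶠ x, Z x (x + e) := by
    intro e f
    exact finsum_comp_equiv (Equiv.addRight f) (f := fun x => Z x (x + e))
  have htot : ∑ᶠ x : ℤ × ℤ, ((Z x (x + (1, 0)) - Z (x + (0, 1)) (x + (0, 1) + (1, 0)))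
      + (Z (x + (1, 0)) (x + (1, 0) + (0, 1)) - Z x (x + (0, 1)))) = 0 := by
    rw [finsum_add_distrib, finsum_sub_distrib (hfin _) (hfin' _ _),
      finsum_sub_distrib (hfin' _ _) (hfin _), hinv, hinv]
    · ring
    · exact ((hfin _).union (hfin' _ _)).subset (Function.support_sub _ _)
    · exact ((hfin' _ _).union (hfin _)).subset (Function.support_sub _ _)
  rw [finsum_congr hsum, finsum_eq_single _ ((0, 0) : ℤ × ℤ) (fun x hx => if_neg hx)] at htot
  simp at htot

/-- no vertex of the boundary is adjacent to both ends of the special edge -/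
theorem no_common (h0 : (0, 0) ∈ C) (htop : ∀ x ∈ C, x.2 < 0 ∨ (x.2 = 0 ∧ x.1 ≤ 0)) {v : ℤ × ℤ}
    (hv : v ∈ bd C) (h1 : T.Adj (0, 1) v) (h2 : T.Adj (1, 0) v) : False := by
  have h3 := bd_row htop hv
  have h4 : v ≠ (0, 0) := by
    rintro rfl
    exact (mem_bd.1 hv).1 h0
  have h4 := ne_coord h4
  rw [adj_coord] at h1 h2
  simp only at h1 h2 h4
  omega

theorem circuit (h0 : (0, 0) ∈ C) (htop : ∀ x ∈ C, x.2 < 0 ∨ (x.2 = 0 ∧ x.1 ≤ 0)) :
    ∃ (m : ℕ) (g : ℕ → ℤ × ℤ), 2 ≤ m ∧ (∀ i, g (i + m) = g i) ∧ (∀ i, T.Adj (g i) (g (i + 1))) ∧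
      (∀ i, g i ∈ bd C) ∧ (∀ i < m, ∀ j < m, g i = g j → i = j) ∧ g 0 = (0, 1) ∧
      g (m - 1) = (1, 0) ∧ (∀ i, g (i + 2) ≠ g i ∧ ¬ T.Adj (g i) (g (i + 2))) ∧
      ∑ i ∈ range m, w (0, 0) (g i) (g (i + 1)) = 1 := by
  obtain ⟨p, hp⟩ := (reach h0 htop).exists_walk_length_eq_dist
  obtain ⟨n, hn⟩ : ∃ n, n = p.length := ⟨_, rfl⟩
  obtain ⟨γ, hγ⟩ : ∃ γ : ℕ → ℤ × ℤ, γ = fun i => p.getVert i := ⟨_, rfl⟩
  have hγ0 : γ 0 = (0, 1) := by rw [hγ]; exact p.getVert_zero
  have hγn : γ n = (1, 0) := by rw [hγ, hn]; exact p.getVert_length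
  have hn1 : 1 ≤ n := by
    rcases Nat.eq_zero_or_pos n with h | h
    · exfalso
      rw [h, hγ0] at hγn
      simp at hγn
    · exact h
  have hadj : ∀ i < n, (HG (bd C)).Adj (γ i) (γ (i + 1)) := by
    intro i hi
    rw [hγ]
    exact p.adj_getVert_succ (hn ▸ hi)
  have hD : ∀ i ≤ n, γ i ∈ bd C := by
    intro i hi
    rcases Nat.lt_or_ge i n with h | h
    · exact (hadj i h).2.1
    · have : i = n := le_antisymm hi h
      rw [this, hγn]
      exact bd_b h0 htop
  have hδ : ∀ i ≤ n, (HG (bd C)).dist (0, 1) (γ i) = i := by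
    intro i hi
    have h1 : (HG (bd C)).dist (0, 1) (γ i) ≤ i := by
      have := SimpleGraph.dist_le (p.take i)
      rw [SimpleGraph.Walk.take_length] at this
      rw [hγ]
      exact this.trans (min_le_left _ _)
    have hr : (HG (bd C)).Reachable (0, 1) (γ i) := by
      rw [hγ]
      exact (p.take i).reachable
    obtain ⟨q, hq⟩ := hr.exists_walk_length_eq_dist
    have h2 : (HG (bd C)).dist (0, 1) (1, 0) ≤ (HG (bd C)).dist (0, 1) (γ i) + (n - i) := by
      have h3 : ∃ r : (HG (bd C)).Walk (γ i) (1, 0), r.length = n - i := by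
        rw [hγ, hn]
        exact ⟨p.drop i, p.drop_length i⟩
      obtain ⟨r, hr⟩ := h3
      have := SimpleGraph.dist_le (q.append r)
      rw [SimpleGraph.Walk.length_append, hq, hr] at this
      exact this
    rw [← hp, ← hn] at h2
    omega
  have hstep : ∀ i ≤ n, ∀ v, (HG (bd C)).Adj (γ i) v → (HG (bd C)).dist (0, 1) v ≤ i + 1 := by
    intro i hi v hv
    have hr : (HG (bd C)).Reachable (0, 1) (γ i) := by
      rw [hγ]
      exact (p.take i).reachable
    obtain ⟨q, hq⟩ := hr.exists_walk_length_eq_dist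
    have := SimpleGraph.dist_le (q.concat hv)
    rw [SimpleGraph.Walk.length_concat, hq, hδ i hi] at this
    exact this
  have hinj : ∀ i ≤ n, ∀ j ≤ n, γ i = γ j → i = j := by
    intro i hi j hj h
    rw [← hδ i hi, ← hδ j hj, h]
  have hn2 : 2 ≤ n := by
    by_contra hcon
    have : n = 1 := by omega
    have h1 := hadj 0 (by omega)
    rw [hγ0, zero_add, ← this, hγn] at h1
    exact h1.2.2.2.1 ⟨rfl, rfl⟩
  have hTab : T.Adj ((1, 0) : ℤ × ℤ) (0, 1) := adj_coord.2 (by simp)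
  obtain ⟨g, hg⟩ : ∃ g : ℕ → ℤ × ℤ, g = fun i => γ (i % (n + 1)) := ⟨_, rfl⟩
  have hgp : ∀ i, g (i + (n + 1)) = g i := by
    intro i
    rw [hg]
    simp
  have hgs : ∀ i ≤ n, g i = γ i := by
    intro i hi
    rw [hg]
    simp only
    rw [Nat.mod_eq_of_lt (by omega)]
  -- reduce statements about all `i` to `i ≤ n`
  have hred : ∀ (P : ℤ × ℤ → ℤ × ℤ → ℤ × ℤ → Prop),
      (∀ i ≤ n, P (g i) (g (i + 1)) (g (i + 2))) → ∀ i, P (g i) (g (i + 1)) (g (i + 2)) := by
    intro P h i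
    have h1 := h (i % (n + 1)) (Nat.lt_succ_iff.1 (Nat.mod_lt _ (by omega)))
    have h2 : ∀ k, g (i % (n + 1) + k) = g (i + k) := by
      intro k
      rw [hg]
      simp [Nat.add_mod]
    have h3 := h2 0
    rw [add_zero, add_zero] at h3
    rw [h2 1, h2 2, h3] at h1
    exact h1
  have hgadj : ∀ i ≤ n, T.Adj (g i) (g (i + 1)) := by
    intro i hi
    rcases Nat.lt_or_ge i n with h | h
    · rw [hgs i hi, hgs (i + 1) h]
      exact (hadj i h).1
    · have : i = n := le_antisymm hi h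
      subst this
      rw [hgs i le_rfl, hγn]
      have h1 := hgp 0
      rw [zero_add, hgs 0 (by omega), hγ0] at h1
      rw [h1]
      exact hTab
  have hgD : ∀ i, g i ∈ bd C := by
    intro i
    rw [hg]
    exact hD _ (Nat.lt_succ_iff.1 (Nat.mod_lt _ (by omega)))
  refine ⟨n + 1, g, by omega, hgp, hred (fun a b _ => T.Adj a b) hgadj, hgD, ?_, ?_, ?_, ?_, ?_⟩
  · intro i hi j hj h
    rw [hgs i (by omega), hgs j (by omega)] at h
    exact hinj i (by omega) j (by omega) h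
  · rw [hgs 0 (by omega), hγ0]
  · rw [Nat.add_sub_cancel, hgs n le_rfl, hγn]
  · refine hred (fun a _ c => c ≠ a ∧ ¬ T.Adj a c) ?_
    intro i hi
    have hg0 : g (n + 1) = (0, 1) := by
      have := hgp 0
      rw [zero_add, hgs 0 (by omega), hγ0] at this
      exact this
    have hg1 : g (n + 2) = γ 1 := by
      have := hgp 1
      rw [show 1 + (n + 1) = n + 2 by ring, hgs 1 hn1] at this
      exact this
    rcases lt_trichotomy (i + 1) n with h | h | h
    · rw [hgs i hi, hgs (i + 2) (by omega)]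
      constructor
      · intro h1
        have := hinj (i + 2) (by omega) i hi h1
        omega
      · intro h1
        by_cases he : (γ i = (0, 1) ∧ γ (i + 2) = (1, 0)) ∨ (γ i = (1, 0) ∧ γ (i + 2) = (0, 1))
        · have h2 : T.Adj (γ i) (γ (i + 1)) := (hadj i (by omega)).1
          have h3 : T.Adj (γ (i + 1)) (γ (i + 2)) := (hadj (i + 1) (by omega)).1
          rcases he with ⟨e1, e2⟩ | ⟨e1, e2⟩
          · rw [e1] at h2
            rw [e2] at h3
            exact no_common h0 htop (hD (i + 1) (by omega)) h2 h3.symm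
          · rw [e1] at h2
            rw [e2] at h3
            exact no_common h0 htop (hD (i + 1) (by omega)) h3.symm h2
        · push Not at he
          have h2 : (HG (bd C)).Adj (γ i) (γ (i + 2)) :=
            ⟨h1, hD i hi, hD (i + 2) (by omega), fun h => he.1 h.1 h.2, fun h => he.2 h.1 h.2⟩
          have h3 := hstep i hi _ h2
          rw [hδ (i + 2) (by omega)] at h3
          omega
    · rw [show i + 2 = n + 1 by omega, hg0, hgs i hi]
      have h2 : T.Adj (γ i) (1, 0) := by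
        have := (hadj i (by omega)).1
        rw [h, hγn] at this
        exact this
      constructor
      · intro h1
        have h3 : γ 0 = γ i := by rw [hγ0, h1]
        have := hinj 0 (by omega) i hi h3
        omega
      · intro h1
        exact no_common h0 htop (hD i hi) h1.symm h2.symm
    · have : i = n := by omega
      subst this
      rw [hg1, hgs i le_rfl, hγn]
      have h2 : T.Adj (0, 1) (γ 1) := by
        have := (hadj 0 (by omega)).1
        rw [hγ0] at this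
        exact this
      constructor
      · intro h1
        rw [← hγn] at h1
        have := hinj 1 hn1 i le_rfl h1
        omega
      · intro h1
        exact no_common h0 htop (hD 1 hn1) h2 h1
  · rw [sum_range_succ, sum_eq_zero]
    · rw [hgs n le_rfl, hγn]
      have hg0 : g (n + 1) = (0, 1) := by
        have := hgp 0
        rw [zero_add, hgs 0 (by omega), hγ0] at this
        exact this
      rw [hg0]
      simp [w]
    · intro i hi
      rw [mem_range] at hi
      rw [hgs i (by omega), hgs (i + 1) (by omega)]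
      exact w_bd htop (hadj i hi)

end exist

/-! ### the circuit goes beyond every vertex of `C` -/

section beyond
variable {g : ℕ → ℤ × ℤ} {m : ℕ}

theorem W_zero_of {c : ℤ × ℤ} (h : ∀ i, w c (g i) (g (i + 1)) = 0) : W g m c = 0 :=
  sum_eq_zero fun i _ => h i

theorem W_ray (hg : g m = g 0) (hadj : ∀ i, T.Adj (g i) (g (i + 1))) {c e : ℤ × ℤ}
    (he : ∀ x : ℤ × ℤ, T.Adj x (x + e)) (h : ∀ k : ℕ, ∀ i, g i ≠ c + k • e) (k : ℕ) :
    W g m (c + k • e) = W g m c := by
  induction k with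
  | zero => simp
  | succ k ih =>
    rw [← ih]
    symm
    refine W_adj hg hadj (h k) (h (k + 1)) ?_
    rw [succ_nsmul, ← add_assoc]
    exact he _

theorem beyond (hg : g m = g 0) (hadj : ∀ i, T.Adj (g i) (g (i + 1))) {B : ℤ}
    (hB : ∀ i, -B ≤ (g i).2 ∧ (g i).2 ≤ B) {c : ℤ × ℤ} (hc : ∀ i, g i ≠ c) (hW : W g m c ≠ 0) :
    ((∃ i, c.1 + 1 ≤ (g i).1) ∧ ∃ i, (g i).1 ≤ c.1 - 1) ∧
    ((∃ i, c.2 + 1 ≤ (g i).2) ∧ ∃ i, (g i).2 ≤ c.2 - 1) ∧
    ((∃ i, c.1 + c.2 + 1 ≤ (g i).1 + (g i).2) ∧ ∃ i, (g i).1 + (g i).2 ≤ c.1 + c.2 - 1) := by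
  refine ⟨⟨?_, ?_⟩, ⟨?_, ?_⟩, ?_, ?_⟩
  · by_contra hcon
    push Not at hcon
    refine hW (W_zero_of fun i => ?_)
    have h1 := hcon i
    have h2 := hcon (i + 1)
    unfold w
    split_ifs <;> omega
  · by_contra hcon
    push Not at hcon
    apply hW
    obtain ⟨k, hk⟩ : ∃ k : ℕ, B ≤ c.2 + k := ⟨(B - c.2).toNat, by
      have := Int.self_le_toNat (B - c.2); linarith⟩
    have h1 : W g m (c + k • ((-1, 1) : ℤ × ℤ)) = W g m c := by
      refine W_ray hg hadj (fun x => adj_coord.2 ?_) ?_ k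
      · exact Or.inr (Or.inr (Or.inl ⟨by simp [sub_eq_add_neg], by simp⟩))
      · intro k i h
        rcases Nat.eq_zero_or_pos k with hk0 | hk0
        · subst hk0
          rw [zero_smul, add_zero] at h
          exact hc i h
        · have h2 := hcon i
          have h4 : c + k • ((-1, 1) : ℤ × ℤ) = (c.1 - k, c.2 + k) := by
            ext <;> simp [sub_eq_add_neg]
          rw [h, h4] at h2
          simp only at h2
          omega
    rw [← h1]
    refine W_zero_of fun i => ?_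
    have h2 := hB i
    have h3 := hB (i + 1)
    have h4 : c + k • ((-1, 1) : ℤ × ℤ) = (c.1 - k, c.2 + k) := by
      ext <;> simp [sub_eq_add_neg]
    rw [h4]
    unfold w
    simp only
    split_ifs <;> omega
  · by_contra hcon
    push Not at hcon
    refine hW (W_zero_of fun i => ?_)
    have h1 := hcon i
    have h2 := hcon (i + 1)
    unfold w
    split_ifs <;> omega
  · by_contra hcon
    push Not at hcon
    apply hW
    have h1 : W g m (c + 1 • ((0, -1) : ℤ × ℤ)) = W g m c := by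
      refine W_ray hg hadj (fun x => adj_coord.2 ?_) ?_ 1
      · simp only [Prod.fst_add, Prod.snd_add]
        omega
      · intro k i h
        rcases Nat.eq_zero_or_pos k with hk0 | hk0
        · subst hk0
          rw [zero_smul, add_zero] at h
          exact hc i h
        · have h2 := hcon i
          rw [h] at h2
          simp at h2
          omega
    rw [← h1]
    refine W_zero_of fun i => ?_
    have h2 := hcon i
    have h3 := hcon (i + 1)
    unfold w
    simp only [Prod.fst_add, Prod.snd_add, one_smul]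
    split_ifs <;> omega
  · by_contra hcon
    push Not at hcon
    refine hW (W_zero_of fun i => ?_)
    have h1 := hcon i
    have h2 := hcon (i + 1)
    unfold w
    split_ifs <;> omega
  · by_contra hcon
    push Not at hcon
    apply hW
    obtain ⟨k, hk⟩ : ∃ k : ℕ, c.2 - k ≤ -B - 1 := ⟨(B + c.2 + 1).toNat, by
      have := Int.self_le_toNat (B + c.2 + 1); linarith⟩
    have h1 : W g m (c + k • ((0, -1) : ℤ × ℤ)) = W g m c := by
      refine W_ray hg hadj (fun x => adj_coord.2 ?_) ?_ k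
      · simp only [Prod.fst_add, Prod.snd_add]
        omega
      · intro k i h
        rcases Nat.eq_zero_or_pos k with hk0 | hk0
        · subst hk0
          rw [zero_smul, add_zero] at h
          exact hc i h
        · have h2 := hcon i
          rw [h] at h2
          simp at h2
          omega
    rw [← h1]
    refine W_zero_of fun i => ?_
    have h2 := hB i
    have h3 := hB (i + 1)
    have h4 : c + k • ((0, -1) : ℤ × ℤ) = (c.1, c.2 - k) := by
      ext <;> simp [sub_eq_add_neg]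
    rw [h4]
    unfold w
    simp only
    split_ifs <;> omega

end beyond

end Topo

open Topo in
theorem topo {C : Finset (ℤ × ℤ)} (hC : Cn T C) (h0 : (0, 0) ∈ C)
    (htop : ∀ x ∈ C, x.2 < 0 ∨ (x.2 = 0 ∧ x.1 ≤ 0)) :
    ∃ (m : ℕ) (ds : ℕ → Fin 6), 2 * dm C + 6 ≤ m ∧
      ((0, 1) + ∑ j ∈ range m, dir (ds j) = ((0, 1) : ℤ × ℤ)) ∧
      (∀ i < m, ∀ j < m, ∑ k ∈ range i, dir (ds k) = ∑ k ∈ range j, dir (ds k) → i = j) ∧
      (∀ i < m, (0, 1) + ∑ j ∈ range i, dir (ds j) ∈ bd C) ∧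
      ds 0 = 3 ∧ ds (m - 1) = 2 ∧
      (∀ i, i + 1 < m → ds (i + 1) = ds i ∨ ds (i + 1) = ds i + 1 ∨ ds (i + 1) = ds i - 1) ∧
      (∀ i < m, (∑ j ∈ range i, dir (ds j)).2 ≤ 0) := by
  obtain ⟨m, g, hm2, hper, hadj, hD, hinj, hg0, hgm, hturn, hW⟩ := circuit h0 htop
  choose ds hds using hadj
  have hadj : ∀ i, T.Adj (g i) (g (i + 1)) := fun i => ⟨ds i, hds i⟩
  have hsum : ∀ i, (0, 1) + ∑ j ∈ range i, dir (ds j) = g i := by
    intro i
    induction i with
    | zero => simp [hg0]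
    | succ i ih => rw [sum_range_succ, ← add_assoc, ih, hds]
  have hgm0 : g m = g 0 := by
    have := hper 0
    rwa [zero_add] at this
  have hdsturn : ∀ i, ds (i + 1) = ds i ∨ ds (i + 1) = ds i + 1 ∨ ds (i + 1) = ds i - 1 := by
    intro i
    obtain ⟨h1, h2⟩ := hturn i
    have h3 : g (i + 2) = g i + (dir (ds i) + dir (ds (i + 1))) := by
      rw [← add_assoc, ← hds i, ← hds (i + 1)]
    rw [h3] at h1 h2
    have h4 : dir (ds i) + dir (ds (i + 1)) ≠ 0 := fun h => h1 (by rw [h, add_zero])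
    have h5 : ∀ k, dir (ds i) + dir (ds (i + 1)) ≠ dir k := fun k h => h2 ⟨k, by rw [h]⟩
    have key : ∀ a b : Fin 6, (dir a + dir b = 0 ∨ ∃ k, dir a + dir b = dir k) ∨
        (b = a ∨ b = a + 1 ∨ b = a - 1) := by decide
    rcases key (ds i) (ds (i + 1)) with (h | ⟨k, h⟩) | h
    · exact absurd h h4
    · exact absurd h (h5 k)
    · exact h
  -- the winding number
  have hne : ∀ c ∈ C, ∀ i, g i ≠ c := by
    intro c hc i h
    exact (mem_bd.1 (hD i)).1 (h ▸ hc)
  have hWC : ∀ c ∈ C, W g m c = 1 := by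
    intro c hc
    refine (hC.2 _ h0 c hc).closed (P := fun x => W g m x = 1) hW ?_
    intro x y hx hxC hyC hxy
    rw [← hx]
    exact (W_adj hgm0 hadj (hne x hxC) (hne y hyC) hxy).symm
  obtain ⟨B, hB⟩ : ∃ B : ℤ, ∀ i, -B ≤ (g i).2 ∧ (g i).2 ≤ B := by
    refine ⟨(((bd C).sup (fun x => x.2.natAbs) : ℕ) : ℤ), fun i => ?_⟩
    have h1 : (g i).2.natAbs ≤ (bd C).sup (fun x => x.2.natAbs) :=
      le_sup (f := fun x : ℤ × ℤ => x.2.natAbs) (hD i)
    omega
  have hbey := fun c hc => beyond hgm0 hadj hB (hne c hc) (by rw [hWC c hc]; exact one_ne_zero)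
  -- the length
  have hlen : 2 * dm C + 6 ≤ m := by
    have key : ∀ ℓ : ℤ × ℤ → ℤ, (∀ a b : ℤ × ℤ, ℓ (a + b) = ℓ a + ℓ b) →
        (∀ a : Fin 6, |ℓ (dir a)| ≤ 1) →
        (∀ a b : Fin 6, (b = a ∨ b = a + 1 ∨ b = a - 1) → 0 ≤ ℓ (dir a) * ℓ (dir b)) →
        (∀ c ∈ C, (∃ i, ℓ c + 1 ≤ ℓ (g i)) ∧ ∃ i, ℓ (g i) ≤ ℓ c - 1) →
        ∀ x ∈ C, ∀ y ∈ C, ∀ R : ℕ, (R : ℤ) ≤ ℓ x - ℓ y → 2 * R + 6 ≤ m := by
      intro ℓ hadd h1 h2 h3 x hx y hy R hR
      obtain ⟨i, hi⟩ := (h3 x hx).1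
      obtain ⟨j, hj⟩ := (h3 y hy).2
      have h4 : ∀ i, ℓ (g (i + 1)) - ℓ (g i) = ℓ (dir (ds i)) := by
        intro i
        rw [hds i, hadd]
        ring
      have := per (f := fun i => ℓ (g i)) (m := m) (by omega) (fun i => by simp only [hper])
        (fun i => by simp only [h4]; exact h1 _)
        (fun i => by
          have := h2 _ _ (hdsturn i)
          rw [h4 i, h4 (i + 1)]
          exact this) (x := i) (y := j) (R := R + 2) (by omega) (by push_cast; linarith)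
      omega
    have hfst := key (fun x => x.1) (fun a b => rfl) (by decide) (by decide)
      (fun c hc => (hbey c hc).1)
    have hsnd := key (fun x => x.2) (fun a b => rfl) (by decide) (by decide)
      (fun c hc => (hbey c hc).2.1)
    have hadd := key (fun x => x.1 + x.2) (fun a b => by simp; ring) (by decide) (by decide)
      (fun c hc => (hbey c hc).2.2)
    have hall : ∀ x ∈ C, ∀ y ∈ C, 2 * hn (x - y) + 6 ≤ m := by
      intro x hx y hy
      have a1 := hfst x hx y hy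
      have a2 := hsnd x hx y hy
      have a3 := hadd x hx y hy
      have b1 := hfst y hy x hx
      have b2 := hsnd y hy x hx
      have b3 := hadd y hy x hx
      have c1 : 2 * (x.1 - y.1).natAbs + 6 ≤ m := by
        rcases le_total y.1 x.1 with h | h
        · exact a1 _ (by omega)
        · exact b1 _ (by omega)
      have c2 : 2 * (x.2 - y.2).natAbs + 6 ≤ m := by
        rcases le_total y.2 x.2 with h | h
        · exact a2 _ (by omega)
        · exact b2 _ (by omega)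
      have c3 : 2 * (x.1 - y.1 + (x.2 - y.2)).natAbs + 6 ≤ m := by
        rcases le_total (y.1 + y.2) (x.1 + x.2) with h | h
        · exact a3 _ (by omega)
        · exact b3 _ (by omega)
      unfold hn
      simp only [Prod.fst_sub, Prod.snd_sub]
      omega
    have hsup : dm C ≤ (m - 6) / 2 := by
      unfold dm
      refine Finset.sup_le fun x hx => Finset.sup_le fun y hy => ?_
      have := hall x hx y hy
      omega
    have h6 : 6 ≤ m := by
      have := hall _ h0 _ h0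
      omega
    omega
  have hds0 : ds 0 = 3 := by
    have h1 : g 1 ∈ bd C := hD 1
    have h2 : g 1 = (0, 1) + dir (ds 0) := by
      have := hds 0
      rwa [hg0] at this
    have h3 := bd_row htop h1
    have h4 : g 1 ≠ (0, 0) := hne _ h0 1
    have h5 : g 1 ≠ (1, 0) := by
      intro h
      rw [← hgm] at h
      have := hinj 1 (by omega) (m - 1) (by omega) h
      omega
    rw [h2] at h3 h4 h5
    have key : ∀ a : Fin 6, ((((0, 1) : ℤ × ℤ) + dir a).2 ≤ 1 ∧
        ((((0, 1) : ℤ × ℤ) + dir a).2 = 1 → (((0, 1) : ℤ × ℤ) + dir a).1 ≤ 0)) →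
        ((0, 1) : ℤ × ℤ) + dir a ≠ (0, 0) → ((0, 1) : ℤ × ℤ) + dir a ≠ (1, 0) → a = 3 := by decide
    exact key _ h3 h4 h5
  have hdsm : ds (m - 1) = 2 := by
    have h1 := hds (m - 1)
    rw [show m - 1 + 1 = m by omega, hgm, hgm0, hg0] at h1
    have key : ∀ a : Fin 6, ((0, 1) : ℤ × ℤ) = (1, 0) + dir a → a = 2 := by decide
    exact key _ h1
  refine ⟨m, ds, hlen, ?_, ?_, ?_, hds0, hdsm, fun i _ => hdsturn i, ?_⟩
  · rw [hsum, hgm0, hg0]
  · intro i hi j hj h
    apply hinj i hi j hj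
    rw [← hsum, ← hsum, h]
  · intro i _
    rw [hsum]
    exact hD i
  · intro i _
    have h1 := (bd_row htop (hD i)).1
    rw [← hsum i] at h1
    simp only [Prod.snd_add] at h1
    linarith

end Pool.Agent.Helper53.OS
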