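import Pool.Agent.Helper53.OS.Summ
import Pool.Agent.Helper53.OS.Topo
/-! MP_195d30_co: `summ` from `summ_of_circ` and `topo`. -/
set_option autoImplicit false
namespace Pool.Agent.Helper53.OS
open Finset
open scoped Classical

theorem summ {q : ℝ} (h0 : 0 ≤ q) (h1 : q ≤ 1) (K : ℕ) (h : Finset (ℤ × ℤ) → ℝ) (g : ℕ → ℝ)
    (hg : ∀ m, 0 ≤ g m) (hh0 : ∀ C, 0 ≤ h C)
    (hh : ∀ C ∈ Tp K, 3 ≤ dm C → ∀ m, 2 * dm C + 6 ≤ m → h C ≤ g m) :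
    ∑ C ∈ (Tp K).filter (fun C => 3 ≤ dm C), wt q C * h C ≤
      q * ∑ m ∈ Finset.Icc 12 (6 * K), hb m * (1 - q) ^ m * g m :=
  summ_of_circ h0 h1 K h g hg hh0 hh (fun C hC => by
    unfold Tp An at hC
    rw [mem_filter, mem_filter] at hC
    exact topo hC.1.2.2.1 hC.1.2.1 hC.2)

end Pool.Agent.Helper53.OS
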