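import Pool.Agent.Helper53.OS.Acc2
import Pool.Agent.Helper53.OS.Num
import Pool.Agent.Helper53.OS.Kap
import Pool.Agent.Helper53.OS.Shift
import Pool.Agent.Helper53.OS.SummFin
import Pool.Agent.Helper53.OS.Small
import Pool.Agent.Helper53.OS.LocB
import Pool.Agent.Helper53.OS.KDual
import Pool.Agent.Helper53.OS.DualB
import Pool.Agent.Helper53.OS.Perm
/-! Assembly for MP_195d30_co: N1, N2, the lower bound. -/
set_option autoImplicit false
namespace Pool.Agent.Helper53.OS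
open Finset
open scoped Classical

theorem dm_term_nonneg (n : ℕ) : 0 ≤ 6 * (n : ℝ) * ((n : ℝ) - 1) := by
  rcases Nat.eq_zero_or_pos n with rfl | h
  · simp
  · have : (1 : ℝ) ≤ n := by exact_mod_cast h
    have h2 : (0 : ℝ) ≤ (n : ℝ) - 1 := by linarith
    positivity

theorem wm_nonneg (m : ℕ) : 0 ≤ wm m := by
  unfold wm
  have := dm_term_nonneg ((m - 6) / 2)
  positivity

theorem h_le_wm {C : Finset (ℤ × ℤ)} {m : ℕ} (h : 2 * dm C + 6 ≤ m) :
    2 * (#C : ℝ) + 6 * dm C * ((dm C : ℝ) - 1) ≤ wm m := by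
  unfold wm
  have h1 : dm C ≤ (m - 6) / 2 := by omega
  have h2 : (#C : ℝ) ≤ ((dm C : ℝ) + 1) ^ 2 := by exact_mod_cast card_le_dm C
  have h3 : (dm C : ℝ) ≤ (((m - 6) / 2 : ℕ) : ℝ) := by exact_mod_cast h1
  have h0 : (0 : ℝ) ≤ dm C := Nat.cast_nonneg _
  obtain ⟨D, hD⟩ : ∃ D : ℝ, D = (dm C : ℝ) := ⟨_, rfl⟩
  obtain ⟨R, hR⟩ : ∃ R : ℝ, R = (((m - 6) / 2 : ℕ) : ℝ) := ⟨_, rfl⟩
  have h4 : (((m - 6) / 2 + 1 : ℕ) : ℝ) = R + 1 := by rw [hR]; push_cast; ring
  rw [h4]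
  rw [← hR] at h3 ⊢
  rw [← hD] at h0 h2 h3 ⊢
  have h5 : 6 * D * (D - 1) ≤ 6 * R * (R - 1) := by
    rcases Nat.eq_zero_or_pos (dm C) with h | h
    · have : D = 0 := by rw [hD, h]; simp
      rw [this, hR]
      have := dm_term_nonneg ((m - 6) / 2)
      linarith
    · have : (1 : ℝ) ≤ D := by rw [hD]; exact_mod_cast h
      nlinarith
  have h6 : (D + 1) ^ 2 ≤ (R + 1) ^ 2 := by nlinarith
  linarith

theorem N1 {p : ℝ} (h0 : 0 < p) (h1 : p ≤ 3 / 14) (K : ℕ) :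
    ∑ C ∈ (An K).filter (fun C => 2 ≤ #C),
      wt (1 - p) C * (2 + 6 * rad C * ((rad C : ℝ) - 1) / #C) ≤ (1 - p) ^ 3 * (1 - (1 - p)) ^ 5 := by
  have hq0 : (0 : ℝ) ≤ 1 - p := by linarith
  have hq1 : 1 - p ≤ 1 := by linarith
  refine (shift_N1 hq0 hq1 K).trans ?_
  have hsplit : ∑ C ∈ (Tp K).filter (fun C => 2 ≤ #C),
      wt (1 - p) C * (2 * #C + 6 * dm C * ((dm C : ℝ) - 1)) ≤
      ∑ C ∈ (Tp K).filter (fun C => 2 ≤ #C ∧ dm C ≤ 2),
        wt (1 - p) C * (2 * #C + 6 * dm C * ((dm C : ℝ) - 1)) +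
      ∑ C ∈ (Tp K).filter (fun C => 3 ≤ dm C),
        wt (1 - p) C * (2 * #C + 6 * dm C * ((dm C : ℝ) - 1)) := by
    have hnn : ∀ C, 0 ≤ wt (1 - p) C * (2 * #C + 6 * dm C * ((dm C : ℝ) - 1)) := by
      intro C
      have := dm_term_nonneg (dm C)
      exact mul_nonneg (wt_nonneg hq0 hq1 C) (by positivity)
    rw [← sum_filter_add_sum_filter_not ((Tp K).filter (fun C => 2 ≤ #C)) (fun C => dm C ≤ 2)]
    refine add_le_add ?_ ?_
    · rw [filter_filter]
    · rw [filter_filter]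
      refine sum_le_sum_of_subset_of_nonneg ?_ (fun C _ _ => hnn C)
      intro C hC
      rw [mem_filter] at hC ⊢
      exact ⟨hC.1, by omega⟩
  refine hsplit.trans ?_
  have hA := small_upper1 hq0 hq1 K
  have hB := summ hq0 hq1 K (fun C => 2 * (#C : ℝ) + 6 * dm C * ((dm C : ℝ) - 1)) wm wm_nonneg
    (fun C => by have := dm_term_nonneg (dm C); positivity) (fun C _ _ m hm => h_le_wm hm)
  have hC := num1 h0 h1 (6 * K)
  have e : (1 : ℝ) - (1 - p) = p := by ring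
  rw [e] at hA hB ⊢
  linarith

theorem kapK_bound {p : ℝ} (h0 : 0 ≤ p) (h1 : p ≤ 1) (K : ℕ) :
    kapK K (1 - p) ≤ ((1 - p) * p ^ 6 + P0 p (1 - p)) +
      (1 - p) * ∑ m ∈ Finset.Icc 12 (6 * K), hb m * p ^ m := by
  have hq0 : (0 : ℝ) ≤ 1 - p := by linarith
  have hq1 : 1 - p ≤ 1 := by linarith
  rw [kapK_eq_Tp]
  rw [← sum_filter_add_sum_filter_not (Tp K) (fun C => dm C ≤ 2)]
  have hA := small_upper0 hq0 hq1 K
  have hB := summ hq0 hq1 K (fun _ => 1) (fun _ => 1) (fun _ => zero_le_one)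
    (fun _ => zero_le_one) (fun C _ _ m hm => le_rfl)
  have e : (1 : ℝ) - (1 - p) = p := by ring
  rw [e] at hA hB
  simp only [mul_one] at hB
  refine add_le_add hA ?_
  refine le_trans (le_of_eq ?_) hB
  refine sum_congr ?_ (fun _ _ => rfl)
  ext C
  simp only [mem_filter, not_le]
  exact ⟨fun h => ⟨h.1, by omega⟩, fun h => ⟨h.1, by omega⟩⟩

theorem kap_le_of_kapK {q c : ℝ} (h0 : 0 ≤ q) (h1 : q ≤ 1) (h : ∀ K, kapK K q ≤ c) : kap q ≤ c := by
  by_contra hc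
  push Not at hc
  obtain ⟨K, hK⟩ := exists_nat_one_div_lt (sub_pos.2 hc)
  have h2 := kap_le h0 h1 K
  have h3 := h K
  linarith

theorem kap_small {p : ℝ} (h0 : 0 ≤ p) (h1 : p ≤ 3 / 14) : kap p ≤ 9633 / 100000 := by
  have hp1 : p ≤ 1 := by linarith
  rw [kap_dual h0 hp1]
  have := kap_le_of_kapK (q := 1 - p) (c := 9633 / 100000 - ff p) (by linarith) (by linarith)
    (fun K => by
      have h2 := kapK_bound h0 hp1 K
      have h3 := num2' h0 h1 (6 * K)
      linarith)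
  linarith

theorem kap_mid {p : ℝ} (h0 : 3 / 14 ≤ p) (h1 : p ≤ 1 / 2) : kap p ≤ 96305 / 1000000 := by
  have hp0 : 0 ≤ p := by linarith
  have hp1 : p ≤ 1 := by linarith
  rw [kap_dual hp0 hp1]
  have := kap_le_of_kapK (q := 1 - p) (c := 96305 / 1000000 - ff p) (by linarith) (by linarith)
    (fun K => by
      rcases le_total p (57 / 200) with h | h
      · have h2 := kapK_bound hp0 hp1 K
        have h3 := num2 h0 h (6 * K)
        linarith
      · have h2 := kapK_le_local (q := 1 - p) (by linarith) (by linarith) K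
        have h3 := num3 h h1
        have e : (1 : ℝ) - (1 - p) = p := by ring
        rw [e] at h2
        linarith)
  linarith

theorem kap_large {p : ℝ} (h0 : 1 / 2 ≤ p) (h1 : p ≤ 1) : kap p ≤ kap (1 - p) := by
  rw [kap_dual (by linarith) h1]
  have : ff p ≤ 0 := by
    unfold ff
    have h2 : 0 ≤ p * (1 - p) := mul_nonneg (by linarith) (by linarith)
    nlinarith
  linarith

theorem kap_p0 : 96305 / 1000000 ≤ kap (53 / 250) := by
  rw [kap_dual (by norm_num) (by norm_num)]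
  have h1 := kapK_le_kap (p := 1 - 53 / 250) (by norm_num) (by norm_num) 3
  rw [kapK_eq_Tp] at h1
  have h2 := small_lower (q := 1 - 53 / 250) (by norm_num) (by norm_num) (le_refl 3)
  have h3 := num4
  norm_num at h1 h2 h3 ⊢
  linarith

theorem bddAbove_kap : BddAbove (Set.range (fun p : Set.Icc (0 : ℝ) 1 => kap p.1)) :=
  ⟨1, by rintro _ ⟨p, rfl⟩; exact kap_le_one p.2.1 p.2.2⟩

theorem kap_le_XX {p : ℝ} (h0 : 0 ≤ p) (h1 : p ≤ 1) : kap p ≤ XX :=
  le_ciSup bddAbove_kap (⟨p, h0, h1⟩ : Set.Icc (0 : ℝ) 1)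

theorem XX_bounds : 96305 / 1000000 ≤ XX ∧ XX ≤ 9633 / 100000 := by
  constructor
  · exact kap_p0.trans (kap_le_XX (by norm_num) (by norm_num))
  · haveI : Nonempty (Set.Icc (0 : ℝ) 1) := ⟨⟨0, by simp⟩⟩
    refine ciSup_le ?_
    rintro ⟨p, h0, h1⟩
    have key : ∀ p : ℝ, 0 ≤ p → p ≤ 1 / 2 → kap p ≤ 9633 / 100000 := by
      intro p h0 h1
      rcases le_total p (3 / 14) with h | h
      · exact kap_small h0 h
      · exact (kap_mid h h1).trans (by norm_num)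
    rcases le_total p (1 / 2) with h | h
    · exact key p h0 h
    · exact (kap_large h h1).trans (key _ (by linarith) (by linarith))

theorem kap_zero : kap 0 = 0 := by
  unfold kap
  have : ∀ C : {C : Finset (ℤ × ℤ) // (0, 0) ∈ C ∧ Cn T C}, wt 0 C.1 / (#C.1 : ℝ) = 0 := by
    intro C
    have h : #C.1 ≠ 0 := card_ne_zero.2 ⟨_, C.2.1⟩
    unfold wt
    rw [zero_pow h]
    simp
  rw [tsum_congr this, tsum_zero]

/-- near-optimal density in `(0, 3/14]` -/
theorem exists_density {ε : ℝ} (hε : 0 < ε) : ∃ p : ℝ, 0 < p ∧ p ≤ 3 / 14 ∧ XX - ε ≤ kap p := by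
  haveI : Nonempty (Set.Icc (0 : ℝ) 1) := ⟨⟨0, by simp⟩⟩
  obtain ⟨⟨p, h0, h1⟩, hp⟩ := exists_lt_of_lt_ciSup (f := fun p : Set.Icc (0 : ℝ) 1 => kap p.1)
    (show XX - ε < ⨆ p : Set.Icc (0 : ℝ) 1, kap p.1 by unfold XX; linarith)
  simp only [] at hp
  have key : ∀ p : ℝ, 0 ≤ p → p ≤ 1 / 2 → XX - ε < kap p →
      ∃ p : ℝ, 0 < p ∧ p ≤ 3 / 14 ∧ XX - ε ≤ kap p := by
    intro p h0 h1 hp
    rcases le_total p (3 / 14) with h | h
    · rcases eq_or_lt_of_le h0 with h' | h'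
      · refine ⟨53 / 250, by norm_num, by norm_num, ?_⟩
        rw [← h', kap_zero] at hp
        have := kap_p0
        linarith
      · exact ⟨p, h', h, hp.le⟩
    · refine ⟨53 / 250, by norm_num, by norm_num, ?_⟩
      have := kap_p0
      have := kap_mid h h1
      linarith
  rcases le_total p (1 / 2) with h | h
  · exact key p h0 h hp
  · exact key (1 - p) (by linarith) (by linarith) (hp.trans_le (kap_large h h1))

theorem lower {ε : ℝ} (hε : 0 < ε) : ∃ N : ℕ, ∀ (V : Type) (_ : Fintype V) (_ : DecidableEq V)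
    (G : SimpleGraph V), IsTri G → N ≤ Fintype.card V →
    ∃ 𝒜 : (Fin (Fintype.card V) ≃ V) → ℕ, IsStop 𝒜 ∧
      (XX - ε) * Fintype.card V ≤ score G 𝒜 := by
  obtain ⟨p, hp0, hp1, hp⟩ := exists_density (show 0 < ε / 3 by linarith)
  obtain ⟨K, hK⟩ := exists_nat_one_div_lt (show 0 < ε / 3 by linarith)
  obtain ⟨N, hN⟩ := exists_nat_gt (30 / ε)
  refine ⟨N, ?_⟩
  intro V _ _ G hG hcard
  have hle1 : p ≤ 1 := by linarith
  haveI : Nonempty V := Fintype.card_pos_iff.1 (by have := hG.three_le; omega)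
  obtain ⟨𝒜, h𝒜, hs⟩ := exists_stop G hp0.le hle1
  refine ⟨𝒜, h𝒜, le_trans ?_ hs⟩
  have hd := (abs_le.1 (dual G hG hp0.le hle1)).1
  have hac := acc2 G hG (K := K + 1) (by omega) (q := 1 - p) (by linarith) (by linarith)
    (N1 hp0 hp1 (K + 1))
  have hk := kap_le (p := 1 - p) (by linarith) (by linarith) (K + 1)
  have hk2 : (1 : ℝ) / (((K + 1 : ℕ) : ℝ) + 1) ≤ ε / 3 := by
    refine le_trans ?_ hK.le
    push_cast
    apply one_div_le_one_div_of_le
    · positivity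
    · linarith
  have hkd := kap_dual hp0.le hle1
  have hn : (30 : ℝ) / ε ≤ Fintype.card V := by
    have : (N : ℝ) ≤ Fintype.card V := by exact_mod_cast hcard
    linarith
  have hn2 : 30 ≤ ε * Fintype.card V := by
    rw [div_le_iff₀ hε] at hn
    linarith
  have hn0 : (0 : ℝ) ≤ Fintype.card V := Nat.cast_nonneg _
  have h5 : (XX - 2 * ε / 3) ≤ ff p + kapK (K + 1) (1 - p) := by linarith
  have h6 := mul_le_mul_of_nonneg_left h5 hn0
  nlinarith

end Pool.Agent.Helper53.OS
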