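import Pool.Agent.Helper53.OS.Base

/-! MP_195d30_co, piece SUMM: the union bound over circuits.

The theorem `summ` follows from `summ_of_circ` and `topo` (file Topo.lean):
```
theorem summ {q : ℝ} (h0 : 0 ≤ q) (h1 : q ≤ 1) (K : ℕ) (h : Finset (ℤ × ℤ) → ℝ) (g : ℕ → ℝ)
    (hg : ∀ m, 0 ≤ g m) (hh0 : ∀ C, 0 ≤ h C)
    (hh : ∀ C ∈ Tp K, 3 ≤ dm C → ∀ m, 2 * dm C + 6 ≤ m → h C ≤ g m) :
    ∑ C ∈ (Tp K).filter (fun C => 3 ≤ dm C), wt q C * h C ≤
      q * ∑ m ∈ Finset.Icc 12 (6 * K), hb m * (1 - q) ^ m * g m :=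
  summ_of_circ h0 h1 K h g hg hh0 hh (fun C hC => by
    unfold Tp An at hC
    rw [mem_filter, mem_filter] at hC
    exact topo hC.1.2.2.1 hC.1.2.1 hC.2)
``` -/

set_option autoImplicit false

namespace Pool.Agent.Helper53.OS

open Finset
open scoped Classical

/-- the list version of `cw`: direction sequences of the walks counted by `cw` -/
noncomputable def cwL : ℕ → ℤ × ℤ → Fin 6 → Finset (List (Fin 6))
  | 0, x, d => if x = (0, 0) ∧ d = 2 then {[]} else ∅
  | n + 1, x, d =>
    (if (x + dir (d - 1)).2 ≤ 0 then (cwL n (x + dir (d - 1)) (d - 1)).image (List.cons (d - 1))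
      else ∅) ∪
    (if (x + dir d).2 ≤ 0 then (cwL n (x + dir d) d).image (List.cons d) else ∅) ∪
    (if (x + dir (d + 1)).2 ≤ 0 then (cwL n (x + dir (d + 1)) (d + 1)).image (List.cons (d + 1))
      else ∅)

theorem card_cwL_le (n : ℕ) : ∀ (x : ℤ × ℤ) (d : Fin 6), #(cwL n x d) ≤ cw n x d := by
  induction n with
  | zero =>
    intro x d
    unfold cwL cw
    split_ifs <;> simp
  | succ n ih =>
    intro x d
    unfold cwL cw
    refine (card_union_le _ _).trans (add_le_add ((card_union_le _ _).trans (add_le_add ?_ ?_)) ?_)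
    · split_ifs
      · exact card_image_le.trans (ih _ _)
      · simp
    · split_ifs
      · exact card_image_le.trans (ih _ _)
      · simp
    · split_ifs
      · exact card_image_le.trans (ih _ _)
      · simp

theorem mem_cwL (n : ℕ) : ∀ (x : ℤ × ℤ) (ds : ℕ → Fin 6),
    x + ∑ j ∈ range n, dir (ds (j + 1)) = (0, 0) → ds n = 2 →
    (∀ i < n, ds (i + 1) = ds i ∨ ds (i + 1) = ds i + 1 ∨ ds (i + 1) = ds i - 1) →
    (∀ i < n, (x + ∑ j ∈ range (i + 1), dir (ds (j + 1))).2 ≤ 0) →
    (List.range n).map (fun i => ds (i + 1)) ∈ cwL n x (ds 0) := by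
  induction n with
  | zero =>
    intro x ds hx hd _ _
    have : x = (0, 0) := by simpa using hx
    unfold cwL
    rw [if_pos ⟨this, hd⟩]
    simp
  | succ n ih =>
    intro x ds hx hd ht hp
    have hlist : (List.range (n + 1)).map (fun i => ds (i + 1)) =
        ds 1 :: (List.range n).map (fun i => ds (i + 1 + 1)) := by
      rw [List.range_succ_eq_map]
      simp [List.map_map, Function.comp_def]
    have key := ih (x + dir (ds 1)) (fun i => ds (i + 1)) (by
      rw [← hx, sum_range_succ' _ n]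
      simp only [zero_add]
      rw [add_assoc, add_comm (dir (ds 1))]) hd (fun i hi => ht (i + 1) (by omega)) (by
      intro i hi
      have := hp (i + 1) (by omega)
      rw [sum_range_succ' _ (i + 1)] at this
      simp only [zero_add] at this
      rw [add_assoc, add_comm (dir (ds 1))]
      exact this)
    have h1 : (x + dir (ds 1)).2 ≤ 0 := by
      have := hp 0 (by omega)
      simpa using this
    simp only [zero_add] at key
    rw [hlist]
    unfold cwL
    rw [mem_union, mem_union]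
    rcases ht 0 (by omega) with h | h | h
    · simp only [zero_add] at h
      left; right
      rw [← h, if_pos h1]
      exact mem_image_of_mem _ key
    · simp only [zero_add] at h
      right
      rw [← h, if_pos h1]
      exact mem_image_of_mem _ key
    · simp only [zero_add] at h
      left; left
      rw [← h, if_pos h1]
      exact mem_image_of_mem _ key

theorem card_nb_le (x : ℤ × ℤ) : #(nb x) ≤ 6 := by
  unfold nb
  exact card_image_le.trans (by simp)

theorem card_bd_le (C : Finset (ℤ × ℤ)) : #(bd C) ≤ 6 * #C := by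
  unfold bd
  refine (card_le_card sdiff_subset).trans ?_
  refine card_biUnion_le.trans ?_
  refine (sum_le_sum fun x _ => card_nb_le x).trans ?_
  rw [sum_const, smul_eq_mul, mul_comm]

/-- circuits around `C` (the conclusion of `topo`) -/
def Circ (C : Finset (ℤ × ℤ)) (m : ℕ) (ds : ℕ → Fin 6) : Prop :=
  2 * dm C + 6 ≤ m ∧
      ((0, 1) + ∑ j ∈ range m, dir (ds j) = ((0, 1) : ℤ × ℤ)) ∧
      (∀ i < m, ∀ j < m, ∑ k ∈ range i, dir (ds k) = ∑ k ∈ range j, dir (ds k) → i = j) ∧
      (∀ i < m, (0, 1) + ∑ j ∈ range i, dir (ds j) ∈ bd C) ∧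
      ds 0 = 3 ∧ ds (m - 1) = 2 ∧
      (∀ i, i + 1 < m → ds (i + 1) = ds i ∨ ds (i + 1) = ds i + 1 ∨ ds (i + 1) = ds i - 1) ∧
      (∀ i < m, (∑ j ∈ range i, dir (ds j)).2 ≤ 0)

/-- the vertex set of a circuit -/
noncomputable def cv (m : ℕ) (ds : ℕ → Fin 6) : Finset (ℤ × ℤ) :=
  (range m).image (fun i => (0, 1) + ∑ j ∈ range i, dir (ds j))

theorem card_cv {C : Finset (ℤ × ℤ)} {m : ℕ} {ds : ℕ → Fin 6} (h : Circ C m ds) :
    #(cv m ds) = m := by
  unfold cv
  rw [card_image_of_injOn, card_range]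
  intro i hi j hj hij
  simp only at hij
  rw [Finset.mem_coe, mem_range] at hi hj
  exact h.2.2.1 i hi j hj (add_left_cancel hij)

theorem cv_subset {C : Finset (ℤ × ℤ)} {m : ℕ} {ds : ℕ → Fin 6} (h : Circ C m ds) :
    cv m ds ⊆ bd C := by
  unfold cv
  intro x hx
  rw [mem_image] at hx
  obtain ⟨i, hi, rfl⟩ := hx
  exact h.2.2.2.1 i (mem_range.1 hi)

theorem cv_congr {m : ℕ} {ds ds' : ℕ → Fin 6} (h : ∀ i < m, ds i = ds' i) :
    cv m ds = cv m ds' := by
  unfold cv
  refine image_congr ?_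
  intro i hi
  rw [Finset.mem_coe, mem_range] at hi
  simp only
  congr 1
  refine sum_congr rfl fun j hj => ?_
  rw [h j (by rw [mem_range] at hj; omega)]

theorem Circ.mem_cwL {C : Finset (ℤ × ℤ)} {m : ℕ} {ds : ℕ → Fin 6} (h : Circ C m ds) :
    (List.range (m - 1)).map (fun i => ds (i + 1)) ∈ cwL (m - 1) (-1, 0) 3 := by
  obtain ⟨h1, h2, h3, h4, h5, h6, h7, h8⟩ := h
  have hm : m - 1 + 1 = m := by omega
  have hsum : ∀ i, ((-1, 0) : ℤ × ℤ) + ∑ j ∈ range i, dir (ds (j + 1)) =
      ∑ j ∈ range (i + 1), dir (ds j) := by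
    intro i
    rw [sum_range_succ' _ i, h5, add_comm]
    rfl
  have htot : ∑ j ∈ range m, dir (ds j) = (0, 0) := by
    have : ((0, 1) : ℤ × ℤ) + ∑ j ∈ range m, dir (ds j) = (0, 1) + (0, 0) := by
      rw [h2]; rfl
    exact add_left_cancel this
  have := Pool.Agent.Helper53.OS.mem_cwL (m - 1) (-1, 0) ds (by rw [hsum, hm, htot]) h6
    (fun i hi => h7 i (by omega)) (by
      intro i hi
      rw [hsum]
      rcases Nat.lt_or_ge (i + 1 + 1) m with h | h
      · exact h8 _ h
      · have : i + 1 + 1 = m := by omega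
        rw [this, htot])
  rwa [h5] at this

theorem summ_dir3 : dir 3 = (-1, 0) := rfl

theorem summ_of_circ {q : ℝ} (h0 : 0 ≤ q) (h1 : q ≤ 1) (K : ℕ) (h : Finset (ℤ × ℤ) → ℝ) (g : ℕ → ℝ)
    (hg : ∀ m, 0 ≤ g m) (_hh0 : ∀ C, 0 ≤ h C)
    (hh : ∀ C ∈ Tp K, 3 ≤ dm C → ∀ m, 2 * dm C + 6 ≤ m → h C ≤ g m)
    (topo : ∀ C ∈ Tp K, ∃ m ds, Circ C m ds) :
    ∑ C ∈ (Tp K).filter (fun C => 3 ≤ dm C), wt q C * h C ≤
      q * ∑ m ∈ Finset.Icc 12 (6 * K), hb m * (1 - q) ^ m * g m := by
  classical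
  have topo' : ∀ C : Finset (ℤ × ℤ), ∃ m ds, C ∈ Tp K → Circ C m ds := by
    intro C
    by_cases hC : C ∈ Tp K
    · obtain ⟨m, ds, h⟩ := topo C hC
      exact ⟨m, ds, fun _ => h⟩
    · exact ⟨0, fun _ => 0, fun h => absurd h hC⟩
  choose mC dC hC using topo'
  obtain ⟨F, hF⟩ : ∃ F, F = (Tp K).filter (fun C => 3 ≤ dm C) := ⟨_, rfl⟩
  rw [← hF]
  have hFC : ∀ C ∈ F, C ∈ Tp K ∧ 3 ≤ dm C := by
    intro C h; rw [hF, mem_filter] at h; exact h
  have hTp : ∀ C ∈ Tp K, (0, 0) ∈ C ∧ Cn T C ∧ #C ≤ K := by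
    intro C h
    unfold Tp An at h
    rw [mem_filter, mem_filter] at h
    exact h.1.2
  let f : Finset (ℤ × ℤ) → (Σ _ : ℕ, List (Fin 6)) :=
    fun C => ⟨mC C, (List.range (mC C - 1)).map (fun i => dC C (i + 1))⟩
  let t : Finset (Σ _ : ℕ, List (Fin 6)) :=
    (Finset.Icc 12 (6 * K)).sigma (fun m => cwL (m - 1) (-1, 0) 3)
  have hmaps : ∀ C ∈ F, f C ∈ t := by
    intro C hCF
    have hc := hC C (hFC C hCF).1
    have h3 := (hFC C hCF).2
    rw [mem_sigma, mem_Icc]
    refine ⟨⟨?_, ?_⟩, hc.mem_cwL⟩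
    · have := hc.1
      change 12 ≤ mC C
      omega
    · change mC C ≤ 6 * K
      rw [← card_cv hc]
      refine (card_le_card (cv_subset hc)).trans ((card_bd_le C).trans ?_)
      exact Nat.mul_le_mul_left 6 (hTp C (hFC C hCF).1).2.2
  rw [← sum_fiberwise_of_maps_to hmaps, sum_sigma, mul_sum]
  refine sum_le_sum fun m _ => ?_
  have hp : 0 ≤ 1 - q := by linarith
  have hfib : ∀ l ∈ cwL (m - 1) (-1, 0) 3,
      ∑ C ∈ F.filter (fun C => f C = ⟨m, l⟩), wt q C * h C ≤ q * (1 - q) ^ m * g m := by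
    intro l _
    rcases (F.filter (fun C => f C = ⟨m, l⟩)).eq_empty_or_nonempty with he | ⟨C₀, hC₀⟩
    · rw [he, sum_empty]
      exact mul_nonneg (mul_nonneg h0 (pow_nonneg hp _)) (hg m)
    · have hfil : ∀ C ∈ F.filter (fun C => f C = ⟨m, l⟩), C ∈ F ∧ mC C = m ∧
          (List.range (m - 1)).map (fun i => dC C (i + 1)) = l := by
        intro C hCf
        rw [mem_filter] at hCf
        obtain ⟨ha, hb⟩ := hCf
        have hb1 : mC C = m := congrArg Sigma.fst hb
        refine ⟨ha, hb1, ?_⟩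
        have hb2 : (List.range (mC C - 1)).map (fun i => dC C (i + 1)) = l := by
          have := hb
          simp only [f] at this
          exact eq_of_heq (Sigma.mk.inj this).2
        rw [hb1] at hb2
        exact hb2
      obtain ⟨h0F, h0m, h0l⟩ := hfil C₀ hC₀
      have hc0 : Circ C₀ m (dC C₀) := by
        have := hC C₀ (hFC C₀ h0F).1
        rwa [h0m] at this
      have hsame : ∀ C ∈ F.filter (fun C => f C = ⟨m, l⟩), Circ C m (dC C) ∧
          cv m (dC C) = cv m (dC C₀) := by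
        intro C hCf
        obtain ⟨hCF, hCm, hCl⟩ := hfil C hCf
        have hc : Circ C m (dC C) := by
          have := hC C (hFC C hCF).1
          rwa [hCm] at this
        refine ⟨hc, cv_congr ?_⟩
        intro i hi
        rcases Nat.eq_zero_or_pos i with rfl | hi0
        · rw [hc.2.2.2.2.1, hc0.2.2.2.2.1]
        · have hl : (List.range (m - 1)).map (fun i => dC C (i + 1)) =
            (List.range (m - 1)).map (fun i => dC C₀ (i + 1)) := by rw [hCl, h0l]
          rw [List.map_inj_left] at hl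
          have := hl (i - 1) (List.mem_range.2 (by omega))
          rwa [Nat.sub_add_cancel hi0] at this
      calc ∑ C ∈ F.filter (fun C => f C = ⟨m, l⟩), wt q C * h C
          ≤ ∑ C ∈ F.filter (fun C => f C = ⟨m, l⟩), wt q C * g m := by
            refine sum_le_sum fun C hCf => ?_
            refine mul_le_mul_of_nonneg_left ?_ (wt_nonneg h0 h1 C)
            have hCF := (hfil C hCf).1
            exact hh C (hFC C hCF).1 (hFC C hCF).2 m (hsame C hCf).1.1
        _ = (∑ C ∈ F.filter (fun C => f C = ⟨m, l⟩), wt q C) * g m := by rw [sum_mul]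
        _ ≤ q * (1 - q) ^ m * g m := by
            refine mul_le_mul_of_nonneg_right ?_ (hg m)
            have := sum_wt_le h0 h1 (v := (0, 0)) (F.filter (fun C => f C = ⟨m, l⟩))
              (cv m (dC C₀)) (fun C hCf => by
                have hCF := (hfil C hCf).1
                have h2 := hTp C (hFC C hCF).1
                refine ⟨h2.1, h2.2.1, ?_⟩
                rw [← (hsame C hCf).2]
                exact cv_subset (hsame C hCf).1)
            rwa [card_cv hc0] at this
  refine (sum_le_sum hfib).trans ?_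
  rw [sum_const, nsmul_eq_mul]
  have hcard : (#(cwL (m - 1) (-1, 0) 3) : ℝ) ≤ hb m := by
    unfold hb
    exact_mod_cast card_cwL_le (m - 1) (-1, 0) 3
  calc (#(cwL (m - 1) (-1, 0) 3) : ℝ) * (q * (1 - q) ^ m * g m)
      ≤ hb m * (q * (1 - q) ^ m * g m) :=
        mul_le_mul_of_nonneg_right hcard (mul_nonneg (mul_nonneg h0 (pow_nonneg hp _)) (hg m))
    _ = q * (hb m * (1 - q) ^ m * g m) := by ring

end Pool.Agent.Helper53.OS
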